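import Pool.Agent.Lib.MP_68391b_lc.Gen.GAcVec

/-! Anticoncentration for all derivatives at once. -/

set_option linter.unusedSectionVars false

namespace Pool.Agent.KWG

open MeasureTheory ProbabilityTheory MvPolynomial Pool.Agent.KWI

variable {ι : Type} [Fintype ι] [DecidableEq ι]

theorem ac_hs {d : ℕ} (hd : 1 ≤ d) (p : MvPolynomial ι ℝ) (hp : p.totalDegree ≤ d) (i : ℕ)
    {η : ℝ} (hη : 0 < η) :
    (gam ι).real {x | eval x (HS i p) < η ^ 2 * eval x (HS (i + 1) p)} ≤ 69120 * d * η := by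
  obtain ⟨κ, h1, h2, q, hdeg, e0, e1⟩ := hs_family i p
  have h := ac_vec hd q (fun l => (hdeg l).trans hp) hη
  have e : {x | eval x (HS i p) < η ^ 2 * eval x (HS (i + 1) p)} =
      {x | ∑ l, (eval x (q l)) ^ 2 < η ^ 2 * ∑ l, ∑ j, (eval x (pderiv j (q l))) ^ 2} := by
    ext x
    simp only [Set.mem_setOf_eq, e0, e1, map_sum, map_pow]
  rw [e]
  exact h

/-- The event that the derivative of order `j + 1` is much bigger than the one of order `j`. -/
def chainB (lam : ℝ) (p : MvPolynomial ι ℝ) (j u : ℕ) : Set (ι → ℝ) :=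
  {x | eval x (HS j p) * (lam ^ 2 * 4 ^ u) < eval x (HS (j + 1) p)}

theorem chain_B_meas (lam : ℝ) (p : MvPolynomial ι ℝ) (j u : ℕ) :
    MeasurableSet (chainB lam p j u) :=
  measurableSet_lt ((eval_measurable _).mul_const _) (eval_measurable _)

theorem chain_B_le {d : ℕ} (hd : 1 ≤ d) (p : MvPolynomial ι ℝ) (hp : p.totalDegree ≤ d)
    {lam : ℝ} (hl : 0 < lam) (j u : ℕ) :
    (gam ι).real (chainB lam p j u) ≤ 69120 * d / lam * (1 / 2) ^ u := by
  have hη : 0 < 1 / (lam * 2 ^ u) := by positivity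
  have h := ac_hs hd p hp j hη
  have e : chainB lam p j u =
      {x | eval x (HS j p) < (1 / (lam * 2 ^ u)) ^ 2 * eval x (HS (j + 1) p)} := by
    ext x
    simp only [chainB, Set.mem_setOf_eq]
    have h4 : (1 / (lam * 2 ^ u)) ^ 2 = 1 / (lam ^ 2 * 4 ^ u) := by
      rw [div_pow, one_pow, mul_pow, ← pow_mul, mul_comm u 2, pow_mul]
      norm_num
    rw [h4, one_div_mul_eq_div, lt_div_iff₀ (by positivity)]
  rw [e]
  refine h.trans (le_of_eq ?_)
  rw [one_div_pow]
  field_simp

open Classical in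
/-- Number of `u < U` for which the bad event happens. -/
noncomputable def chainY (lam : ℝ) (p : MvPolynomial ι ℝ) (U j : ℕ) (x : ι → ℝ) : ℕ :=
  ((Finset.range U).filter (fun u => x ∈ chainB lam p j u)).card

theorem chain_Y_cast (lam : ℝ) (p : MvPolynomial ι ℝ) (U j : ℕ) (x : ι → ℝ) :
    (chainY lam p U j x : ℝ) =
      ∑ u ∈ Finset.range U, (chainB lam p j u).indicator (fun _ => (1 : ℝ)) x := by
  classical
  unfold chainY
  rw [Finset.natCast_card_filter]
  exact Finset.sum_congr rfl (fun u _ => by rw [Set.indicator_apply])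

theorem chain_B_anti {lam : ℝ} {p : MvPolynomial ι ℝ} {j u u' : ℕ} (h : u ≤ u') {x : ι → ℝ}
    (hx : x ∈ chainB lam p j u') : x ∈ chainB lam p j u := by
  have h1 : eval x (HS j p) * (lam ^ 2 * 4 ^ u) ≤ eval x (HS j p) * (lam ^ 2 * 4 ^ u') := by
    apply mul_le_mul_of_nonneg_left _ (hs_nonneg _ _ _)
    apply mul_le_mul_of_nonneg_left _ (sq_nonneg _)
    exact pow_le_pow_right₀ (by norm_num) h
  exact lt_of_le_of_lt h1 hx

theorem chain_Y_not {lam : ℝ} {p : MvPolynomial ι ℝ} {U j : ℕ} {x : ι → ℝ}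
    (h : chainY lam p U j x < U) : x ∉ chainB lam p j (chainY lam p U j x) := by
  classical
  intro hx
  have h1 : Finset.range (chainY lam p U j x + 1) ⊆
      (Finset.range U).filter (fun u => x ∈ chainB lam p j u) := by
    intro u hu
    rw [Finset.mem_range] at hu
    rw [Finset.mem_filter, Finset.mem_range]
    exact ⟨by omega, chain_B_anti (by omega) hx⟩
  have h2 := Finset.card_le_card h1
  rw [Finset.card_range] at h2
  have h3 : ((Finset.range U).filter (fun u => x ∈ chainB lam p j u)).card =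
      chainY lam p U j x := by
    unfold chainY
    congr
  omega

theorem chain_step {lam : ℝ} {p : MvPolynomial ι ℝ} {U M : ℕ} {x : ι → ℝ} (hMU : M ≤ U)
    (h : ∑ j ∈ Finset.range M, chainY lam p U j x < M) (i : ℕ) (hi : i ≤ M) :
    eval x (HS i p) ≤ lam ^ (2 * i) * 4 ^ (∑ j ∈ Finset.range i, chainY lam p U j x) *
      eval x (HS 0 p) := by
  induction i with
  | zero => simp
  | succ i ih =>
      have h1 := ih (by omega)
      have h2 : chainY lam p U i x ≤ ∑ j ∈ Finset.range M, chainY lam p U j x :=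
        Finset.single_le_sum (f := fun j => chainY lam p U j x) (fun _ _ => Nat.zero_le _)
          (Finset.mem_range.2 (by omega))
      have h3 := chain_Y_not (lam := lam) (p := p) (U := U) (j := i) (x := x) (by omega)
      have h4 : eval x (HS (i + 1) p) ≤
          eval x (HS i p) * (lam ^ 2 * 4 ^ (chainY lam p U i x)) := not_lt.1 h3
      refine h4.trans ?_
      have h5 : 0 ≤ lam ^ 2 * 4 ^ (chainY lam p U i x) := by positivity
      refine (mul_le_mul_of_nonneg_right h1 h5).trans (le_of_eq ?_)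
      rw [Finset.sum_range_succ, pow_add, mul_add, pow_add]
      ring

theorem chain_markov {d : ℕ} (hd : 1 ≤ d) (p : MvPolynomial ι ℝ) (hp : p.totalDegree ≤ d)
    {lam : ℝ} (hl : 0 < lam) (U M : ℕ) (hM : 0 < M) :
    (gam ι).real {x | (M : ℝ) ≤ ∑ j ∈ Finset.range M, (chainY lam p U j x : ℝ)} ≤
      2 * (69120 * d / lam) := by
  have hc : 0 ≤ 69120 * (d : ℝ) / lam := by positivity
  have hint : ∀ j u, Integrable ((chainB lam p j u).indicator (fun _ => (1 : ℝ))) (gam ι) := by
    intro j u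
    exact (integrable_const 1).indicator (chain_B_meas _ _ _ _)
  have e1 : ∀ x, ∑ j ∈ Finset.range M, (chainY lam p U j x : ℝ) =
      ∑ j ∈ Finset.range M, ∑ u ∈ Finset.range U,
        (chainB lam p j u).indicator (fun _ => (1 : ℝ)) x :=
    fun x => Finset.sum_congr rfl (fun j _ => chain_Y_cast _ _ _ _ _)
  have hI : Integrable (fun x => ∑ j ∈ Finset.range M, (chainY lam p U j x : ℝ)) (gam ι) := by
    simp only [e1]
    exact integrable_finsetSum _ (fun j _ => integrable_finsetSum _ (fun u _ => hint j u))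
  have h1 := mul_meas_ge_le_integral_of_nonneg (μ := gam ι)
    (f := fun x => ∑ j ∈ Finset.range M, (chainY lam p U j x : ℝ))
    (Filter.Eventually.of_forall (fun x => Finset.sum_nonneg (fun j _ => Nat.cast_nonneg _)))
    hI (M : ℝ)
  have h2 : ∫ x, ∑ j ∈ Finset.range M, (chainY lam p U j x : ℝ) ∂(gam ι) =
      ∑ j ∈ Finset.range M, ∑ u ∈ Finset.range U, (gam ι).real (chainB lam p j u) := by
    simp only [e1]
    rw [integral_finsetSum _ (fun j _ => integrable_finsetSum _ (fun u _ => hint j u))]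
    refine Finset.sum_congr rfl (fun j _ => ?_)
    rw [integral_finsetSum _ (fun u _ => hint j u)]
    refine Finset.sum_congr rfl (fun u _ => ?_)
    have := integral_indicator_const (μ := gam ι) (1 : ℝ) (chain_B_meas lam p j u)
    simpa using this
  have h3 : ∀ j, ∑ u ∈ Finset.range U, (gam ι).real (chainB lam p j u) ≤
      2 * (69120 * d / lam) := by
    intro j
    calc ∑ u ∈ Finset.range U, (gam ι).real (chainB lam p j u)
        ≤ ∑ u ∈ Finset.range U, 69120 * d / lam * (1 / 2) ^ u :=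
          Finset.sum_le_sum (fun u _ => chain_B_le hd p hp hl j u)
      _ = 69120 * d / lam * ∑ u ∈ Finset.range U, (1 / 2 : ℝ) ^ u := by rw [Finset.mul_sum]
      _ ≤ 69120 * d / lam * 2 := mul_le_mul_of_nonneg_left (sum_geometric_two_le U) hc
      _ = 2 * (69120 * d / lam) := by ring
  have h4 : ∑ j ∈ Finset.range M, ∑ u ∈ Finset.range U, (gam ι).real (chainB lam p j u) ≤
      M * (2 * (69120 * d / lam)) := by
    calc ∑ j ∈ Finset.range M, ∑ u ∈ Finset.range U, (gam ι).real (chainB lam p j u)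
        ≤ ∑ j ∈ Finset.range M, 2 * (69120 * (d : ℝ) / lam) := Finset.sum_le_sum (fun j _ => h3 j)
      _ = M * (2 * (69120 * d / lam)) := by rw [Finset.sum_const, Finset.card_range, nsmul_eq_mul]
  rw [h2] at h1
  have hM' : (0 : ℝ) < M := by exact_mod_cast hM
  exact le_of_mul_le_mul_left (h1.trans h4) hM'

/-- The exceptional set. -/
def chainBad (lam : ℝ) (p : MvPolynomial ι ℝ) (d : ℕ) : Set (ι → ℝ) :=
  ⋃ m ∈ Finset.range (Nat.log 2 d + 2),
    {x | ((2 ^ m : ℕ) : ℝ) ≤ ∑ j ∈ Finset.range (2 ^ m), (chainY lam p (2 * d) j x : ℝ)}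

theorem chain_bad_le {d : ℕ} (hd : 1 ≤ d) (p : MvPolynomial ι ℝ) (hp : p.totalDegree ≤ d)
    {lam : ℝ} (hl : 0 < lam) :
    (gam ι).real (chainBad lam p d) ≤
      ((Nat.log 2 d : ℝ) + 2) * (2 * (69120 * d / lam)) := by
  unfold chainBad
  refine (measureReal_biUnion_finset_le _ _).trans ?_
  refine (Finset.sum_le_sum (fun m _ => chain_markov hd p hp hl (2 * d) (2 ^ m)
    (by positivity))).trans (le_of_eq ?_)
  rw [Finset.sum_const, Finset.card_range, nsmul_eq_mul]
  push_cast
  ring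

theorem chain_good {d : ℕ} (hd : 1 ≤ d) (p : MvPolynomial ι ℝ) {lam : ℝ} {x : ι → ℝ}
    (hx : x ∉ chainBad lam p d) (i : ℕ) (hi : 1 ≤ i) (hid : i ≤ d) :
    eval x (HS i p) ≤ (16 * lam ^ 2) ^ i * (eval x p) ^ 2 := by
  -- the dyadic scale
  obtain ⟨m, hm1, hm2, hm3⟩ : ∃ m, i ≤ 2 ^ m ∧ 2 ^ m ≤ 2 * i ∧ m < Nat.log 2 d + 2 := by
    refine ⟨Nat.clog 2 i, Nat.le_pow_clog (by norm_num) i, ?_, ?_⟩
    · rcases Nat.lt_or_ge i 2 with h | h
      · have : i = 1 := by omega
        subst this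
        simp
      · have h1 := Nat.pow_pred_clog_lt_self (b := 2) (by norm_num) (x := i) (by omega)
        have h2 : 0 < Nat.clog 2 i := Nat.clog_pos (by norm_num) h
        obtain ⟨k, hk⟩ : ∃ k, Nat.clog 2 i = k + 1 := ⟨Nat.clog 2 i - 1, by omega⟩
        rw [hk] at h1 ⊢
        simp only [Nat.pred_succ, Nat.succ_eq_add_one] at h1
        rw [pow_succ]
        omega
    · have h1 : Nat.clog 2 i ≤ Nat.clog 2 d := Nat.clog_mono_right 2 hid
      have h2 : Nat.clog 2 d ≤ Nat.log 2 d + 1 := by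
        apply Nat.clog_le_of_le_pow
        exact (Nat.lt_pow_succ_log_self (by norm_num) d).le
      omega
  have hbad : ∑ j ∈ Finset.range (2 ^ m), chainY lam p (2 * d) j x < 2 ^ m := by
    by_contra hcon
    apply hx
    unfold chainBad
    rw [Set.mem_iUnion₂]
    refine ⟨m, Finset.mem_range.2 hm3, ?_⟩
    rw [Set.mem_setOf_eq]
    have := not_lt.1 hcon
    exact_mod_cast this
  have h1 := chain_step (lam := lam) (p := p) (U := 2 * d) (M := 2 ^ m) (x := x)
    (hm2.trans (by omega)) hbad i hm1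
  have h2 : ∑ j ∈ Finset.range i, chainY lam p (2 * d) j x ≤ 2 * i := by
    have : ∑ j ∈ Finset.range i, chainY lam p (2 * d) j x ≤
        ∑ j ∈ Finset.range (2 ^ m), chainY lam p (2 * d) j x :=
      Finset.sum_le_sum_of_subset (Finset.range_subset_range.2 hm1)
    omega
  have h3 : eval x (HS 0 p) = (eval x p) ^ 2 := by simp [HS]
  rw [h3] at h1
  refine h1.trans ?_
  apply mul_le_mul_of_nonneg_right _ (sq_nonneg _)
  rw [mul_pow, pow_mul, mul_comm]
  apply mul_le_mul_of_nonneg_right _ (by positivity)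
  calc (4 : ℝ) ^ (∑ j ∈ Finset.range i, chainY lam p (2 * d) j x) ≤ 4 ^ (2 * i) :=
        pow_le_pow_right₀ (by norm_num) h2
    _ = 16 ^ i := by rw [pow_mul]; norm_num

theorem chain_vp {d : ℕ} (hd : 1 ≤ d) (p : MvPolynomial ι ℝ) {ρ K : ℝ} (hρ : 0 < ρ)
    (hK : 1 ≤ K) {x : ι → ℝ} (hx : x ∉ chainBad (1 / (8 * K * ρ)) p d) :
    K ^ 2 * eval x (VP d ρ p) ≤ (eval x p) ^ 2 := by
  have hK0 : 0 < K := by linarith
  have h1 : ∀ i ∈ Finset.range d, ρ ^ (2 * (i + 1)) * eval x (HS (i + 1) p) ≤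
      (1 / (4 * K ^ 2)) ^ (i + 1) * (eval x p) ^ 2 := by
    intro i hi
    rw [Finset.mem_range] at hi
    have h2 := chain_good hd p hx (i + 1) (by omega) (by omega)
    have h3 : 0 ≤ ρ ^ (2 * (i + 1)) := by positivity
    refine (mul_le_mul_of_nonneg_left h2 h3).trans (le_of_eq ?_)
    rw [← mul_assoc, pow_mul, ← mul_pow]
    congr 2
    field_simp
    norm_num
  have h2 : eval x (VP d ρ p) ≤ ∑ i ∈ Finset.range d, (1 / (4 * K ^ 2)) ^ (i + 1) *
      (eval x p) ^ 2 := by
    simp only [VP, map_sum, map_mul, eval_C]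
    exact Finset.sum_le_sum h1
  have h3 : ∑ i ∈ Finset.range d, (1 / (4 * K ^ 2)) ^ (i + 1) * (eval x p) ^ 2 ≤
      ∑ i ∈ Finset.range d, (1 / (4 * K ^ 2)) * ((1 / 2 : ℝ) ^ i * (eval x p) ^ 2) := by
    apply Finset.sum_le_sum
    intro i _
    rw [pow_succ, mul_comm ((1 / (4 * K ^ 2)) ^ i), mul_assoc]
    apply mul_le_mul_of_nonneg_left _ (by positivity)
    apply mul_le_mul_of_nonneg_right _ (sq_nonneg _)
    apply pow_le_pow_left₀ (by positivity)
    rw [div_le_div_iff₀ (by positivity) (by norm_num)]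
    nlinarith
  have e3 : ∑ i ∈ Finset.range d, (1 / (4 * K ^ 2)) * ((1 / 2 : ℝ) ^ i * (eval x p) ^ 2) =
      (1 / (4 * K ^ 2)) * ((∑ i ∈ Finset.range d, (1 / 2 : ℝ) ^ i) * (eval x p) ^ 2) := by
    rw [Finset.sum_mul, Finset.mul_sum]
  rw [e3] at h3
  have h4 := sum_geometric_two_le d
  have h5 : eval x (VP d ρ p) ≤ 1 / (4 * K ^ 2) * (2 * (eval x p) ^ 2) := by
    refine (h2.trans h3).trans ?_
    apply mul_le_mul_of_nonneg_left _ (by positivity)
    exact mul_le_mul_of_nonneg_right h4 (sq_nonneg _)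
  calc K ^ 2 * eval x (VP d ρ p) ≤ K ^ 2 * (1 / (4 * K ^ 2) * (2 * (eval x p) ^ 2)) :=
        mul_le_mul_of_nonneg_left h5 (by positivity)
    _ = (1 / 2) * (eval x p) ^ 2 := by field_simp; norm_num
    _ ≤ (eval x p) ^ 2 := by nlinarith [sq_nonneg (eval x p)]

theorem chain_small {d : ℕ} (hd : 1 ≤ d) (p : MvPolynomial ι ℝ) (hp : p.totalDegree ≤ d)
    {ρ K : ℝ} (hρ : 0 < ρ) (hK : 1 ≤ K) :
    (gam ι).real {x | (eval x p) ^ 2 < K ^ 2 * eval x (VP d ρ p)} ≤
      1105920 * (((Nat.log 2 d : ℝ) + 2) * d * ρ) * K := by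
  have hK0 : 0 < K := by linarith
  have hl : 0 < 1 / (8 * K * ρ) := by positivity
  have h1 : {x | (eval x p) ^ 2 < K ^ 2 * eval x (VP d ρ p)} ⊆
      chainBad (1 / (8 * K * ρ)) p d := by
    intro x hx
    by_contra hcon
    exact absurd (chain_vp hd p hρ hK hcon) (not_le.2 hx)
  refine (measureReal_mono h1).trans ?_
  refine (chain_bad_le hd p hp hl).trans (le_of_eq ?_)
  field_simp
  norm_num

theorem ac_chain {d : ℕ} (hd : 1 ≤ d) (p : MvPolynomial ι ℝ) (hp : p.totalDegree ≤ d) {ρ : ℝ}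
    (hρ : 0 < ρ) :
    ∫ x, eval x (VP d ρ p) / ((eval x p) ^ 2 + eval x (VP d ρ p)) ∂(gam ι) ≤
      2 ^ 24 * ((Nat.log 2 d : ℝ) + 2) * d * ρ := by
  let E : ℝ → Set (ι → ℝ) := fun K => {x | (eval x p) ^ 2 < K ^ 2 * eval x (VP d ρ p)}
  have hE : ∀ K, MeasurableSet (E K) := fun K =>
    measurableSet_lt ((eval_measurable p).pow_const 2) ((eval_measurable _).const_mul _)
  have hpoint : ∀ (L : ℕ) (x : ι → ℝ),
      eval x (VP d ρ p) / ((eval x p) ^ 2 + eval x (VP d ρ p)) ≤
        (E 1).indicator (fun _ => (1 : ℝ)) x +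
        (∑ k ∈ Finset.range L, (1 / 4 : ℝ) ^ k * (E (2 ^ (k + 1))).indicator (fun _ => (1 : ℝ)) x)
        + (1 / 4) ^ L := by
    intro L x
    have hv := vp_nonneg d ρ p x
    have hp2 := sq_nonneg (eval x p)
    have hr1 : eval x (VP d ρ p) / ((eval x p) ^ 2 + eval x (VP d ρ p)) ≤ 1 := by
      apply div_le_one_of_le₀ (by linarith) (by linarith)
    have hind : ∀ K, 0 ≤ (E K).indicator (fun _ => (1 : ℝ)) x := fun K =>
      Set.indicator_nonneg (fun _ _ => zero_le_one) x
    induction L with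
    | zero =>
        have := hind 1
        simp only [Finset.range_zero, Finset.sum_empty, pow_zero, add_zero]
        linarith
    | succ L ih =>
        by_cases hx : x ∈ E (2 ^ (L + 1))
        · rw [Finset.sum_range_succ, Set.indicator_of_mem hx, mul_one]
          have : (0 : ℝ) < (1 / 4) ^ (L + 1) := by positivity
          linarith
        · have h1 : (2 ^ (L + 1)) ^ 2 * eval x (VP d ρ p) ≤ (eval x p) ^ 2 := not_lt.1 hx
          have h2 : eval x (VP d ρ p) / ((eval x p) ^ 2 + eval x (VP d ρ p)) ≤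
              (1 / 4) ^ (L + 1) := by
            rcases hv.eq_or_lt with h0 | h0
            · rw [← h0, zero_div]
              positivity
            · rw [div_le_iff₀ (by linarith)]
              have e : (1 / 4 : ℝ) ^ (L + 1) * (2 ^ (L + 1)) ^ 2 = 1 := by
                rw [← pow_mul, mul_comm (L + 1) 2, pow_mul, ← mul_pow]
                norm_num
              have h3 : (1 / 4 : ℝ) ^ (L + 1) * ((2 ^ (L + 1)) ^ 2 * eval x (VP d ρ p)) ≤
                  (1 / 4) ^ (L + 1) * (eval x p) ^ 2 :=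
                mul_le_mul_of_nonneg_left h1 (by positivity)
              rw [← mul_assoc, e, one_mul] at h3
              have h4 : 0 ≤ (1 / 4 : ℝ) ^ (L + 1) * eval x (VP d ρ p) := by positivity
              linarith
          have h3 : 0 ≤ ∑ k ∈ Finset.range (L + 1),
              (1 / 4 : ℝ) ^ k * (E (2 ^ (k + 1))).indicator (fun _ => (1 : ℝ)) x :=
            Finset.sum_nonneg (fun k _ => mul_nonneg (by positivity) (hind _))
          have := hind 1
          linarith
  have hint : ∀ K, Integrable ((E K).indicator (fun _ => (1 : ℝ))) (gam ι) := fun K =>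
    (integrable_const 1).indicator (hE K)
  have hreal : ∀ K, ∫ x, (E K).indicator (fun _ => (1 : ℝ)) x ∂(gam ι) = (gam ι).real (E K) := by
    intro K
    have := integral_indicator_const (μ := gam ι) (1 : ℝ) (hE K)
    simpa using this
  have hc : 0 ≤ ((Nat.log 2 d : ℝ) + 2) * d * ρ := by positivity
  have hc' : 0 < ((Nat.log 2 d : ℝ) + 2) * d * ρ := by
    have : (0 : ℝ) < d := by exact_mod_cast hd
    positivity
  have hbound : ∀ L : ℕ,
      ∫ x, eval x (VP d ρ p) / ((eval x p) ^ 2 + eval x (VP d ρ p)) ∂(gam ι) ≤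
        5529600 * (((Nat.log 2 d : ℝ) + 2) * d * ρ) + (1 / 4) ^ L := by
    intro L
    have i1 : Integrable (fun x => (E 1).indicator (fun _ => (1 : ℝ)) x) (gam ι) := hint 1
    have i2 : Integrable (fun x => ∑ k ∈ Finset.range L,
        (1 / 4 : ℝ) ^ k * (E (2 ^ (k + 1))).indicator (fun _ => (1 : ℝ)) x) (gam ι) :=
      integrable_finsetSum _ (fun k _ => (hint _).const_mul _)
    have i3 : Integrable (fun x => (E 1).indicator (fun _ => (1 : ℝ)) x +
        (∑ k ∈ Finset.range L, (1 / 4 : ℝ) ^ k *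
          (E (2 ^ (k + 1))).indicator (fun _ => (1 : ℝ)) x)) (gam ι) := i1.add i2
    have i4 : Integrable (fun x => (E 1).indicator (fun _ => (1 : ℝ)) x +
        (∑ k ∈ Finset.range L, (1 / 4 : ℝ) ^ k *
          (E (2 ^ (k + 1))).indicator (fun _ => (1 : ℝ)) x) + (1 / 4 : ℝ) ^ L) (gam ι) :=
      i3.add (integrable_const _)
    have h1 : ∫ x, eval x (VP d ρ p) / ((eval x p) ^ 2 + eval x (VP d ρ p)) ∂(gam ι) ≤
        ∫ x, ((E 1).indicator (fun _ => (1 : ℝ)) x +
        (∑ k ∈ Finset.range L, (1 / 4 : ℝ) ^ k *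
          (E (2 ^ (k + 1))).indicator (fun _ => (1 : ℝ)) x) + (1 / 4 : ℝ) ^ L) ∂(gam ι) := by
      apply integral_mono_of_nonneg _ i4 _
      · refine Filter.Eventually.of_forall (fun x => ?_)
        have hv := vp_nonneg d ρ p x
        exact div_nonneg hv (by positivity)
      · exact Filter.Eventually.of_forall (hpoint L)
    refine h1.trans ?_
    rw [integral_add i3 (integrable_const _), integral_add i1 i2, integral_const,
      integral_finsetSum _ (fun k _ => (hint _).const_mul _)]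
    simp only [integral_const_mul, hreal]
    have h2 : (gam ι).real (E 1) ≤ 1105920 * (((Nat.log 2 d : ℝ) + 2) * d * ρ) := by
      have := chain_small hd p hp hρ (K := 1) le_rfl
      rwa [mul_one] at this
    have h3 : ∑ k ∈ Finset.range L, (1 / 4 : ℝ) ^ k * (gam ι).real (E (2 ^ (k + 1))) ≤
        1105920 * (((Nat.log 2 d : ℝ) + 2) * d * ρ) * 4 := by
      calc ∑ k ∈ Finset.range L, (1 / 4 : ℝ) ^ k * (gam ι).real (E (2 ^ (k + 1)))
          ≤ ∑ k ∈ Finset.range L, 1105920 * (((Nat.log 2 d : ℝ) + 2) * d * ρ) * 2 *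
              (1 / 2 : ℝ) ^ k := by
            apply Finset.sum_le_sum
            intro k _
            have h4 := chain_small hd p hp hρ (K := 2 ^ (k + 1)) (one_le_pow₀ (by norm_num))
            refine (mul_le_mul_of_nonneg_left h4 (by positivity)).trans (le_of_eq ?_)
            have e : (1 / 4 : ℝ) ^ k * 2 ^ (k + 1) = 2 * (1 / 2) ^ k := by
              rw [pow_succ, ← mul_assoc, ← mul_pow]
              norm_num
              ring
            calc (1 / 4 : ℝ) ^ k * (1105920 * (((Nat.log 2 d : ℝ) + 2) * d * ρ) * 2 ^ (k + 1))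
                = 1105920 * (((Nat.log 2 d : ℝ) + 2) * d * ρ) * ((1 / 4 : ℝ) ^ k * 2 ^ (k + 1)) := by
                  ring
              _ = _ := by rw [e]; ring
        _ = 1105920 * (((Nat.log 2 d : ℝ) + 2) * d * ρ) * 2 *
              ∑ k ∈ Finset.range L, (1 / 2 : ℝ) ^ k := by rw [Finset.mul_sum]
        _ ≤ 1105920 * (((Nat.log 2 d : ℝ) + 2) * d * ρ) * 2 * 2 :=
            mul_le_mul_of_nonneg_left (sum_geometric_two_le L) (by positivity)
        _ = 1105920 * (((Nat.log 2 d : ℝ) + 2) * d * ρ) * 4 := by ring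
    have h5 : (gam ι).real Set.univ • (1 / 4 : ℝ) ^ L = (1 / 4) ^ L := by
      simp
    rw [h5]
    linarith
  have hfin : ∫ x, eval x (VP d ρ p) / ((eval x p) ^ 2 + eval x (VP d ρ p)) ∂(gam ι) ≤
      5529600 * (((Nat.log 2 d : ℝ) + 2) * d * ρ) := by
    apply le_of_forall_pos_le_add
    intro ε hε
    obtain ⟨L, hL⟩ := exists_pow_lt_of_lt_one hε (show (1 / 4 : ℝ) < 1 by norm_num)
    have := hbound L
    linarith
  refine hfin.trans ?_
  nlinarith

end Pool.Agent.KWG
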