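import Pool.Agent.Lib.MP_68391b_lc.Gen.GRoot

/-! Anticoncentration in a random direction. -/

set_option linter.unusedSectionVars false

namespace Pool.Agent.KWG

open MeasureTheory ProbabilityTheory MvPolynomial Pool.Agent.KWI

variable {ι : Type} [Fintype ι] [DecidableEq ι]

/-! ### Rotations -/

private theorem acdir_gam_eq : gam ι = (stdGaussian (EuclideanSpace ℝ ι)).map
    (EuclideanSpace.equiv ι ℝ : EuclideanSpace ℝ ι ≃L[ℝ] (ι → ℝ)) := by
  rw [← map_pi_eq_stdGaussian, Measure.map_map]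
  · have : (⇑(EuclideanSpace.equiv ι ℝ) ∘ (WithLp.toLp 2 : (ι → ℝ) → EuclideanSpace ℝ ι)) = id := by
      funext x
      rfl
    rw [this, Measure.map_id]
    rfl
  · exact (EuclideanSpace.equiv ι ℝ).continuous.measurable
  · fun_prop

private theorem acdir_gauss : IsGaussian (gam ι) := by
  rw [acdir_gam_eq]
  exact isGaussian_map_equiv _

private theorem acdir_mean : ∫ x, id x ∂(gam ι) = 0 := by
  rw [acdir_gam_eq, integral_map]
  · have h := (EuclideanSpace.equiv ι ℝ : EuclideanSpace ℝ ι ≃L[ℝ] (ι → ℝ)).toContinuousLinearMap.integral_comp_comm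
      (μ := stdGaussian (EuclideanSpace ℝ ι)) (φ := fun x => x) IsGaussian.integrable_id
    rw [integral_id_stdGaussian, map_zero] at h
    exact h
  · exact (EuclideanSpace.equiv ι ℝ).continuous.measurable.aemeasurable
  · exact measurable_id.aestronglyMeasurable

private theorem acdir_rot (θ : ℝ) : ((gam ι).prod (gam ι)).map (ContinuousLinearMap.rotation θ) =
    (gam ι).prod (gam ι) := by
  have := acdir_gauss (ι := ι)
  exact IsGaussian.map_rotation_eq_self acdir_mean θ

/-- The rotation with `tan (θ / 2) = t`. -/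
private noncomputable def acT (t : ℝ) (z : (ι → ℝ) × (ι → ℝ)) : (ι → ℝ) × (ι → ℝ) :=
  (fun i => ((1 - t ^ 2) * z.1 i + 2 * t * z.2 i) / (1 + t ^ 2),
    fun i => (-(2 * t * z.1 i) + (1 - t ^ 2) * z.2 i) / (1 + t ^ 2))

private theorem acT_eq (t : ℝ) (z : (ι → ℝ) × (ι → ℝ)) :
    acT t z = ContinuousLinearMap.rotation (2 * Real.arctan t) z := by
  have h0 : 0 < 1 + t ^ 2 := by positivity
  have h1 : Real.cos (2 * Real.arctan t) = (1 - t ^ 2) / (1 + t ^ 2) := by
    rw [Real.cos_two_mul, Real.cos_sq_arctan]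
    field_simp
    ring
  have h2 : Real.sin (2 * Real.arctan t) = 2 * t / (1 + t ^ 2) := by
    rw [Real.sin_two_mul, Real.sin_arctan, Real.cos_arctan]
    have h3 : √(1 + t ^ 2) * √(1 + t ^ 2) = 1 + t ^ 2 := Real.mul_self_sqrt h0.le
    have h4 : √(1 + t ^ 2) ≠ 0 := (Real.sqrt_pos.2 h0).ne'
    have h5 : 2 * (t / √(1 + t ^ 2)) * (1 / √(1 + t ^ 2)) =
        2 * t / (√(1 + t ^ 2) * √(1 + t ^ 2)) := by
      rw [mul_assoc, div_mul_div_comm, mul_one, mul_div_assoc]
    rw [h5, h3]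
  rw [ContinuousLinearMap.rotation_apply, h1, h2]
  refine Prod.ext ?_ ?_
  · funext i
    simp only [acT, Pi.add_apply, Pi.smul_apply, smul_eq_mul]
    ring
  · funext i
    simp only [acT, Pi.add_apply, Pi.smul_apply, smul_eq_mul]
    ring

private theorem acT_measure (t : ℝ) {B : Set ((ι → ℝ) × (ι → ℝ))} (hB : MeasurableSet B) :
    ((gam ι).prod (gam ι)) {z | acT t z ∈ B} = ((gam ι).prod (gam ι)) B := by
  conv_rhs => rw [← acdir_rot (ι := ι) (2 * Real.arctan t)]
  rw [Measure.map_apply (ContinuousLinearMap.rotation _).continuous.measurable hB]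
  congr 1
  ext z
  show acT t z ∈ B ↔ _
  rw [acT_eq]
  rfl

private theorem acT_continuous :
    Continuous fun p : ℝ × ((ι → ℝ) × (ι → ℝ)) => acT p.1 p.2 := by
  unfold acT
  have h : ∀ p : ℝ × ((ι → ℝ) × (ι → ℝ)), 1 + p.1 ^ 2 ≠ 0 := fun p => by positivity
  refine Continuous.prodMk ?_ ?_
  · refine continuous_pi fun i => ?_
    exact Continuous.div (by fun_prop) (by fun_prop) h
  · refine continuous_pi fun i => ?_
    exact Continuous.div (by fun_prop) (by fun_prop) h

/-! ### The polynomial on the circle -/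

private theorem acdir_deriv (q : MvPolynomial ι ℝ) (X : ℝ → ι → ℝ) (X' : ι → ℝ) (t : ℝ)
    (h : ∀ j, HasDerivAt (fun t => X t j) (X' j) t) :
    HasDerivAt (fun t => eval (X t) q) (∑ j, X' j * eval (X t) (pderiv j q)) t := by
  induction q using MvPolynomial.induction_on with
  | C a => simpa using hasDerivAt_const t a
  | add p q hp hq =>
    simp only [map_add, mul_add, Finset.sum_add_distrib]
    exact hp.add hq
  | mul_X p i hp =>
    have h1 := hp.mul (h i)
    simp only [map_mul, eval_X, Derivation.leibniz, smul_eq_mul, map_add]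
    refine h1.congr_deriv ?_
    rw [Finset.sum_mul]
    have h2 : ∀ j, X' j * (eval (X t) p * eval (X t) (pderiv j (MvPolynomial.X i : MvPolynomial ι ℝ)) +
        X t i * eval (X t) (pderiv j p)) = (if i = j then X' j * eval (X t) p else 0) +
        X' j * eval (X t) (pderiv j p) * X t i := by
      intro j
      rw [pderiv_X]
      by_cases hij : i = j
      · subst hij
        simp
        ring
      · rw [if_neg hij, Pi.single_eq_of_ne hij]
        simp
        ring
    rw [Finset.sum_congr rfl fun j _ => h2 j, Finset.sum_add_distrib, Finset.sum_ite_eq]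
    simp only [Finset.mem_univ, if_true]
    ring

private noncomputable def acP (z : (ι → ℝ) × (ι → ℝ)) (i : ι) : Polynomial ℝ :=
  (1 - Polynomial.X ^ 2) * Polynomial.C (z.1 i) + 2 * Polynomial.X * Polynomial.C (z.2 i)

private noncomputable def acR (d : ℕ) (q : MvPolynomial ι ℝ) (z : (ι → ℝ) × (ι → ℝ)) :
    Polynomial ℝ :=
  ∑ m ∈ q.support, Polynomial.C (coeff m q) * (1 + Polynomial.X ^ 2) ^ (d - ∑ i, m i) *
    ∏ i, acP z i ^ m i

private theorem acP_deg (z : (ι → ℝ) × (ι → ℝ)) (i : ι) : (acP z i).natDegree ≤ 2 := by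
  unfold acP
  compute_degree

private theorem acdir_supp {d : ℕ} {q : MvPolynomial ι ℝ} (hq : q.totalDegree ≤ d) {m : ι →₀ ℕ}
    (hm : m ∈ q.support) : ∑ i, m i ≤ d := by
  refine le_trans ?_ hq
  refine le_trans (le_of_eq ?_) (MvPolynomial.le_totalDegree hm)
  rw [Finsupp.sum_fintype]
  intro i
  rfl

private theorem acR_deg {d : ℕ} {q : MvPolynomial ι ℝ} (hq : q.totalDegree ≤ d)
    (z : (ι → ℝ) × (ι → ℝ)) : (acR d q z).natDegree ≤ 2 * d := by
  unfold acR
  refine Polynomial.natDegree_sum_le_of_forall_le _ _ fun m hm => ?_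
  have h1 := acdir_supp hq hm
  have h2 : ((1 + Polynomial.X ^ 2 : Polynomial ℝ) ^ (d - ∑ i, m i)).natDegree ≤
      (d - ∑ i, m i) * 2 := by
    refine Polynomial.natDegree_pow_le_of_le _ ?_
    compute_degree
  have h3 : (∏ i, acP z i ^ m i).natDegree ≤ ∑ i, m i * 2 := by
    refine (Polynomial.natDegree_prod_le _ _).trans (Finset.sum_le_sum fun i _ => ?_)
    exact Polynomial.natDegree_pow_le_of_le _ (acP_deg z i)
  have h4 : (Polynomial.C (coeff m q) * (1 + Polynomial.X ^ 2) ^ (d - ∑ i, m i)).natDegree ≤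
      (d - ∑ i, m i) * 2 := (Polynomial.natDegree_C_mul_le _ _).trans h2
  refine (Polynomial.natDegree_mul_le_of_le h4 h3).trans ?_
  rw [← Finset.sum_mul]
  omega

private theorem acR_eval {d : ℕ} {q : MvPolynomial ι ℝ} (hq : q.totalDegree ≤ d)
    (z : (ι → ℝ) × (ι → ℝ)) (t : ℝ) :
    (acR d q z).eval t = (1 + t ^ 2) ^ d * eval (acT t z).1 q := by
  have h0 : (1 + t ^ 2 : ℝ) ≠ 0 := by positivity
  unfold acR
  rw [Polynomial.eval_finsetSum, MvPolynomial.eval_eq', Finset.mul_sum]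
  refine Finset.sum_congr rfl fun m hm => ?_
  have h1 := acdir_supp hq hm
  rw [Polynomial.eval_mul, Polynomial.eval_mul, Polynomial.eval_C, Polynomial.eval_pow,
    Polynomial.eval_prod]
  have h2 : ∏ i, (acT t z).1 i ^ m i =
      (∏ i, (acP z i ^ m i).eval t) / (1 + t ^ 2) ^ (∑ i, m i) := by
    rw [← Finset.prod_pow_eq_pow_sum, ← Finset.prod_div_distrib]
    refine Finset.prod_congr rfl fun i _ => ?_
    rw [Polynomial.eval_pow, ← div_pow]
    congr 1
    simp [acT, acP]
  rw [h2]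
  have h3 : (1 + t ^ 2 : ℝ) ^ d = (1 + t ^ 2) ^ (d - ∑ i, m i) * (1 + t ^ 2) ^ (∑ i, m i) := by
    rw [← pow_add]
    congr 1
    omega
  rw [h3]
  simp only [Polynomial.eval_add, Polynomial.eval_one, Polynomial.eval_pow, Polynomial.eval_X]
  field_simp

private theorem acR_deriv {e : ℕ} {q : MvPolynomial ι ℝ} (hq : q.totalDegree ≤ e + 1)
    (z : (ι → ℝ) × (ι → ℝ)) (t : ℝ) :
    (acR (e + 1) q z).derivative.eval t = (1 + t ^ 2) ^ e *
      (2 * (e + 1) * t * eval (acT t z).1 q +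
        2 * ∑ j, (acT t z).2 j * eval (acT t z).1 (pderiv j q)) := by
  have h0 : (1 + t ^ 2 : ℝ) ≠ 0 := by positivity
  have h1 := (acR (e + 1) q z).hasDerivAt t
  have h2 : (fun t => (acR (e + 1) q z).eval t) =
      fun t => (1 + t ^ 2) ^ (e + 1) * eval (acT t z).1 q := by
    funext t
    exact acR_eval hq z t
  rw [h2] at h1
  have h3 : ∀ j, HasDerivAt (fun t => (acT t z).1 j) (2 / (1 + t ^ 2) * (acT t z).2 j) t := by
    intro j
    have a1 : HasDerivAt (fun t : ℝ => 1 + t ^ 2) (2 * t) t := by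
      simpa using (hasDerivAt_pow 2 t).const_add 1
    have a2 : HasDerivAt (fun t : ℝ => (1 - t ^ 2) * z.1 j + 2 * t * z.2 j)
        (-(2 * t) * z.1 j + 2 * z.2 j) t := by
      have b1 : HasDerivAt (fun t : ℝ => 1 - t ^ 2) (-(2 * t)) t := by
        simpa using (hasDerivAt_pow 2 t).const_sub 1
      have b2 : HasDerivAt (fun t : ℝ => 2 * t) 2 t := by
        simpa using (hasDerivAt_id t).const_mul 2
      exact (b1.mul_const _).add (b2.mul_const _)
    have a3 := a2.div a1 h0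
    refine a3.congr_deriv ?_
    simp only [acT]
    field_simp
    ring
  have h4 := acdir_deriv q (fun t => (acT t z).1) _ t h3
  have a1 : HasDerivAt (fun t : ℝ => (1 + t ^ 2) ^ (e + 1))
      ((e + 1 : ℕ) * (1 + t ^ 2) ^ e * (2 * t)) t := by
    have : HasDerivAt (fun t : ℝ => 1 + t ^ 2) (2 * t) t := by
      simpa using (hasDerivAt_pow 2 t).const_add 1
    exact this.fun_pow (e + 1)
  have h5 := a1.mul h4
  rw [h1.unique h5]
  have h6 : ∑ j, 2 / (1 + t ^ 2) * (acT t z).2 j * eval (acT t z).1 (pderiv j q) =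
      2 / (1 + t ^ 2) * ∑ j, (acT t z).2 j * eval (acT t z).1 (pderiv j q) := by
    rw [Finset.mul_sum]
    exact Finset.sum_congr rfl fun j _ => by ring
  have h7 : (1 + t ^ 2 : ℝ) ^ (e + 1) = (1 + t ^ 2) ^ e * (1 + t ^ 2) := pow_succ _ _
  rw [h6, h7]
  push_cast
  field_simp

private theorem acdir_pointwise {e : ℕ} {q : MvPolynomial ι ℝ} (hq : q.totalDegree ≤ e + 1)
    (z : (ι → ℝ) × (ι → ℝ)) {t η : ℝ} (hη : 0 < η) (h1 : (e + 1) * η ≤ 1 / 2)
    (ht : t ∈ Set.Icc (0 : ℝ) 1)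
    (hb : |eval (acT t z).1 q| < η * |∑ j, (acT t z).2 j * eval (acT t z).1 (pderiv j q)|) :
    |(acR (e + 1) q z).eval t| < (2 * η) * |(acR (e + 1) q z).derivative.eval t| := by
  rw [acR_eval hq, acR_deriv hq]
  generalize eval (acT t z).1 q = Q at hb ⊢
  generalize ∑ j, (acT t z).2 j * eval (acT t z).1 (pderiv j q) = W at hb ⊢
  have h0 : (0 : ℝ) < 1 + t ^ 2 := by positivity
  have hp : (0 : ℝ) < (1 + t ^ 2) ^ e := pow_pos h0 e
  rw [abs_mul, abs_mul, abs_of_pos (pow_pos h0 _), abs_of_pos hp, pow_succ]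
  have ht2 : t ^ 2 ≤ 1 := by
    have := ht.1
    have := ht.2
    nlinarith
  have hW : |W| ≤ |2 * (e + 1) * t * Q + 2 * W| := by
    have a1 : |2 * W| ≤ |2 * (e + 1) * t * Q + 2 * W| + |2 * (e + 1) * t * Q| := by
      have := abs_sub (2 * (e + 1) * t * Q + 2 * W) (2 * (e + 1) * t * Q)
      simpa using this
    have a2 : |2 * (e + 1) * t * Q| ≤ |W| := by
      rw [abs_mul, abs_mul, abs_of_nonneg (by positivity : (0 : ℝ) ≤ 2 * (e + 1)),
        abs_of_nonneg ht.1]
      have b1 : 2 * ((e : ℝ) + 1) * t * |Q| ≤ 2 * (e + 1) * |Q| := by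
        have : 2 * ((e : ℝ) + 1) * t ≤ 2 * (e + 1) := by
          have : (0 : ℝ) ≤ 2 * (e + 1) := by positivity
          nlinarith [ht.2]
        exact mul_le_mul_of_nonneg_right this (abs_nonneg _)
      have b2 : 2 * ((e : ℝ) + 1) * |Q| ≤ 2 * (e + 1) * (η * |W|) :=
        mul_le_mul_of_nonneg_left hb.le (by positivity)
      have b3 : 2 * ((e : ℝ) + 1) * (η * |W|) ≤ |W| := by
        have : 0 ≤ |W| := abs_nonneg _
        nlinarith
      linarith
    rw [abs_mul, abs_of_pos (by norm_num : (0 : ℝ) < 2)] at a1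
    linarith
  have h3 : (1 + t ^ 2) * |Q| < 2 * η * |2 * (e + 1) * t * Q + 2 * W| := by
    have c1 : (1 + t ^ 2) * |Q| < (1 + t ^ 2) * (η * |W|) := mul_lt_mul_of_pos_left hb h0
    have c2 : (1 + t ^ 2) * (η * |W|) ≤ 2 * (η * |W|) :=
      mul_le_mul_of_nonneg_right (by linarith) (by positivity)
    have c3 : 2 * η * |W| ≤ 2 * η * |2 * (e + 1) * t * Q + 2 * W| :=
      mul_le_mul_of_nonneg_left hW (by positivity)
    linarith
  calc (1 + t ^ 2) ^ e * (1 + t ^ 2) * |Q| = (1 + t ^ 2) ^ e * ((1 + t ^ 2) * |Q|) := by ring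
    _ < (1 + t ^ 2) ^ e * (2 * η * |2 * (e + 1) * t * Q + 2 * W|) :=
        mul_lt_mul_of_pos_left h3 hp
    _ = _ := by ring

theorem ac_dir {d : ℕ} (hd : 1 ≤ d) (q : MvPolynomial ι ℝ) (hq : q.totalDegree ≤ d) {η : ℝ}
    (hη : 0 < η) :
    ((gam ι).prod (gam ι)).real
      {z | |eval z.1 q| < η * |∑ j, z.2 j * eval z.1 (pderiv j q)|} ≤ 80 * d * η := by
  obtain ⟨e, rfl⟩ : ∃ e, d = e + 1 := ⟨d - 1, by omega⟩
  by_cases hsm : ((e : ℝ) + 1) * η ≤ 1 / 2
  swap
  · have h1 : ((gam ι).prod (gam ι)).real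
        {z | |eval z.1 q| < η * |∑ j, z.2 j * eval z.1 (pderiv j q)|} ≤ 1 := measureReal_le_one
    push Not at hsm
    push_cast
    nlinarith
  set B : Set ((ι → ℝ) × (ι → ℝ)) :=
    {z | |eval z.1 q| < η * |∑ j, z.2 j * eval z.1 (pderiv j q)|} with hBdef
  have hB : MeasurableSet B := by
    refine measurableSet_lt ?_ ?_
    · exact ((eval_measurable q).comp measurable_fst).abs
    · refine Measurable.const_mul (Measurable.abs ?_) _
      refine Finset.measurable_fun_sum _ fun j _ => ?_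
      exact ((measurable_pi_apply j).comp measurable_snd).mul
        ((eval_measurable (pderiv j q)).comp measurable_fst)
  have hS : MeasurableSet {p : ℝ × ((ι → ℝ) × (ι → ℝ)) | acT p.1 p.2 ∈ B} :=
    acT_continuous.measurable hB
  have : IsProbabilityMeasure (volume.restrict (Set.Icc (0 : ℝ) 1)) := by
    constructor
    simp
  have h1 : ((volume.restrict (Set.Icc (0 : ℝ) 1)).prod ((gam ι).prod (gam ι)))
      {p : ℝ × ((ι → ℝ) × (ι → ℝ)) | acT p.1 p.2 ∈ B} = ((gam ι).prod (gam ι)) B := by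
    rw [Measure.prod_apply hS]
    have : ∀ t : ℝ, ((gam ι).prod (gam ι))
        (Prod.mk t ⁻¹' {p : ℝ × ((ι → ℝ) × (ι → ℝ)) | acT p.1 p.2 ∈ B}) =
        ((gam ι).prod (gam ι)) B := fun t => acT_measure t hB
    simp only [this, lintegral_const, measure_univ, mul_one]
  have h2 : ((volume.restrict (Set.Icc (0 : ℝ) 1)).prod ((gam ι).prod (gam ι)))
      {p : ℝ × ((ι → ℝ) × (ι → ℝ)) | acT p.1 p.2 ∈ B} ≤
        ENNReal.ofReal (80 * ((e + 1 : ℕ) : ℝ) * η) := by
    rw [Measure.prod_apply_symm hS]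
    have h3 : ∀ z : (ι → ℝ) × (ι → ℝ), (volume.restrict (Set.Icc (0 : ℝ) 1))
        ((fun t => (t, z)) ⁻¹' {p : ℝ × ((ι → ℝ) × (ι → ℝ)) | acT p.1 p.2 ∈ B}) ≤
        ENNReal.ofReal (80 * ((e + 1 : ℕ) : ℝ) * η) := by
      intro z
      rw [Measure.restrict_apply' measurableSet_Icc]
      refine (measure_mono (t := {t : ℝ | |(acR (e + 1) q z).eval t| <
        (2 * η) * |(acR (e + 1) q z).derivative.eval t|}) ?_).trans ?_
      · rintro t ⟨ht1, ht2⟩
        exact acdir_pointwise hq z hη hsm ht2 ht1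
      · refine (root1d (2 * (e + 1)) (acR (e + 1) q z) (acR_deg hq z)
          (by positivity : 0 < 2 * η)).trans (le_of_eq ?_)
        congr 1
        push_cast
        ring
    refine (lintegral_mono h3).trans ?_
    simp
  rw [h1] at h2
  exact ENNReal.toReal_le_of_le_ofReal (by positivity) h2

end Pool.Agent.KWG
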