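import Pool.Agent.Lib.MP_68391b_lc.Gen.GAcDir

/-! Anticoncentration for families of polynomials. -/

set_option linter.unusedSectionVars false

namespace Pool.Agent.KWG

open MeasureTheory ProbabilityTheory MvPolynomial Pool.Agent.KWI

variable {ι : Type} [Fintype ι] [DecidableEq ι]

/-! ### One-dimensional moments -/

theorem acvec_one : ∫ x, x ∂(gaussianReal 0 1) = 0 := integral_id_gaussianReal

theorem acvec_two : ∫ x, x ^ 2 ∂(gaussianReal 0 1) = 1 := by
  have h := variance_fun_id_gaussianReal (μ := 0) (v := 1)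
  rw [variance_eq_integral (by fun_prop)] at h
  rw [acvec_one] at h
  simpa using h

theorem acvec_four : ∫ x, x ^ 4 ∂(gaussianReal 0 1) = 3 := by
  rw [integral_gaussianReal_eq_integral_smul one_ne_zero]
  have e : (fun x : ℝ => gaussianPDFReal 0 1 x • x ^ 4) =
      fun x => (√(2 * Real.pi))⁻¹ *
        (fun y : ℝ => y ^ (4 : ℝ) * Real.exp (-(1 / 2) * y ^ (2 : ℝ))) |x| := by
    funext x
    rw [gaussianPDFReal_def]
    simp only [smul_eq_mul, NNReal.coe_one, mul_one, sub_zero]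
    have h4 : |x| ^ (4 : ℝ) = x ^ 4 := by
      rw [show (4 : ℝ) = ((4 : ℕ) : ℝ) by norm_num, Real.rpow_natCast]
      exact Even.pow_abs (by decide) x
    have h2 : |x| ^ (2 : ℝ) = x ^ 2 := by
      rw [show (2 : ℝ) = ((2 : ℕ) : ℝ) by norm_num, Real.rpow_natCast, sq_abs]
    rw [h4, h2, mul_assoc, mul_comm (Real.exp _)]
    congr 3
    ring
  rw [e, integral_const_mul,
    integral_comp_abs (f := fun y : ℝ => y ^ (4 : ℝ) * Real.exp (-(1 / 2) * y ^ (2 : ℝ))),
    integral_rpow_mul_exp_neg_mul_rpow (by norm_num) (by norm_num) (by norm_num)]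
  have g1 : Real.Gamma ((4 + 1) / 2) = 3 / 4 * √Real.pi := by
    rw [show ((4 : ℝ) + 1) / 2 = (1 / 2 + 1) + 1 by norm_num, Real.Gamma_add_one (by norm_num),
      Real.Gamma_add_one (by norm_num), Real.Gamma_one_half_eq]
    ring
  have g2 : (1 / 2 : ℝ) ^ (-((4 : ℝ) + 1) / 2) = 4 * √2 := by
    rw [show (-((4 : ℝ) + 1) / 2) = -(5 / 2) by norm_num, Real.rpow_neg (by norm_num),
      Real.div_rpow (by norm_num) (by norm_num), Real.one_rpow, one_div, inv_inv,
      show (5 / 2 : ℝ) = 2 + 1 / 2 by norm_num, Real.rpow_add (by norm_num),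
      ← Real.sqrt_eq_rpow]
    norm_num
  rw [g1, g2, Real.sqrt_mul (by norm_num)]
  have h2 : √(2 : ℝ) ≠ 0 := by positivity
  have h3 : √Real.pi ≠ 0 := by positivity
  field_simp

theorem acvec_coord (c : ℝ) (i : ι) (b : ℕ) :
    ∫ y : ι → ℝ, (c * y i) ^ b ∂(gam ι) = c ^ b * ∫ x, x ^ b ∂(gaussianReal 0 1) := by
  have h := (measurePreserving_eval (fun _ : ι => gaussianReal 0 1) i).map_eq
  have e : ∫ y : ι → ℝ, (c * y i) ^ b ∂(gam ι) = ∫ x, (c * x) ^ b ∂(gaussianReal 0 1) := by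
    conv_rhs => rw [← h]
    rw [integral_map (measurable_pi_apply i).aemeasurable (by fun_prop)]
    rfl
  rw [e, ← integral_const_mul]
  congr 1
  funext x
  rw [mul_pow]

/-! ### Linear forms -/

theorem acvec_indep (c : ι → ℝ) (s : Finset ι) {i : ι} (hi : i ∉ s) (a b : ℕ) :
    ∫ y : ι → ℝ, (∑ j ∈ s, c j * y j) ^ a * (c i * y i) ^ b ∂(gam ι) =
      (∫ y : ι → ℝ, (∑ j ∈ s, c j * y j) ^ a ∂(gam ι)) *
        (c i ^ b * ∫ x, x ^ b ∂(gaussianReal 0 1)) := by
  have hind : iIndepFun (fun (i : ι) (y : ι → ℝ) => c i * y i) (gam ι) :=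
    iIndepFun_pi (μ := fun _ : ι => gaussianReal 0 1) (X := fun i (t : ℝ) => c i * t)
      (fun i => by fun_prop)
  have h1 := hind.indepFun_finsetSum_of_notMem (fun i => by fun_prop) hi
  have h2 := h1.comp (φ := fun t : ℝ => t ^ a) (ψ := fun t : ℝ => t ^ b) (by fun_prop)
    (by fun_prop)
  have e1 : (fun t : ℝ => t ^ a) ∘ (∑ j ∈ s, fun y : ι → ℝ => c j * y j) =
      fun y => (∑ j ∈ s, c j * y j) ^ a := by
    funext y
    simp only [Function.comp_apply, Finset.sum_apply]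
  have e2 : (fun t : ℝ => t ^ b) ∘ (fun y : ι → ℝ => c i * y i) =
      fun y => (c i * y i) ^ b := rfl
  rw [e1, e2] at h2
  have m1 : Measurable fun y : ι → ℝ => (∑ j ∈ s, c j * y j) ^ a := by fun_prop
  have m2 : Measurable fun y : ι → ℝ => (c i * y i) ^ b := by fun_prop
  have h3 := h2.integral_fun_mul_eq_mul_integral m1.aestronglyMeasurable
    m2.aestronglyMeasurable
  rw [h3, acvec_coord]

theorem acvec_lin_int (c : ι → ℝ) (s : Finset ι) (a : ℕ) :
    Integrable (fun y : ι → ℝ => (∑ j ∈ s, c j * y j) ^ a) (gam ι) := by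
  have := poly_integrable ((∑ j ∈ s, C (c j) * X j : MvPolynomial ι ℝ) ^ a)
  simpa using this

theorem acvec_lin_int' (c : ι → ℝ) (s : Finset ι) (i : ι) (a b : ℕ) :
    Integrable (fun y : ι → ℝ => (∑ j ∈ s, c j * y j) ^ a * (c i * y i) ^ b) (gam ι) := by
  have := poly_integrable ((∑ j ∈ s, C (c j) * X j : MvPolynomial ι ℝ) ^ a *
    (C (c i) * X i) ^ b)
  simpa using this

theorem acvec_lin (c : ι → ℝ) (s : Finset ι) :
    ∫ y : ι → ℝ, (∑ j ∈ s, c j * y j) ^ 1 ∂(gam ι) = 0 ∧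
    ∫ y : ι → ℝ, (∑ j ∈ s, c j * y j) ^ 2 ∂(gam ι) = ∑ j ∈ s, c j ^ 2 ∧
    ∫ y : ι → ℝ, (∑ j ∈ s, c j * y j) ^ 4 ∂(gam ι) = 3 * (∑ j ∈ s, c j ^ 2) ^ 2 := by
  induction s using Finset.induction_on with
  | empty => simp
  | insert i s hi ih =>
    obtain ⟨i1, i2, i4⟩ := ih
    have m := acvec_indep c s hi
    have n := acvec_lin_int' c s i
    refine ⟨?_, ?_, ?_⟩
    · have e : (fun y : ι → ℝ => (∑ j ∈ insert i s, c j * y j) ^ 1) =
          fun y => (∑ j ∈ s, c j * y j) ^ 1 * (c i * y i) ^ 0 +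
            (∑ j ∈ s, c j * y j) ^ 0 * (c i * y i) ^ 1 := by
        funext y
        rw [Finset.sum_insert hi]
        ring
      rw [e, integral_add (n 1 0) (n 0 1), m, m, i1]
      simp [acvec_one]
    · have e : (fun y : ι → ℝ => (∑ j ∈ insert i s, c j * y j) ^ 2) =
          fun y => (∑ j ∈ s, c j * y j) ^ 2 * (c i * y i) ^ 0 +
            2 * ((∑ j ∈ s, c j * y j) ^ 1 * (c i * y i) ^ 1) +
            (∑ j ∈ s, c j * y j) ^ 0 * (c i * y i) ^ 2 := by
        funext y
        rw [Finset.sum_insert hi]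
        ring
      have k1 : Integrable (fun y : ι → ℝ => (∑ j ∈ s, c j * y j) ^ 2 * (c i * y i) ^ 0 +
            2 * ((∑ j ∈ s, c j * y j) ^ 1 * (c i * y i) ^ 1)) (gam ι) :=
        (n 2 0).add ((n 1 1).const_mul 2)
      rw [e, integral_add k1 (n 0 2), integral_add (n 2 0) ((n 1 1).const_mul 2),
        integral_const_mul, m, m, m, i1, i2, Finset.sum_insert hi]
      simp [acvec_one, acvec_two]
      ring
    · have e : (fun y : ι → ℝ => (∑ j ∈ insert i s, c j * y j) ^ 4) =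
          fun y => (∑ j ∈ s, c j * y j) ^ 4 * (c i * y i) ^ 0 +
            4 * ((∑ j ∈ s, c j * y j) ^ 3 * (c i * y i) ^ 1) +
            6 * ((∑ j ∈ s, c j * y j) ^ 2 * (c i * y i) ^ 2) +
            4 * ((∑ j ∈ s, c j * y j) ^ 1 * (c i * y i) ^ 3) +
            (∑ j ∈ s, c j * y j) ^ 0 * (c i * y i) ^ 4 := by
        funext y
        rw [Finset.sum_insert hi]
        ring
      have k1 : Integrable (fun y : ι → ℝ => (∑ j ∈ s, c j * y j) ^ 4 * (c i * y i) ^ 0 +
            4 * ((∑ j ∈ s, c j * y j) ^ 3 * (c i * y i) ^ 1)) (gam ι) :=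
        (n 4 0).add ((n 3 1).const_mul 4)
      have k2 : Integrable (fun y : ι → ℝ => (∑ j ∈ s, c j * y j) ^ 4 * (c i * y i) ^ 0 +
            4 * ((∑ j ∈ s, c j * y j) ^ 3 * (c i * y i) ^ 1) +
            6 * ((∑ j ∈ s, c j * y j) ^ 2 * (c i * y i) ^ 2)) (gam ι) :=
        k1.add ((n 2 2).const_mul 6)
      have k3 : Integrable (fun y : ι → ℝ => (∑ j ∈ s, c j * y j) ^ 4 * (c i * y i) ^ 0 +
            4 * ((∑ j ∈ s, c j * y j) ^ 3 * (c i * y i) ^ 1) +
            6 * ((∑ j ∈ s, c j * y j) ^ 2 * (c i * y i) ^ 2) +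
            4 * ((∑ j ∈ s, c j * y j) ^ 1 * (c i * y i) ^ 3)) (gam ι) :=
        k2.add ((n 1 3).const_mul 4)
      rw [e, integral_add k3 (n 0 4), integral_add k2 ((n 1 3).const_mul 4),
        integral_add k1 ((n 2 2).const_mul 6), integral_add (n 4 0) ((n 3 1).const_mul 4),
        integral_const_mul, integral_const_mul, integral_const_mul, m, m, m, m, m, i1, i2, i4,
        Finset.sum_insert hi]
      simp [acvec_one, acvec_two, acvec_four]
      ring

/-! ### Bilinear forms -/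

variable {κ : Type} [Fintype κ] [DecidableEq κ]

/-- The bilinear form. -/
def acvec_W (D : κ → ι → ℝ) (p : (κ → ℝ) × (ι → ℝ)) : ℝ :=
  ∑ j, (∑ l, D l j * p.1 l) * p.2 j

theorem acvec_W_cont (D : κ → ι → ℝ) : Continuous (acvec_W D) := by
  unfold acvec_W
  fun_prop

theorem acvec_G (D : κ → ι → ℝ) (j : ι) :
    ∫ z : κ → ℝ, (∑ l, D l j * z l) ^ 2 ∂(gam κ) = ∑ l, D l j ^ 2 ∧
    ∫ z : κ → ℝ, (∑ l, D l j * z l) ^ 4 ∂(gam κ) = 3 * (∑ l, D l j ^ 2) ^ 2 :=
  (acvec_lin (fun l => D l j) Finset.univ).2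

theorem acvec_G_int (D : κ → ι → ℝ) (j k : ι) (a b : ℕ) :
    Integrable (fun z : κ → ℝ => (∑ l, D l j * z l) ^ a * (∑ l, D l k * z l) ^ b) (gam κ) := by
  have := poly_integrable ((∑ l, C (D l j) * X l : MvPolynomial κ ℝ) ^ a *
    (∑ l, C (D l k) * X l : MvPolynomial κ ℝ) ^ b)
  simpa using this

theorem acvec_S2 (D : κ → ι → ℝ) :
    Integrable (fun z : κ → ℝ => ∑ j, (∑ l, D l j * z l) ^ 2) (gam κ) ∧
    ∫ z : κ → ℝ, ∑ j, (∑ l, D l j * z l) ^ 2 ∂(gam κ) = ∑ l, ∑ j, D l j ^ 2 := by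
  have h : ∀ j : ι, Integrable (fun z : κ → ℝ => (∑ l, D l j * z l) ^ 2) (gam κ) :=
    fun j => acvec_lin_int (fun l => D l j) Finset.univ 2
  refine ⟨integrable_finsetSum _ fun j _ => h j, ?_⟩
  rw [integral_finsetSum _ fun j _ => h j, Finset.sum_comm]
  exact Finset.sum_congr rfl fun j _ => (acvec_G D j).1

theorem acvec_S4 (D : κ → ι → ℝ) :
    Integrable (fun z : κ → ℝ => (∑ j, (∑ l, D l j * z l) ^ 2) ^ 2) (gam κ) ∧
    ∫ z : κ → ℝ, (∑ j, (∑ l, D l j * z l) ^ 2) ^ 2 ∂(gam κ) ≤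
      3 * (∑ l, ∑ j, D l j ^ 2) ^ 2 := by
  have e : (fun z : κ → ℝ => (∑ j, (∑ l, D l j * z l) ^ 2) ^ 2) =
      fun z => ∑ j, ∑ k, (∑ l, D l j * z l) ^ 2 * (∑ l, D l k * z l) ^ 2 := by
    funext z
    rw [sq, Finset.sum_mul_sum]
  have hi : ∀ j k, Integrable (fun z : κ → ℝ =>
      (∑ l, D l j * z l) ^ 2 * (∑ l, D l k * z l) ^ 2) (gam κ) :=
    fun j k => acvec_G_int D j k 2 2
  rw [e]
  refine ⟨integrable_finsetSum _ fun j _ => integrable_finsetSum _ fun k _ => hi j k, ?_⟩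
  rw [integral_finsetSum _ fun j _ => integrable_finsetSum _ fun k _ => hi j k]
  have h4 : ∀ j : ι, Integrable (fun z : κ → ℝ => ((∑ l, D l j * z l) ^ 2) ^ 2) (gam κ) := by
    intro j
    have := acvec_lin_int (fun l => D l j) Finset.univ 4
    refine this.congr (Filter.Eventually.of_forall fun z => ?_)
    simp only []
    ring
  have hb : ∀ j k, ∫ z : κ → ℝ, (∑ l, D l j * z l) ^ 2 * (∑ l, D l k * z l) ^ 2 ∂(gam κ) ≤
      3 * ((∑ l, D l j ^ 2) * ∑ l, D l k ^ 2) := by
    intro j k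
    have h1 := (abs_le.1 (cs_int (gam κ) (fun z : κ → ℝ => (∑ l, D l j * z l) ^ 2)
      (fun z : κ → ℝ => (∑ l, D l k * z l) ^ 2) (h4 j) (h4 k) (hi j k))).2
    have h2 : ∀ j : ι, ∫ z : κ → ℝ, ((∑ l, D l j * z l) ^ 2) ^ 2 ∂(gam κ) =
        3 * (∑ l, D l j ^ 2) ^ 2 := by
      intro j
      rw [← (acvec_G D j).2]
      congr 1
      funext z
      ring
    rw [h2, h2, ← Real.sqrt_mul (by positivity)] at h1
    have h3 : 3 * (∑ l, D l j ^ 2) ^ 2 * (3 * (∑ l, D l k ^ 2) ^ 2) =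
        (3 * ((∑ l, D l j ^ 2) * ∑ l, D l k ^ 2)) ^ 2 := by ring
    rw [h3, Real.sqrt_sq] at h1
    · exact h1
    · have a1 : 0 ≤ ∑ l, D l j ^ 2 := Finset.sum_nonneg fun l _ => sq_nonneg _
      have a2 : 0 ≤ ∑ l, D l k ^ 2 := Finset.sum_nonneg fun l _ => sq_nonneg _
      positivity
  calc ∑ j, ∫ z : κ → ℝ, ∑ k, (∑ l, D l j * z l) ^ 2 * (∑ l, D l k * z l) ^ 2 ∂(gam κ)
      = ∑ j, ∑ k, ∫ z : κ → ℝ, (∑ l, D l j * z l) ^ 2 * (∑ l, D l k * z l) ^ 2 ∂(gam κ) :=
        Finset.sum_congr rfl fun j _ => integral_finsetSum _ fun k _ => hi j k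
    _ ≤ ∑ j, ∑ k, 3 * ((∑ l, D l j ^ 2) * ∑ l, D l k ^ 2) :=
        Finset.sum_le_sum fun j _ => Finset.sum_le_sum fun k _ => hb j k
    _ = 3 * (∑ l, ∑ j, D l j ^ 2) ^ 2 := by
        rw [Finset.sum_comm (f := fun l j => D l j ^ 2), sq, Finset.sum_mul_sum,
          Finset.mul_sum]
        refine Finset.sum_congr rfl fun j _ => ?_
        rw [Finset.mul_sum]

theorem acvec_W2 (D : κ → ι → ℝ) :
    Integrable (fun p => acvec_W D p ^ 2) ((gam κ).prod (gam ι)) ∧
    ∫ p, acvec_W D p ^ 2 ∂((gam κ).prod (gam ι)) = ∑ l, ∑ j, D l j ^ 2 := by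
  have hz : ∀ z : κ → ℝ, ∫ y : ι → ℝ, acvec_W D (z, y) ^ 2 ∂(gam ι) =
      ∑ j, (∑ l, D l j * z l) ^ 2 :=
    fun z => (acvec_lin (fun j => ∑ l, D l j * z l) Finset.univ).2.1
  have hi : Integrable (fun p => acvec_W D p ^ 2) ((gam κ).prod (gam ι)) := by
    have hc : Continuous fun p => acvec_W D p ^ 2 := (acvec_W_cont D).pow 2
    rw [integrable_prod_iff hc.aestronglyMeasurable]
    refine ⟨Filter.Eventually.of_forall fun z =>
      acvec_lin_int (fun j => ∑ l, D l j * z l) Finset.univ 2, ?_⟩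
    have e : (fun z : κ → ℝ => ∫ y : ι → ℝ, ‖acvec_W D (z, y) ^ 2‖ ∂(gam ι)) =
        fun z => ∑ j, (∑ l, D l j * z l) ^ 2 := by
      funext z
      rw [← hz z]
      congr 1
      funext y
      rw [Real.norm_of_nonneg (sq_nonneg _)]
    rw [e]
    exact (acvec_S2 D).1
  refine ⟨hi, ?_⟩
  rw [integral_prod _ hi, ← (acvec_S2 D).2]
  congr 1
  funext z
  exact hz z

theorem acvec_W4 (D : κ → ι → ℝ) :
    Integrable (fun p => acvec_W D p ^ 4) ((gam κ).prod (gam ι)) ∧
    ∫ p, acvec_W D p ^ 4 ∂((gam κ).prod (gam ι)) ≤ 9 * (∑ l, ∑ j, D l j ^ 2) ^ 2 := by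
  have hz : ∀ z : κ → ℝ, ∫ y : ι → ℝ, acvec_W D (z, y) ^ 4 ∂(gam ι) =
      3 * (∑ j, (∑ l, D l j * z l) ^ 2) ^ 2 :=
    fun z => (acvec_lin (fun j => ∑ l, D l j * z l) Finset.univ).2.2
  have hi : Integrable (fun p => acvec_W D p ^ 4) ((gam κ).prod (gam ι)) := by
    have hc : Continuous fun p => acvec_W D p ^ 4 := (acvec_W_cont D).pow 4
    rw [integrable_prod_iff hc.aestronglyMeasurable]
    refine ⟨Filter.Eventually.of_forall fun z =>
      acvec_lin_int (fun j => ∑ l, D l j * z l) Finset.univ 4, ?_⟩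
    have e : (fun z : κ → ℝ => ∫ y : ι → ℝ, ‖acvec_W D (z, y) ^ 4‖ ∂(gam ι)) =
        fun z => 3 * (∑ j, (∑ l, D l j * z l) ^ 2) ^ 2 := by
      funext z
      rw [← hz z]
      congr 1
      funext y
      rw [Real.norm_of_nonneg (by positivity)]
    rw [e]
    exact (acvec_S4 D).1.const_mul 3
  refine ⟨hi, ?_⟩
  rw [integral_prod _ hi]
  have e : (fun z : κ → ℝ => ∫ y : ι → ℝ, acvec_W D (z, y) ^ 4 ∂(gam ι)) =
      fun z => 3 * (∑ j, (∑ l, D l j * z l) ^ 2) ^ 2 := funext hz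
  rw [e, integral_const_mul]
  have := (acvec_S4 D).2
  linarith

/-! ### The fibre estimate -/

theorem acvec_fibre (q : κ → ℝ) (D : κ → ι → ℝ) {η : ℝ} (hη : 0 < η)
    (h : ∑ l, q l ^ 2 < η ^ 2 * ∑ l, ∑ j, D l j ^ 2) :
    1 / 72 ≤ ((gam κ).prod (gam ι)).real
      {p | |∑ l, q l * p.1 l| < 12 * η * |acvec_W D p|} := by
  set a2 := ∑ l, q l ^ 2 with ha2
  set b2 := ∑ l, ∑ j, D l j ^ 2 with hb2
  have ha0 : 0 ≤ a2 := Finset.sum_nonneg fun l _ => sq_nonneg _
  have hb0 : 0 < b2 := by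
    by_contra hc
    have : η ^ 2 * b2 ≤ 0 := mul_nonpos_of_nonneg_of_nonpos (sq_nonneg _) (not_lt.1 hc)
    linarith
  set G : Set ((κ → ℝ) × (ι → ℝ)) := {p | |∑ l, q l * p.1 l| < 12 * η * |acvec_W D p|} with hG
  have hWc := acvec_W_cont D
  have hUc : Continuous fun p : (κ → ℝ) × (ι → ℝ) => ∑ l, q l * p.1 l := by fun_prop
  have hGm : MeasurableSet G :=
    (isOpen_lt hUc.abs (continuous_const.mul hWc.abs)).measurableSet
  obtain ⟨w2i, w2⟩ := acvec_W2 D
  obtain ⟨w4i, w4⟩ := acvec_W4 D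
  -- second moment of U
  have hUint : Integrable (fun p : (κ → ℝ) × (ι → ℝ) => (∑ l, q l * p.1 l) ^ 2)
      ((gam κ).prod (gam ι)) := by
    have := (acvec_lin_int q Finset.univ 2).comp_fst (gam ι)
    exact this
  have hU : ∫ p : (κ → ℝ) × (ι → ℝ), (∑ l, q l * p.1 l) ^ 2 ∂((gam κ).prod (gam ι)) = a2 := by
    rw [integral_prod _ hUint]
    simp only [integral_const, probReal_univ, one_smul]
    exact (acvec_lin q Finset.univ).2.1
  -- pointwise inequality
  have hpt : ∀ p : (κ → ℝ) × (ι → ℝ), acvec_W D p ^ 2 ≤ b2 / 2 +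
      acvec_W D p ^ 4 / (36 * b2) + 9 * b2 * G.indicator (fun _ => (1 : ℝ)) p +
      (b2 / 8) * ((∑ l, q l * p.1 l) ^ 2 / a2) := by
    intro p
    have t1 : 0 ≤ acvec_W D p ^ 4 / (36 * b2) := by positivity
    have t2 : 0 ≤ 9 * b2 * G.indicator (fun _ => (1 : ℝ)) p :=
      mul_nonneg (by positivity) (Set.indicator_nonneg (fun _ _ => zero_le_one) p)
    have t3 : 0 ≤ (b2 / 8) * ((∑ l, q l * p.1 l) ^ 2 / a2) := by positivity
    by_cases hw : acvec_W D p ^ 2 < b2 / 2
    · linarith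
    · rw [not_lt] at hw
      have t4 : acvec_W D p ^ 2 ≤ acvec_W D p ^ 4 / (36 * b2) + 9 * b2 := by
        rw [← sub_nonneg]
        have : acvec_W D p ^ 4 / (36 * b2) + 9 * b2 - acvec_W D p ^ 2 =
            (acvec_W D p ^ 2 - 18 * b2) ^ 2 / (36 * b2) := by
          field_simp
          ring
        rw [this]
        positivity
      by_cases hp : p ∈ G
      · rw [Set.indicator_of_mem hp]
        linarith
      · have hU2 : 72 * a2 < (∑ l, q l * p.1 l) ^ 2 := by
          by_contra hc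
          rw [not_lt] at hc
          apply hp
          show |∑ l, q l * p.1 l| < 12 * η * |acvec_W D p|
          apply abs_lt_of_sq_lt_sq _ (by positivity)
          rw [mul_pow, sq_abs, mul_pow]
          have h5 : 72 * a2 < 72 * (η ^ 2 * b2) := by linarith
          have h6 : η ^ 2 * (b2 / 2) ≤ η ^ 2 * acvec_W D p ^ 2 :=
            mul_le_mul_of_nonneg_left hw (sq_nonneg _)
          nlinarith
        have ha : 0 < a2 := by
          rcases ha0.eq_or_lt with h0 | h0
          · exfalso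
            have hq : ∀ l, q l = 0 := by
              intro l
              have := (Finset.sum_eq_zero_iff_of_nonneg (fun l _ => sq_nonneg (q l))).1
                h0.symm l (Finset.mem_univ l)
              exact pow_eq_zero_iff (two_ne_zero) |>.1 this
            simp only [hq, zero_mul, Finset.sum_const_zero] at hU2
            rw [← h0] at hU2
            norm_num at hU2
          · exact h0
        have h7 : 72 ≤ (∑ l, q l * p.1 l) ^ 2 / a2 := by
          rw [le_div_iff₀ ha]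
          exact hU2.le
        have h8 : 9 * b2 ≤ (b2 / 8) * ((∑ l, q l * p.1 l) ^ 2 / a2) := by
          nlinarith
        linarith
  have hI1 : Integrable (fun p : (κ → ℝ) × (ι → ℝ) => G.indicator (fun _ => (1 : ℝ)) p)
      ((gam κ).prod (gam ι)) := (integrable_const 1).indicator hGm
  have hI : ∫ p, G.indicator (fun _ => (1 : ℝ)) p ∂((gam κ).prod (gam ι)) =
      ((gam κ).prod (gam ι)).real G := by
    rw [integral_indicator hGm]
    simp
  have hc1 : Integrable (fun _ : (κ → ℝ) × (ι → ℝ) => b2 / 2) ((gam κ).prod (gam ι)) :=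
    integrable_const _
  have j1 : Integrable (fun p : (κ → ℝ) × (ι → ℝ) => b2 / 2 + acvec_W D p ^ 4 / (36 * b2))
      ((gam κ).prod (gam ι)) := hc1.add (w4i.div_const _)
  have j2 : Integrable (fun p : (κ → ℝ) × (ι → ℝ) => b2 / 2 + acvec_W D p ^ 4 / (36 * b2) +
      9 * b2 * G.indicator (fun _ => (1 : ℝ)) p) ((gam κ).prod (gam ι)) :=
    j1.add (hI1.const_mul _)
  have j3 : Integrable (fun p : (κ → ℝ) × (ι → ℝ) =>
      (b2 / 8) * ((∑ l, q l * p.1 l) ^ 2 / a2)) ((gam κ).prod (gam ι)) :=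
    (hUint.div_const _).const_mul _
  have key := integral_mono w2i (j2.add j3) hpt
  have e1 : ∫ p : (κ → ℝ) × (ι → ℝ), (b2 / 2 + acvec_W D p ^ 4 / (36 * b2) +
      9 * b2 * G.indicator (fun _ => (1 : ℝ)) p +
      (b2 / 8) * ((∑ l, q l * p.1 l) ^ 2 / a2)) ∂((gam κ).prod (gam ι)) =
      b2 / 2 + (∫ p, acvec_W D p ^ 4 ∂((gam κ).prod (gam ι))) / (36 * b2) +
      9 * b2 * ((gam κ).prod (gam ι)).real G + (b2 / 8) * (a2 / a2) := by
    rw [integral_add j2 j3, integral_add j1 (hI1.const_mul _),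
      integral_add hc1 (w4i.div_const _), integral_const_mul, integral_const_mul,
      integral_div, integral_div, integral_div, hI, hU, integral_const, probReal_univ,
      one_smul]
  have key2 : b2 ≤ b2 / 2 + (∫ p, acvec_W D p ^ 4 ∂((gam κ).prod (gam ι))) / (36 * b2) +
      9 * b2 * ((gam κ).prod (gam ι)).real G + (b2 / 8) * (a2 / a2) := by
    rw [← e1]
    calc b2 = ∫ p, acvec_W D p ^ 2 ∂((gam κ).prod (gam ι)) := w2.symm
      _ ≤ _ := key
  have h9 : (∫ p, acvec_W D p ^ 4 ∂((gam κ).prod (gam ι))) / (36 * b2) ≤ b2 / 4 := by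
    rw [div_le_iff₀ (by positivity)]
    calc _ ≤ _ := w4
      _ = _ := by ring
  have h10 : a2 / a2 ≤ 1 := div_self_le_one a2
  have h11 : (b2 / 8) * (a2 / a2) ≤ b2 / 8 := by nlinarith
  have h12 : b2 * (1 / 72) ≤ b2 * ((gam κ).prod (gam ι)).real G := by linarith
  exact le_of_mul_le_mul_left h12 hb0

/-! ### The theorem -/

theorem acvec_deg {d : ℕ} (q : κ → MvPolynomial ι ℝ) (hq : ∀ l, (q l).totalDegree ≤ d)
    (z : κ → ℝ) : (∑ l, C (z l) * q l).totalDegree ≤ d := by
  refine MvPolynomial.totalDegree_finsetSum_le fun l _ => ?_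
  refine (MvPolynomial.totalDegree_mul _ _).trans ?_
  rw [MvPolynomial.totalDegree_C, zero_add]
  exact hq l

theorem acvec_eval (q : κ → MvPolynomial ι ℝ) (z : κ → ℝ) (x : ι → ℝ) :
    eval x (∑ l, C (z l) * q l) = ∑ l, eval x (q l) * z l := by
  rw [map_sum]
  refine Finset.sum_congr rfl fun l _ => ?_
  rw [map_mul, eval_C, mul_comm]

theorem acvec_evald (q : κ → MvPolynomial ι ℝ) (z : κ → ℝ) (x y : ι → ℝ) :
    ∑ j, y j * eval x (pderiv j (∑ l, C (z l) * q l)) =
      acvec_W (fun l j => eval x (pderiv j (q l))) (z, y) := by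
  unfold acvec_W
  refine Finset.sum_congr rfl fun j _ => ?_
  rw [mul_comm, map_sum, map_sum]
  congr 1
  refine Finset.sum_congr rfl fun l _ => ?_
  rw [pderiv_C_mul, map_mul, eval_C, mul_comm]

theorem ac_vec {d : ℕ} (hd : 1 ≤ d) {κ : Type} [Fintype κ] [DecidableEq κ]
    (q : κ → MvPolynomial ι ℝ) (hq : ∀ l, (q l).totalDegree ≤ d) {η : ℝ} (hη : 0 < η) :
    (gam ι).real {x | ∑ l, (eval x (q l)) ^ 2 <
      η ^ 2 * ∑ l, ∑ j, (eval x (pderiv j (q l))) ^ 2} ≤ 69120 * d * η := by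
  set B : Set (ι → ℝ) := {x | ∑ l, (eval x (q l)) ^ 2 <
      η ^ 2 * ∑ l, ∑ j, (eval x (pderiv j (q l))) ^ 2} with hB
  set F : (ι → ℝ) → (κ → ℝ) → ℝ := fun x z => ∑ l, eval x (q l) * z l with hF
  set W : (ι → ℝ) → (κ → ℝ) → (ι → ℝ) → ℝ := fun x z y =>
    ∑ j, (∑ l, eval x (pderiv j (q l)) * z l) * y j with hW
  set T : Set ((ι → ℝ) × ((κ → ℝ) × (ι → ℝ))) :=
    {t | |F t.1 t.2.1| < 12 * η * |W t.1 t.2.1 t.2.2|} with hT
  have hFc : Continuous fun t : (ι → ℝ) × ((κ → ℝ) × (ι → ℝ)) => F t.1 t.2.1 := by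
    have := fun l => eval_continuous (q l)
    simp only [hF]
    refine continuous_finsetSum _ fun l _ => ?_
    exact ((this l).comp continuous_fst).mul (by fun_prop)
  have hWc : Continuous fun t : (ι → ℝ) × ((κ → ℝ) × (ι → ℝ)) => W t.1 t.2.1 t.2.2 := by
    have := fun l j => eval_continuous (pderiv j (q l))
    simp only [hW]
    refine continuous_finsetSum _ fun j _ => Continuous.mul ?_ (by fun_prop)
    refine continuous_finsetSum _ fun l _ => ?_
    exact ((this l j).comp continuous_fst).mul (by fun_prop)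
  have hTm : MeasurableSet T :=
    (isOpen_lt hFc.abs (continuous_const.mul hWc.abs)).measurableSet
  have hBm : MeasurableSet B := by
    have h1 : Continuous fun x : ι → ℝ => ∑ l, (eval x (q l)) ^ 2 := by
      have := fun l => eval_continuous (q l)
      exact continuous_finsetSum _ fun l _ => (this l).pow 2
    have h2 : Continuous fun x : ι → ℝ =>
        η ^ 2 * ∑ l, ∑ j, (eval x (pderiv j (q l))) ^ 2 := by
      have := fun l j => eval_continuous (pderiv j (q l))
      exact continuous_const.mul (continuous_finsetSum _ fun l _ =>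
        continuous_finsetSum _ fun j _ => (this l j).pow 2)
    exact (isOpen_lt h1 h2).measurableSet
  -- lower bound
  have hlow : gam ι B * ENNReal.ofReal (1 / 72) ≤
      ((gam ι).prod ((gam κ).prod (gam ι))) T := by
    rw [Measure.prod_apply hTm]
    calc gam ι B * ENNReal.ofReal (1 / 72)
        = ∫⁻ x, B.indicator (fun _ => ENNReal.ofReal (1 / 72)) x ∂(gam ι) := by
          rw [lintegral_indicator hBm]
          simp [mul_comm]
      _ ≤ ∫⁻ x, ((gam κ).prod (gam ι)) (Prod.mk x ⁻¹' T) ∂(gam ι) := by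
          refine lintegral_mono fun x => ?_
          by_cases hx : x ∈ B
          · rw [Set.indicator_of_mem hx]
            have h := acvec_fibre (fun l => eval x (q l))
              (fun l j => eval x (pderiv j (q l))) hη hx
            have e : Prod.mk x ⁻¹' T = {p : (κ → ℝ) × (ι → ℝ) |
                |∑ l, eval x (q l) * p.1 l| <
                  12 * η * |acvec_W (fun l j => eval x (pderiv j (q l))) p|} := rfl
            rw [e]
            rw [ENNReal.ofReal_le_iff_le_toReal (measure_ne_top _ _)]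
            exact h
          · rw [Set.indicator_of_notMem hx]
            exact zero_le
  -- upper bound
  have hup : ((gam ι).prod ((gam κ).prod (gam ι))) T ≤ ENNReal.ofReal (960 * d * η) := by
    rw [Measure.prod_apply hTm]
    have h1 : ∀ x : ι → ℝ, ((gam κ).prod (gam ι)) (Prod.mk x ⁻¹' T) =
        ∫⁻ z, gam ι {y | |F x z| < 12 * η * |W x z y|} ∂(gam κ) := by
      intro x
      rw [Measure.prod_apply (measurable_prodMk_left hTm)]
      rfl
    simp_rw [h1]
    rw [lintegral_lintegral_swap]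
    · calc ∫⁻ z, ∫⁻ x, gam ι {y | |F x z| < 12 * η * |W x z y|} ∂(gam ι) ∂(gam κ)
          ≤ ∫⁻ _, ENNReal.ofReal (960 * d * η) ∂(gam κ) := by
            refine lintegral_mono fun z => ?_
            have h2 := ac_dir hd (∑ l, C (z l) * q l) (acvec_deg q hq z)
              (η := 12 * η) (by positivity)
            set S : Set ((ι → ℝ) × (ι → ℝ)) := {p | |eval p.1 (∑ l, C (z l) * q l)| <
              12 * η * |∑ j, p.2 j * eval p.1 (pderiv j (∑ l, C (z l) * q l))|} with hS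
            have hSm : MeasurableSet S := by
              have a1 := eval_continuous (∑ l, C (z l) * q l)
              have a2 := fun j => eval_continuous (pderiv j (∑ l, C (z l) * q l))
              refine (isOpen_lt (a1.comp continuous_fst).abs
                (continuous_const.mul (Continuous.abs ?_))).measurableSet
              exact continuous_finsetSum _ fun j _ =>
                Continuous.mul (by fun_prop) ((a2 j).comp continuous_fst)
            have h3 : ((gam ι).prod (gam ι)) S ≤ ENNReal.ofReal (960 * d * η) := by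
              rw [ENNReal.le_ofReal_iff_toReal_le (measure_ne_top _ _) (by positivity)]
              calc (((gam ι).prod (gam ι)) S).toReal ≤ 80 * d * (12 * η) := h2
                _ = _ := by ring
            rw [Measure.prod_apply hSm] at h3
            refine le_trans (le_of_eq ?_) h3
            refine lintegral_congr fun x => ?_
            congr 1
            ext y
            simp only [hS, Set.mem_preimage, Set.mem_setOf_eq, hF, hW]
            rw [acvec_eval, acvec_evald]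
            rfl
        _ = ENNReal.ofReal (960 * d * η) := by simp
    · have h4 : Measurable fun p : (ι → ℝ) × (κ → ℝ) =>
          gam ι {y | |F p.1 p.2| < 12 * η * |W p.1 p.2 y|} := by
        have h5 : MeasurableSet {t : ((ι → ℝ) × (κ → ℝ)) × (ι → ℝ) |
            |F t.1.1 t.1.2| < 12 * η * |W t.1.1 t.1.2 t.2|} := by
          have e : {t : ((ι → ℝ) × (κ → ℝ)) × (ι → ℝ) |
              |F t.1.1 t.1.2| < 12 * η * |W t.1.1 t.1.2 t.2|} =
              (fun t : ((ι → ℝ) × (κ → ℝ)) × (ι → ℝ) => (t.1.1, (t.1.2, t.2))) ⁻¹' T := rfl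
          rw [e]
          exact hTm.preimage (by fun_prop)
        exact measurable_measure_prodMk_left h5
      exact h4.aemeasurable
  have h6 := hlow.trans hup
  have h7 : (gam ι).real B * (1 / 72) ≤ 960 * d * η := by
    have h8 := ENNReal.toReal_mono ENNReal.ofReal_ne_top h6
    rw [ENNReal.toReal_mul, ENNReal.toReal_ofReal (by norm_num),
      ENNReal.toReal_ofReal (by positivity)] at h8
    exact h8
  calc (gam ι).real B = 72 * ((gam ι).real B * (1 / 72)) := by ring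
    _ ≤ 72 * (960 * d * η) := by gcongr
    _ = 69120 * d * η := by ring

end Pool.Agent.KWG
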