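import Pool.Agent.Lib.MP_68391b_lc.Gen.GMul

/-! The commutator polynomial E. -/

set_option linter.unusedSectionVars false

namespace Pool.Agent.KWG

open MeasureTheory ProbabilityTheory MvPolynomial Pool.Agent.KWI

variable {ι : Type} [Fintype ι] [DecidableEq ι]

/-- Hermite coefficient of a polynomial. -/
noncomputable def comm_cc (q : MvPolynomial ι ℝ) (α : ι → ℕ) : ℝ :=
  ∫ x, eval x q * eval x (hp α) ∂(gam ι)

/-- Part of the Hermite expansion of a polynomial with levels in `T`. -/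
noncomputable def comm_ps (T : Finset ℕ) (q : MvPolynomial ι ℝ) : MvPolynomial ι ℝ :=
  ∑ k ∈ T, ∑ α ∈ lev ι k, C (comm_cc q α) * hp α

theorem comm_sum_degree (T : Finset ℕ) (N : ℕ) (hT : ∀ k ∈ T, k ≤ N) (c : (ι → ℕ) → ℝ) :
    (∑ k ∈ T, ∑ α ∈ lev ι k, C (c α) * hp α : MvPolynomial ι ℝ).totalDegree ≤ N := by
  refine MvPolynomial.totalDegree_finsetSum_le fun k hk => ?_
  refine MvPolynomial.totalDegree_finsetSum_le fun α hα => ?_
  refine (MvPolynomial.totalDegree_mul _ _).trans ?_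
  rw [totalDegree_C, zero_add]
  refine (hp_degree α).trans ?_
  rw [mem_lev.1 hα]
  exact hT k hk

theorem comm_pt_degree (A q : MvPolynomial ι ℝ) (N₀ : ℕ) (s : ℝ) :
    (PT N₀ s A q).totalDegree ≤ N₀ := by
  unfold PT
  exact comm_sum_degree _ N₀ (fun k hk => by simpa [Nat.lt_succ_iff] using hk) _

theorem comm_degree (A : MvPolynomial ι ℝ) {D : ℕ} (hD : A.totalDegree ≤ D) (N₀ : ℕ) (s : ℝ) :
    (EE N₀ s A).totalDegree ≤ N₀ + D := by
  unfold EE
  refine (MvPolynomial.totalDegree_sub _ _).trans (max_le ?_ ?_)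
  · exact (comm_pt_degree A A N₀ s).trans (Nat.le_add_right _ _)
  · refine (MvPolynomial.totalDegree_mul _ _).trans ?_
    have := comm_pt_degree A 1 N₀ s
    omega

/-- Any linear functional on a Hermite sum. -/
theorem comm_int_sum {F : (ι → ℝ) → ℝ}
    (hF : ∀ q : MvPolynomial ι ℝ, Integrable (fun x => eval x q * F x) (gam ι))
    (T : Finset ℕ) (c : (ι → ℕ) → ℝ) :
    ∫ x, eval x (∑ k ∈ T, ∑ α ∈ lev ι k, C (c α) * hp α) * F x ∂(gam ι) =
      ∑ k ∈ T, ∑ α ∈ lev ι k, c α * ∫ x, eval x (hp α) * F x ∂(gam ι) := by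
  have e : (fun x => eval x (∑ k ∈ T, ∑ α ∈ lev ι k, C (c α) * hp α) * F x) =
      fun x => ∑ k ∈ T, ∑ α ∈ lev ι k, c α * (eval x (hp α) * F x) := by
    funext x
    simp only [map_sum, map_mul, eval_C, Finset.sum_mul]
    refine Finset.sum_congr rfl fun k _ => Finset.sum_congr rfl fun α _ => by ring
  have i1 : ∀ α : ι → ℕ, Integrable (fun x => c α * (eval x (hp α) * F x)) (gam ι) :=
    fun α => (hF (hp α)).const_mul _
  rw [e, integral_finsetSum _ fun k _ => integrable_finsetSum _ fun α _ => i1 α]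
  refine Finset.sum_congr rfl fun k _ => ?_
  rw [integral_finsetSum _ fun α _ => i1 α]
  exact Finset.sum_congr rfl fun α _ => integral_const_mul _ _

theorem comm_cc_sum (T : Finset ℕ) (c : (ι → ℕ) → ℝ) (β : ι → ℕ) :
    comm_cc (∑ k ∈ T, ∑ α ∈ lev ι k, C (c α) * hp α) β = if ∑ i, β i ∈ T then c β else 0 := by
  unfold comm_cc
  rw [comm_int_sum (fun q => poly_integrable_mul q (hp β)) T c]
  simp only [hp_orth, mul_ite, mul_one, mul_zero]
  have h1 : ∀ k ∈ T, (∑ α ∈ lev ι k, if α = β then c α else 0) =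
      if k = ∑ i, β i then c β else 0 := by
    intro k _
    rw [Finset.sum_ite_eq']
    by_cases h : k = ∑ i, β i
    · rw [if_pos h, if_pos (mem_lev.2 h.symm)]
    · rw [if_neg h, if_neg fun h' => h (mem_lev.1 h').symm]
  rw [Finset.sum_congr rfl h1, Finset.sum_ite_eq']

theorem comm_cc_ps (T : Finset ℕ) (q : MvPolynomial ι ℝ) (β : ι → ℕ) :
    comm_cc (comm_ps T q) β = if ∑ i, β i ∈ T then comm_cc q β else 0 :=
  comm_cc_sum T (comm_cc q) β

theorem comm_ps_degree (T : Finset ℕ) (N : ℕ) (hT : ∀ k ∈ T, k ≤ N) (q : MvPolynomial ι ℝ) :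
    (comm_ps T q).totalDegree ≤ N := comm_sum_degree T N hT _

theorem comm_parseval (N : ℕ) (q : MvPolynomial ι ℝ) (hq : q.totalDegree ≤ N) :
    n2 q ^ 2 = ∑ k ∈ Finset.range (N + 1), ∑ α ∈ lev ι k, (comm_cc q α) ^ 2 :=
  parseval N q hq

theorem comm_ps_le (T : Finset ℕ) (N : ℕ) (hT : ∀ k ∈ T, k ≤ N) (q : MvPolynomial ι ℝ)
    (hq : q.totalDegree ≤ N) : n2 (comm_ps T q) ≤ n2 q := by
  refine le_of_sq_le_sq ?_ (n2_nonneg q)
  rw [comm_parseval N _ (comm_ps_degree T N hT q), comm_parseval N q hq]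
  refine Finset.sum_le_sum fun k _ => Finset.sum_le_sum fun α _ => ?_
  rw [comm_cc_ps]
  split_ifs
  · exact le_rfl
  · simpa using sq_nonneg (comm_cc q α)

theorem comm_part_le (T : Finset ℕ) (N : ℕ) (hT : ∀ k ∈ T, k ≤ N) (q : MvPolynomial ι ℝ)
    (hq : q.totalDegree ≤ N) :
    √(∑ k ∈ T, ∑ α ∈ lev ι k, (comm_cc q α) ^ 2) ≤ n2 q := by
  apply Real.sqrt_le_iff.2
  refine ⟨n2_nonneg q, ?_⟩
  rw [comm_parseval N q hq]
  refine Finset.sum_le_sum_of_subset_of_nonneg ?_ fun k _ _ =>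
    Finset.sum_nonneg fun α _ => sq_nonneg _
  intro k hk
  have := hT k hk
  simp only [Finset.mem_range]
  omega

theorem comm_expand (N : ℕ) (q : MvPolynomial ι ℝ) (hq : q.totalDegree ≤ N) :
    q = comm_ps (Finset.range (N + 1)) q := hp_expand N q hq

theorem comm_cauchy (T : Finset ℕ) (a b : (ι → ℕ) → ℝ) :
    ∑ k ∈ T, ∑ α ∈ lev ι k, a α * b α ≤
      √(∑ k ∈ T, ∑ α ∈ lev ι k, (a α) ^ 2) * √(∑ k ∈ T, ∑ α ∈ lev ι k, (b α) ^ 2) := by
  rw [Finset.sum_sigma', Finset.sum_sigma', Finset.sum_sigma']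
  exact Real.sum_mul_le_sqrt_mul_sqrt _ _ _

theorem comm_int_PT (N₀ : ℕ) (s : ℝ) (A g u : MvPolynomial ι ℝ) :
    ∫ x, eval x (PT N₀ s A g) * eval x u ∂(gam ι) =
      ∑ k ∈ Finset.range (N₀ + 1), ∑ α ∈ lev ι k, cf s A g α * comm_cc u α := by
  unfold PT
  rw [comm_int_sum (fun q => poly_integrable_mul q u)]
  refine Finset.sum_congr rfl fun k _ => Finset.sum_congr rfl fun α _ => ?_
  unfold comm_cc
  congr 2
  funext x
  ring

theorem comm_int_Hx {A : MvPolynomial ι ℝ} (hA : ∀ x, 0 ≤ eval x A) {s : ℝ} (hs : 0 ≤ s)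
    (T : Finset ℕ) (c : (ι → ℕ) → ℝ) (g : MvPolynomial ι ℝ) :
    ∫ x, eval x (∑ k ∈ T, ∑ α ∈ lev ι k, C (c α) * hp α) * (eval x g * Hx s A x) ∂(gam ι) =
      ∑ k ∈ T, ∑ α ∈ lev ι k, c α * cf s A g α := by
  rw [comm_int_sum (F := fun x => eval x g * Hx s A x)]
  · refine Finset.sum_congr rfl fun k _ => Finset.sum_congr rfl fun α _ => ?_
    unfold cf
    congr 2
    funext x
    ring
  · intro q
    have := gam_Hx_integrable hs hA (q * g)
    refine this.congr (Filter.Eventually.of_forall fun x => ?_)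
    simp only [map_mul]
    ring

/-- The main identity. -/
theorem comm_ident {A : MvPolynomial ι ℝ} (hA : ∀ x, 0 ≤ eval x A) {D : ℕ}
    (hD : A.totalDegree ≤ D) (N₀ : ℕ) {s : ℝ} (hs : 0 ≤ s) (u : MvPolynomial ι ℝ)
    (hu : u.totalDegree ≤ N₀ + D) :
    ∫ x, eval x (EE N₀ s A) * eval x u ∂(gam ι) =
      ∑ k ∈ Finset.Ioc N₀ (N₀ + D), ∑ α ∈ lev ι k,
        comm_cc (A * comm_ps (Finset.range (N₀ + 1)) u) α * cf s A 1 α -
      ∑ k ∈ Finset.range (N₀ + 1), ∑ α ∈ lev ι k,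
        comm_cc (A * comm_ps (Finset.Ioc N₀ (N₀ + D)) u) α * cf s A 1 α := by
  set u1 := comm_ps (Finset.range (N₀ + 1)) u with hu1
  set u2 := comm_ps (Finset.Ioc N₀ (N₀ + D)) u with hu2
  have split : ∀ f : ℕ → ℝ, ∑ k ∈ Finset.range (N₀ + D + 1), f k =
      ∑ k ∈ Finset.range (N₀ + 1), f k + ∑ k ∈ Finset.Ioc N₀ (N₀ + D), f k := by
    intro f
    rw [← Finset.sum_union]
    · congr 1
      ext k
      simp only [Finset.mem_range, Finset.mem_union, Finset.mem_Ioc]
      omega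
    · rw [Finset.disjoint_left]
      intro k hk hk'
      simp only [Finset.mem_range, Finset.mem_Ioc] at hk hk'
      omega
  have splitP : ∀ f : ℕ → MvPolynomial ι ℝ, ∑ k ∈ Finset.range (N₀ + D + 1), f k =
      ∑ k ∈ Finset.range (N₀ + 1), f k + ∑ k ∈ Finset.Ioc N₀ (N₀ + D), f k := by
    intro f
    rw [← Finset.sum_union]
    · congr 1
      ext k
      simp only [Finset.mem_range, Finset.mem_union, Finset.mem_Ioc]
      omega
    · rw [Finset.disjoint_left]
      intro k hk hk'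
      simp only [Finset.mem_range, Finset.mem_Ioc] at hk hk'
      omega
  have hu12 : u = u1 + u2 := by
    conv_lhs => rw [comm_expand (N₀ + D) u hu]
    exact splitP _
  have hu1d : u1.totalDegree ≤ N₀ := comm_ps_degree _ N₀ (fun k hk => by
    simp only [Finset.mem_range] at hk; omega) u
  -- first term
  have t1 : ∫ x, eval x (PT N₀ s A A) * eval x u ∂(gam ι) =
      ∑ k ∈ Finset.range (N₀ + D + 1), ∑ α ∈ lev ι k, comm_cc (A * u1) α * cf s A 1 α := by
    rw [comm_int_PT]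
    have e1 : ∑ k ∈ Finset.range (N₀ + 1), ∑ α ∈ lev ι k, cf s A A α * comm_cc u α =
        ∫ x, eval x u1 * (eval x A * Hx s A x) ∂(gam ι) := by
      rw [hu1]
      unfold comm_ps
      rw [comm_int_Hx hA hs]
      exact Finset.sum_congr rfl fun k _ => Finset.sum_congr rfl fun α _ => mul_comm _ _
    have e2 : ∫ x, eval x u1 * (eval x A * Hx s A x) ∂(gam ι) =
        ∫ x, eval x (comm_ps (Finset.range (N₀ + D + 1)) (A * u1)) *
          (eval x (1 : MvPolynomial ι ℝ) * Hx s A x) ∂(gam ι) := by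
      rw [← comm_expand (N₀ + D) (A * u1)
        ((MvPolynomial.totalDegree_mul _ _).trans (by omega))]
      congr 1
      funext x
      simp only [map_mul, map_one]
      ring
    rw [e1, e2]
    unfold comm_ps
    rw [comm_int_Hx hA hs]
  -- second term
  have t2 : ∫ x, eval x (A * PT N₀ s A 1) * eval x u ∂(gam ι) =
      ∑ k ∈ Finset.range (N₀ + 1), ∑ α ∈ lev ι k, comm_cc (A * u1) α * cf s A 1 α +
      ∑ k ∈ Finset.range (N₀ + 1), ∑ α ∈ lev ι k, comm_cc (A * u2) α * cf s A 1 α := by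
    have e1 : ∫ x, eval x (A * PT N₀ s A 1) * eval x u ∂(gam ι) =
        ∫ x, eval x (PT N₀ s A 1) * eval x (A * u) ∂(gam ι) := by
      congr 1
      funext x
      simp only [map_mul]
      ring
    rw [e1, comm_int_PT, ← Finset.sum_add_distrib]
    refine Finset.sum_congr rfl fun k _ => ?_
    rw [← Finset.sum_add_distrib]
    refine Finset.sum_congr rfl fun α _ => ?_
    have e2 : comm_cc (A * u) α = comm_cc (A * u1) α + comm_cc (A * u2) α := by
      unfold comm_cc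
      rw [← integral_add (poly_integrable_mul _ _) (poly_integrable_mul _ _)]
      congr 1
      funext x
      conv_lhs => rw [hu12]
      simp only [map_mul, map_add]
      ring
    rw [e2]
    ring
  have t3 : ∫ x, eval x (EE N₀ s A) * eval x u ∂(gam ι) =
      ∫ x, eval x (PT N₀ s A A) * eval x u ∂(gam ι) -
        ∫ x, eval x (A * PT N₀ s A 1) * eval x u ∂(gam ι) := by
    rw [← integral_sub (poly_integrable_mul _ _) (poly_integrable_mul _ _)]
    congr 1
    funext x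
    unfold EE
    simp only [map_sub]
    ring
  rw [t3, t1, t2, split]
  ring

theorem comm_vanish {A : MvPolynomial ι ℝ} {D : ℕ} (hD : A.totalDegree ≤ D) (N₀ : ℕ)
    (u : MvPolynomial ι ℝ) (α : ι → ℕ) (hα : ∑ i, α i + D ≤ N₀) :
    comm_cc (A * comm_ps (Finset.Ioc N₀ (N₀ + D)) u) α = 0 := by
  set u2 := comm_ps (Finset.Ioc N₀ (N₀ + D)) u with hu2
  have e1 : comm_cc (A * u2) α = ∫ x, eval x (A * hp α) * eval x u2 ∂(gam ι) := by
    unfold comm_cc
    congr 1
    funext x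
    simp only [map_mul]
    ring
  rw [e1]
  have hdeg : (A * hp α).totalDegree ≤ N₀ := by
    refine (MvPolynomial.totalDegree_mul _ _).trans ?_
    have := hp_degree α
    omega
  rw [comm_expand N₀ (A * hp α) hdeg]
  unfold comm_ps
  rw [comm_int_sum (fun q => poly_integrable_mul q u2)]
  refine Finset.sum_eq_zero fun k hk => Finset.sum_eq_zero fun β hβ => ?_
  have e2 : ∫ x, eval x (hp β) * eval x u2 ∂(gam ι) = comm_cc u2 β := by
    unfold comm_cc
    congr 1
    funext x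
    ring
  rw [e2, hu2, comm_cc_ps, if_neg, mul_zero]
  rw [mem_lev.1 hβ]
  simp only [Finset.mem_range, Finset.mem_Ioc] at hk ⊢
  omega

theorem comm_bound {A : MvPolynomial ι ℝ} (hA : ∀ x, 0 ≤ eval x A) {D : ℕ}
    (hD : A.totalDegree ≤ D) (N₀ : ℕ) (hN : D ≤ N₀) {s : ℝ} (hs : 0 ≤ s) :
    n2 (EE N₀ s A) ≤ 2 * (1 + 2 * √((N₀ : ℝ) + 2 * D)) ^ D * n2 A *
      √(∑ k ∈ Finset.Ioc (N₀ - D) (N₀ + D), ∑ α ∈ lev ι k, (cf s A 1 α) ^ 2) := by
  set E := EE N₀ s A with hE
  set κ := (1 + 2 * √((N₀ : ℝ) + 2 * D)) ^ D with hκ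
  set S := ∑ k ∈ Finset.Ioc (N₀ - D) (N₀ + D), ∑ α ∈ lev ι k, (cf s A 1 α) ^ 2 with hS
  have hEd : E.totalDegree ≤ N₀ + D := comm_degree A hD N₀ s
  set u1 := comm_ps (Finset.range (N₀ + 1)) E with hu1
  set u2 := comm_ps (Finset.Ioc N₀ (N₀ + D)) E with hu2
  have hκ0 : 0 ≤ κ := by positivity
  have hu1d : u1.totalDegree ≤ N₀ := comm_ps_degree _ N₀ (fun k hk => by
    simp only [Finset.mem_range] at hk; omega) E
  have hu2d : u2.totalDegree ≤ N₀ + D := comm_ps_degree _ (N₀ + D) (fun k hk => by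
    simp only [Finset.mem_Ioc] at hk; omega) E
  have hu1n : n2 u1 ≤ n2 E := comm_ps_le _ (N₀ + D) (fun k hk => by
    simp only [Finset.mem_range] at hk; omega) E hEd
  have hu2n : n2 u2 ≤ n2 E := comm_ps_le _ (N₀ + D) (fun k hk => by
    simp only [Finset.mem_Ioc] at hk; omega) E hEd
  have hm1 : n2 (A * u1) ≤ κ * n2 A * n2 E := by
    refine (mul_bound D N₀ A u1 hD hu1d).trans ?_
    have h1 : (1 + 2 * √((D : ℝ) + N₀)) ^ D ≤ κ := by
      rw [hκ]
      refine pow_le_pow_left₀ (by positivity) ?_ D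
      have : √((D : ℝ) + N₀) ≤ √((N₀ : ℝ) + 2 * D) := by
        apply Real.sqrt_le_sqrt
        have : (0 : ℝ) ≤ D := Nat.cast_nonneg _
        linarith
      linarith
    exact mul_le_mul (mul_le_mul_of_nonneg_right h1 (n2_nonneg A)) hu1n (n2_nonneg _)
      (mul_nonneg hκ0 (n2_nonneg A))
  have hm2 : n2 (A * u2) ≤ κ * n2 A * n2 E := by
    refine (mul_bound D (N₀ + D) A u2 hD hu2d).trans ?_
    have h1 : (1 + 2 * √((D : ℝ) + ((N₀ + D : ℕ) : ℝ))) ^ D ≤ κ := by
      rw [hκ]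
      refine pow_le_pow_left₀ (by positivity) ?_ D
      have : √((D : ℝ) + ((N₀ + D : ℕ) : ℝ)) ≤ √((N₀ : ℝ) + 2 * D) := by
        apply Real.sqrt_le_sqrt
        push_cast
        linarith
      linarith
    exact mul_le_mul (mul_le_mul_of_nonneg_right h1 (n2_nonneg A)) hu2n (n2_nonneg _)
      (mul_nonneg hκ0 (n2_nonneg A))
  have hAu1d : (A * u1).totalDegree ≤ N₀ + D :=
    (MvPolynomial.totalDegree_mul _ _).trans (by omega)
  have hAu2d : (A * u2).totalDegree ≤ N₀ + 2 * D :=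
    (MvPolynomial.totalDegree_mul _ _).trans (by omega)
  have key := comm_ident hA hD N₀ hs E hEd
  have hself : ∫ x, eval x E * eval x E ∂(gam ι) = n2 E ^ 2 := by
    rw [n2_sq]
    congr 1
    funext x
    ring
  rw [hself] at key
  -- first sum
  have b1 : ∑ k ∈ Finset.Ioc N₀ (N₀ + D), ∑ α ∈ lev ι k, comm_cc (A * u1) α * cf s A 1 α ≤
      n2 (A * u1) * √S := by
    refine (comm_cauchy _ _ _).trans ?_
    refine mul_le_mul ?_ ?_ (Real.sqrt_nonneg _) (n2_nonneg _)
    · exact comm_part_le _ (N₀ + D) (fun k hk => by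
        simp only [Finset.mem_Ioc] at hk; omega) _ hAu1d
    · apply Real.sqrt_le_sqrt
      refine Finset.sum_le_sum_of_subset_of_nonneg ?_ fun k _ _ =>
        Finset.sum_nonneg fun α _ => sq_nonneg _
      intro k hk
      simp only [Finset.mem_Ioc] at hk ⊢
      omega
  have b2 : -(∑ k ∈ Finset.range (N₀ + 1), ∑ α ∈ lev ι k,
      comm_cc (A * u2) α * cf s A 1 α) ≤ n2 (A * u2) * √S := by
    have e0 : ∑ k ∈ Finset.range (N₀ + 1), ∑ α ∈ lev ι k, comm_cc (A * u2) α * cf s A 1 α =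
        ∑ k ∈ Finset.Ioc (N₀ - D) N₀, ∑ α ∈ lev ι k, comm_cc (A * u2) α * cf s A 1 α := by
      symm
      apply Finset.sum_subset
      · intro k hk
        simp only [Finset.mem_Ioc, Finset.mem_range] at hk ⊢
        omega
      · intro k hk hk'
        refine Finset.sum_eq_zero fun α hα => ?_
        rw [comm_vanish hD N₀ E α, zero_mul]
        rw [mem_lev.1 hα]
        simp only [Finset.mem_Ioc, Finset.mem_range] at hk hk'
        omega
    rw [e0, ← Finset.sum_neg_distrib]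
    have e1 : ∑ k ∈ Finset.Ioc (N₀ - D) N₀, -∑ α ∈ lev ι k, comm_cc (A * u2) α * cf s A 1 α =
        ∑ k ∈ Finset.Ioc (N₀ - D) N₀, ∑ α ∈ lev ι k,
          comm_cc (A * u2) α * (-cf s A 1 α) := by
      refine Finset.sum_congr rfl fun k _ => ?_
      rw [← Finset.sum_neg_distrib]
      exact Finset.sum_congr rfl fun α _ => by ring
    rw [e1]
    refine (comm_cauchy _ _ _).trans ?_
    refine mul_le_mul ?_ ?_ (Real.sqrt_nonneg _) (n2_nonneg _)
    · exact comm_part_le _ (N₀ + 2 * D) (fun k hk => by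
        simp only [Finset.mem_Ioc] at hk; omega) _ hAu2d
    · apply Real.sqrt_le_sqrt
      simp only [neg_sq]
      refine Finset.sum_le_sum_of_subset_of_nonneg ?_ fun k _ _ =>
        Finset.sum_nonneg fun α _ => sq_nonneg _
      intro k hk
      simp only [Finset.mem_Ioc] at hk ⊢
      omega
  have hSs : 0 ≤ √S := Real.sqrt_nonneg _
  have tot : n2 E ^ 2 ≤ 2 * κ * n2 A * √S * n2 E := by
    have c1 := mul_le_mul_of_nonneg_right hm1 hSs
    have c2 := mul_le_mul_of_nonneg_right hm2 hSs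
    calc n2 E ^ 2 = _ := key
      _ ≤ n2 (A * u1) * √S + n2 (A * u2) * √S := by linarith
      _ ≤ κ * n2 A * n2 E * √S + κ * n2 A * n2 E * √S := add_le_add c1 c2
      _ = _ := by ring
  have hnE := n2_nonneg E
  by_cases h0 : n2 E = 0
  · rw [h0]
    have := n2_nonneg A
    positivity
  · have hpos : 0 < n2 E := lt_of_le_of_ne hnE (Ne.symm h0)
    rw [sq] at tot
    exact le_of_mul_le_mul_right tot hpos

end Pool.Agent.KWG
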