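import Pool.Agent.Lib.MP_68391b_lc.Gen.GDefs

/-! Gaussian integration by parts. -/

set_option linter.unusedSectionVars false

namespace Pool.Agent.KWG

open MeasureTheory ProbabilityTheory MvPolynomial Pool.Agent.KWI

variable {ι : Type} [Fintype ι] [DecidableEq ι]

/-- The Gaussian density on `ι → ℝ`. -/
noncomputable def ibp_phi (x : ι → ℝ) : ℝ := ∏ i, gaussianPDFReal 0 1 (x i)

theorem ibp_phi_nonneg (x : ι → ℝ) : 0 ≤ ibp_phi x :=
  Finset.prod_nonneg fun i _ => gaussianPDFReal_nonneg 0 1 (x i)

theorem ibp_phi_measurable : Measurable (ibp_phi : (ι → ℝ) → ℝ) := by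
  unfold ibp_phi
  refine Finset.measurable_fun_prod _ fun i _ => ?_
  exact (measurable_gaussianPDFReal 0 1).comp (measurable_pi_apply i)

theorem ibp_density :
    gam ι = (volume : Measure (ι → ℝ)).withDensity (fun x => ENNReal.ofReal (ibp_phi x)) := by
  unfold gam
  refine Measure.pi_eq fun s hs => ?_
  have hS : MeasurableSet (Set.pi Set.univ s) := MeasurableSet.univ_pi hs
  rw [withDensity_apply _ hS]
  -- the indicator functions
  set F : ι → ℝ → ℝ := fun i => (s i).indicator (gaussianPDFReal 0 1) with hF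
  have hFi : ∀ i, Integrable (F i) volume := fun i =>
    (integrable_gaussianPDFReal 0 1).indicator (hs i)
  have hF0 : ∀ i y, 0 ≤ F i y := fun i y =>
    Set.indicator_nonneg (fun _ _ => gaussianPDFReal_nonneg 0 1 _) y
  have e1 : ∀ x : ι → ℝ, (Set.pi Set.univ s).indicator (fun x => ENNReal.ofReal (ibp_phi x)) x =
      ENNReal.ofReal (∏ i, F i (x i)) := by
    intro x
    by_cases hx : x ∈ Set.pi Set.univ s
    · rw [Set.indicator_of_mem hx]
      congr 1
      refine Finset.prod_congr rfl fun i _ => ?_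
      rw [hF]
      exact (Set.indicator_of_mem (hx i (Set.mem_univ i)) _).symm
    · rw [Set.indicator_of_notMem hx]
      have : ∃ i, x i ∉ s i := by
        by_contra h
        push Not at h
        exact hx fun i _ => h i
      obtain ⟨i, hi⟩ := this
      have : ∏ i, F i (x i) = 0 := by
        refine Finset.prod_eq_zero (Finset.mem_univ i) ?_
        exact Set.indicator_of_notMem hi _
      rw [this, ENNReal.ofReal_zero]
  rw [← lintegral_indicator hS]
  simp_rw [e1]
  rw [← ofReal_integral_eq_lintegral_ofReal]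
  · have e2 : ∫ x : ι → ℝ, ∏ i, F i (x i) = ∏ i, ∫ y, F i y :=
      integral_fintype_prod_volume_eq_prod F
    rw [e2, ENNReal.ofReal_prod_of_nonneg fun i _ => integral_nonneg (hF0 i)]
    refine Finset.prod_congr rfl fun i _ => ?_
    rw [gaussianReal_apply_eq_integral 0 one_ne_zero (s i), hF, integral_indicator (hs i)]
  · exact Integrable.fintype_prod (f := F) hFi
  · exact Filter.Eventually.of_forall fun x => Finset.prod_nonneg fun i _ => hF0 i _

theorem ibp_integral (F : (ι → ℝ) → ℝ) :
    ∫ x, F x ∂(gam ι) = ∫ x : ι → ℝ, F x * ibp_phi x := by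
  rw [ibp_density, integral_withDensity_eq_integral_toReal_smul
    (ibp_phi_measurable.ennreal_ofReal) (Filter.Eventually.of_forall fun x =>
      ENNReal.ofReal_lt_top)]
  congr 1
  funext x
  rw [ENNReal.toReal_ofReal (ibp_phi_nonneg x), smul_eq_mul, mul_comm]

theorem ibp_integrable {F : (ι → ℝ) → ℝ} (hF : Integrable F (gam ι)) :
    Integrable (fun x : ι → ℝ => F x * ibp_phi x) := by
  rw [ibp_density, integrable_withDensity_iff_integrable_smul'
    (ibp_phi_measurable.ennreal_ofReal) (Filter.Eventually.of_forall fun x =>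
      ENNReal.ofReal_lt_top)] at hF
  refine hF.congr (Filter.Eventually.of_forall fun x => ?_)
  beta_reduce
  rw [ENNReal.toReal_ofReal (ibp_phi_nonneg x), smul_eq_mul, mul_comm]

theorem ibp_poly_deriv (j : ι) (q : MvPolynomial ι ℝ) (x : ι → ℝ) :
    HasLineDerivAt ℝ (fun x : ι → ℝ => eval x q) (eval x (pderiv j q)) x (Pi.single j 1) := by
  unfold HasLineDerivAt
  induction q using MvPolynomial.induction_on with
  | C a =>
    simp only [eval_C, pderiv_C, map_zero]
    exact hasDerivAt_const _ _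
  | add p q hp hq =>
    simp only [map_add]
    exact hp.add hq
  | mul_X p i hp =>
    simp only [map_mul, eval_X]
    have h1 : HasDerivAt (fun t : ℝ => (x + t • (Pi.single j 1 : ι → ℝ)) i)
        ((Pi.single j 1 : ι → ℝ) i) 0 := by
      have : (fun t : ℝ => (x + t • (Pi.single j 1 : ι → ℝ)) i) =
          fun t : ℝ => x i + t * (Pi.single j 1 : ι → ℝ) i := by
        funext t
        simp
      rw [this]
      have := ((hasDerivAt_id (0 : ℝ)).mul_const ((Pi.single j 1 : ι → ℝ) i)).const_add (x i)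
      simpa using this
    have h2 := hp.mul h1
    refine h2.congr_deriv ?_
    rw [Derivation.leibniz, map_add, smul_eq_mul, smul_eq_mul, map_mul, map_mul, eval_X,
      pderiv_X]
    simp only [zero_smul, add_zero]
    have : eval x ((Pi.single j 1 : ι → MvPolynomial ι ℝ) i) = (Pi.single j 1 : ι → ℝ) i := by
      by_cases hij : i = j
      · subst hij; simp
      · simp [Pi.single_eq_of_ne hij]
    rw [this]
    ring

theorem ibp_exp_deriv (A : MvPolynomial ι ℝ) (s : ℝ) (j : ι) (q : MvPolynomial ι ℝ)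
    (x : ι → ℝ) :
    HasLineDerivAt ℝ (fun x : ι → ℝ => eval x q * Hx s A x) (eval x (TD s A j q) * Hx s A x) x
      (Pi.single j 1) := by
  have h1 := ibp_poly_deriv j q x
  have h2 := ibp_poly_deriv j A x
  unfold HasLineDerivAt at h1 h2 ⊢
  have h3 : HasDerivAt (fun t : ℝ => Hx s A (x + t • (Pi.single j 1 : ι → ℝ)))
      (Hx s A x * (-(s * eval x (pderiv j A)))) 0 := by
    have := ((h2.const_mul s).neg).exp
    simpa [Hx] using this
  have h4 := h1.mul h3
  refine h4.congr_deriv ?_
  simp only [zero_smul, add_zero, TD, map_sub, map_mul, eval_C]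
  ring

theorem ibp_phi_deriv (j : ι) (x : ι → ℝ) :
    HasLineDerivAt ℝ (ibp_phi : (ι → ℝ) → ℝ) (-(x j * ibp_phi x)) x (Pi.single j 1) := by
  have e : (ibp_phi : (ι → ℝ) → ℝ) =
      fun x => (√(2 * Real.pi))⁻¹ ^ (Fintype.card ι) * Real.exp (-(∑ i, x i ^ 2) / 2) := by
    funext x
    unfold ibp_phi gaussianPDFReal
    rw [Finset.prod_mul_distrib, ← Real.exp_sum]
    simp only [Finset.prod_const, Finset.card_univ, NNReal.coe_one, mul_one, sub_zero]
    congr 2
    rw [← Finset.sum_div, Finset.sum_neg_distrib]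
  have h1 : HasDerivAt (fun t : ℝ => ∑ i, ((x + t • (Pi.single j 1 : ι → ℝ)) i) ^ 2)
      (2 * x j) 0 := by
    have h2 : ∀ i ∈ Finset.univ, HasDerivAt (fun t : ℝ => ((x + t • (Pi.single j 1 : ι → ℝ)) i) ^ 2)
        (2 * x i * (Pi.single j 1 : ι → ℝ) i) 0 := by
      intro i _
      have : (fun t : ℝ => ((x + t • (Pi.single j 1 : ι → ℝ)) i) ^ 2) =
          fun t : ℝ => (x i + t * (Pi.single j 1 : ι → ℝ) i) ^ 2 := by
        funext t
        simp
      rw [this]
      have := (((hasDerivAt_id (0 : ℝ)).mul_const ((Pi.single j 1 : ι → ℝ) i)).const_add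
        (x i)).pow 2
      refine this.congr_deriv ?_
      simp
    have h3 := HasDerivAt.fun_sum h2
    refine h3.congr_deriv ?_
    rw [Finset.sum_eq_single j]
    · simp
    · intro i _ hij
      simp [Pi.single_eq_of_ne hij]
    · simp
  unfold HasLineDerivAt
  rw [e]
  have h2 := (((h1.neg).div_const 2).exp).const_mul ((√(2 * Real.pi))⁻¹ ^ (Fintype.card ι))
  refine h2.congr_deriv ?_
  have e0 : (-fun t : ℝ => ∑ i, ((x + t • (Pi.single j 1 : ι → ℝ)) i) ^ 2) 0 =
      -∑ i, x i ^ 2 := by
    simp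
  rw [e0]
  ring

theorem ibp_exp {A : MvPolynomial ι ℝ} (hA : ∀ x, 0 ≤ eval x A) {s : ℝ} (hs : 0 ≤ s) (j : ι)
    (q : MvPolynomial ι ℝ) :
    ∫ x, eval x (TD s A j q) * Hx s A x ∂(gam ι) =
      ∫ x, x j * eval x q * Hx s A x ∂(gam ι) := by
  have i1 := ibp_integrable (gam_Hx_integrable hs hA (TD s A j q))
  have i2 := ibp_integrable (gam_Hx_integrable hs hA q)
  have i3 := ibp_integrable (gam_Hx_integrable hs hA (X j * q))
  have key := integral_bilinear_hasLineDerivAt_right_eq_neg_left_of_integrable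
    (μ := (volume : Measure (ι → ℝ))) (f := fun x : ι → ℝ => eval x q * Hx s A x)
    (f' := fun x : ι → ℝ => eval x (TD s A j q) * Hx s A x)
    (g := (ibp_phi : (ι → ℝ) → ℝ)) (g' := fun x : ι → ℝ => -(x j * ibp_phi x))
    (v := Pi.single j 1) (B := ContinuousLinearMap.mul ℝ ℝ) ?_ ?_ ?_
    (fun x _ => ibp_exp_deriv A s j q x) (fun x _ => ibp_phi_deriv j x)
  · simp only [ContinuousLinearMap.mul_apply'] at key
    rw [ibp_integral, ibp_integral, ← neg_neg (∫ x : ι → ℝ, _ * ibp_phi x), ← key,
      ← integral_neg]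
    congr 1
    funext x
    ring
  · simpa only [ContinuousLinearMap.mul_apply'] using i1
  · have := i3.neg
    refine this.congr (Filter.Eventually.of_forall fun x => ?_)
    simp only [ContinuousLinearMap.mul_apply', Pi.neg_apply, map_mul, eval_X]
    ring
  · simpa only [ContinuousLinearMap.mul_apply'] using i2

end Pool.Agent.KWG
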