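import Pool.Agent.Lib.MP_68391b_lc.Gen.GHermD
import Pool.Agent.Lib.MP_68391b_lc.Gen.GIbp

/-! Hermite levels of e^{-sA}. -/

set_option linter.unusedSectionVars false

namespace Pool.Agent.KWG

open MeasureTheory ProbabilityTheory MvPolynomial Pool.Agent.KWI

variable {ι : Type} [Fintype ι] [DecidableEq ι]

theorem lev_Hx_sq (s : ℝ) (A : MvPolynomial ι ℝ) (x : ι → ℝ) :
    (Hx s A x) ^ 2 = Hx (2 * s) A x := by
  unfold Hx
  rw [← Real.exp_nat_mul]
  congr 1
  push_cast
  ring

theorem lev_integrable_sq {s : ℝ} (hs : 0 ≤ s) {A : MvPolynomial ι ℝ} (hA : ∀ x, 0 ≤ eval x A)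
    (q : MvPolynomial ι ℝ) :
    Integrable (fun x : ι → ℝ => eval x q * (Hx s A x) ^ 2) (gam ι) := by
  simp only [lev_Hx_sq]
  exact gam_Hx_integrable (by positivity) hA q

theorem lev_zero {A : MvPolynomial ι ℝ} (hA : ∀ x, 0 ≤ eval x A) {s : ℝ} (hs : 0 ≤ s)
    (k : ℕ) (q : MvPolynomial ι ℝ) :
    ∑ α ∈ lev ι k, (cf s A q α) ^ 2 ≤
      ∫ x, eval x (TS s A 0 q) * (Hx s A x) ^ 2 ∂(gam ι) := by
  have h1 := bessel k (fun x : ι → ℝ => eval x q * Hx s A x)
    ((eval_continuous q).mul (Hx_continuous s A)).aestronglyMeasurable (by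
      have := lev_integrable_sq hs hA (q ^ 2)
      simpa [mul_pow] using this)
  refine h1.trans (le_of_eq ?_)
  congr 1
  funext x
  simp only [TS, map_pow]
  ring

theorem lev_cf_step {A : MvPolynomial ι ℝ} (hA : ∀ x, 0 ≤ eval x A) {s : ℝ} (hs : 0 ≤ s)
    (q : MvPolynomial ι ℝ) (α : ι → ℕ) (j : ι) :
    cf s A (TD s A j q) α =
      √((α j : ℝ) + 1) * cf s A q (Function.update α j (α j + 1)) := by
  have h1 := ibp_exp hA hs j (q * hp α)
  have e1 : TD s A j (q * hp α) = TD s A j q * hp α + q * pderiv j (hp α) := by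
    unfold TD
    rw [Derivation.leibniz]
    simp only [smul_eq_mul]
    ring
  rw [e1] at h1
  have e2 : (fun x : ι → ℝ => eval x (TD s A j q * hp α + q * pderiv j (hp α)) * Hx s A x) =
      fun x => eval x (TD s A j q * hp α) * Hx s A x +
        eval x (q * pderiv j (hp α)) * Hx s A x := by
    funext x
    rw [map_add]
    ring
  rw [e2, integral_add (gam_Hx_integrable hs hA _) (gam_Hx_integrable hs hA _)] at h1
  have e3 : cf s A (TD s A j q) α = ∫ x, eval x (TD s A j q * hp α) * Hx s A x ∂(gam ι) := by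
    unfold cf
    congr 1
    funext x
    rw [map_mul]
    ring
  have i1 : Integrable (fun x : ι → ℝ => x j * eval x (q * hp α) * Hx s A x) (gam ι) := by
    have := gam_Hx_integrable hs hA (X j * (q * hp α))
    simpa using this
  rw [e3]
  have e4 : √((α j : ℝ) + 1) * cf s A q (Function.update α j (α j + 1)) =
      ∫ x, (x j * eval x (q * hp α) * Hx s A x - eval x (q * pderiv j (hp α)) * Hx s A x)
        ∂(gam ι) := by
    unfold cf
    rw [← integral_const_mul]
    congr 1
    funext x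
    have h2 := congrArg (eval x) (raise_hp α j)
    simp only [map_sub, map_mul, eval_X, eval_C] at h2
    simp only [map_mul]
    have h3 : √((α j : ℝ) + 1) * (eval x q * Hx s A x *
        eval x (hp (Function.update α j (α j + 1)))) = eval x q * Hx s A x *
        (√((α j : ℝ) + 1) * eval x (hp (Function.update α j (α j + 1)))) := by ring
    rw [h3, ← h2]
    ring
  rw [e4, integral_sub i1 (gam_Hx_integrable hs hA _), ← h1]
  ring

theorem lev_sum_j (k : ℕ) (j : ι) (F : (ι → ℕ) → ℝ) :
    ∑ β ∈ lev ι (k + 1), (β j : ℝ) * F β =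
      ∑ α ∈ lev ι k, ((α j : ℝ) + 1) * F (Function.update α j (α j + 1)) := by
  symm
  refine Finset.sum_bij_ne_zero (fun α _ _ => Function.update α j (α j + 1)) ?_ ?_ ?_ ?_
  · intro α hα _
    rw [mem_lev] at hα ⊢
    rw [← Finset.add_sum_erase _ _ (Finset.mem_univ j)] at hα ⊢
    rw [Function.update_self]
    have : ∑ i ∈ Finset.univ.erase j, Function.update α j (α j + 1) i =
        ∑ i ∈ Finset.univ.erase j, α i := by
      refine Finset.sum_congr rfl fun i hi => ?_
      rw [Function.update_of_ne (Finset.ne_of_mem_erase hi)]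
    omega
  · intro α _ _ α' _ _ h
    funext i
    have hi := congrFun h i
    by_cases hij : i = j
    · subst hij
      simp only [Function.update_self] at hi
      omega
    · simpa [Function.update_of_ne hij] using hi
  · intro β hβ hne
    have hβj : β j ≠ 0 := by
      intro h0
      apply hne
      rw [h0]
      simp
    refine ⟨Function.update β j (β j - 1), ?_, ?_, ?_⟩
    · rw [mem_lev] at hβ ⊢
      rw [← Finset.add_sum_erase _ _ (Finset.mem_univ j)] at hβ ⊢
      rw [Function.update_self]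
      have : ∑ i ∈ Finset.univ.erase j, Function.update β j (β j - 1) i =
          ∑ i ∈ Finset.univ.erase j, β i := by
        refine Finset.sum_congr rfl fun i hi => ?_
        rw [Function.update_of_ne (Finset.ne_of_mem_erase hi)]
      omega
    · rw [Function.update_self, Function.update_idem, Nat.sub_add_cancel (by omega),
        Function.update_eq_self]
      have e : ((β j - 1 : ℕ) : ℝ) + 1 = (β j : ℝ) := by
        rw [Nat.cast_sub (by omega)]
        simp
      rw [e]
      exact hne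
    · rw [Function.update_self, Function.update_idem, Nat.sub_add_cancel (by omega),
        Function.update_eq_self]
  · intro α hα _
    rw [Function.update_self]
    push_cast
    ring

theorem lev_recursion {A : MvPolynomial ι ℝ} (hA : ∀ x, 0 ≤ eval x A) {s : ℝ} (hs : 0 ≤ s)
    (k : ℕ) (q : MvPolynomial ι ℝ) :
    ((k : ℝ) + 1) * ∑ α ∈ lev ι (k + 1), (cf s A q α) ^ 2 =
      ∑ j, ∑ α ∈ lev ι k, (cf s A (TD s A j q) α) ^ 2 := by
  have h1 : ∀ j, ∑ α ∈ lev ι k, (cf s A (TD s A j q) α) ^ 2 =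
      ∑ β ∈ lev ι (k + 1), (β j : ℝ) * (cf s A q β) ^ 2 := by
    intro j
    rw [lev_sum_j k j (fun β => (cf s A q β) ^ 2)]
    refine Finset.sum_congr rfl fun α _ => ?_
    rw [lev_cf_step hA hs, mul_pow, Real.sq_sqrt (by positivity)]
  rw [Finset.sum_congr rfl fun j _ => h1 j, Finset.sum_comm, Finset.mul_sum]
  refine Finset.sum_congr rfl fun β hβ => ?_
  rw [← Finset.sum_mul]
  congr 1
  rw [mem_lev] at hβ
  have : (∑ j, (β j : ℝ)) = ((∑ j, β j : ℕ) : ℝ) := by push_cast; rfl
  rw [this, hβ]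
  push_cast
  rfl

theorem level_bound {A : MvPolynomial ι ℝ} (hA : ∀ x, 0 ≤ eval x A) {s : ℝ} (hs : 0 ≤ s)
    (k r : ℕ) (hr : r ≤ k) (q : MvPolynomial ι ℝ) :
    (k.descFactorial r : ℝ) * ∑ α ∈ lev ι k, (cf s A q α) ^ 2 ≤
      ∫ x, eval x (TS s A r q) * (Hx s A x) ^ 2 ∂(gam ι) := by
  induction r generalizing k q with
  | zero =>
    rw [Nat.descFactorial_zero, Nat.cast_one, one_mul]
    exact lev_zero hA hs k q
  | succ r ih =>
    obtain ⟨k, rfl⟩ : ∃ m, k = m + 1 := ⟨k - 1, by omega⟩
    rw [Nat.succ_descFactorial_succ]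
    push_cast
    have h1 := lev_recursion hA hs k q
    have h2 : ((k : ℝ) + 1) * (k.descFactorial r : ℝ) * ∑ α ∈ lev ι (k + 1), (cf s A q α) ^ 2 =
        ∑ j, (k.descFactorial r : ℝ) * ∑ α ∈ lev ι k, (cf s A (TD s A j q) α) ^ 2 := by
      rw [← Finset.mul_sum, ← h1]
      ring
    rw [h2]
    refine (Finset.sum_le_sum fun j _ => ih k (by omega) (TD s A j q)).trans (le_of_eq ?_)
    have e : (fun x : ι → ℝ => eval x (TS s A (r + 1) q) * (Hx s A x) ^ 2) =
        fun x => ∑ j, eval x (TS s A r (TD s A j q)) * (Hx s A x) ^ 2 := by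
      funext x
      simp only [TS, map_sum]
      rw [Finset.sum_mul]
    rw [e, integral_finsetSum _ fun j _ => lev_integrable_sq hs hA _]

end Pool.Agent.KWG
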