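import Pool.Agent.Lib.MP_68391b_lc.Gen.GPoint
import Pool.Agent.Lib.MP_68391b_lc.Gen.GComm

/-! Transfer from the Gaussian measure to a measure with the same moments. -/

set_option linter.unusedSectionVars false

namespace Pool.Agent.KWG

open MeasureTheory ProbabilityTheory MvPolynomial Pool.Agent.KWI

variable {ι : Type} [Fintype ι] [DecidableEq ι]

theorem trans_pt_degree (N₀ : ℕ) (s : ℝ) (A q : MvPolynomial ι ℝ) :
    (PT N₀ s A q).totalDegree ≤ N₀ := by
  unfold PT
  refine MvPolynomial.totalDegree_finsetSum_le fun k hk => ?_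
  refine MvPolynomial.totalDegree_finsetSum_le fun α hα => ?_
  refine (MvPolynomial.totalDegree_mul _ _).trans ?_
  rw [MvPolynomial.totalDegree_C, zero_add]
  refine (hp_degree α).trans ?_
  rw [mem_lev.1 hα]
  exact Nat.lt_succ_iff.1 (Finset.mem_range.1 hk)

theorem trans_poly_sq {N : ℕ} {ν : Measure (ι → ℝ)} (hν : MM N ν) (q : MvPolynomial ι ℝ)
    (hq : 2 * q.totalDegree ≤ N) :
    Integrable (fun x => (eval x q) ^ 2) ν ∧ √(∫ x, (eval x q) ^ 2 ∂ν) = n2 q := by
  have h := hν (q ^ 2) ((MvPolynomial.totalDegree_pow _ _).trans hq)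
  simp only [map_pow] at h
  exact ⟨h.1, by rw [h.2]; rfl⟩

theorem trans_poly_mul {N : ℕ} {ν : Measure (ι → ℝ)} (hν : MM N ν) (q r : MvPolynomial ι ℝ)
    (hq : q.totalDegree + r.totalDegree ≤ N) :
    Integrable (fun x => eval x q * eval x r) ν ∧
      ∫ x, eval x q * eval x r ∂ν = ∫ x, eval x q * eval x r ∂(gam ι) := by
  have h := hν (q * r) ((MvPolynomial.totalDegree_mul _ _).trans hq)
  simp only [map_mul] at h
  exact h

theorem trans_cs {N : ℕ} {ν : Measure (ι → ℝ)} (hν : MM N ν) (q r : MvPolynomial ι ℝ)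
    (hq : 2 * q.totalDegree ≤ N) (hr : 2 * r.totalDegree ≤ N) :
    Integrable (fun x => |eval x q| * |eval x r|) ν ∧
      ∫ x, |eval x q| * |eval x r| ∂ν ≤ n2 q * n2 r := by
  have h1 := trans_poly_sq hν q hq
  have h2 := trans_poly_sq hν r hr
  have h3 := (trans_poly_mul hν q r (by omega)).1
  have h4 : Integrable (fun x => |eval x q| * |eval x r|) ν := by
    have := h3.abs
    simpa only [abs_mul] using this
  refine ⟨h4, ?_⟩
  have h5 := cs_int ν (fun x => |eval x q|) (fun x => |eval x r|)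
    (by simpa only [sq_abs] using h1.1) (by simpa only [sq_abs] using h2.1) h4
  simp only [sq_abs] at h5
  rw [h1.2, h2.2] at h5
  exact (le_abs_self _).trans h5

theorem trans_one {N : ℕ} (ν : Measure (ι → ℝ)) [IsProbabilityMeasure ν] (hν : MM N ν)
    {A : MvPolynomial ι ℝ} (hA : ∀ x, 0 ≤ eval x A) {D : ℕ} (hD : A.totalDegree ≤ D) (N₀ : ℕ)
    (hN : 2 * (N₀ + D) ≤ N) (Q : MvPolynomial ι ℝ) (hQ : Q.totalDegree ≤ D) {s B : ℝ}
    (hs : 0 ≤ s) (hB : ∀ u, 0 ≤ u → u ≤ s → n2 (EE N₀ u A) ≤ B) :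
    |∫ x, eval x Q * (Hx s A x - eval x (PT N₀ s A 1)) ∂ν| ≤ s * B * n2 Q := by
  classical
  have hB0 : 0 ≤ B := (n2_nonneg _).trans (hB 0 le_rfl hs)
  have hcs : ∀ u, 0 ≤ u → u ≤ s →
      Integrable (fun x => |eval x Q| * |eval x (EE N₀ u A)|) ν ∧
      ∫ x, |eval x Q| * |eval x (EE N₀ u A)| ∂ν ≤ n2 Q * B := by
    intro u hu hus
    have hE := comm_degree A hD N₀ u
    have h := trans_cs hν Q (EE N₀ u A) (by omega) (by omega)
    exact ⟨h.1, h.2.trans (mul_le_mul_of_nonneg_left (hB u hu hus) (n2_nonneg _))⟩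
  -- the joint function
  set S : Set (ℝ × (ι → ℝ)) := Set.Ici 0 ×ˢ Set.univ with hS
  have hSm : MeasurableSet S := measurableSet_Ici.prod MeasurableSet.univ
  set g : ℝ × (ι → ℝ) → ℝ :=
    S.piecewise (fun z => |eval z.2 Q| * |eval z.2 (EE N₀ z.1 A)|) (fun _ => 0) with hg
  have hgm : Measurable g := by
    refine ContinuousOn.measurable_piecewise ?_ continuousOn_const hSm
    refine ContinuousOn.mul ?_ (point_cont hA N₀).abs
    exact (((eval_continuous Q).comp continuous_snd).abs).continuousOn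
  have hge : ∀ u, 0 ≤ u → ∀ x, g (u, x) = |eval x Q| * |eval x (EE N₀ u A)| := by
    intro u hu x
    rw [hg]
    exact Set.piecewise_eq_of_mem _ _ _ (by simp [hS, hu])
  -- integrability in u
  have hui : ∀ x, IntervalIntegrable (fun u => |eval x (EE N₀ u A)|) volume 0 s := by
    intro x
    refine ContinuousOn.intervalIntegrable ?_
    rw [Set.uIcc_of_le hs]
    refine ContinuousOn.abs ?_
    have h := (point_cont hA N₀).comp (f := fun u : ℝ => (u, x)) (s := Set.Icc 0 s)
      (by fun_prop) (fun u hu => by simpa using hu.1)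
    exact h
  -- the main estimate
  have key : ∫⁻ x, ENNReal.ofReal (|eval x Q| * |Hx s A x - eval x (PT N₀ s A 1)|) ∂ν ≤
      ENNReal.ofReal (s * B * n2 Q) := by
    calc ∫⁻ x, ENNReal.ofReal (|eval x Q| * |Hx s A x - eval x (PT N₀ s A 1)|) ∂ν
        ≤ ∫⁻ x, (∫⁻ u in Set.Ioc 0 s, ENNReal.ofReal (g (u, x))) ∂ν := by
          refine lintegral_mono fun x => ?_
          have h1 := point_bound hA N₀ hs x
          have h2 : |eval x Q| * |Hx s A x - eval x (PT N₀ s A 1)| ≤
              ∫ u in Set.Ioc 0 s, |eval x Q| * |eval x (EE N₀ u A)| := by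
            rw [intervalIntegral.integral_of_le hs] at h1
            rw [integral_const_mul]
            exact mul_le_mul_of_nonneg_left h1 (abs_nonneg _)
          have h3 : IntegrableOn (fun u => |eval x Q| * |eval x (EE N₀ u A)|)
              (Set.Ioc 0 s) volume :=
            ((intervalIntegrable_iff_integrableOn_Ioc_of_le hs).1 (hui x)).const_mul _
          have h4 := ofReal_integral_eq_lintegral_ofReal h3
            (Filter.Eventually.of_forall fun u => by positivity)
          refine (ENNReal.ofReal_le_ofReal h2).trans ?_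
          rw [h4]
          refine le_of_eq (setLIntegral_congr_fun measurableSet_Ioc fun u hu => ?_)
          simp only [hge u hu.1.le x]
      _ = ∫⁻ u in Set.Ioc 0 s, (∫⁻ x, ENNReal.ofReal (g (u, x)) ∂ν) := by
          refine lintegral_lintegral_swap ?_
          exact ((ENNReal.measurable_ofReal.comp hgm).comp measurable_swap).aemeasurable
      _ ≤ ∫⁻ u in Set.Ioc 0 s, ENNReal.ofReal (n2 Q * B) := by
          refine setLIntegral_mono measurable_const fun u hu => ?_
          have h1 := hcs u hu.1.le hu.2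
          have h2 := ofReal_integral_eq_lintegral_ofReal h1.1
            (Filter.Eventually.of_forall fun x => by positivity)
          simp only [hge u hu.1.le]
          rw [← h2]
          exact ENNReal.ofReal_le_ofReal h1.2
      _ = ENNReal.ofReal (s * B * n2 Q) := by
          rw [setLIntegral_const, Real.volume_Ioc, sub_zero, ← ENNReal.ofReal_mul
            (mul_nonneg (n2_nonneg _) hB0)]
          congr 1
          ring
  have hnn : 0 ≤ s * B * n2 Q := mul_nonneg (mul_nonneg hs hB0) (n2_nonneg _)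
  have hm : AEStronglyMeasurable
      (fun x => |eval x Q| * |Hx s A x - eval x (PT N₀ s A 1)|) ν :=
    ((eval_continuous Q).abs.mul
      ((Hx_continuous s A).sub (eval_continuous _)).abs).aestronglyMeasurable
  calc |∫ x, eval x Q * (Hx s A x - eval x (PT N₀ s A 1)) ∂ν|
      ≤ ∫ x, |eval x Q| * |Hx s A x - eval x (PT N₀ s A 1)| ∂ν := by
        rw [← Real.norm_eq_abs]
        refine (norm_integral_le_integral_norm _).trans (le_of_eq ?_)
        refine integral_congr_ae (Filter.Eventually.of_forall fun x => ?_)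
        simp only [norm_mul, Real.norm_eq_abs]
    _ = (∫⁻ x, ENNReal.ofReal (|eval x Q| * |Hx s A x - eval x (PT N₀ s A 1)|) ∂ν).toReal := by
        rw [integral_eq_lintegral_of_nonneg_ae
          (Filter.Eventually.of_forall fun x => by positivity) hm]
    _ ≤ s * B * n2 Q := ENNReal.toReal_le_of_le_ofReal hnn key

theorem trans_split {N : ℕ} {ν : Measure (ι → ℝ)} (hν : MM N ν)
    {A : MvPolynomial ι ℝ} (hA : ∀ x, 0 ≤ eval x A) {D : ℕ} (N₀ : ℕ)
    (hN : 2 * (N₀ + D) ≤ N) (Q : MvPolynomial ι ℝ) (hQ : Q.totalDegree ≤ D) {s : ℝ}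
    (hs : 0 ≤ s) :
    ∫ x, eval x Q * Hx s A x ∂ν =
      ∫ x, eval x Q * eval x (PT N₀ s A 1) ∂(gam ι) +
        ∫ x, eval x Q * (Hx s A x - eval x (PT N₀ s A 1)) ∂ν := by
  have hT := trans_pt_degree N₀ s A (1 : MvPolynomial ι ℝ)
  have h1 := trans_poly_mul hν Q (PT N₀ s A 1) (by omega)
  have h2 : Integrable (fun x => eval x Q * Hx s A x) ν :=
    poly_Hx_integrable hν hs hA Q (by omega)
  rw [← h1.2]
  have h3 : (fun x => eval x Q * (Hx s A x - eval x (PT N₀ s A 1))) =
      fun x => eval x Q * Hx s A x - eval x Q * eval x (PT N₀ s A 1) := by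
    funext x; ring
  rw [h3, integral_sub h2 h1.1]
  ring

theorem transfer {N : ℕ} (μ : Measure (ι → ℝ)) [IsProbabilityMeasure μ] (hμ : MM N μ)
    {A : MvPolynomial ι ℝ} (hA : ∀ x, 0 ≤ eval x A) {D : ℕ} (hD : A.totalDegree ≤ D) (N₀ : ℕ)
    (hN : 2 * (N₀ + D) ≤ N) (Q : MvPolynomial ι ℝ) (hQ : Q.totalDegree ≤ D) {s B : ℝ}
    (hs : 0 ≤ s) (hB : ∀ u, 0 ≤ u → u ≤ s → n2 (EE N₀ u A) ≤ B) :
    |∫ x, eval x Q * Hx s A x ∂μ - ∫ x, eval x Q * Hx s A x ∂(gam ι)| ≤
      2 * s * B * n2 Q := by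
  have h1 := trans_split hμ hA N₀ hN Q hQ hs
  have h2 := trans_split (MM_gam N ι) hA N₀ hN Q hQ hs
  have h3 := trans_one μ hμ hA hD N₀ hN Q hQ hs hB
  have h4 := trans_one (gam ι) (MM_gam N ι) hA hD N₀ hN Q hQ hs hB
  rw [h1, h2]
  rw [abs_le] at h3 h4 ⊢
  constructor <;> linarith [h3.1, h3.2, h4.1, h4.2]

end Pool.Agent.KWG
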