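import Pool.Agent.Lib.MP_68391b_lc.Gen.GDefs

/-! Twisted derivatives of the constant one. -/

set_option linter.unusedSectionVars false

namespace Pool.Agent.KWG

open MeasureTheory ProbabilityTheory MvPolynomial Pool.Agent.KWI

variable {ι : Type} [Fintype ι] [DecidableEq ι]

theorem twist_TD_add (s : ℝ) (A : MvPolynomial ι ℝ) (j : ι) (f g : MvPolynomial ι ℝ) :
    TD s A j (f + g) = TD s A j f + TD s A j g := by
  unfold TD
  rw [map_add]
  ring

theorem twist_TD_mul (s : ℝ) (A : MvPolynomial ι ℝ) (j : ι) (f g : MvPolynomial ι ℝ) :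
    TD s A j (f * g) = TD s A j f * g + f * pderiv j g := by
  unfold TD
  rw [Derivation.leibniz, smul_eq_mul, smul_eq_mul]
  ring

theorem twist_sq (s : ℝ) (A : MvPolynomial ι ℝ) (x : ι → ℝ) (k : ℕ) (q : MvPolynomial ι ℝ) :
    √(eval x (TS s A k q)) ^ 2 = eval x (TS s A k q) := Real.sq_sqrt (ts_nonneg _ _ _ _ _)

theorem twist_succ (s : ℝ) (A : MvPolynomial ι ℝ) (x : ι → ℝ) (k : ℕ) (q : MvPolynomial ι ℝ) :
    √(eval x (TS s A (k + 1) q)) = √(∑ j, √(eval x (TS s A k (TD s A j q))) ^ 2) := by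
  congr 1
  show eval x (∑ j, TS s A k (TD s A j q)) = _
  rw [map_sum]
  exact Finset.sum_congr rfl fun j _ => (twist_sq s A x k _).symm

theorem twist_add (s : ℝ) (A : MvPolynomial ι ℝ) (x : ι → ℝ) (k : ℕ) (f g : MvPolynomial ι ℝ) :
    √(eval x (TS s A k (f + g))) ≤ √(eval x (TS s A k f)) + √(eval x (TS s A k g)) := by
  induction k generalizing f g with
  | zero =>
    simp only [TS, map_pow, map_add]
    rw [Real.sqrt_sq_eq_abs, Real.sqrt_sq_eq_abs, Real.sqrt_sq_eq_abs]
    exact abs_add_le _ _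
  | succ k ih =>
    rw [twist_succ, twist_succ, twist_succ]
    refine le_trans (Real.sqrt_le_sqrt (Finset.sum_le_sum fun j _ => ?_)) (mink2 _ _ _)
    rw [twist_TD_add]
    exact pow_le_pow_left₀ (Real.sqrt_nonneg _) (ih _ _) 2

theorem twist_hs_smul (x : ι → ℝ) (k : ℕ) (c : ℝ) (q : MvPolynomial ι ℝ) :
    eval x (HS k (C c * q)) = c ^ 2 * eval x (HS k q) := by
  induction k generalizing q with
  | zero =>
    simp only [HS, map_pow, map_mul, eval_C]
    ring
  | succ k ih =>
    simp only [HS, map_sum]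
    rw [Finset.mul_sum]
    refine Finset.sum_congr rfl fun j _ => ?_
    rw [pderiv_C_mul, ← ih]

/-- The Leibniz inequality. -/
theorem twist_leib (s : ℝ) (A : MvPolynomial ι ℝ) (x : ι → ℝ) (k : ℕ) {κ : Type} [Fintype κ]
    (f : MvPolynomial ι ℝ) (g : κ → MvPolynomial ι ℝ) :
    √(∑ j, eval x (TS s A k (f * g j))) ≤
      ∑ p ∈ Finset.HasAntidiagonal.antidiagonal k, (k.choose p.1 : ℝ) *
        (√(∑ j, eval x (HS p.1 (g j))) * √(eval x (TS s A p.2 f))) := by
  induction k generalizing κ f with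
  | zero =>
    rw [Finset.Nat.antidiagonal_zero, Finset.sum_singleton]
    simp only [TS, HS, map_pow, map_mul, Nat.choose_self, Nat.cast_one, one_mul]
    rw [← Real.sqrt_mul (Finset.sum_nonneg fun j _ => sq_nonneg _)]
    apply Real.sqrt_le_sqrt
    rw [Finset.sum_mul]
    refine Finset.sum_le_sum fun j _ => le_of_eq ?_
    ring
  | succ k ih =>
    -- split the new derivative
    have e1 : ∑ j, eval x (TS s A (k + 1) (f * g j)) =
        ∑ q : κ × ι, √(eval x (TS s A k (TD s A q.2 f * g q.1 +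
          f * pderiv q.2 (g q.1)))) ^ 2 := by
      rw [Fintype.sum_prod_type]
      refine Finset.sum_congr rfl fun j _ => ?_
      show eval x (∑ i, TS s A k (TD s A i (f * g j))) = _
      rw [map_sum]
      refine Finset.sum_congr rfl fun i _ => ?_
      rw [twist_sq, twist_TD_mul]
    have h1 : √(∑ j, eval x (TS s A (k + 1) (f * g j))) ≤
        √(∑ q : κ × ι, √(eval x (TS s A k (TD s A q.2 f * g q.1))) ^ 2) +
        √(∑ q : κ × ι, √(eval x (TS s A k (f * pderiv q.2 (g q.1)))) ^ 2) := by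
      rw [e1]
      refine le_trans (Real.sqrt_le_sqrt (Finset.sum_le_sum fun q _ => ?_)) (mink2 _ _ _)
      exact pow_le_pow_left₀ (Real.sqrt_nonneg _) (twist_add s A x k _ _) 2
    -- the second part
    have h2 : √(∑ q : κ × ι, √(eval x (TS s A k (f * pderiv q.2 (g q.1)))) ^ 2) ≤
        ∑ p ∈ Finset.HasAntidiagonal.antidiagonal k, (k.choose p.1 : ℝ) *
          (√(∑ j, eval x (HS (p.1 + 1) (g j))) * √(eval x (TS s A p.2 f))) := by
      simp only [twist_sq]
      refine le_trans (ih f (fun q : κ × ι => pderiv q.2 (g q.1))) (le_of_eq ?_)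
      refine Finset.sum_congr rfl fun p _ => ?_
      congr 3
      rw [Fintype.sum_prod_type]
      refine Finset.sum_congr rfl fun j _ => ?_
      show _ = eval x (∑ i, HS p.1 (pderiv i (g j)))
      rw [map_sum]
    -- the first part
    have h3 : √(∑ q : κ × ι, √(eval x (TS s A k (TD s A q.2 f * g q.1))) ^ 2) ≤
        ∑ p ∈ Finset.HasAntidiagonal.antidiagonal k, (k.choose p.1 : ℝ) *
          (√(∑ j, eval x (HS p.1 (g j))) * √(eval x (TS s A (p.2 + 1) f))) := by
      simp only [twist_sq]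
      rw [Fintype.sum_prod_type_right]
      have e3 : ∀ i : ι, ∑ j : κ, eval x (TS s A k (TD s A i f * g j)) =
          √(∑ j : κ, eval x (TS s A k (TD s A i f * g j))) ^ 2 := fun i =>
        (Real.sq_sqrt (Finset.sum_nonneg fun j _ => ts_nonneg _ _ _ _ _)).symm
      have h4 : √(∑ i : ι, ∑ j : κ, eval x (TS s A k (TD s A i f * g j))) ≤
          √(∑ i : ι, (∑ p ∈ Finset.HasAntidiagonal.antidiagonal k, (k.choose p.1 : ℝ) *
            (√(∑ j, eval x (HS p.1 (g j))) * √(eval x (TS s A p.2 (TD s A i f))))) ^ 2) := by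
        apply Real.sqrt_le_sqrt
        refine Finset.sum_le_sum fun i _ => ?_
        rw [e3 i]
        exact pow_le_pow_left₀ (Real.sqrt_nonneg _) (ih (TD s A i f) g) 2
      refine h4.trans ((minksum Finset.univ (Finset.HasAntidiagonal.antidiagonal k)
        (fun p i => (k.choose p.1 : ℝ) *
            (√(∑ j, eval x (HS p.1 (g j))) * √(eval x (TS s A p.2 (TD s A i f)))))).trans
        (le_of_eq ?_))
      refine Finset.sum_congr rfl fun p _ => ?_
      have e5 : ∑ i : ι, ((k.choose p.1 : ℝ) * (√(∑ j, eval x (HS p.1 (g j))) *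
          √(eval x (TS s A p.2 (TD s A i f))))) ^ 2 =
          ((k.choose p.1 : ℝ) * √(∑ j, eval x (HS p.1 (g j)))) ^ 2 *
          ∑ i : ι, √(eval x (TS s A p.2 (TD s A i f))) ^ 2 := by
        rw [Finset.mul_sum]
        refine Finset.sum_congr rfl fun i _ => ?_
        ring
      rw [e5, Real.sqrt_mul (sq_nonneg _), Real.sqrt_sq (by positivity), ← twist_succ]
      ring
    refine h1.trans ((add_le_add h3 h2).trans (le_of_eq ?_))
    rw [Finset.sum_antidiagonal_choose_succ_mul
      (fun i j => √(∑ l, eval x (HS i (g l))) * √(eval x (TS s A j f))) k]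
    congr 1
    refine Finset.sum_congr rfl fun p hp => ?_
    rw [Finset.HasAntidiagonal.mem_antidiagonal] at hp
    rw [Nat.choose_symm_of_eq_add hp.symm]

theorem twist_rec (s : ℝ) (hs : 0 ≤ s) (A : MvPolynomial ι ℝ) (x : ι → ℝ) (k : ℕ) :
    √(eval x (TS s A (k + 1) 1)) ≤
      ∑ p ∈ Finset.HasAntidiagonal.antidiagonal k, (k.choose p.1 : ℝ) *
        (s * √(eval x (HS (p.1 + 1) A)) * √(eval x (TS s A p.2 1))) := by
  have e1 : √(eval x (TS s A (k + 1) 1)) =
      √(∑ j, eval x (TS s A k (1 * (C (-s) * pderiv j A)))) := by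
    rw [twist_succ]
    simp only [twist_sq]
    congr 1
    refine Finset.sum_congr rfl fun j _ => ?_
    congr 2
    unfold TD
    rw [pderiv_one, map_neg]
    ring
  rw [e1]
  refine (twist_leib s A x k 1 (fun j => C (-s) * pderiv j A)).trans (le_of_eq ?_)
  refine Finset.sum_congr rfl fun p _ => ?_
  congr 2
  have e2 : ∑ j, eval x (HS p.1 (C (-s) * pderiv j A)) = s ^ 2 * eval x (HS (p.1 + 1) A) := by
    show _ = s ^ 2 * eval x (∑ j, HS p.1 (pderiv j A))
    rw [map_sum, Finset.mul_sum]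
    refine Finset.sum_congr rfl fun j _ => ?_
    rw [twist_hs_smul]
    ring
  rw [e2, Real.sqrt_mul (sq_nonneg _), Real.sqrt_sq hs]

/-- The majorant: the coefficients of `(1 - t/2)^(-V)`. -/
noncomputable def twist_R (V : ℝ) : ℕ → ℝ
  | 0 => 1
  | k + 1 => (V + k) / (2 * (k + 1)) * twist_R V k

theorem twist_R_nonneg {V : ℝ} (hV : 0 ≤ V) (k : ℕ) : 0 ≤ twist_R V k := by
  induction k with
  | zero => exact zero_le_one
  | succ k ih =>
    have : 0 ≤ (V + k) / (2 * ((k : ℝ) + 1)) := by positivity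
    exact mul_nonneg this ih

theorem twist_R_sum (V : ℝ) (k : ℕ) :
    V * ∑ p ∈ Finset.HasAntidiagonal.antidiagonal k, (1 / 2 : ℝ) ^ (p.1 + 1) * twist_R V p.2 =
      (k + 1) * twist_R V (k + 1) := by
  induction k with
  | zero =>
    rw [Finset.Nat.antidiagonal_zero, Finset.sum_singleton]
    simp only [twist_R]
    norm_num
    ring
  | succ k ih =>
    rw [Finset.Nat.sum_antidiagonal_succ]
    have e : ∑ p ∈ Finset.HasAntidiagonal.antidiagonal k, (1 / 2 : ℝ) ^ (p.1 + 1 + 1) * twist_R V p.2 =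
        (1 / 2) * ∑ p ∈ Finset.HasAntidiagonal.antidiagonal k, (1 / 2 : ℝ) ^ (p.1 + 1) * twist_R V p.2 := by
      rw [Finset.mul_sum]
      refine Finset.sum_congr rfl fun p _ => ?_
      rw [pow_succ]
      ring
    simp only
    rw [e, mul_add, mul_left_comm V (1 / 2), ih]
    have h2 : twist_R V (k + 1 + 1) = (V + ((k + 1 : ℕ) : ℝ)) / (2 * (((k + 1 : ℕ) : ℝ) + 1)) *
        twist_R V (k + 1) := rfl
    rw [h2]
    push_cast
    have h3 : (k : ℝ) + 1 + 1 ≠ 0 := by positivity
    field_simp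

theorem twist_R_le {V : ℝ} (hV : 0 ≤ V) {m : ℕ} (hm : V ≤ m + 1) (k : ℕ) :
    twist_R V k ≤ ((m + k).choose k : ℝ) / 2 ^ k := by
  induction k with
  | zero => simp [twist_R]
  | succ k ih =>
    have h1 : (V + k) / (2 * ((k : ℝ) + 1)) ≤ (m + 1 + k) / (2 * ((k : ℝ) + 1)) := by
      gcongr
    have h2 : twist_R V (k + 1) ≤ (m + 1 + k) / (2 * ((k : ℝ) + 1)) *
        (((m + k).choose k : ℝ) / 2 ^ k) :=
      mul_le_mul h1 ih (twist_R_nonneg hV k) (by positivity)
    refine h2.trans (le_of_eq ?_)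
    have h3 : ((m + k + 1 : ℕ) : ℝ) * ((m + k).choose k : ℝ) =
        ((m + (k + 1)).choose (k + 1) : ℝ) * ((k + 1 : ℕ) : ℝ) := by
      have := Nat.add_one_mul_choose_eq (m + k) k
      exact_mod_cast this
    have h4 : (k : ℝ) + 1 ≠ 0 := by positivity
    push_cast at h3
    rw [pow_succ]
    field_simp
    linarith

theorem twist_R_exp {V : ℝ} (hV : 0 ≤ V) (k : ℕ) : twist_R V k ≤ Real.exp V := by
  have h1 := twist_R_le hV (Nat.lt_floor_add_one V).le k
  have h2 : ((⌊V⌋₊ + k).choose k : ℝ) ≤ 2 ^ (⌊V⌋₊ + k) := by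
    exact_mod_cast Nat.choose_le_two_pow (⌊V⌋₊ + k) k
  have h3 : ((⌊V⌋₊ + k).choose k : ℝ) / 2 ^ k ≤ 2 ^ ⌊V⌋₊ := by
    rw [div_le_iff₀ (by positivity), ← pow_add]
    exact h2
  have h4 : (2 : ℝ) ^ ⌊V⌋₊ ≤ Real.exp 1 ^ ⌊V⌋₊ := by
    have := Real.add_one_le_exp (1 : ℝ)
    exact pow_le_pow_left₀ (by norm_num) (by linarith) _
  have h5 : Real.exp 1 ^ ⌊V⌋₊ ≤ Real.exp V := by
    rw [← Real.exp_nat_mul, mul_one]
    exact Real.exp_le_exp.2 (Nat.floor_le hV)
  linarith

theorem twist_main (A : MvPolynomial ι ℝ) {δ : ℝ} (hδ : 0 < δ) (x : ι → ℝ)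
    (hA : 0 ≤ eval x A)
    (hjet : ∀ k, 1 ≤ k → √(eval x (HS k A)) * δ ^ k ≤ (1 / 2) ^ k * eval x A)
    {s : ℝ} (hs : 0 ≤ s) (k : ℕ) :
    √(eval x (TS s A k 1)) ≤ twist_R (s * eval x A) k * (k.factorial : ℝ) / δ ^ k := by
  induction k using Nat.strong_induction_on with
  | _ k ih =>
    cases k with
    | zero =>
      simp [TS, twist_R]
    | succ k =>
      set V := s * eval x A with hV
      have hV0 : 0 ≤ V := mul_nonneg hs hA
      refine (twist_rec s hs A x k).trans ?_
      have hterm : ∀ p ∈ Finset.HasAntidiagonal.antidiagonal k, (k.choose p.1 : ℝ) *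
          (s * √(eval x (HS (p.1 + 1) A)) * √(eval x (TS s A p.2 1))) ≤
          (k.factorial : ℝ) / δ ^ (k + 1) *
          (V * ((1 / 2 : ℝ) ^ (p.1 + 1) * twist_R V p.2)) := by
        intro p hp
        rw [Finset.HasAntidiagonal.mem_antidiagonal] at hp
        have h1 := ih p.2 (by omega)
        have h2 : √(eval x (HS (p.1 + 1) A)) ≤ (1 / 2) ^ (p.1 + 1) * eval x A / δ ^ (p.1 + 1) := by
          rw [le_div_iff₀ (by positivity)]
          exact hjet _ (by omega)
        have hR := twist_R_nonneg hV0 p.2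
        have h3 : (k.choose p.1 : ℝ) * (p.2.factorial : ℝ) ≤ (k.factorial : ℝ) := by
          have h4 := Nat.add_choose_mul_factorial_mul_factorial p.1 p.2
          rw [hp, ← Nat.choose_symm_of_eq_add hp.symm] at h4
          have h5 : k.choose p.1 * p.2.factorial ≤ k.factorial := by
            calc k.choose p.1 * p.2.factorial ≤ k.choose p.1 * p.1.factorial * p.2.factorial := by
                  apply Nat.mul_le_mul_right
                  exact Nat.le_mul_of_pos_right _ (Nat.factorial_pos _)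
              _ = k.factorial := h4
          exact_mod_cast h5
        have hpow : δ ^ (k + 1) = δ ^ (p.1 + 1) * δ ^ p.2 := by
          rw [← pow_add]
          congr 1
          omega
        calc (k.choose p.1 : ℝ) *
              (s * √(eval x (HS (p.1 + 1) A)) * √(eval x (TS s A p.2 1)))
            ≤ (k.choose p.1 : ℝ) * (s * ((1 / 2) ^ (p.1 + 1) * eval x A / δ ^ (p.1 + 1)) *
              (twist_R V p.2 * (p.2.factorial : ℝ) / δ ^ p.2)) := by
              gcongr
          _ = ((k.choose p.1 : ℝ) * (p.2.factorial : ℝ)) *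
              ((V * ((1 / 2 : ℝ) ^ (p.1 + 1) * twist_R V p.2)) / δ ^ (k + 1)) := by
              rw [hpow, hV]
              field_simp
          _ ≤ (k.factorial : ℝ) *
              ((V * ((1 / 2 : ℝ) ^ (p.1 + 1) * twist_R V p.2)) / δ ^ (k + 1)) := by
              apply mul_le_mul_of_nonneg_right h3
              positivity
          _ = (k.factorial : ℝ) / δ ^ (k + 1) *
              (V * ((1 / 2 : ℝ) ^ (p.1 + 1) * twist_R V p.2)) := by
              field_simp
      refine (Finset.sum_le_sum hterm).trans (le_of_eq ?_)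
      rw [← Finset.mul_sum, ← Finset.mul_sum, twist_R_sum, Nat.factorial_succ]
      push_cast
      field_simp

theorem twist_bound (A : MvPolynomial ι ℝ) {δ : ℝ} (hδ : 0 < δ) (x : ι → ℝ)
    (hA : 0 ≤ eval x A)
    (hjet : ∀ k, 1 ≤ k → √(eval x (HS k A)) * δ ^ k ≤ (1 / 2) ^ k * eval x A)
    {s : ℝ} (hs : 0 ≤ s) (k : ℕ) :
    √(eval x (TS s A k 1)) * Hx s A x ≤ 2 * (k.factorial : ℝ) / δ ^ k := by
  have h1 := twist_main A hδ x hA hjet hs k
  have hV0 : 0 ≤ s * eval x A := mul_nonneg hs hA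
  have h2 := twist_R_exp hV0 k
  have h3 : twist_R (s * eval x A) k * Hx s A x ≤ 1 := by
    unfold Hx
    calc twist_R (s * eval x A) k * Real.exp (-(s * eval x A))
        ≤ Real.exp (s * eval x A) * Real.exp (-(s * eval x A)) := by
          gcongr
      _ = 1 := by rw [← Real.exp_add, add_neg_cancel, Real.exp_zero]
  have hH := Hx_pos s A x
  calc √(eval x (TS s A k 1)) * Hx s A x
      ≤ twist_R (s * eval x A) k * (k.factorial : ℝ) / δ ^ k * Hx s A x := by gcongr
    _ = (twist_R (s * eval x A) k * Hx s A x) * ((k.factorial : ℝ) / δ ^ k) := by ring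
    _ ≤ 1 * ((k.factorial : ℝ) / δ ^ k) := by
        apply mul_le_mul_of_nonneg_right h3
        positivity
    _ ≤ 2 * ((k.factorial : ℝ) / δ ^ k) := by
        apply mul_le_mul_of_nonneg_right (by norm_num)
        positivity
    _ = 2 * (k.factorial : ℝ) / δ ^ k := by ring

end Pool.Agent.KWG
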