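import Pool.Agent.Lib.MP_68391b_lc.Gen.GJet
import Pool.Agent.Lib.MP_68391b_lc.Gen.GTwist
import Pool.Agent.Lib.MP_68391b_lc.Gen.GLev
import Pool.Agent.Lib.MP_68391b_lc.Gen.GComm
import Pool.Agent.Lib.MP_68391b_lc.Gen.GTrans

/-! Assembly, part 1: decay of the Hermite levels. -/

set_option linter.unusedSectionVars false

namespace Pool.Agent.KWG

open MeasureTheory ProbabilityTheory MvPolynomial Pool.Agent.KWI

variable {ι : Type} [Fintype ι] [DecidableEq ι]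

theorem ap_nonneg (d : ℕ) (ρ w : ℝ) (p : MvPolynomial ι ℝ) (x : ι → ℝ) :
    0 ≤ eval x (AP d ρ w p) := (sq_nonneg w).trans (ap_ge d ρ w p x)

theorem vp_degree (d : ℕ) (ρ : ℝ) (p : MvPolynomial ι ℝ) (hp : p.totalDegree ≤ d) :
    (VP d ρ p).totalDegree ≤ 2 * d := by
  unfold VP
  refine MvPolynomial.totalDegree_finsetSum_le fun i _ => ?_
  refine (MvPolynomial.totalDegree_mul _ _).trans ?_
  rw [MvPolynomial.totalDegree_C, zero_add]
  exact (hs_totalDegree _ _).trans (Nat.mul_le_mul_left _ hp)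

theorem vpw_degree (d : ℕ) (ρ w : ℝ) (p : MvPolynomial ι ℝ) (hp : p.totalDegree ≤ d) :
    (VP d ρ p + C (w ^ 2)).totalDegree ≤ 2 * d := by
  refine (MvPolynomial.totalDegree_add _ _).trans (max_le (vp_degree d ρ p hp) ?_)
  rw [MvPolynomial.totalDegree_C]; exact Nat.zero_le _

theorem ap_degree (d : ℕ) (ρ w : ℝ) (p : MvPolynomial ι ℝ) (hp : p.totalDegree ≤ d) :
    (AP d ρ w p).totalDegree ≤ 2 * d := by
  unfold AP
  refine (MvPolynomial.totalDegree_add _ _).trans (max_le ?_ ?_)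
  · refine (MvPolynomial.totalDegree_add _ _).trans (max_le ?_ (vp_degree d ρ p hp))
    exact (MvPolynomial.totalDegree_pow _ _).trans (Nat.mul_le_mul_left _ hp)
  · rw [MvPolynomial.totalDegree_C]; exact Nat.zero_le _

theorem level_decay {d : ℕ} {ρ : ℝ} (hρ : 0 < ρ) (w : ℝ) (p : MvPolynomial ι ℝ)
    (hp : p.totalDegree ≤ d) {s : ℝ} (hs : 0 ≤ s) (k r : ℕ) (hr : r ≤ k) :
    (k.descFactorial r : ℝ) * ∑ α ∈ lev ι k, (cf s (AP d ρ w p) 1 α) ^ 2 ≤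
      4 * (r.factorial : ℝ) ^ 2 * (4 / ρ) ^ (2 * r) := by
  set A := AP d ρ w p with hA
  have hA0 : ∀ x, 0 ≤ eval x A := fun x => ap_nonneg d ρ w p x
  refine (level_bound hA0 hs k r hr 1).trans ?_
  have hpt : ∀ x : ι → ℝ, eval x (TS s A r 1) * (Hx s A x) ^ 2 ≤
      4 * (r.factorial : ℝ) ^ 2 * (4 / ρ) ^ (2 * r) := by
    intro x
    have h1 := twist_bound A (δ := ρ / 4) (by positivity) x (hA0 x) (by
      intro k hk
      have h2 := jet_bound hρ w p hp x k hk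
      rw [← hA] at h2
      calc √(eval x (HS k A)) * (ρ / 4) ^ k ≤ ((2 / ρ) ^ k * eval x A) * (ρ / 4) ^ k := by
            gcongr
        _ = ((2 / ρ) * (ρ / 4)) ^ k * eval x A := by rw [mul_pow]; ring
        _ = (1 / 2) ^ k * eval x A := by
            congr 2
            field_simp
            norm_num) hs r
    have h3 : 0 ≤ √(eval x (TS s A r 1)) * Hx s A x :=
      mul_nonneg (Real.sqrt_nonneg _) (Hx_pos s A x).le
    have h4 := pow_le_pow_left₀ h3 h1 2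
    rw [mul_pow, Real.sq_sqrt (ts_nonneg s A r 1 x)] at h4
    refine h4.trans (le_of_eq ?_)
    have e1 : (ρ / 4) ^ r = ((4 / ρ) ^ r)⁻¹ := by rw [← inv_pow, inv_div]
    rw [e1, div_inv_eq_mul, mul_pow, mul_pow, ← pow_mul, mul_comm r 2]
    norm_num
  calc ∫ x, eval x (TS s A r 1) * (Hx s A x) ^ 2 ∂(gam ι)
      ≤ ∫ _x, (4 * (r.factorial : ℝ) ^ 2 * (4 / ρ) ^ (2 * r)) ∂(gam ι) := by
        apply integral_mono_of_nonneg
        · exact Filter.Eventually.of_forall fun x =>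
            mul_nonneg (ts_nonneg s A r 1 x) (sq_nonneg _)
        · exact integrable_const _
        · exact Filter.Eventually.of_forall hpt
    _ = _ := by simp

theorem level_decay' {d : ℕ} {ρ : ℝ} (hρ : 0 < ρ) (w : ℝ) (p : MvPolynomial ι ℝ)
    (hp : p.totalDegree ≤ d) {s : ℝ} (hs : 0 ≤ s) (k r : ℕ) (hr1 : 1 ≤ r)
    (hk : 256 * (r : ℝ) ^ 2 / ρ ^ 2 + r ≤ k) :
    ∑ α ∈ lev ι k, (cf s (AP d ρ w p) 1 α) ^ 2 ≤ 4 / 16 ^ r := by
  have hrk : r ≤ k := by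
    have h0 : (0 : ℝ) ≤ 256 * (r : ℝ) ^ 2 / ρ ^ 2 := by positivity
    have : (r : ℝ) ≤ k := by linarith
    exact_mod_cast this
  have h1 := level_decay hρ w p hp hs k r hrk
  set L := ∑ α ∈ lev ι k, (cf s (AP d ρ w p) 1 α) ^ 2 with hL
  have hL0 : 0 ≤ L := Finset.sum_nonneg fun α _ => sq_nonneg _
  have hr0 : (0 : ℝ) < r := by exact_mod_cast hr1
  -- lower bound for the descending factorial
  have h2 : (256 * (r : ℝ) ^ 2 / ρ ^ 2) ^ r ≤ (k.descFactorial r : ℝ) := by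
    have h3 : ((k + 1 - r) ^ r : ℕ) ≤ k.descFactorial r := Nat.pow_sub_le_descFactorial k r
    have h4 : (((k + 1 - r : ℕ) : ℝ)) ^ r ≤ (k.descFactorial r : ℝ) := by exact_mod_cast h3
    refine le_trans (pow_le_pow_left₀ (by positivity) ?_ r) h4
    rw [Nat.cast_sub (by omega)]
    push_cast
    linarith
  have h5 : (r.factorial : ℝ) ≤ (r : ℝ) ^ r := by exact_mod_cast Nat.factorial_le_pow r
  have h6 : (256 * (r : ℝ) ^ 2 / ρ ^ 2) ^ r * L ≤ 4 * ((r : ℝ) ^ r) ^ 2 * (4 / ρ) ^ (2 * r) := by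
    calc (256 * (r : ℝ) ^ 2 / ρ ^ 2) ^ r * L ≤ (k.descFactorial r : ℝ) * L := by gcongr
      _ ≤ _ := h1
      _ ≤ _ := by gcongr
  have h7 : (256 * (r : ℝ) ^ 2 / ρ ^ 2) ^ r = 16 ^ r * (((r : ℝ) ^ r) ^ 2 * (4 / ρ) ^ (2 * r)) := by
    have e1 : ((r : ℝ) ^ r) ^ 2 = ((r : ℝ) ^ 2) ^ r := by rw [← pow_mul, ← pow_mul, mul_comm]
    have e2 : ((4 : ℝ) / ρ) ^ (2 * r) = ((4 / ρ) ^ 2) ^ r := by rw [pow_mul]
    rw [e1, e2, ← mul_pow, ← mul_pow]
    congr 1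
    field_simp
    norm_num
  have hpos : 0 < ((r : ℝ) ^ r) ^ 2 * (4 / ρ) ^ (2 * r) := by positivity
  rw [h7] at h6
  rw [le_div_iff₀ (by positivity)]
  have h8 : (L * 16 ^ r) * (((r : ℝ) ^ r) ^ 2 * (4 / ρ) ^ (2 * r)) ≤
      4 * (((r : ℝ) ^ r) ^ 2 * (4 / ρ) ^ (2 * r)) := by nlinarith
  exact le_of_mul_le_mul_right h8 hpos

/-- The bound for the commutator polynomial. -/
theorem ee_small {d : ℕ} {ρ : ℝ} (hρ : 0 < ρ) (w : ℝ) (p : MvPolynomial ι ℝ)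
    (hp : p.totalDegree ≤ d) {s : ℝ} (hs : 0 ≤ s) (N₀ r : ℕ) (hr1 : 1 ≤ r)
    (hN : 256 * (r : ℝ) ^ 2 / ρ ^ 2 + r + 2 * d ≤ N₀) :
    n2 (EE N₀ s (AP d ρ w p)) ≤ 2 * (1 + 2 * √((N₀ : ℝ) + 4 * d)) ^ (2 * d) *
      n2 (AP d ρ w p) * (4 * √(d : ℝ) / 4 ^ r) := by
  set A := AP d ρ w p with hA
  have hA0 : ∀ x, 0 ≤ eval x A := fun x => ap_nonneg d ρ w p x
  have h0 : (0 : ℝ) ≤ 256 * (r : ℝ) ^ 2 / ρ ^ 2 := by positivity
  have hDN : 2 * d ≤ N₀ := by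
    have hr0 : (0 : ℝ) ≤ r := by positivity
    have : (2 * d : ℝ) ≤ N₀ := by linarith
    exact_mod_cast this
  have h1 := comm_bound hA0 (D := 2 * d) (ap_degree d ρ w p hp) N₀ hDN hs
  have e1 : (N₀ : ℝ) + 2 * ((2 * d : ℕ) : ℝ) = (N₀ : ℝ) + 4 * d := by push_cast; ring
  rw [e1] at h1
  refine h1.trans ?_
  have h2 : √(∑ k ∈ Finset.Ioc (N₀ - 2 * d) (N₀ + 2 * d), ∑ α ∈ lev ι k, (cf s A 1 α) ^ 2) ≤
      4 * √(d : ℝ) / 4 ^ r := by
    rw [Real.sqrt_le_iff]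
    refine ⟨by positivity, ?_⟩
    have h3 : ∀ k ∈ Finset.Ioc (N₀ - 2 * d) (N₀ + 2 * d),
        ∑ α ∈ lev ι k, (cf s A 1 α) ^ 2 ≤ 4 / 16 ^ r := by
      intro k hk
      rw [Finset.mem_Ioc] at hk
      refine level_decay' hρ w p hp hs k r hr1 ?_
      have h4 : (N₀ : ℝ) ≤ k + 2 * d := by
        have : N₀ ≤ k + 2 * d := by omega
        exact_mod_cast this
      linarith
    have h5 := Finset.sum_le_sum h3
    refine h5.trans ?_
    rw [Finset.sum_const, Nat.card_Ioc, nsmul_eq_mul]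
    have h6 : N₀ + 2 * d - (N₀ - 2 * d) = 4 * d := by omega
    rw [h6, div_pow, mul_pow, Real.sq_sqrt (by positivity)]
    have h7 : ((4 : ℝ) ^ r) ^ 2 = 16 ^ r := by rw [← pow_mul, mul_comm, pow_mul]; norm_num
    rw [h7]
    push_cast
    apply le_of_eq
    ring
  gcongr
  exact mul_nonneg (by positivity) (n2_nonneg _)

end Pool.Agent.KWG
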