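import Pool.Agent.Lib.MP_68391b_lc.Gen.GHermE

/-! A small ball estimate. -/

set_option linter.unusedSectionVars false

namespace Pool.Agent.KWG

open MeasureTheory ProbabilityTheory MvPolynomial Pool.Agent.KWI

variable {ι : Type} [Fintype ι] [DecidableEq ι]

theorem gball_hs_zero (k : ℕ) : HS k (0 : MvPolynomial ι ℝ) = 0 := by
  induction k with
  | zero => simp [HS]
  | succ k ih => simp [HS, ih]

theorem gball_hs_eq_zero (k : ℕ) (q : MvPolynomial ι ℝ) (hq : q.totalDegree + 1 ≤ k) :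
    HS k q = 0 := by
  induction k generalizing q with
  | zero => omega
  | succ k ih =>
    simp only [HS]
    refine Finset.sum_eq_zero fun j _ => ?_
    by_cases h0 : q.totalDegree = 0
    · have h1 : q = C (coeff 0 q) := totalDegree_eq_zero_iff_eq_C.1 h0
      have h2 : pderiv j q = 0 := by
        rw [h1, pderiv_C]
      rw [h2, gball_hs_zero]
    · apply ih
      have := pderiv_deg j q
      omega

theorem gball_int_nonneg (k : ℕ) (q : MvPolynomial ι ℝ) :
    0 ≤ ∫ x, eval x (HS k q) ∂(gam ι) := integral_nonneg fun x => hs_nonneg k q x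

theorem gball_one (p : MvPolynomial ι ℝ)
    (hvar : 1 ≤ ∫ x, (eval x p - ∫ y, eval y p ∂(gam ι)) ^ 2 ∂(gam ι)) :
    1 ≤ ∫ x, eval x (HS 1 p) ∂(gam ι) := by
  refine (hvar.trans (herm_poincare p)).trans (le_of_eq ?_)
  have h1 : (fun x : ι → ℝ => eval x (HS 1 p)) = fun x => ∑ j, (eval x (pderiv j p)) ^ 2 := by
    funext x
    simp [HS]
  rw [h1, integral_finset_sum _ fun j _ => poly_integrable_sq _]
  exact Finset.sum_congr rfl fun j _ => n2_sq _

theorem small_ball {d : ℕ} (p : MvPolynomial ι ℝ) (hp : p.totalDegree ≤ d)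
    (hvar : 1 ≤ ∫ x, (eval x p - ∫ y, eval y p ∂(gam ι)) ^ 2 ∂(gam ι)) {ρ β : ℝ} (hρ : 0 < ρ)
    (hρ1 : ρ ≤ 1) (hβ : 0 < β) (hβ1 : β ≤ 1 / 2) :
    (gam ι).real {x | (eval x p) ^ 2 + eval x (VP d ρ p) < ρ ^ (2 * d) * β ^ d / 8} ≤
      8 * β := by
  classical
  set a : ℕ → ℝ := fun i => ∫ x, eval x (HS i p) ∂(gam ι) with ha
  have a_nn : ∀ i, 0 ≤ a i := fun i => gball_int_nonneg i p
  have a1 : 1 ≤ a 1 := gball_one p hvar
  have ad : a (d + 1) = 0 := by
    simp only [ha]
    rw [gball_hs_eq_zero (d + 1) p (by omega)]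
    simp
  have hd : 1 ≤ d := by
    by_contra h
    have h0 : d = 0 := by omega
    rw [h0] at ad
    rw [zero_add] at ad
    linarith
  -- the first good index
  have hex : ∃ i, a (i + 1 + 1) ≤ β * a (i + 1) := ⟨d - 1, by
    have e : d - 1 + 1 = d := by omega
    rw [e, ad]
    exact mul_nonneg hβ.le (a_nn _)⟩
  set i₀ := Nat.find hex with hi₀
  have hi : a (i₀ + 1 + 1) ≤ β * a (i₀ + 1) := Nat.find_spec hex
  have hmin : ∀ l, l < i₀ → β * a (l + 1) < a (l + 1 + 1) := fun l hl =>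
    not_le.1 (Nat.find_min hex hl)
  have hi₀d : i₀ + 1 ≤ d := by
    have : i₀ ≤ d - 1 := by
      apply Nat.find_min' hex
      have e : d - 1 + 1 = d := by omega
      rw [e, ad]
      exact mul_nonneg hβ.le (a_nn _)
    omega
  have hpow : ∀ l, l ≤ i₀ → β ^ l ≤ a (l + 1) := by
    intro l
    induction l with
    | zero => intro _; simpa using a1
    | succ l ih =>
      intro hl
      have h1 := ih (by omega)
      have h2 := hmin l (by omega)
      rw [pow_succ]
      nlinarith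
  set i := i₀ + 1 with hidef
  have hai : β ^ i₀ ≤ a i := hpow i₀ le_rfl
  have haipos : 0 < a i := lt_of_lt_of_le (pow_pos hβ _) hai
  -- the family
  obtain ⟨κ, _, _, q, hqd, hq1, hq2⟩ := hs_family i p
  set m : κ → ℝ := fun l => ∫ y, eval y (q l) ∂(gam ι) with hm
  have hvarl : ∀ l, ∫ x, (eval x (q l) - m l) ^ 2 ∂(gam ι) ≤ ∑ j, n2 (pderiv j (q l)) ^ 2 :=
    fun l => herm_poincare (q l)
  have int_sub : ∀ l, Integrable (fun x : ι → ℝ => (eval x (q l) - m l) ^ 2) (gam ι) := by
    intro l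
    have := poly_integrable_sq (q l - C (m l))
    simpa using this
  have ai_eq : a i = ∑ l, ∫ x, (eval x (q l)) ^ 2 ∂(gam ι) := by
    simp only [ha]
    rw [hq1, ← integral_finset_sum _ fun l _ => poly_integrable_sq _]
    congr 1
    funext x
    simp
  have ai1_eq : a (i + 1) = ∑ l, ∑ j, n2 (pderiv j (q l)) ^ 2 := by
    simp only [ha]
    rw [hq2]
    have h1 : (fun x : ι → ℝ => eval x (∑ l, ∑ j, (pderiv j (q l)) ^ 2)) =
        fun x => ∑ l, ∑ j, (eval x (pderiv j (q l))) ^ 2 := by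
      funext x; simp
    rw [h1, integral_finset_sum _ fun l _ => integrable_finset_sum _ fun j _ =>
      poly_integrable_sq _]
    refine Finset.sum_congr rfl fun l _ => ?_
    rw [integral_finset_sum _ fun j _ => poly_integrable_sq _]
    exact Finset.sum_congr rfl fun j _ => (n2_sq _).symm
  set V : ℝ := ∑ l, ∫ x, (eval x (q l) - m l) ^ 2 ∂(gam ι) with hV
  have hVle : V ≤ β * a i := by
    refine le_trans ?_ hi
    rw [ai1_eq]
    exact Finset.sum_le_sum fun l _ => hvarl l
  have hvar_eq : ∀ l, ∫ x, (eval x (q l)) ^ 2 ∂(gam ι) =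
      ∫ x, (eval x (q l) - m l) ^ 2 ∂(gam ι) + m l ^ 2 := by
    intro l
    have h1 : (fun x : ι → ℝ => (eval x (q l)) ^ 2) = fun x =>
        ((eval x (q l) - m l) ^ 2 + (2 * m l) * eval x (q l)) + (-(m l) ^ 2) := by
      funext x; ring
    have i1 : Integrable (fun x : ι → ℝ => (2 * m l) * eval x (q l)) (gam ι) :=
      (poly_integrable (q l)).const_mul _
    have i2 : Integrable (fun x : ι → ℝ => (eval x (q l) - m l) ^ 2 + (2 * m l) * eval x (q l))
      (gam ι) := (int_sub l).add i1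
    rw [h1, integral_add i2 (integrable_const _), integral_add (int_sub l) i1,
      integral_const_mul, integral_const]
    simp only [probReal_univ, smul_eq_mul, one_mul]
    have : ∫ x, eval x (q l) ∂(gam ι) = m l := rfl
    rw [this]; ring
  have hmsum : a i / 2 ≤ ∑ l, m l ^ 2 := by
    have h1 : a i = V + ∑ l, m l ^ 2 := by
      rw [ai_eq, hV, ← Finset.sum_add_distrib]
      exact Finset.sum_congr rfl fun l _ => hvar_eq l
    nlinarith
  -- the event
  have hsub : {x : ι → ℝ | (eval x p) ^ 2 + eval x (VP d ρ p) < ρ ^ (2 * d) * β ^ d / 8} ⊆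
      {x | a i / 8 ≤ ∑ l, (eval x (q l) - m l) ^ 2} := by
    intro x hx
    simp only [Set.mem_setOf_eq] at hx ⊢
    have h1 : ρ ^ (2 * i) * eval x (HS i p) ≤ eval x (VP d ρ p) := by
      simp only [VP, map_sum, map_mul, eval_C]
      have := Finset.single_le_sum (f := fun k => ρ ^ (2 * (k + 1)) * eval x (HS (k + 1) p))
        (fun k _ => mul_nonneg (pow_nonneg hρ.le _) (hs_nonneg _ _ _))
        (Finset.mem_range.2 (show i₀ < d by omega))
      exact this
    have h2 : ρ ^ (2 * d) ≤ ρ ^ (2 * i) := pow_le_pow_of_le_one hρ.le hρ1 (by omega)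
    have h3 : ρ ^ (2 * d) * eval x (HS i p) < ρ ^ (2 * d) * (β ^ d / 8) := by
      have h4 : ρ ^ (2 * d) * eval x (HS i p) ≤ ρ ^ (2 * i) * eval x (HS i p) :=
        mul_le_mul_of_nonneg_right h2 (hs_nonneg _ _ _)
      have h5 : 0 ≤ (eval x p) ^ 2 := sq_nonneg _
      have h6 : ρ ^ (2 * d) * (β ^ d / 8) = ρ ^ (2 * d) * β ^ d / 8 := by ring
      linarith
    have h7 : eval x (HS i p) < β ^ d / 8 := lt_of_mul_lt_mul_left h3 (pow_nonneg hρ.le _)
    have h8 : β ^ d ≤ β ^ i := pow_le_pow_of_le_one hβ.le (by linarith) hi₀d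
    have h9 : β ^ i ≤ a i / 2 := by
      rw [hidef, pow_succ]
      have : 0 ≤ β ^ i₀ := pow_nonneg hβ.le _
      nlinarith
    have h10 : ∑ l, (eval x (q l)) ^ 2 < a i / 16 := by
      have e : eval x (HS i p) = ∑ l, (eval x (q l)) ^ 2 := by
        rw [hq1]; simp
      rw [← e]; linarith
    have h11 : ∑ l, (m l ^ 2 / 2 - (eval x (q l)) ^ 2) ≤ ∑ l, (eval x (q l) - m l) ^ 2 := by
      refine Finset.sum_le_sum fun l _ => ?_
      nlinarith [sq_nonneg (2 * eval x (q l) - m l)]
    rw [Finset.sum_sub_distrib, ← Finset.sum_div] at h11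
    linarith
  have hmark := mul_meas_ge_le_integral_of_nonneg (μ := gam ι)
    (f := fun x : ι → ℝ => ∑ l, (eval x (q l) - m l) ^ 2)
    (Filter.Eventually.of_forall fun x => Finset.sum_nonneg fun l _ => sq_nonneg _)
    (integrable_finset_sum _ fun l _ => int_sub l) (a i / 8)
  rw [integral_finset_sum _ fun l _ => int_sub l] at hmark
  have hmono : (gam ι).real {x | (eval x p) ^ 2 + eval x (VP d ρ p) < ρ ^ (2 * d) * β ^ d / 8} ≤
      (gam ι).real {x | a i / 8 ≤ ∑ l, (eval x (q l) - m l) ^ 2} := measureReal_mono hsub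
  refine hmono.trans ?_
  have h12 : a i / 8 * (gam ι).real {x | a i / 8 ≤ ∑ l, (eval x (q l) - m l) ^ 2} ≤ β * a i :=
    hmark.trans hVle
  have h13 : (a i / 8) * (gam ι).real {x | a i / 8 ≤ ∑ l, (eval x (q l) - m l) ^ 2} ≤
      (a i / 8) * (8 * β) := by linarith
  exact le_of_mul_le_mul_left h13 (by positivity)

end Pool.Agent.KWG
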