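import Pool.Agent.Lib.MP_68391b_lc.Gen.GDefs

/-! The smooth upper bound for the indicator function. -/

set_option linter.unusedSectionVars false

namespace Pool.Agent.KWG

open MeasureTheory ProbabilityTheory MvPolynomial Pool.Agent.KWI

section gfunaux

variable {Ω : Type} [MeasurableSpace Ω]

theorem gfun_prod_integrable (ρ : Measure Ω) [IsProbabilityMeasure ρ] (q a : Ω → ℝ)
    (hq : Integrable q ρ) (ha : Measurable a) {w : ℝ} (haw : ∀ x, w ^ 2 ≤ a x) (k : ℝ → ℝ)
    (hk0 : ∀ s, 0 < s → 0 ≤ k s) (hkm : Measurable k)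
    (hk : IntegrableOn (fun s => k s * Real.exp (-(s * w ^ 2))) (Set.Ioi 0)) :
    Integrable (fun z : Ω × ℝ => q z.1 * (k z.2 * Real.exp (-(z.2 * a z.1))))
      (ρ.prod (volume.restrict (Set.Ioi 0))) := by
  have h1 : Integrable (fun z : Ω × ℝ => q z.1 * (k z.2 * Real.exp (-(z.2 * w ^ 2))))
      (ρ.prod (volume.restrict (Set.Ioi 0))) := hq.mul_prod hk
  refine h1.mono ?_ ?_
  · apply AEStronglyMeasurable.mul
    · exact hq.aestronglyMeasurable.comp_fst
    · apply Measurable.aestronglyMeasurable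
      apply Measurable.mul
      · exact hkm.comp measurable_snd
      · apply Real.measurable_exp.comp
        apply Measurable.neg
        exact measurable_snd.mul (ha.comp measurable_fst)
  · have hset : MeasurableSet {z : Ω × ℝ | z.2 ∈ Set.Ioi (0 : ℝ)} :=
      measurable_snd measurableSet_Ioi
    have hae : ∀ᵐ z : Ω × ℝ ∂(ρ.prod (volume.restrict (Set.Ioi (0 : ℝ)))),
        z.2 ∈ Set.Ioi (0 : ℝ) := by
      rw [Measure.ae_prod_iff_ae_ae hset]
      refine Filter.Eventually.of_forall fun x => ?_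
      exact ae_restrict_mem measurableSet_Ioi
    filter_upwards [hae] with z hz
    have hz' : 0 < z.2 := hz
    rw [norm_mul, norm_mul, norm_mul, norm_mul, Real.norm_of_nonneg (hk0 _ hz'),
      Real.norm_of_nonneg (Real.exp_pos _).le, Real.norm_of_nonneg (Real.exp_pos _).le]
    apply mul_le_mul_of_nonneg_left _ (norm_nonneg _)
    apply mul_le_mul_of_nonneg_left _ (hk0 _ hz')
    apply Real.exp_le_exp.2
    have := mul_le_mul_of_nonneg_left (haw z.1) hz'.le
    linarith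

theorem gfun_fubini (ρ : Measure Ω) [IsProbabilityMeasure ρ] (q a : Ω → ℝ)
    (hq : Integrable q ρ) (ha : Measurable a) {w : ℝ} (haw : ∀ x, w ^ 2 ≤ a x) (k : ℝ → ℝ)
    (hk0 : ∀ s, 0 < s → 0 ≤ k s) (hkm : Measurable k)
    (hk : IntegrableOn (fun s => k s * Real.exp (-(s * w ^ 2))) (Set.Ioi 0)) :
    ∫ x, q x * (∫ s in Set.Ioi 0, k s * Real.exp (-(s * a x))) ∂ρ =
      ∫ s in Set.Ioi 0, k s * (∫ x, q x * Real.exp (-(s * a x)) ∂ρ) := by
  have h := gfun_prod_integrable ρ q a hq ha haw k hk0 hkm hk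
  have h1 := integral_integral_swap (f := fun x s => q x * (k s * Real.exp (-(s * a x)))) h
  calc ∫ x, q x * (∫ s in Set.Ioi 0, k s * Real.exp (-(s * a x))) ∂ρ
      = ∫ x, (∫ s in Set.Ioi (0 : ℝ), q x * (k s * Real.exp (-(s * a x)))) ∂ρ := by
        congr 1
        funext x
        rw [integral_const_mul]
    _ = ∫ s in Set.Ioi (0 : ℝ), (∫ x, q x * (k s * Real.exp (-(s * a x))) ∂ρ) := h1
    _ = ∫ s in Set.Ioi 0, k s * (∫ x, q x * Real.exp (-(s * a x)) ∂ρ) := by
        congr 1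
        funext s
        rw [← integral_const_mul]
        congr 1
        funext x
        ring

theorem gfun_fubini_int (ρ : Measure Ω) [IsProbabilityMeasure ρ] (q a : Ω → ℝ)
    (hq : Integrable q ρ) (ha : Measurable a) {w : ℝ} (haw : ∀ x, w ^ 2 ≤ a x) (k : ℝ → ℝ)
    (hk0 : ∀ s, 0 < s → 0 ≤ k s) (hkm : Measurable k)
    (hk : IntegrableOn (fun s => k s * Real.exp (-(s * w ^ 2))) (Set.Ioi 0)) :
    IntegrableOn (fun s => k s * (∫ x, q x * Real.exp (-(s * a x)) ∂ρ)) (Set.Ioi 0) := by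
  have h := (gfun_prod_integrable ρ q a hq ha haw k hk0 hkm hk).integral_prod_right
  refine h.congr ?_
  refine Filter.Eventually.of_forall fun s => ?_
  show ∫ x, q x * (k s * Real.exp (-(s * a x))) ∂ρ = k s * (∫ x, q x * Real.exp (-(s * a x)) ∂ρ)
  rw [← integral_const_mul]
  congr 1
  funext x
  ring

theorem gfun_diff (μ ν : Measure Ω) [IsProbabilityMeasure μ] [IsProbabilityMeasure ν]
    (q a : Ω → ℝ) (hqμ : Integrable q μ) (hqν : Integrable q ν) (ha : Measurable a) {w : ℝ}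
    (haw : ∀ x, w ^ 2 ≤ a x) (k : ℝ → ℝ)
    (hk0 : ∀ s, 0 < s → 0 ≤ k s) (hkm : Measurable k)
    (hk : IntegrableOn (fun s => k s * Real.exp (-(s * w ^ 2))) (Set.Ioi 0))
    (M S e₁ : ℝ) (hS : 1 ≤ S) (h1 : ∫ x, |q x| ∂μ ≤ M) (h2 : ∫ x, |q x| ∂ν ≤ M)
    (hkS : IntegrableOn k (Set.Ioc 0 S))
    (hd : ∀ s, 0 ≤ s → s ≤ S →
      |∫ x, q x * Real.exp (-(s * a x)) ∂μ - ∫ x, q x * Real.exp (-(s * a x)) ∂ν| ≤ e₁) :
    |∫ x, q x * (∫ s in Set.Ioi 0, k s * Real.exp (-(s * a x))) ∂μ -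
      ∫ x, q x * (∫ s in Set.Ioi 0, k s * Real.exp (-(s * a x))) ∂ν| ≤
      e₁ * (∫ s in Set.Ioc 0 S, k s) +
        2 * M * (∫ s in Set.Ioi S, k s * Real.exp (-(s * w ^ 2))) := by
  have hS0 : 0 < S := by linarith
  have iμ := gfun_fubini_int μ q a hqμ ha haw k hk0 hkm hk
  have iν := gfun_fubini_int ν q a hqν ha haw k hk0 hkm hk
  rw [gfun_fubini μ q a hqμ ha haw k hk0 hkm hk, gfun_fubini ν q a hqν ha haw k hk0 hkm hk,
    ← integral_sub iμ iν]
  set f : ℝ → ℝ := fun s => k s * (∫ x, q x * Real.exp (-(s * a x)) ∂μ) -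
    k s * (∫ x, q x * Real.exp (-(s * a x)) ∂ν) with hf
  have hfi : IntegrableOn f (Set.Ioi 0) := iμ.sub iν
  have hun : Set.Ioi (0 : ℝ) = Set.Ioc 0 S ∪ Set.Ioi S := (Set.Ioc_union_Ioi_eq_Ioi hS0.le).symm
  have hdis : Disjoint (Set.Ioc (0 : ℝ) S) (Set.Ioi S) := Set.Ioc_disjoint_Ioi le_rfl
  have hf1 : IntegrableOn f (Set.Ioc 0 S) := hfi.mono_set (by rw [hun]; exact Set.subset_union_left)
  have hf2 : IntegrableOn f (Set.Ioi S) := hfi.mono_set (by rw [hun]; exact Set.subset_union_right)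
  rw [hun, setIntegral_union hdis measurableSet_Ioi hf1 hf2]
  refine (abs_add_le _ _).trans (add_le_add ?_ ?_)
  · rw [← integral_const_mul, ← Real.norm_eq_abs]
    apply norm_integral_le_of_norm_le (hkS.const_mul e₁)
    filter_upwards [ae_restrict_mem measurableSet_Ioc] with s hs
    rw [hf]
    simp only
    rw [← mul_sub, norm_mul, Real.norm_of_nonneg (hk0 s hs.1), mul_comm]
    exact mul_le_mul_of_nonneg_right (hd s hs.1.le hs.2) (hk0 s hs.1)
  · rw [← integral_const_mul, ← Real.norm_eq_abs]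
    apply norm_integral_le_of_norm_le
    · exact (hk.mono_set (by rw [hun]; exact Set.subset_union_right)).const_mul _
    · filter_upwards [ae_restrict_mem measurableSet_Ioi] with s hs
      have hs0 : 0 < s := lt_trans hS0 hs
      have hb : ∀ (ρ : Measure Ω) [IsProbabilityMeasure ρ], Integrable q ρ →
          ∫ x, |q x| ∂ρ ≤ M →
          |∫ x, q x * Real.exp (-(s * a x)) ∂ρ| ≤ M * Real.exp (-(s * w ^ 2)) := by
        intro ρ _ hq hM
        calc |∫ x, q x * Real.exp (-(s * a x)) ∂ρ|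
            ≤ ∫ x, |q x| * Real.exp (-(s * w ^ 2)) ∂ρ := by
              rw [← Real.norm_eq_abs]
              apply norm_integral_le_of_norm_le (hq.abs.mul_const _)
              refine Filter.Eventually.of_forall fun x => ?_
              rw [norm_mul, Real.norm_of_nonneg (Real.exp_pos _).le, Real.norm_eq_abs]
              apply mul_le_mul_of_nonneg_left _ (abs_nonneg _)
              apply Real.exp_le_exp.2
              have := mul_le_mul_of_nonneg_left (haw x) hs0.le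
              linarith
          _ ≤ M * Real.exp (-(s * w ^ 2)) := by
              rw [integral_mul_const]
              exact mul_le_mul_of_nonneg_right hM (Real.exp_pos _).le
      rw [hf]
      simp only
      rw [← mul_sub, norm_mul, Real.norm_of_nonneg (hk0 s hs0), Real.norm_eq_abs]
      have h3 := hb μ hqμ h1
      have h4 := hb ν hqν h2
      have h5 := abs_sub (∫ x, q x * Real.exp (-(s * a x)) ∂μ)
        (∫ x, q x * Real.exp (-(s * a x)) ∂ν)
      have h6 := hk0 s hs0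
      calc k s * |∫ x, q x * Real.exp (-(s * a x)) ∂μ - ∫ x, q x * Real.exp (-(s * a x)) ∂ν|
          ≤ k s * (M * Real.exp (-(s * w ^ 2)) + M * Real.exp (-(s * w ^ 2))) :=
            mul_le_mul_of_nonneg_left (by linarith) h6
        _ = 2 * M * (k s * Real.exp (-(s * w ^ 2))) := by ring

end gfunaux

theorem gfun_K1 {b : ℝ} (hb : 0 < b) :
    ∫ s in Set.Ioi (0 : ℝ), s ^ (-(1 / 2) : ℝ) * Real.exp (-(s * b)) = √Real.pi / √b := by
  have h := Real.integral_rpow_mul_exp_neg_mul_Ioi (a := 1 / 2) (r := b) (by norm_num) hb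
  have e : ∫ s in Set.Ioi (0 : ℝ), s ^ (-(1 / 2) : ℝ) * Real.exp (-(s * b)) =
      ∫ t in Set.Ioi (0 : ℝ), t ^ ((1 / 2 : ℝ) - 1) * Real.exp (-(b * t)) := by
    congr 1
    funext s
    rw [mul_comm s b]
    norm_num
  rw [e, h, Real.Gamma_one_half_eq, ← Real.sqrt_eq_rpow, Real.sqrt_div zero_le_one,
    Real.sqrt_one]
  ring

theorem gfun_K2 {b : ℝ} (hb : 0 < b) (c : ℝ) :
    ∫ s in Set.Ioi c, Real.exp (-(s * b)) = Real.exp (-(c * b)) / b := by
  have h := integral_exp_mul_Ioi (a := -b) (by linarith) c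
  have e : ∫ s in Set.Ioi c, Real.exp (-(s * b)) = ∫ x in Set.Ioi c, Real.exp (-b * x) := by
    congr 1
    funext s
    congr 1
    ring
  rw [e, h]
  rw [show -b * c = -(c * b) by ring]
  field_simp

theorem gfun_int_exp {b : ℝ} (hb : 0 < b) (c : ℝ) :
    IntegrableOn (fun s => Real.exp (-(s * b))) (Set.Ioi c) := by
  have h := integrableOn_exp_mul_Ioi (a := -b) (by linarith) c
  refine h.congr_fun (fun s _ => ?_) measurableSet_Ioi
  show Real.exp (-b * s) = Real.exp (-(s * b))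
  congr 1
  ring

theorem gfun_int_rpow {b : ℝ} (hb : 0 < b) :
    IntegrableOn (fun s => s ^ (-(1 / 2) : ℝ) * Real.exp (-(s * b))) (Set.Ioi 0) := by
  have h := integrableOn_rpow_mul_exp_neg_mul_rpow (p := 1) (s := -(1 / 2)) (b := b)
    (by norm_num) one_pos hb
  refine h.congr_fun (fun s _ => ?_) measurableSet_Ioi
  show s ^ (-(1 / 2) : ℝ) * Real.exp (-b * s ^ (1 : ℝ)) =
    s ^ (-(1 / 2) : ℝ) * Real.exp (-(s * b))
  rw [Real.rpow_one]
  congr 2
  ring

theorem gfun_int_half {S : ℝ} (hS : 1 ≤ S) :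
    IntegrableOn (fun s => s ^ (-(1 / 2) : ℝ)) (Set.Ioc 0 S) ∧
      ∫ s in Set.Ioc 0 S, s ^ (-(1 / 2) : ℝ) = 2 * √S := by
  have h1 : IntervalIntegrable (fun s : ℝ => s ^ (-(1 / 2) : ℝ)) volume 0 S :=
    intervalIntegral.intervalIntegrable_rpow' (by norm_num)
  have h2 := integral_rpow (a := 0) (b := S) (r := -(1 / 2)) (Or.inl (by norm_num))
  refine ⟨(intervalIntegrable_iff_integrableOn_Ioc_of_le (by linarith)).1 h1, ?_⟩
  rw [← intervalIntegral.integral_of_le (by linarith), h2]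
  rw [Real.sqrt_eq_rpow, show (-(1 / 2) + 1 : ℝ) = 1 / 2 by norm_num,
    Real.zero_rpow (by norm_num)]
  ring

/-- The pointwise inequalities. -/
theorem gfun_pt {p σ : ℝ} (hσ : 0 < σ) :
    (if 0 ≤ p then (1 : ℝ) else 0) ≤ 1 / 2 + 1 / 2 * (p / √(p ^ 2 + σ)) +
        1 / 2 * (σ / (p ^ 2 + σ)) ∧
      1 / 2 + 1 / 2 * (p / √(p ^ 2 + σ)) + 1 / 2 * (σ / (p ^ 2 + σ)) ≤
        (if 0 ≤ p then (1 : ℝ) else 0) + σ / (p ^ 2 + σ) := by
  have ha : 0 < p ^ 2 + σ := by positivity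
  set r := √(p ^ 2 + σ) with hr
  have hr0 : 0 < r := Real.sqrt_pos.2 ha
  have hr2 : r ^ 2 = p ^ 2 + σ := Real.sq_sqrt ha.le
  set t := p / r with ht
  have ht2 : t ^ 2 < 1 := by
    rw [ht, div_pow, div_lt_one (by positivity), hr2]
    linarith
  have hst : σ / (p ^ 2 + σ) = 1 - t ^ 2 := by
    rw [ht, div_pow, hr2]
    field_simp
    ring
  rw [hst]
  have ht1 : t < 1 := by nlinarith
  have ht3 : -1 < t := by nlinarith
  by_cases hp : 0 ≤ p
  · have ht0 : 0 ≤ t := div_nonneg hp hr0.le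
    rw [if_pos hp]
    constructor <;> nlinarith
  · have ht0 : t ≤ 0 := (div_neg_of_neg_of_pos (not_le.1 hp) hr0).le
    rw [if_neg hp]
    constructor <;> nlinarith

variable {ι : Type} [Fintype ι] [DecidableEq ι]

theorem gfun_bound (μ ν : Measure (ι → ℝ)) [IsProbabilityMeasure μ] [IsProbabilityMeasure ν]
    (p V A : MvPolynomial ι ℝ) (w : ℝ) (hw : 0 < w) (hw1 : w ≤ 1)
    (hV : ∀ x, 0 ≤ eval x V) (hA : A = p ^ 2 + V + C (w ^ 2))
    (hpμ : Integrable (fun x => eval x p) μ) (hpν : Integrable (fun x => eval x p) ν)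
    (hVμ : Integrable (fun x => eval x V) μ) (hVν : Integrable (fun x => eval x V) ν)
    (M : ℝ) (h1 : ∫ x, |eval x p| ∂μ ≤ M) (h2 : ∫ x, |eval x p| ∂ν ≤ M)
    (h3 : ∫ x, eval x (V + C (w ^ 2)) ∂μ ≤ M) (h4 : ∫ x, eval x (V + C (w ^ 2)) ∂ν ≤ M)
    (S e₁ : ℝ) (hS : 1 ≤ S)
    (hp1 : ∀ s, 0 ≤ s → s ≤ S →
      |∫ x, eval x p * Hx s A x ∂μ - ∫ x, eval x p * Hx s A x ∂ν| ≤ e₁)
    (hV1 : ∀ s, 0 ≤ s → s ≤ S →
      |∫ x, eval x (V + C (w ^ 2)) * Hx s A x ∂μ -
        ∫ x, eval x (V + C (w ^ 2)) * Hx s A x ∂ν| ≤ e₁) :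
    μ.real {x | 0 ≤ eval x p} ≤ ν.real {x | 0 ≤ eval x p} +
      ∫ x, eval x (V + C (w ^ 2)) / eval x A ∂ν + 2 * S * e₁ +
      2 * M * Real.exp (-(S * w ^ 2)) / w ^ 2 := by
  have hw2 : 0 < w ^ 2 := by positivity
  have hS0 : 0 < S := by linarith
  -- the functions
  set P : (ι → ℝ) → ℝ := fun x => eval x p with hP
  set σ : (ι → ℝ) → ℝ := fun x => eval x (V + C (w ^ 2)) with hσ
  set a : (ι → ℝ) → ℝ := fun x => eval x A with ha
  have hσe : ∀ x, σ x = eval x V + w ^ 2 := by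
    intro x
    simp only [hσ, map_add, eval_C]
  have hσw : ∀ x, w ^ 2 ≤ σ x := by
    intro x
    rw [hσe]
    linarith [hV x]
  have hσ0 : ∀ x, 0 < σ x := fun x => lt_of_lt_of_le hw2 (hσw x)
  have hae : ∀ x, a x = P x ^ 2 + σ x := by
    intro x
    rw [hσe]
    simp only [ha, hA, hP, map_add, map_pow, eval_C]
    ring
  have haw : ∀ x, w ^ 2 ≤ a x := by
    intro x
    rw [hae]
    nlinarith [hσw x, sq_nonneg (P x)]
  have ha0 : ∀ x, 0 < a x := fun x => lt_of_lt_of_le hw2 (haw x)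
  have mP : Measurable P := eval_measurable p
  have mσ : Measurable σ := eval_measurable _
  have ma : Measurable a := eval_measurable A
  have iσ : ∀ (ρ : Measure (ι → ℝ)) [IsProbabilityMeasure ρ],
      Integrable (fun x => eval x V) ρ → Integrable σ ρ := by
    intro ρ _ h
    have h5 : Integrable (fun x => eval x V + w ^ 2) ρ := h.add (integrable_const _)
    exact h5.congr (Filter.Eventually.of_forall fun x => (hσe x).symm)
  have iσμ := iσ μ hVμ
  have iσν := iσ ν hVν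
  -- absolute values of `σ`
  have hσabs : ∀ (ρ : Measure (ι → ℝ)), ∫ x, |σ x| ∂ρ = ∫ x, σ x ∂ρ := by
    intro ρ
    congr 1
    funext x
    exact abs_of_pos (hσ0 x)
  -- first difference
  obtain ⟨hh1, hh2⟩ := gfun_int_half hS
  have hexp0 : (0 : ℝ) < Real.exp (-(S * w ^ 2)) := Real.exp_pos _
  have hM0 : 0 ≤ M := le_trans (integral_nonneg fun x => abs_nonneg _) h1
  have he0 : 0 ≤ e₁ := le_trans (abs_nonneg _) (hp1 0 le_rfl hS0.le)
  have d1 := gfun_diff μ ν P a hpμ hpν ma haw (fun s => s ^ (-(1 / 2) : ℝ))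
    (fun s hs => Real.rpow_nonneg hs.le _) (measurable_id.pow_const _) (gfun_int_rpow hw2)
    M S e₁ hS h1 h2 hh1 (fun s h5 h6 => hp1 s h5 h6)
  have d2 := gfun_diff μ ν σ a iσμ iσν ma haw (fun _ => 1)
    (fun s _ => zero_le_one) measurable_const
    (by simpa using gfun_int_exp hw2 0)
    M S e₁ hS (by rw [hσabs]; exact h3) (by rw [hσabs]; exact h4)
    (integrableOn_const (by simp)) (fun s h5 h6 => hV1 s h5 h6)
  -- bounds for the tails
  have t1 : ∫ s in Set.Ioi S, s ^ (-(1 / 2) : ℝ) * Real.exp (-(s * w ^ 2)) ≤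
      Real.exp (-(S * w ^ 2)) / w ^ 2 := by
    rw [← gfun_K2 hw2 S]
    apply setIntegral_mono_on
    · exact (gfun_int_rpow hw2).mono_set (Set.Ioi_subset_Ioi hS0.le)
    · exact gfun_int_exp hw2 S
    · exact measurableSet_Ioi
    · intro s hs
      have hs1 : 1 ≤ s := le_trans hS (le_of_lt hs)
      have h5 : s ^ (-(1 / 2) : ℝ) ≤ 1 := by
        apply Real.rpow_le_one_of_one_le_of_nonpos hs1
        norm_num
      have h6 := (Real.exp_pos (-(s * w ^ 2))).le
      nlinarith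
  have t2 : ∫ s in Set.Ioi S, (1 : ℝ) * Real.exp (-(s * w ^ 2)) =
      Real.exp (-(S * w ^ 2)) / w ^ 2 := by
    rw [← gfun_K2 hw2 S]
    simp only [one_mul]
  have t3 : ∫ s in Set.Ioc (0 : ℝ) S, (1 : ℝ) = S := by
    simp [hS0.le]
  -- the kernels
  have k1 : ∀ (ρ : Measure (ι → ℝ)),
      ∫ x, P x * (∫ s in Set.Ioi 0, s ^ (-(1 / 2) : ℝ) * Real.exp (-(s * a x))) ∂ρ =
        √Real.pi * ∫ x, P x / √(a x) ∂ρ := by
    intro ρ
    rw [← integral_const_mul]
    congr 1
    funext x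
    rw [gfun_K1 (ha0 x)]
    ring
  have k2 : ∀ (ρ : Measure (ι → ℝ)),
      ∫ x, σ x * (∫ s in Set.Ioi 0, (1 : ℝ) * Real.exp (-(s * a x))) ∂ρ =
        ∫ x, σ x / a x ∂ρ := by
    intro ρ
    congr 1
    funext x
    have h5 := gfun_K2 (ha0 x) 0
    simp only [one_mul]
    rw [h5]
    simp [div_eq_mul_inv]
  rw [k1, k1, hh2] at d1
  rw [k2, k2, t2, t3] at d2
  rw [← mul_sub, abs_mul, abs_of_pos (Real.sqrt_pos.2 Real.pi_pos)] at d1
  -- integrability
  have i1 : ∀ (ρ : Measure (ι → ℝ)) [IsProbabilityMeasure ρ],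
      Integrable (fun x => P x / √(a x)) ρ := by
    intro ρ _
    apply Integrable.of_bound (C := 1)
    · exact (mP.div ma.sqrt).aestronglyMeasurable
    · refine Filter.Eventually.of_forall fun x => ?_
      rw [norm_div, Real.norm_eq_abs, Real.norm_of_nonneg (Real.sqrt_nonneg _),
        div_le_one (Real.sqrt_pos.2 (ha0 x))]
      apply Real.abs_le_sqrt
      rw [hae]
      linarith [hσ0 x]
  have i2 : ∀ (ρ : Measure (ι → ℝ)) [IsProbabilityMeasure ρ],
      Integrable (fun x => σ x / a x) ρ := by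
    intro ρ _
    apply Integrable.of_bound (C := 1)
    · exact (mσ.div ma).aestronglyMeasurable
    · refine Filter.Eventually.of_forall fun x => ?_
      rw [norm_div, Real.norm_of_nonneg (hσ0 x).le, Real.norm_of_nonneg (ha0 x).le,
        div_le_one (ha0 x), hae]
      nlinarith [sq_nonneg (P x)]
  set g : (ι → ℝ) → ℝ := fun x => 1 / 2 + 1 / 2 * (P x / √(a x)) + 1 / 2 * (σ x / a x) with hg
  have ig : ∀ (ρ : Measure (ι → ℝ)) [IsProbabilityMeasure ρ], Integrable g ρ := by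
    intro ρ _
    exact ((integrable_const _).add ((i1 ρ).const_mul _)).add ((i2 ρ).const_mul _)
  have eg : ∀ (ρ : Measure (ι → ℝ)) [IsProbabilityMeasure ρ],
      ∫ x, g x ∂ρ = 1 / 2 + 1 / 2 * (∫ x, P x / √(a x) ∂ρ) + 1 / 2 * ∫ x, σ x / a x ∂ρ := by
    intro ρ _
    have j1 : Integrable (fun x => (1 / 2 : ℝ) + 1 / 2 * (P x / √(a x))) ρ :=
      (integrable_const _).add ((i1 ρ).const_mul _)
    rw [hg, integral_add j1 ((i2 ρ).const_mul _),
      integral_add (integrable_const _) ((i1 ρ).const_mul _), integral_const_mul,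
      integral_const_mul]
    simp
  -- the indicator function
  have hset : MeasurableSet {x : ι → ℝ | 0 ≤ eval x p} := measurableSet_le measurable_const mP
  have ind : ∀ (ρ : Measure (ι → ℝ)) [IsProbabilityMeasure ρ],
      ρ.real {x | 0 ≤ eval x p} = ∫ x, (if 0 ≤ P x then (1 : ℝ) else 0) ∂ρ := by
    intro ρ _
    rw [← integral_indicator_one hset]
    congr 1
  have iind : ∀ (ρ : Measure (ι → ℝ)) [IsProbabilityMeasure ρ],
      Integrable (fun x => (if 0 ≤ P x then (1 : ℝ) else 0)) ρ := by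
    intro ρ _
    apply Integrable.of_bound (C := 1)
    · apply Measurable.aestronglyMeasurable
      exact Measurable.ite hset measurable_const measurable_const
    · refine Filter.Eventually.of_forall fun x => ?_
      by_cases hx : 0 ≤ P x
      · rw [if_pos hx]; simp
      · rw [if_neg hx]; simp
  have u1 : μ.real {x | 0 ≤ eval x p} ≤ ∫ x, g x ∂μ := by
    rw [ind μ]
    apply integral_mono (iind μ) (ig μ)
    intro x
    have := (gfun_pt (p := P x) (hσ0 x)).1
    rw [← hae] at this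
    exact this
  have u2 : ∫ x, g x ∂ν ≤ ν.real {x | 0 ≤ eval x p} + ∫ x, σ x / a x ∂ν := by
    rw [ind ν, ← integral_add (iind ν) (i2 ν)]
    apply integral_mono (ig ν) ((iind ν).add (i2 ν))
    intro x
    have := (gfun_pt (p := P x) (hσ0 x)).2
    rw [← hae] at this
    exact this
  rw [eg μ] at u1
  rw [eg ν] at u2
  -- constants
  have hpi : 1 ≤ √Real.pi := by
    rw [Real.one_le_sqrt]
    linarith [Real.pi_gt_three]
  have hsS : √S ≤ S := by
    rw [Real.sqrt_le_left hS0.le]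
    nlinarith
  set X1 := ∫ x, P x / √(a x) ∂μ
  set X2 := ∫ x, P x / √(a x) ∂ν
  set Y1 := ∫ x, σ x / a x ∂μ
  set Y2 := ∫ x, σ x / a x ∂ν
  set Z := Real.exp (-(S * w ^ 2)) / w ^ 2 with hZ
  have hZ0 : 0 ≤ Z := by positivity
  have v1 : X1 - X2 ≤ 2 * S * e₁ + 2 * M * Z := by
    have h5 : |X1 - X2| ≤ √Real.pi * |X1 - X2| := by
      nlinarith [abs_nonneg (X1 - X2)]
    have h6 := le_abs_self (X1 - X2)
    have h7 : e₁ * (2 * √S) ≤ 2 * S * e₁ := by nlinarith
    have h8 := mul_le_mul_of_nonneg_left t1 (by positivity : 0 ≤ 2 * M)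
    linarith
  have v2 : Y1 - Y2 ≤ e₁ * S + 2 * M * Z := le_trans (le_abs_self _) d2
  have h9 : 2 * M * Real.exp (-(S * w ^ 2)) / w ^ 2 = 2 * M * Z := by
    rw [hZ]
    ring
  have h10 : 0 ≤ e₁ * S := by positivity
  rw [h9]
  show μ.real {x | 0 ≤ eval x p} ≤ ν.real {x | 0 ≤ eval x p} + Y2 + 2 * S * e₁ + 2 * M * Z
  linarith

end Pool.Agent.KWG
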