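import Pool.Agent.Lib.MP_68391b_lc.Gen.GMul

/-! Norms of HS. -/

set_option linter.unusedSectionVars false

namespace Pool.Agent.KWG

open MeasureTheory ProbabilityTheory MvPolynomial Pool.Agent.KWI

variable {ι : Type} [Fintype ι] [DecidableEq ι]

theorem mom_mean {d : ℕ} (i : ℕ) : ∀ (p : MvPolynomial ι ℝ), p.totalDegree ≤ d →
    ∫ x, eval x (HS i p) ∂(gam ι) ≤ (d : ℝ) ^ i * n2 p ^ 2 := by
  induction i with
  | zero =>
    intro p _
    rw [n2_sq]
    simp [HS]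
  | succ i ih =>
    intro p hp
    have e : (fun x : ι → ℝ => eval x (HS (i + 1) p)) =
        fun x => ∑ j, eval x (HS i (pderiv j p)) := by
      funext x
      simp only [HS, map_sum]
    rw [e, integral_finsetSum _ fun j _ => poly_integrable _]
    refine (Finset.sum_le_sum fun j _ => ih (pderiv j p) ((pderiv_deg' j p).trans hp)).trans ?_
    rw [← Finset.mul_sum, pow_succ, mul_assoc]
    exact mul_le_mul_of_nonneg_left (herm_energy d p hp) (by positivity)

theorem hs_mean {d : ℕ} (p : MvPolynomial ι ℝ) (hp : p.totalDegree ≤ d) (i : ℕ) :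
    ∫ x, eval x (HS i p) ∂(gam ι) ≤ (d : ℝ) ^ i * n2 p ^ 2 := mom_mean i p hp

theorem hs_n2 {d : ℕ} (p : MvPolynomial ι ℝ) (hp : p.totalDegree ≤ d) (i : ℕ) :
    n2 (HS i p) ≤ (1 + 2 * √(2 * (d : ℝ))) ^ d * (d : ℝ) ^ i * n2 p ^ 2 := by
  obtain ⟨κ, _, _, q, hdeg, h1, _⟩ := hs_family i p
  have hm := hs_mean p hp i
  have h2 : ∫ x, eval x (HS i p) ∂(gam ι) = ∑ l, n2 (q l) ^ 2 := by
    rw [h1]
    simp only [map_sum, map_pow]
    rw [integral_finsetSum _ fun l _ => poly_integrable_sq (q l)]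
    exact Finset.sum_congr rfl fun l _ => (n2_sq (q l)).symm
  have hK : (0 : ℝ) ≤ (1 + 2 * √(2 * (d : ℝ))) ^ d := by positivity
  calc n2 (HS i p) ≤ ∑ l, n2 ((q l) ^ 2) := by
        rw [h1]
        exact n2_sum_le _ _
    _ ≤ ∑ l, (1 + 2 * √(2 * (d : ℝ))) ^ d * n2 (q l) ^ 2 := by
        refine Finset.sum_le_sum fun l _ => ?_
        have := mul_bound d d (q l) (q l) ((hdeg l).trans hp) ((hdeg l).trans hp)
        rw [← two_mul] at this
        rw [sq, sq, ← mul_assoc]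
        exact this
    _ = (1 + 2 * √(2 * (d : ℝ))) ^ d * ∫ x, eval x (HS i p) ∂(gam ι) := by
        rw [h2, Finset.mul_sum]
    _ ≤ (1 + 2 * √(2 * (d : ℝ))) ^ d * ((d : ℝ) ^ i * n2 p ^ 2) :=
        mul_le_mul_of_nonneg_left hm hK
    _ = _ := by ring

end Pool.Agent.KWG
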