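import Pool.Agent.Lib.MP_68391b_lc.Gen.GAsm1
import Pool.Agent.Lib.MP_68391b_lc.Gen.GFun
import Pool.Agent.Lib.MP_68391b_lc.Gen.GAcChain
import Pool.Agent.Lib.MP_68391b_lc.Gen.GBall
import Pool.Agent.Lib.MP_68391b_lc.Gen.GMom

/-! Assembly, part 2: the error bound with free parameters. -/

set_option linter.unusedSectionVars false

namespace Pool.Agent.KWG

open MeasureTheory ProbabilityTheory MvPolynomial Pool.Agent.KWI

variable {ι : Type} [Fintype ι] [DecidableEq ι]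

theorem abs_int_le {N : ℕ} (μ : Measure (ι → ℝ)) [IsProbabilityMeasure μ] (hμ : MM N μ)
    (p : MvPolynomial ι ℝ) (hp : 2 * p.totalDegree ≤ N) :
    ∫ x, |eval x p| ∂μ ≤ n2 p := by
  have hp2 : (p ^ 2).totalDegree ≤ N := (MvPolynomial.totalDegree_pow _ _).trans hp
  have h1 : Integrable (fun x => eval x p) μ := (hμ p (by omega)).1
  have h2 : Integrable (fun x => (eval x p) ^ 2) μ := by simpa using (hμ (p ^ 2) hp2).1
  have h3 : ∫ x, (eval x p) ^ 2 ∂μ = ∫ x, (eval x p) ^ 2 ∂(gam ι) := by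
    simpa using (hμ (p ^ 2) hp2).2
  have h4 := cs_int μ (fun x => |eval x p|) (fun _ => (1 : ℝ)) (by simpa using h2)
    (integrable_const _) (by simpa using h1.abs)
  simp only [mul_one, sq_abs, one_pow, integral_const, probReal_univ, smul_eq_mul,
    Real.sqrt_one] at h4
  rw [h3] at h4
  exact (le_abs_self _).trans h4

theorem final_err {d : ℕ} {ρ : ℝ} (hρ : 0 < ρ) {w : ℝ} (hw : 0 < w) (hw1 : w ≤ 1)
    (p : MvPolynomial ι ℝ) (hp : p.totalDegree ≤ d) {N : ℕ} (μ : Measure (ι → ℝ))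
    [IsProbabilityMeasure μ] (hμ : MM N μ) (N₀ r : ℕ) (hr1 : 1 ≤ r)
    (hN0 : 256 * (r : ℝ) ^ 2 / ρ ^ 2 + r + 2 * d ≤ N₀) (hN : 2 * (N₀ + 2 * d) ≤ N)
    (M S F G : ℝ) (hS : 1 ≤ S) (hM1 : n2 p ≤ M)
    (hM2 : ∫ x, eval x (VP d ρ p + C (w ^ 2)) ∂(gam ι) ≤ M)
    (hF1 : n2 p ≤ F) (hF2 : n2 (VP d ρ p + C (w ^ 2)) ≤ F) (hG : n2 (AP d ρ w p) ≤ G) :
    μ.real {x | 0 ≤ eval x p} ≤ (gam ι).real {x | 0 ≤ eval x p} +
      ∫ x, eval x (VP d ρ p + C (w ^ 2)) / eval x (AP d ρ w p) ∂(gam ι) +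
      2 * S * (2 * S * (2 * (1 + 2 * √((N₀ : ℝ) + 4 * d)) ^ (2 * d) * G *
        (4 * √(d : ℝ) / 4 ^ r)) * F) +
      2 * M * Real.exp (-(S * w ^ 2)) / w ^ 2 := by
  set A := AP d ρ w p with hA
  set V := VP d ρ p with hV
  set B : ℝ := 2 * (1 + 2 * √((N₀ : ℝ) + 4 * d)) ^ (2 * d) * G * (4 * √(d : ℝ) / 4 ^ r) with hB
  have hG0 : 0 ≤ G := (n2_nonneg _).trans hG
  have hF0 : 0 ≤ F := (n2_nonneg _).trans hF1
  have hB0 : 0 ≤ B := by positivity
  have hA0 : ∀ x, 0 ≤ eval x A := fun x => ap_nonneg d ρ w p x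
  have hEB : ∀ u, 0 ≤ u → n2 (EE N₀ u A) ≤ B := by
    intro u hu
    refine (ee_small hρ w p hp hu N₀ r hr1 hN0).trans ?_
    rw [hB, ← hA]
    gcongr
  have htr : ∀ Q : MvPolynomial ι ℝ, Q.totalDegree ≤ 2 * d → n2 Q ≤ F → ∀ s, 0 ≤ s → s ≤ S →
      |∫ x, eval x Q * Hx s A x ∂μ - ∫ x, eval x Q * Hx s A x ∂(gam ι)| ≤ 2 * S * B * F := by
    intro Q hQ hQF s hs hsS
    refine (transfer μ hμ hA0 (ap_degree d ρ w p hp) N₀ hN Q hQ hs
      (fun u hu _ => hEB u hu)).trans ?_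
    have := n2_nonneg Q
    gcongr
  have hpN : 2 * p.totalDegree ≤ N := by omega
  have hVdeg : V.totalDegree ≤ 2 * d := vp_degree d ρ p hp
  have hVwdeg : (V + C (w ^ 2)).totalDegree ≤ 2 * d := vpw_degree d ρ w p hp
  have h3 : ∫ x, eval x (V + C (w ^ 2)) ∂μ ≤ M := by
    rw [(hμ _ (by omega)).2]; exact hM2
  exact gfun_bound μ (gam ι) p V A w hw hw1 (fun x => vp_nonneg d ρ p x) rfl
    (hμ p (by omega)).1 (poly_integrable p) (hμ V (by omega)).1 (poly_integrable V) M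
    ((abs_int_le μ hμ p hpN).trans hM1)
    ((abs_int_le (gam ι) (MM_gam N ι) p hpN).trans hM1) h3 hM2 S (2 * S * B * F) hS
    (htr p (by omega) hF1) (htr _ hVwdeg hF2)

/-- `E σ²/A` is small. -/
theorem sigma_small {d : ℕ} (hd : 1 ≤ d) (p : MvPolynomial ι ℝ) (hp : p.totalDegree ≤ d)
    (hvar : 1 ≤ ∫ x, (eval x p - ∫ y, eval y p ∂(gam ι)) ^ 2 ∂(gam ι)) {ρ β : ℝ} (hρ : 0 < ρ)
    (hρ1 : ρ ≤ 1) (hβ : 0 < β) (hβ1 : β ≤ 1 / 2) {w : ℝ} (hw : w = ρ ^ (2 * d) * β ^ d / 8) :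
    ∫ x, eval x (VP d ρ p + C (w ^ 2)) / eval x (AP d ρ w p) ∂(gam ι) ≤
      2 ^ 24 * ((Nat.log 2 d : ℝ) + 2) * d * ρ + 8 * β + w := by
  have hw0 : 0 < w := by rw [hw]; positivity
  set A₀ : (ι → ℝ) → ℝ := fun x => (eval x p) ^ 2 + eval x (VP d ρ p) with hA₀
  have hV0 : ∀ x, 0 ≤ eval x (VP d ρ p) := fun x => vp_nonneg d ρ p x
  have hA0 : ∀ x, 0 ≤ A₀ x := fun x => by have := hV0 x; simp only [hA₀]; positivity
  have hAe : ∀ x, eval x (AP d ρ w p) = A₀ x + w ^ 2 := by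
    intro x; simp [AP, hA₀]
  have hmA : Measurable A₀ := by
    have h1 := eval_measurable p
    have h2 := eval_measurable (VP d ρ p)
    simp only [hA₀]; fun_prop
  have hmS : MeasurableSet {x | A₀ x < w} := measurableSet_lt hmA measurable_const
  set I : (ι → ℝ) → ℝ := Set.indicator {x | A₀ x < w} (fun _ => (1 : ℝ)) with hI
  have hpt : ∀ x, eval x (VP d ρ p + C (w ^ 2)) / eval x (AP d ρ w p) ≤
      eval x (VP d ρ p) / ((eval x p) ^ 2 + eval x (VP d ρ p)) + (I x + w) := by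
    intro x
    rw [hAe x]
    have e : eval x (VP d ρ p + C (w ^ 2)) = eval x (VP d ρ p) + w ^ 2 := by simp
    rw [e, add_div]
    have hw2 : 0 < w ^ 2 := by positivity
    have hAx := hA0 x
    have hVx := hV0 x
    have h1 : eval x (VP d ρ p) / (A₀ x + w ^ 2) ≤ eval x (VP d ρ p) / A₀ x := by
      rcases hAx.eq_or_lt with h | h
      · have hVz : eval x (VP d ρ p) = 0 := by
          have h2 : A₀ x = (eval x p) ^ 2 + eval x (VP d ρ p) := rfl
          nlinarith [sq_nonneg (eval x p)]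
        rw [hVz]; simp
      · gcongr; linarith
    have h2 : w ^ 2 / (A₀ x + w ^ 2) ≤ I x + w := by
      by_cases hx : A₀ x < w
      · have hIx : I x = 1 := by rw [hI, Set.indicator_of_mem (by exact hx)]
        rw [hIx]
        have : w ^ 2 / (A₀ x + w ^ 2) ≤ 1 := by
          rw [div_le_one (by positivity)]; linarith
        linarith
      · have hIx : I x = 0 := by rw [hI, Set.indicator_of_notMem (by exact hx)]
        rw [hIx, zero_add, div_le_iff₀ (by positivity)]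
        have : w ≤ A₀ x := not_lt.1 hx
        nlinarith
    exact add_le_add h1 h2
  have hbd : ∀ x, eval x (VP d ρ p) / ((eval x p) ^ 2 + eval x (VP d ρ p)) ≤ 1 := by
    intro x
    have h1 := hV0 x
    apply div_le_one_of_le₀
    · nlinarith [sq_nonneg (eval x p)]
    · nlinarith [sq_nonneg (eval x p)]
  have hnn : ∀ x, 0 ≤ eval x (VP d ρ p) / ((eval x p) ^ 2 + eval x (VP d ρ p)) := by
    intro x
    exact div_nonneg (hV0 x) (hA0 x)
  have hint1 : Integrable (fun x => eval x (VP d ρ p) / ((eval x p) ^ 2 + eval x (VP d ρ p)))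
      (gam ι) := by
    refine Integrable.of_bound (C := 1) ?_ (Filter.Eventually.of_forall fun x => ?_)
    · have h1 := eval_measurable p
      have h2 := eval_measurable (VP d ρ p)
      exact (by fun_prop : Measurable fun x =>
        eval x (VP d ρ p) / ((eval x p) ^ 2 + eval x (VP d ρ p))).aestronglyMeasurable
    · rw [Real.norm_of_nonneg (hnn x)]; exact hbd x
  have hintI : Integrable I (gam ι) := (integrable_const _).indicator hmS
  have hIint : ∫ x, I x ∂(gam ι) = (gam ι).real {x | A₀ x < w} := by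
    rw [hI]
    exact integral_indicator_one hmS
  have hsb := small_ball p hp hvar hρ hρ1 hβ hβ1
  rw [← hw] at hsb
  calc ∫ x, eval x (VP d ρ p + C (w ^ 2)) / eval x (AP d ρ w p) ∂(gam ι)
      ≤ ∫ x, (eval x (VP d ρ p) / ((eval x p) ^ 2 + eval x (VP d ρ p)) + (I x + w))
          ∂(gam ι) := by
        apply integral_mono_of_nonneg
        · refine Filter.Eventually.of_forall fun x => ?_
          have h1 := hV0 x
          have h2 := hA0 x
          show 0 ≤ eval x (VP d ρ p + C (w ^ 2)) / eval x (AP d ρ w p)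
          rw [hAe x]
          have e : eval x (VP d ρ p + C (w ^ 2)) = eval x (VP d ρ p) + w ^ 2 := by simp
          rw [e]; positivity
        · exact hint1.add (hintI.add (integrable_const _))
        · exact Filter.Eventually.of_forall hpt
    _ = ∫ x, eval x (VP d ρ p) / ((eval x p) ^ 2 + eval x (VP d ρ p)) ∂(gam ι) +
          ((gam ι).real {x | A₀ x < w} + w) := by
        have i2 : Integrable (fun x => I x + w) (gam ι) := hintI.add (integrable_const _)
        rw [integral_add hint1 i2, integral_add hintI (integrable_const _), hIint]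
        simp
    _ ≤ _ := by
        have := ac_chain hd p hp hρ
        linarith

end Pool.Agent.KWG
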