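import Pool.Agent.Lib.MP_68391b_lc.Gen.GAsm2

/-! Assembly, part 3: the choice of the parameters. -/

set_option linter.unusedSectionVars false

namespace Pool.Agent.KWG

open MeasureTheory ProbabilityTheory MvPolynomial Pool.Agent.KWI

variable {ι : Type} [Fintype ι] [DecidableEq ι]

/-- Norm bounds. -/
theorem norm_bounds {d : ℕ} (hd : 1 ≤ d) (p : MvPolynomial ι ℝ) (hp : p.totalDegree ≤ d)
    {K ρ w : ℝ} (hK : 1 ≤ K) (hn : n2 p ^ 2 ≤ K) (hρ : 0 < ρ)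
    (hρK : K * (ρ ^ 2 * d ^ 2) ≤ 1) (hw : 0 < w) (hw1 : w ≤ 1) :
    ∫ x, eval x (VP d ρ p + C (w ^ 2)) ∂(gam ι) ≤ 2 ∧
      n2 (VP d ρ p + C (w ^ 2)) ≤ 2 * (1 + 2 * √(2 * (d : ℝ))) ^ d ∧
      n2 (AP d ρ w p) ≤ (K + 2) * (1 + 2 * √(2 * (d : ℝ))) ^ d := by
  have hd1 : (1 : ℝ) ≤ d := by exact_mod_cast hd
  set κ : ℝ := (1 + 2 * √(2 * (d : ℝ))) ^ d with hκ
  have hκ1 : 1 ≤ κ := by
    rw [hκ]
    apply one_le_pow₀
    have := Real.sqrt_nonneg (2 * (d : ℝ))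
    linarith
  have hx1 : ρ ^ 2 * d ≤ 1 := by
    have h1 : ρ ^ 2 * d ≤ K * (ρ ^ 2 * d ^ 2) := by
      have : ρ ^ 2 * d ≤ ρ ^ 2 * d ^ 2 := by
        gcongr
        nlinarith
      have h0 : 0 ≤ ρ ^ 2 * (d : ℝ) ^ 2 := by positivity
      nlinarith
    linarith
  have hw2 : w ^ 2 ≤ 1 := by nlinarith
  have hterm : ∀ i : ℕ, ρ ^ (2 * (i + 1)) * (d : ℝ) ^ (i + 1) ≤ ρ ^ 2 * d := by
    intro i
    have e : ρ ^ (2 * (i + 1)) * (d : ℝ) ^ (i + 1) = (ρ ^ 2 * d) ^ (i + 1) := by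
      rw [mul_pow, pow_mul]
    rw [e]
    exact pow_le_of_le_one (by positivity) hx1 (Nat.succ_ne_zero i)
  have hsum : ∑ i ∈ Finset.range d, ρ ^ (2 * (i + 1)) * ((d : ℝ) ^ (i + 1) * n2 p ^ 2) ≤ 1 := by
    calc ∑ i ∈ Finset.range d, ρ ^ (2 * (i + 1)) * ((d : ℝ) ^ (i + 1) * n2 p ^ 2)
        ≤ ∑ _i ∈ Finset.range d, (ρ ^ 2 * d) * K := by
          refine Finset.sum_le_sum fun i _ => ?_
          rw [← mul_assoc]
          have := hterm i
          have h0 : 0 ≤ n2 p ^ 2 := sq_nonneg _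
          gcongr
      _ = K * (ρ ^ 2 * d ^ 2) := by
          rw [Finset.sum_const, Finset.card_range, nsmul_eq_mul]; ring
      _ ≤ 1 := hρK
  have hV : n2 (VP d ρ p) ≤ κ := by
    unfold VP
    refine (n2_sum_le _ _).trans ?_
    calc ∑ i ∈ Finset.range d, n2 (C (ρ ^ (2 * (i + 1))) * HS (i + 1) p)
        ≤ ∑ i ∈ Finset.range d,
            κ * (ρ ^ (2 * (i + 1)) * ((d : ℝ) ^ (i + 1) * n2 p ^ 2)) := by
          refine Finset.sum_le_sum fun i _ => ?_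
          rw [n2_C_mul, abs_of_pos (by positivity)]
          have h1 := hs_n2 p hp (i + 1)
          calc ρ ^ (2 * (i + 1)) * n2 (HS (i + 1) p)
              ≤ ρ ^ (2 * (i + 1)) * ((1 + 2 * √(2 * (d : ℝ))) ^ d * (d : ℝ) ^ (i + 1) *
                n2 p ^ 2) := by gcongr
            _ = _ := by rw [← hκ]; ring
      _ = κ * ∑ i ∈ Finset.range d, ρ ^ (2 * (i + 1)) * ((d : ℝ) ^ (i + 1) * n2 p ^ 2) := by
          rw [Finset.mul_sum]
      _ ≤ κ * 1 := by gcongr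
      _ = κ := mul_one _
  have hVw : n2 (VP d ρ p + C (w ^ 2)) ≤ 2 * κ := by
    refine (n2_add_le _ _).trans ?_
    rw [n2_C, abs_of_pos (by positivity)]
    linarith
  refine ⟨?_, hVw, ?_⟩
  · have e : ∫ x, eval x (VP d ρ p + C (w ^ 2)) ∂(gam ι) =
        ∫ x, eval x (VP d ρ p) ∂(gam ι) + w ^ 2 := by
      simp only [map_add, eval_C]
      rw [integral_add (poly_integrable _) (integrable_const _)]
      simp
    have e2 : ∫ x, eval x (VP d ρ p) ∂(gam ι) =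
        ∑ i ∈ Finset.range d, ρ ^ (2 * (i + 1)) * ∫ x, eval x (HS (i + 1) p) ∂(gam ι) := by
      simp only [VP, map_sum, map_mul, eval_C]
      rw [integral_finset_sum _ (fun i _ => (poly_integrable _).const_mul _)]
      exact Finset.sum_congr rfl fun i _ => integral_const_mul _ _
    have h3 : ∫ x, eval x (VP d ρ p) ∂(gam ι) ≤ 1 := by
      rw [e2]
      refine le_trans (Finset.sum_le_sum fun i _ => ?_) hsum
      have := hs_mean p hp (i + 1)
      gcongr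
    rw [e]; linarith
  · have e : AP d ρ w p = HS 0 p + (VP d ρ p + C (w ^ 2)) := by
      simp only [AP, HS]; ring
    rw [e]
    refine (n2_add_le _ _).trans ?_
    have h1 := hs_n2 p hp 0
    rw [pow_zero, mul_one, ← hκ] at h1
    have h2 : κ * n2 p ^ 2 ≤ κ * K := by gcongr
    nlinarith

end Pool.Agent.KWG
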