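import Mathlib

/-! Numerical inequalities for the choice of the parameters. -/

namespace Pool.Agent.KWG

theorem num_log {d Λ : ℕ} (hΛ : 1 ≤ Λ) (hdΛ : d ≤ 2 ^ Λ) : Nat.log 2 d + 2 ≤ 2 ^ (Λ + 1) := by
  have h1 : Nat.log 2 d ≤ Λ := by
    calc Nat.log 2 d ≤ Nat.log 2 (2 ^ Λ) := Nat.log_mono_right hdΛ
      _ = Λ := Nat.log_pow (by norm_num) Λ
  have h2 : Λ + 2 ≤ 2 ^ (Λ + 1) := by
    clear hdΛ h1
    induction Λ, hΛ using Nat.le_induction with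
    | base => norm_num
    | succ n hn ih => rw [pow_succ]; omega
  omega

theorem num_R {d Λ Q : ℕ} (hQ : 1 ≤ Q) (hQΛ : Q ≤ Λ) (hdΛ : d ≤ 2 ^ Λ) :
    2 ^ (Q + 27) * (Nat.log 2 d + 2) * d ≤ 2 ^ (31 * Λ) := by
  have hΛ : 1 ≤ Λ := hQ.trans hQΛ
  calc 2 ^ (Q + 27) * (Nat.log 2 d + 2) * d ≤ 2 ^ (Q + 27) * 2 ^ (Λ + 1) * 2 ^ Λ := by
        gcongr
        exact num_log hΛ hdΛ
    _ = 2 ^ (Q + 27 + (Λ + 1) + Λ) := by rw [← pow_add, ← pow_add]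
    _ ≤ 2 ^ (31 * Λ) := Nat.pow_le_pow_right (by norm_num) (by omega)

theorem num_N {d Λ Q r R N₀ : ℕ} (hd : 1 ≤ d) (hQ : 1 ≤ Q) (hQΛ : Q ≤ Λ) (hdΛ : d ≤ 2 ^ Λ)
    (hr : r = 512 * d * Λ) (hR : R ≤ 2 ^ (31 * Λ)) (hR1 : 1 ≤ R)
    (hN : N₀ = 2 * d + r + 256 * r ^ 2 * R ^ 2) :
    N₀ + 4 * d ≤ 2 ^ (94 * Λ) := by
  have hΛ : 1 ≤ Λ := hQ.trans hQΛ
  have hdr : d ≤ r := by
    rw [hr]
    calc d = 1 * d * 1 := by ring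
      _ ≤ 512 * d * Λ := by gcongr; norm_num
  have hr1 : 1 ≤ r := hd.trans hdr
  have hrr : r ≤ r ^ 2 * R ^ 2 := by
    calc r = r * 1 * 1 := by ring
      _ ≤ r * r * R ^ 2 := by
          gcongr
          exact Nat.one_le_pow _ _ hR1
      _ = r ^ 2 * R ^ 2 := by ring
  have h1 : N₀ + 4 * d ≤ 2 ^ 9 * (r ^ 2 * R ^ 2) := by
    rw [hN]
    have : 256 * r ^ 2 * R ^ 2 = 256 * (r ^ 2 * R ^ 2) := by ring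
    rw [this]
    have h512 : (2 : ℕ) ^ 9 = 512 := by norm_num
    rw [h512]
    omega
  have hΛ2 : Λ ≤ 2 ^ Λ := Nat.lt_two_pow_self.le
  have h2 : r ≤ 2 ^ (11 * Λ) := by
    rw [hr]
    calc 512 * d * Λ ≤ 2 ^ 9 * 2 ^ Λ * 2 ^ Λ := by
          gcongr
          norm_num
      _ = 2 ^ (9 + Λ + Λ) := by rw [← pow_add, ← pow_add]
      _ ≤ 2 ^ (11 * Λ) := Nat.pow_le_pow_right (by norm_num) (by omega)
  calc N₀ + 4 * d ≤ 2 ^ 9 * (r ^ 2 * R ^ 2) := h1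
    _ ≤ 2 ^ 9 * ((2 ^ (11 * Λ)) ^ 2 * (2 ^ (31 * Λ)) ^ 2) := by gcongr
    _ = 2 ^ (9 + (11 * Λ * 2 + 31 * Λ * 2)) := by
        rw [← pow_mul, ← pow_mul, ← pow_add, ← pow_add]
    _ ≤ 2 ^ (94 * Λ) := Nat.pow_le_pow_right (by norm_num) (by omega)

theorem num_total {d Λ Q r R N₀ N : ℕ} (hd : 1 ≤ d) (hQ : 1 ≤ Q) (hQΛ : Q ≤ Λ)
    (hr : r = 512 * d * Λ) (hR : R = 2 ^ (Q + 27) * (Nat.log 2 d + 2) * d)
    (hN : N₀ = 2 * d + r + 256 * r ^ 2 * R ^ 2)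
    (hNN : 2 ^ 82 * d ^ 4 * (Nat.log 2 d + 2) ^ 2 * Λ ^ 2 * 4 ^ Q ≤ N) :
    2 * (N₀ + 2 * d) ≤ N := by
  have hΛ : 1 ≤ Λ := hQ.trans hQΛ
  have hR1 : 1 ≤ R := by rw [hR]; exact Nat.succ_le_of_lt (by positivity)
  have hdr : 4 * d ≤ r := by
    rw [hr]
    calc 4 * d = 4 * d * 1 := by ring
      _ ≤ 512 * d * Λ := by gcongr; norm_num
  have hr1 : 1 ≤ r := by omega
  have hrr : r ≤ r ^ 2 * R ^ 2 := by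
    calc r = r * 1 * 1 := by ring
      _ ≤ r * r * R ^ 2 := by
          gcongr
          exact Nat.one_le_pow _ _ hR1
      _ = r ^ 2 * R ^ 2 := by ring
  refine le_trans ?_ hNN
  have h1 : 2 * (N₀ + 2 * d) ≤ 2 ^ 10 * (r ^ 2 * R ^ 2) := by
    rw [hN]
    have : 256 * r ^ 2 * R ^ 2 = 256 * (r ^ 2 * R ^ 2) := by ring
    rw [this]
    have h512 : (2 : ℕ) ^ 10 = 1024 := by norm_num
    rw [h512]
    omega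
  refine h1.trans (le_of_eq ?_)
  rw [hr, hR]
  have e4 : (4 : ℕ) ^ Q = (2 ^ Q) ^ 2 := by rw [← pow_mul, mul_comm, pow_mul]; norm_num
  rw [e4, pow_add]
  ring

theorem num_big {d Λ Q r R N₀ : ℕ} (hd : 1 ≤ d) (hQ : 1 ≤ Q) (hQΛ : Q ≤ Λ) (hdΛ : d ≤ 2 ^ Λ)
    (hr : r = 512 * d * Λ) (hR : R ≤ 2 ^ (31 * Λ)) (hR1 : 1 ≤ R)
    (hN : N₀ = 2 * d + r + 256 * r ^ 2 * R ^ 2) {w S κ : ℝ}
    (hw : w = (1 / (R : ℝ)) ^ (2 * d) * ((1 / 2) ^ (Q + 7)) ^ d / 8) (hS : S = (w⁻¹) ^ 3)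
    (hκ : κ = (1 + 2 * √(2 * (d : ℝ))) ^ d) :
    2 * S * (2 * S * (2 * (1 + 2 * √((N₀ : ℝ) + 4 * d)) ^ (2 * d) * ((4 ^ (Q + 1) + 2) * κ) *
      (4 * √(d : ℝ) / 4 ^ r)) * (2 ^ (Q + 1) * κ)) ≤ (1 / 2) ^ (Q + 3) := by
  have hΛ : 1 ≤ Λ := hQ.trans hQΛ
  have hT : 1 ≤ d * Λ := Nat.one_le_iff_ne_zero.2 (by positivity)
  have hΛT : Λ ≤ d * Λ := Nat.le_mul_of_pos_left _ hd
  have hdT : d ≤ d * Λ := Nat.le_mul_of_pos_right _ hΛ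
  have hQT : Q ≤ d * Λ := hQΛ.trans hΛT
  have hQd : Q * d ≤ d * Λ := by rw [mul_comm]; exact Nat.mul_le_mul_left _ hQΛ
  set T : ℕ := d * Λ with hTdef
  have hR0 : (0 : ℝ) < R := by exact_mod_cast hR1
  have hw0 : 0 < w := by rw [hw]; positivity
  have hp2 : ∀ {a b : ℕ}, a ≤ b → (2 : ℝ) ^ a ≤ 2 ^ b := fun h =>
    pow_le_pow_right₀ (by norm_num) h
  -- w
  have h1 : w⁻¹ ≤ 2 ^ (73 * T) := by
    have e : w⁻¹ = 8 * (R : ℝ) ^ (2 * d) * 2 ^ ((Q + 7) * d) := by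
      rw [hw]
      rw [one_div_pow, one_div_pow, one_div_pow, ← pow_mul]
      field_simp
    rw [e]
    have hRr : (R : ℝ) ≤ 2 ^ (31 * Λ) := by exact_mod_cast hR
    calc 8 * (R : ℝ) ^ (2 * d) * 2 ^ ((Q + 7) * d)
        ≤ 2 ^ 3 * ((2 : ℝ) ^ (31 * Λ)) ^ (2 * d) * 2 ^ ((Q + 7) * d) := by
          gcongr; norm_num
      _ = 2 ^ (3 + 31 * Λ * (2 * d) + (Q + 7) * d) := by
          rw [← pow_mul, ← pow_add, ← pow_add]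
      _ ≤ 2 ^ (73 * T) := hp2 (by rw [hTdef] at *; nlinarith)
  have h2 : S ^ 2 ≤ 2 ^ (438 * T) := by
    rw [hS]
    calc ((w⁻¹) ^ 3) ^ 2 ≤ (((2 : ℝ) ^ (73 * T)) ^ 3) ^ 2 := by gcongr
      _ = 2 ^ (438 * T) := by rw [← pow_mul, ← pow_mul]; congr 1; ring
  -- kappa of N₀
  have h3 : (1 + 2 * √((N₀ : ℝ) + 4 * d)) ^ (2 * d) ≤ 2 ^ (98 * T) := by
    have h4 : ((N₀ : ℝ) + 4 * d) ≤ 2 ^ (94 * Λ) := by
      exact_mod_cast num_N hd hQ hQΛ hdΛ hr hR hR1 hN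
    have h5 : √((N₀ : ℝ) + 4 * d) ≤ 2 ^ (47 * Λ) := by
      rw [Real.sqrt_le_iff]
      refine ⟨by positivity, ?_⟩
      rw [← pow_mul]
      exact h4.trans (hp2 (by omega))
    have h6 : 1 + 2 * √((N₀ : ℝ) + 4 * d) ≤ 2 ^ (49 * Λ) := by
      have h7 : (1 : ℝ) ≤ 2 ^ (47 * Λ) := one_le_pow₀ (by norm_num)
      calc 1 + 2 * √((N₀ : ℝ) + 4 * d) ≤ 2 ^ 2 * 2 ^ (47 * Λ) := by linarith
        _ = 2 ^ (2 + 47 * Λ) := by rw [← pow_add]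
        _ ≤ 2 ^ (49 * Λ) := hp2 (by omega)
    calc (1 + 2 * √((N₀ : ℝ) + 4 * d)) ^ (2 * d) ≤ ((2 : ℝ) ^ (49 * Λ)) ^ (2 * d) := by
          gcongr
      _ = 2 ^ (98 * T) := by rw [← pow_mul]; congr 1; rw [hTdef]; ring
  -- kappa of d
  have h8 : κ ≤ 2 ^ (3 * T) := by
    rw [hκ]
    have h9 : √(2 * (d : ℝ)) ≤ 2 ^ Λ := by
      rw [Real.sqrt_le_iff]
      refine ⟨by positivity, ?_⟩
      have h10 : (d : ℝ) ≤ 2 ^ Λ := by exact_mod_cast hdΛ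
      calc 2 * (d : ℝ) ≤ 2 ^ 1 * 2 ^ Λ := by linarith
        _ = 2 ^ (1 + Λ) := by rw [← pow_add]
        _ ≤ 2 ^ (Λ * 2) := hp2 (by omega)
        _ = (2 ^ Λ) ^ 2 := by rw [pow_mul]
    have h11 : 1 + 2 * √(2 * (d : ℝ)) ≤ 2 ^ (3 * Λ) := by
      have h7 : (1 : ℝ) ≤ 2 ^ Λ := one_le_pow₀ (by norm_num)
      calc 1 + 2 * √(2 * (d : ℝ)) ≤ 2 ^ 2 * 2 ^ Λ := by linarith
        _ = 2 ^ (2 + Λ) := by rw [← pow_add]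
        _ ≤ 2 ^ (3 * Λ) := hp2 (by omega)
    calc (1 + 2 * √(2 * (d : ℝ))) ^ d ≤ ((2 : ℝ) ^ (3 * Λ)) ^ d := by gcongr
      _ = 2 ^ (3 * T) := by rw [← pow_mul]; congr 1; rw [hTdef]; ring
  have hκ0 : 0 ≤ κ := by rw [hκ]; positivity
  have h12 : √(d : ℝ) ≤ 2 ^ T := by
    rw [Real.sqrt_le_iff]
    refine ⟨by positivity, ?_⟩
    have h10 : (d : ℝ) ≤ 2 ^ Λ := by exact_mod_cast hdΛ
    rw [← pow_mul]
    exact h10.trans (hp2 (by omega))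
  have h13 : (4 : ℝ) ^ (Q + 1) + 2 ≤ 2 ^ (2 * Q + 3) := by
    have e : (4 : ℝ) ^ (Q + 1) = 2 ^ (2 * Q + 2) := by
      rw [show (4 : ℝ) = 2 ^ 2 by norm_num, ← pow_mul]; congr 1
    have h14 : (2 : ℝ) ≤ 2 ^ (2 * Q + 2) := by
      calc (2 : ℝ) = 2 ^ 1 := by norm_num
        _ ≤ 2 ^ (2 * Q + 2) := hp2 (by omega)
    rw [e]
    calc (2 : ℝ) ^ (2 * Q + 2) + 2 ≤ 2 ^ (2 * Q + 2) + 2 ^ (2 * Q + 2) := by linarith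
      _ = 2 ^ (2 * Q + 3) := by rw [pow_succ]; ring
  have e4r : (4 : ℝ) ^ r = 2 ^ (1024 * T) := by
    rw [show (4 : ℝ) = 2 ^ 2 by norm_num, ← pow_mul]
    congr 1
    rw [hr, hTdef]; ring
  have hkey : 2 * S * (2 * S * (2 * (1 + 2 * √((N₀ : ℝ) + 4 * d)) ^ (2 * d) *
      ((4 ^ (Q + 1) + 2) * κ) * (4 * √(d : ℝ) / 4 ^ r)) * (2 ^ (Q + 1) * κ)) =
      (32 * S ^ 2 * (1 + 2 * √((N₀ : ℝ) + 4 * d)) ^ (2 * d) * (4 ^ (Q + 1) + 2) * κ ^ 2 *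
        √(d : ℝ) * 2 ^ (Q + 1)) / 4 ^ r := by ring
  rw [hkey, div_le_iff₀ (by positivity), e4r, one_div_pow]
  have h15 : 32 * S ^ 2 * (1 + 2 * √((N₀ : ℝ) + 4 * d)) ^ (2 * d) * (4 ^ (Q + 1) + 2) * κ ^ 2 *
        √(d : ℝ) * 2 ^ (Q + 1) ≤
      2 ^ 5 * 2 ^ (438 * T) * 2 ^ (98 * T) * 2 ^ (2 * Q + 3) * (2 ^ (3 * T)) ^ 2 * 2 ^ T *
        2 ^ (Q + 1) := by
    gcongr
    norm_num
  have h16 : (2 : ℝ) ^ 5 * 2 ^ (438 * T) * 2 ^ (98 * T) * 2 ^ (2 * Q + 3) * (2 ^ (3 * T)) ^ 2 *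
      2 ^ T * 2 ^ (Q + 1) =
      2 ^ (5 + 438 * T + 98 * T + (2 * Q + 3) + 3 * T * 2 + T + (Q + 1)) := by
    rw [← pow_mul, ← pow_add, ← pow_add, ← pow_add, ← pow_add, ← pow_add, ← pow_add]
  rw [h16] at h15
  refine h15.trans ?_
  rw [one_div, inv_mul_eq_div, le_div_iff₀ (by positivity), ← pow_add]
  exact hp2 (by omega)

end Pool.Agent.KWG
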