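import Pool.Agent.Lib.MP_68391b_lc.Gen.GAsm3
import Pool.Agent.Lib.MP_68391b_lc.Gen.GNum

/-! The one sided bound for normalised polynomials. -/

set_option linter.unusedSectionVars false

namespace Pool.Agent.KWG

open MeasureTheory ProbabilityTheory MvPolynomial Pool.Agent.KWI

variable {ι : Type} [Fintype ι] [DecidableEq ι]

theorem mean_var (p : MvPolynomial ι ℝ) :
    n2 p ^ 2 = ∫ x, (eval x p - ∫ y, eval y p ∂(gam ι)) ^ 2 ∂(gam ι) +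
      (∫ y, eval y p ∂(gam ι)) ^ 2 := by
  set m := ∫ y, eval y p ∂(gam ι) with hm
  have e : (fun x : ι → ℝ => (eval x p - m) ^ 2) =
      fun x => (eval x p) ^ 2 - (2 * m) * eval x p + m ^ 2 := by funext x; ring
  have i1 : Integrable (fun x : ι → ℝ => (eval x p) ^ 2 - (2 * m) * eval x p) (gam ι) :=
    (poly_integrable_sq p).sub ((poly_integrable p).const_mul _)
  rw [e, integral_add i1 (integrable_const _),
    integral_sub (poly_integrable_sq p) ((poly_integrable p).const_mul _), integral_const_mul,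
    ← hm, n2_sq]
  simp
  ring

theorem core_norm {d Q Λ : ℕ} (hd : 1 ≤ d) (hQ : 1 ≤ Q) (hQΛ : Q ≤ Λ) (hdΛ : d ≤ 2 ^ Λ)
    (p : MvPolynomial ι ℝ) (hp : p.totalDegree ≤ d)
    (hvar : ∫ x, (eval x p - ∫ y, eval y p ∂(gam ι)) ^ 2 ∂(gam ι) = 1)
    (hmean : |∫ y, eval y p ∂(gam ι)| ≤ 2 ^ Q) {N : ℕ}
    (hN : 2 ^ 82 * d ^ 4 * (Nat.log 2 d + 2) ^ 2 * Λ ^ 2 * 4 ^ Q ≤ N)
    (μ : Measure (ι → ℝ)) [IsProbabilityMeasure μ] (hμ : MM N μ) :
    μ.real {x | 0 ≤ eval x p} ≤ (gam ι).real {x | 0 ≤ eval x p} + (1 / 2) ^ Q := by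
  obtain ⟨R, hR⟩ : ∃ R : ℕ, R = 2 ^ (Q + 27) * (Nat.log 2 d + 2) * d := ⟨_, rfl⟩
  obtain ⟨r, hr⟩ : ∃ r : ℕ, r = 512 * d * Λ := ⟨_, rfl⟩
  obtain ⟨N₀, hN₀⟩ : ∃ N₀ : ℕ, N₀ = 2 * d + r + 256 * r ^ 2 * R ^ 2 := ⟨_, rfl⟩
  have hΛ : 1 ≤ Λ := hQ.trans hQΛ
  have hR1 : 1 ≤ R := by
    have h0 : 0 < 2 ^ (Q + 27) * (Nat.log 2 d + 2) * d := by positivity
    rw [← hR] at h0
    exact h0
  have hRle : R ≤ 2 ^ (31 * Λ) := by rw [hR]; exact num_R hQ hQΛ hdΛ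
  have hr1 : 1 ≤ r := by
    have : 0 < 512 * d * Λ := by positivity
    omega
  have hR0 : (0 : ℝ) < R := by exact_mod_cast hR1
  have hd0 : (0 : ℝ) < d := by exact_mod_cast hd
  have hd1 : (1 : ℝ) ≤ d := by exact_mod_cast hd
  set ρ : ℝ := 1 / (R : ℝ) with hρdef
  have hρ : 0 < ρ := by positivity
  have hρ1 : ρ ≤ 1 := by
    rw [hρdef, div_le_one hR0]; exact_mod_cast hR1
  set β : ℝ := (1 / 2) ^ (Q + 7) with hβdef
  have hβ : 0 < β := by positivity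
  have hβ1 : β ≤ 1 / 2 := by
    rw [hβdef]
    calc ((1 : ℝ) / 2) ^ (Q + 7) ≤ (1 / 2) ^ 1 :=
          pow_le_pow_of_le_one (by norm_num) (by norm_num) (by omega)
      _ = 1 / 2 := by norm_num
  obtain ⟨w, hw⟩ : ∃ w : ℝ, w = ρ ^ (2 * d) * β ^ d / 8 := ⟨_, rfl⟩
  have hw0 : 0 < w := by rw [hw]; positivity
  -- size of rho
  have hRbig : (2 : ℝ) ^ (Q + 27) * d ≤ R := by
    have h1 : 2 ^ (Q + 27) * d ≤ R := by
      rw [hR]
      calc 2 ^ (Q + 27) * d = 2 ^ (Q + 27) * 1 * d := by ring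
        _ ≤ _ := by gcongr; omega
    exact_mod_cast h1
  have hρd : ρ * d ≤ (1 / 2) ^ (Q + 27) := by
    rw [hρdef, one_div_pow, one_div_mul_eq_div, div_le_div_iff₀ hR0 (by positivity)]
    linarith
  have hρs : ρ ≤ (1 / 2) ^ (Q + 27) := by
    refine le_trans ?_ hρd
    nlinarith
  have hwle : w ≤ (1 / 2) ^ (2 * Q + 37) := by
    have h1 : ρ ^ (2 * d) ≤ ρ := pow_le_of_le_one hρ.le hρ1 (by omega)
    have h2 : β ^ d ≤ β := pow_le_of_le_one hβ.le (by linarith) (by omega)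
    calc w = ρ ^ (2 * d) * β ^ d / 8 := hw
      _ ≤ (1 / 2) ^ (Q + 27) * (1 / 2) ^ (Q + 7) / 8 := by
          have := h1.trans hρs
          gcongr
      _ = (1 / 2) ^ (2 * Q + 37) := by
          rw [← pow_add]
          have : 2 * Q + 37 = Q + 27 + (Q + 7) + 3 := by ring
          rw [this, pow_add _ _ 3]
          norm_num
          ring
  have hw1 : w ≤ 1 := hwle.trans (pow_le_one₀ (by norm_num) (by norm_num))
  -- norms
  set K : ℝ := 4 ^ (Q + 1) with hKdef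
  have hK1 : 1 ≤ K := one_le_pow₀ (by norm_num)
  have hn : n2 p ^ 2 ≤ K := by
    rw [mean_var p, hvar, hKdef]
    have h1 : (∫ y, eval y p ∂(gam ι)) ^ 2 ≤ (2 ^ Q) ^ 2 := by
      rw [← sq_abs]
      exact pow_le_pow_left₀ (abs_nonneg _) hmean 2
    have h2 : ((2 : ℝ) ^ Q) ^ 2 = 4 ^ Q := by rw [← pow_mul, mul_comm, pow_mul]; norm_num
    have h3 : (1 : ℝ) ≤ 4 ^ Q := one_le_pow₀ (by norm_num)
    rw [h2] at h1
    have h4 : (4 : ℝ) ^ (Q + 1) = 4 ^ Q * 4 := pow_succ _ _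
    linarith
  have hn' : n2 p ≤ 2 ^ (Q + 1) := by
    have h1 : ((2 : ℝ) ^ (Q + 1)) ^ 2 = K := by
      rw [hKdef, ← pow_mul, mul_comm, pow_mul]; norm_num
    exact le_of_sq_le_sq (by rw [h1]; exact hn) (by positivity)
  have hρK : K * (ρ ^ 2 * (d : ℝ) ^ 2) ≤ 1 := by
    have e : ρ ^ 2 * (d : ℝ) ^ 2 = (ρ * d) ^ 2 := by ring
    rw [e]
    have h1 : (ρ * d) ^ 2 ≤ ((1 / 2) ^ (Q + 27)) ^ 2 := by gcongr
    have h2 : (((1 : ℝ) / 2) ^ (Q + 27)) ^ 2 = (1 / 4) ^ (Q + 27) := by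
      rw [← pow_mul, mul_comm, pow_mul]; norm_num
    calc K * (ρ * d) ^ 2 ≤ 4 ^ (Q + 1) * (1 / 4) ^ (Q + 27) := by
          rw [← h2]; gcongr
      _ = (4 * (1 / 4)) ^ (Q + 1) * (1 / 4) ^ 26 := by
          rw [mul_pow, show Q + 27 = (Q + 1) + 26 by ring, pow_add]; ring
      _ ≤ 1 := by norm_num
  obtain ⟨nb1, nb2, nb3⟩ := norm_bounds hd p hp hK1 hn hρ hρK hw0 hw1
  set κ : ℝ := (1 + 2 * √(2 * (d : ℝ))) ^ d with hκ
  have hκ1 : 1 ≤ κ := by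
    rw [hκ]
    apply one_le_pow₀
    have := Real.sqrt_nonneg (2 * (d : ℝ))
    linarith
  have h2Q : (2 : ℝ) ≤ 2 ^ (Q + 1) := by
    calc (2 : ℝ) = 2 ^ 1 := by norm_num
      _ ≤ 2 ^ (Q + 1) := pow_le_pow_right₀ (by norm_num) (by omega)
  obtain ⟨S, hS⟩ : ∃ S : ℝ, S = (w⁻¹) ^ 3 := ⟨_, rfl⟩
  have hS1 : 1 ≤ S := by
    rw [hS]; exact one_le_pow₀ ((one_le_inv₀ hw0).2 hw1)
  have hN0' : 256 * (r : ℝ) ^ 2 / ρ ^ 2 + r + 2 * d ≤ N₀ := by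
    rw [hN₀, hρdef]
    push_cast
    have : 256 * (r : ℝ) ^ 2 / (1 / (R : ℝ)) ^ 2 = 256 * (r : ℝ) ^ 2 * (R : ℝ) ^ 2 := by
      field_simp
    rw [this]
    linarith
  have hfe := final_err hρ hw0 hw1 p hp μ hμ N₀ r hr1 hN0'
    (num_total hd hQ hQΛ hr hR hN₀ hN) (2 ^ (Q + 1)) S (2 ^ (Q + 1) * κ)
    ((4 ^ (Q + 1) + 2) * κ) hS1 hn' (nb1.trans h2Q) (by nlinarith) (by nlinarith) (by rw [← hKdef]; exact nb3)
  have hss := sigma_small hd p hp hvar.ge hρ hρ1 hβ hβ1 hw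
  have hnum := num_big hd hQ hQΛ hdΛ hr hRle hR1 hN₀ (hw.trans (by rw [hρdef, hβdef])) hS hκ
  -- the four terms
  have t1 : 2 ^ 24 * ((Nat.log 2 d : ℝ) + 2) * d * ρ = (1 / 2) ^ (Q + 3) := by
    rw [hρdef, hR]
    push_cast
    have hl : (0 : ℝ) < (Nat.log 2 d : ℝ) + 2 := by positivity
    rw [one_div_pow]
    have e2 : (2 : ℝ) ^ (Q + 27) = 2 ^ 24 * 2 ^ (Q + 3) := by rw [← pow_add]; congr 1; ring
    rw [e2]
    field_simp
  have t2 : 8 * β = (1 / 2) ^ (Q + 4) := by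
    rw [hβdef, show Q + 7 = (Q + 4) + 3 by ring, pow_add]; norm_num; ring
  have t3 : w ≤ (1 / 2) ^ (Q + 5) :=
    hwle.trans (pow_le_pow_of_le_one (by norm_num) (by norm_num) (by omega))
  have t4 : 2 * 2 ^ (Q + 1) * Real.exp (-(S * w ^ 2)) / w ^ 2 ≤ (1 / 2) ^ (Q + 3) := by
    have e1 : S * w ^ 2 = w⁻¹ := by rw [hS]; field_simp
    rw [e1]
    have hwi : 0 ≤ w⁻¹ := by positivity
    have h1 : (w⁻¹) ^ 3 / 6 ≤ Real.exp (w⁻¹) := by
      have := Real.pow_div_factorial_le_exp w⁻¹ hwi 3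
      have e3 : ((Nat.factorial 3 : ℕ) : ℝ) = 6 := by norm_num [Nat.factorial]
      rwa [e3] at this
    have h2 : Real.exp (-w⁻¹) ≤ 6 * w ^ 3 := by
      rw [Real.exp_neg, inv_le_comm₀ (Real.exp_pos _) (by positivity)]
      refine le_trans (le_of_eq ?_) h1
      field_simp
    rw [div_le_iff₀ (by positivity)]
    calc 2 * 2 ^ (Q + 1) * Real.exp (-w⁻¹) ≤ 2 * 2 ^ (Q + 1) * (6 * w ^ 3) := by gcongr
      _ = (12 * 2 ^ (Q + 1) * w) * w ^ 2 := by ring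
      _ ≤ (1 / 2) ^ (Q + 3) * w ^ 2 := by
          gcongr
          calc 12 * 2 ^ (Q + 1) * w ≤ 12 * 2 ^ (Q + 1) * (1 / 2) ^ (2 * Q + 37) := by gcongr
            _ = (12 * (1 / 2) ^ 33) * ((2 : ℝ) * (1 / 2)) ^ (Q + 1) * (1 / 2) ^ (Q + 3) := by
                rw [mul_pow, show 2 * Q + 37 = (Q + 1) + (Q + 3) + 33 by ring, pow_add,
                  pow_add]
                ring
            _ ≤ 1 * 1 * (1 / 2) ^ (Q + 3) := by
                gcongr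
                · norm_num
                · norm_num
            _ = (1 / 2) ^ (Q + 3) := by ring
  have hh3 : ((1 : ℝ) / 2) ^ (Q + 3) = (1 / 2) ^ Q / 8 := by rw [pow_add]; norm_num; ring
  have hh4 : ((1 : ℝ) / 2) ^ (Q + 4) = (1 / 2) ^ Q / 16 := by rw [pow_add]; norm_num; ring
  have hh5 : ((1 : ℝ) / 2) ^ (Q + 5) = (1 / 2) ^ Q / 32 := by rw [pow_add]; norm_num; ring
  have hpos : (0 : ℝ) < (1 / 2) ^ Q := by positivity
  rw [t1, t2] at hss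
  rw [hh3] at hnum t4 hss
  rw [hh4] at hss
  rw [hh5] at t3
  linarith

end Pool.Agent.KWG
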