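import Pool.Agent.Lib.MP_68391b_lc.Poly

/-!
Bounded independence and polynomial threshold functions of arbitrary degree: definitions and
basic facts.
-/

set_option linter.unusedSectionVars false

namespace Pool.Agent.KWG

open MeasureTheory ProbabilityTheory MvPolynomial Pool.Agent.KWI

variable {ι : Type} [Fintype ι] [DecidableEq ι]

/-- The square of the Hilbert-Schmidt norm of the `k`-th derivative of `q`, as a polynomial. -/
noncomputable def HS : ℕ → MvPolynomial ι ℝ → MvPolynomial ι ℝ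
  | 0, q => q ^ 2
  | k + 1, q => ∑ j, HS k (pderiv j q)

/-- The twisted derivative: `∂_j (q e^{-sA}) = (TD s A j q) e^{-sA}`. -/
noncomputable def TD (s : ℝ) (A : MvPolynomial ι ℝ) (j : ι) (q : MvPolynomial ι ℝ) :
    MvPolynomial ι ℝ :=
  pderiv j q - C s * q * pderiv j A

/-- `TS s A k q · e^{-2sA}` is the square of the Hilbert-Schmidt norm of the `k`-th derivative
of `q e^{-sA}`. -/
noncomputable def TS (s : ℝ) (A : MvPolynomial ι ℝ) : ℕ → MvPolynomial ι ℝ → MvPolynomial ι ℝ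
  | 0, q => q ^ 2
  | k + 1, q => ∑ j, TS s A k (TD s A j q)

/-- `v = ∑_{i=1}^d ρ^{2i} |D^i p|²`. -/
noncomputable def VP (d : ℕ) (ρ : ℝ) (p : MvPolynomial ι ℝ) : MvPolynomial ι ℝ :=
  ∑ i ∈ Finset.range d, C (ρ ^ (2 * (i + 1))) * HS (i + 1) p

/-- `A = p² + v + w²`. -/
noncomputable def AP (d : ℕ) (ρ w : ℝ) (p : MvPolynomial ι ℝ) : MvPolynomial ι ℝ :=
  p ^ 2 + VP d ρ p + C (w ^ 2)

/-- The `L²` norm of a polynomial with respect to the Gaussian measure. -/
noncomputable def n2 (q : MvPolynomial ι ℝ) : ℝ := √(∫ x, (eval x q) ^ 2 ∂(gam ι))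

/-- The (monic) Hermite polynomials. -/
noncomputable def he : ℕ → Polynomial ℝ
  | 0 => 1
  | n + 1 => Polynomial.X * he n - Polynomial.derivative (he n)

/-- The normalised Hermite polynomials of several variables. -/
noncomputable def hp (α : ι → ℕ) : MvPolynomial ι ℝ :=
  ∏ i, (C ((√((α i).factorial : ℝ))⁻¹) * Polynomial.aeval (X i : MvPolynomial ι ℝ) (he (α i)))

/-- Multi-indices of order `k`. -/
def lev (ι : Type) [Fintype ι] [DecidableEq ι] (k : ℕ) : Finset (ι → ℕ) :=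
  Finset.piAntidiag Finset.univ k

/-- The function `e^{-sA}`. -/
noncomputable def Hx (s : ℝ) (A : MvPolynomial ι ℝ) (x : ι → ℝ) : ℝ :=
  Real.exp (-(s * eval x A))

/-- Hermite coefficient of `q e^{-sA}`. -/
noncomputable def cf (s : ℝ) (A q : MvPolynomial ι ℝ) (α : ι → ℕ) : ℝ :=
  ∫ x, eval x q * Hx s A x * eval x (hp α) ∂(gam ι)

/-- The Hermite truncation of `q e^{-sA}` at level `N₀`. -/
noncomputable def PT (N₀ : ℕ) (s : ℝ) (A q : MvPolynomial ι ℝ) : MvPolynomial ι ℝ :=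
  ∑ k ∈ Finset.range (N₀ + 1), ∑ α ∈ lev ι k, C (cf s A q α) * hp α

/-- The polynomial `E = Π(A e^{-sA}) - A Π(e^{-sA})`. -/
noncomputable def EE (N₀ : ℕ) (s : ℝ) (A : MvPolynomial ι ℝ) : MvPolynomial ι ℝ :=
  PT N₀ s A A - A * PT N₀ s A 1

theorem mem_lev {k : ℕ} {α : ι → ℕ} : α ∈ lev ι k ↔ ∑ i, α i = k := by
  simp [lev, Finset.mem_piAntidiag]

theorem hs_nonneg (k : ℕ) (q : MvPolynomial ι ℝ) (x : ι → ℝ) : 0 ≤ eval x (HS k q) := by
  induction k generalizing q with
  | zero => simp only [HS, map_pow]; positivity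
  | succ k ih =>
    simp only [HS, map_sum]
    exact Finset.sum_nonneg fun j _ => ih _

theorem ts_nonneg (s : ℝ) (A : MvPolynomial ι ℝ) (k : ℕ) (q : MvPolynomial ι ℝ) (x : ι → ℝ) :
    0 ≤ eval x (TS s A k q) := by
  induction k generalizing q with
  | zero => simp only [TS, map_pow]; positivity
  | succ k ih =>
    simp only [TS, map_sum]
    exact Finset.sum_nonneg fun j _ => ih _

theorem eval_continuous (q : MvPolynomial ι ℝ) : Continuous fun x : ι → ℝ => eval x q :=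
  MvPolynomial.continuous_eval q

theorem eval_measurable (q : MvPolynomial ι ℝ) : Measurable fun x : ι → ℝ => eval x q :=
  (eval_continuous q).measurable

theorem Hx_continuous (s : ℝ) (A : MvPolynomial ι ℝ) : Continuous fun x : ι → ℝ => Hx s A x := by
  unfold Hx
  have := eval_continuous A
  fun_prop

theorem Hx_pos (s : ℝ) (A : MvPolynomial ι ℝ) (x : ι → ℝ) : 0 < Hx s A x := Real.exp_pos _

theorem Hx_le_one {s : ℝ} {A : MvPolynomial ι ℝ} {x : ι → ℝ} (hs : 0 ≤ s) (hA : 0 ≤ eval x A) :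
    Hx s A x ≤ 1 := by
  unfold Hx
  rw [Real.exp_le_one_iff]
  have := mul_nonneg hs hA
  linarith

theorem poly_integrable (q : MvPolynomial ι ℝ) :
    Integrable (fun x : ι → ℝ => eval x q) (gam ι) :=
  (MM_gam q.totalDegree ι q le_rfl).1

/-- Integrability for any measure with matching moments. -/
theorem poly_Hx_integrable {N : ℕ} {μ : Measure (ι → ℝ)} (hμ : MM N μ) {s : ℝ} (hs : 0 ≤ s)
    {A : MvPolynomial ι ℝ} (hA : ∀ x, 0 ≤ eval x A) (q : MvPolynomial ι ℝ)
    (hq : q.totalDegree ≤ N) :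
    Integrable (fun x : ι → ℝ => eval x q * Hx s A x) μ := by
  refine (hμ q hq).1.mono
    ((eval_continuous q).mul (Hx_continuous s A)).aestronglyMeasurable ?_
  refine Filter.Eventually.of_forall fun x => ?_
  rw [norm_mul, Real.norm_of_nonneg (Hx_pos s A x).le]
  exact mul_le_of_le_one_right (norm_nonneg _) (Hx_le_one hs (hA x))

theorem gam_Hx_integrable {s : ℝ} (hs : 0 ≤ s) {A : MvPolynomial ι ℝ} (hA : ∀ x, 0 ≤ eval x A)
    (q : MvPolynomial ι ℝ) : Integrable (fun x : ι → ℝ => eval x q * Hx s A x) (gam ι) :=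
  poly_Hx_integrable (MM_gam q.totalDegree ι) hs hA q le_rfl

theorem n2_nonneg (q : MvPolynomial ι ℝ) : 0 ≤ n2 q := Real.sqrt_nonneg _

theorem n2_sq (q : MvPolynomial ι ℝ) : n2 q ^ 2 = ∫ x, (eval x q) ^ 2 ∂(gam ι) := by
  unfold n2
  exact Real.sq_sqrt (integral_nonneg fun x => sq_nonneg _)

theorem pderiv_deg (j : ι) (q : MvPolynomial ι ℝ) :
    (pderiv j q).totalDegree ≤ q.totalDegree - 1 := by
  rw [MvPolynomial.totalDegree, Finset.sup_le_iff]
  intro s hs
  rw [MvPolynomial.mem_support_iff, MvPolynomial.coeff_pderiv] at hs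
  have h1 : MvPolynomial.coeff (s + Finsupp.single j 1) q ≠ 0 := by
    intro h0
    apply hs
    rw [h0, zero_mul]
  have h2 : s + Finsupp.single j 1 ∈ q.support := MvPolynomial.mem_support_iff.mpr h1
  have h3 := MvPolynomial.le_totalDegree h2
  rw [Finsupp.sum_add_index' (fun _ => rfl) (fun _ _ _ => rfl),
    Finsupp.sum_single_index rfl] at h3
  omega

theorem pderiv_deg' (j : ι) (q : MvPolynomial ι ℝ) :
    (pderiv j q).totalDegree ≤ q.totalDegree := (pderiv_deg j q).trans (Nat.sub_le _ _)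

theorem hs_totalDegree (k : ℕ) (q : MvPolynomial ι ℝ) :
    (HS k q).totalDegree ≤ 2 * q.totalDegree := by
  induction k generalizing q with
  | zero =>
    simp only [HS]
    exact MvPolynomial.totalDegree_pow _ _
  | succ k ih =>
    simp only [HS]
    refine MvPolynomial.totalDegree_finsetSum_le fun j _ => (ih _).trans ?_
    exact Nat.mul_le_mul_left _ (pderiv_deg' _ _)

theorem hs_family (i : ℕ) (p : MvPolynomial ι ℝ) :
    ∃ (κ : Type) (_ : Fintype κ) (_ : DecidableEq κ) (q : κ → MvPolynomial ι ℝ),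
      (∀ l, (q l).totalDegree ≤ p.totalDegree) ∧ HS i p = ∑ l, (q l) ^ 2 ∧
        HS (i + 1) p = ∑ l, ∑ j, (pderiv j (q l)) ^ 2 := by
  induction i generalizing p with
  | zero =>
    refine ⟨Unit, inferInstance, inferInstance, fun _ => p, fun _ => le_rfl, ?_, ?_⟩
    · simp [HS]
    · simp [HS]
  | succ i ih =>
    choose κ hf hd q hdeg h1 h2 using fun j : ι => ih (pderiv j p)
    refine ⟨Σ j, κ j, inferInstance, Classical.decEq _, fun l => q l.1 l.2, ?_, ?_, ?_⟩
    · intro l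
      exact (hdeg l.1 l.2).trans (pderiv_deg' _ _)
    · rw [Fintype.sum_sigma]
      simp only [HS] at h1 ⊢
      exact Finset.sum_congr rfl fun j _ => h1 j
    · rw [Fintype.sum_sigma]
      have : HS (i + 1 + 1) p = ∑ j, HS (i + 1) (pderiv j p) := rfl
      rw [this]
      exact Finset.sum_congr rfl fun j _ => h2 j

theorem vp_nonneg (d : ℕ) (ρ : ℝ) (p : MvPolynomial ι ℝ) (x : ι → ℝ) :
    0 ≤ eval x (VP d ρ p) := by
  simp only [VP, map_sum, map_mul, eval_C]
  refine Finset.sum_nonneg fun i _ => mul_nonneg ?_ (hs_nonneg _ _ _)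
  rw [pow_mul]
  positivity

theorem ap_ge (d : ℕ) (ρ w : ℝ) (p : MvPolynomial ι ℝ) (x : ι → ℝ) :
    w ^ 2 ≤ eval x (AP d ρ w p) := by
  have h1 := vp_nonneg d ρ p x
  simp only [AP, map_add, map_pow, eval_C]
  nlinarith [sq_nonneg (eval x p)]

/-! ### Minkowski and Cauchy-Schwarz -/

theorem mink2 {κ : Type} (s : Finset κ) (a b : κ → ℝ) :
    √(∑ j ∈ s, (a j + b j) ^ 2) ≤ √(∑ j ∈ s, (a j) ^ 2) + √(∑ j ∈ s, (b j) ^ 2) := by
  have h1 : 0 ≤ ∑ j ∈ s, (a j) ^ 2 := Finset.sum_nonneg fun j _ => sq_nonneg _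
  have h2 : 0 ≤ ∑ j ∈ s, (b j) ^ 2 := Finset.sum_nonneg fun j _ => sq_nonneg _
  have h3 := Real.sum_mul_le_sqrt_mul_sqrt s a b
  rw [Real.sqrt_le_iff]
  refine ⟨by positivity, ?_⟩
  have h4 : ∑ j ∈ s, (a j + b j) ^ 2 =
      ∑ j ∈ s, (a j) ^ 2 + 2 * ∑ j ∈ s, a j * b j + ∑ j ∈ s, (b j) ^ 2 := by
    rw [Finset.mul_sum, ← Finset.sum_add_distrib, ← Finset.sum_add_distrib]
    exact Finset.sum_congr rfl fun j _ => by ring
  rw [h4, add_sq, Real.sq_sqrt h1, Real.sq_sqrt h2]
  nlinarith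

theorem minksum {κ τ : Type} (s : Finset κ) (t : Finset τ) (u : τ → κ → ℝ) :
    √(∑ j ∈ s, (∑ l ∈ t, u l j) ^ 2) ≤ ∑ l ∈ t, √(∑ j ∈ s, (u l j) ^ 2) := by
  classical
  induction t using Finset.induction_on with
  | empty => simp
  | insert l t hl ih =>
    simp only [Finset.sum_insert hl]
    exact (mink2 s _ _).trans (add_le_add le_rfl ih)

theorem cs_int {Ω : Type} [MeasurableSpace Ω] (μ : Measure Ω) (f g : Ω → ℝ)
    (hf : Integrable (fun x => f x ^ 2) μ) (hg : Integrable (fun x => g x ^ 2) μ)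
    (hfg : Integrable (fun x => f x * g x) μ) :
    |∫ x, f x * g x ∂μ| ≤ √(∫ x, f x ^ 2 ∂μ) * √(∫ x, g x ^ 2 ∂μ) := by
  have h1 : ∀ t : ℝ, 0 ≤ (∫ x, g x ^ 2 ∂μ) * (t * t) + (2 * ∫ x, f x * g x ∂μ) * t +
      ∫ x, f x ^ 2 ∂μ := by
    intro t
    have e : ∫ x, (f x + t * g x) ^ 2 ∂μ = (∫ x, g x ^ 2 ∂μ) * (t * t) +
        (2 * ∫ x, f x * g x ∂μ) * t + ∫ x, f x ^ 2 ∂μ := by
      have e1 : (fun x => (f x + t * g x) ^ 2) =
          fun x => (t * t) * g x ^ 2 + (2 * t) * (f x * g x) + f x ^ 2 := by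
        funext x; ring
      have i1 : Integrable (fun x => (t * t) * g x ^ 2) μ := hg.const_mul _
      have i2 : Integrable (fun x => (2 * t) * (f x * g x)) μ := hfg.const_mul _
      have i3 : Integrable (fun x => (t * t) * g x ^ 2 + (2 * t) * (f x * g x)) μ := i1.add i2
      rw [e1, integral_add i3 hf, integral_add i1 i2, integral_const_mul, integral_const_mul]
      ring
    rw [← e]
    exact integral_nonneg fun x => sq_nonneg _
  have h2 := discrim_le_zero h1
  unfold discrim at h2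
  have hF : 0 ≤ ∫ x, f x ^ 2 ∂μ := integral_nonneg fun x => sq_nonneg _
  have hG : 0 ≤ ∫ x, g x ^ 2 ∂μ := integral_nonneg fun x => sq_nonneg _
  rw [← Real.sqrt_mul hF]
  apply Real.abs_le_sqrt
  nlinarith

theorem poly_integrable_mul (q g : MvPolynomial ι ℝ) :
    Integrable (fun x : ι → ℝ => eval x q * eval x g) (gam ι) := by
  have := poly_integrable (q * g)
  simpa using this

theorem poly_integrable_sq (q : MvPolynomial ι ℝ) :
    Integrable (fun x : ι → ℝ => (eval x q) ^ 2) (gam ι) := by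
  have := poly_integrable (q ^ 2)
  simpa using this

theorem n2_cs (q g : MvPolynomial ι ℝ) :
    |∫ x, eval x q * eval x g ∂(gam ι)| ≤ n2 q * n2 g :=
  cs_int (gam ι) _ _ (poly_integrable_sq q) (poly_integrable_sq g) (poly_integrable_mul q g)

theorem n2_add_le (q g : MvPolynomial ι ℝ) : n2 (q + g) ≤ n2 q + n2 g := by
  have h1 : n2 (q + g) ^ 2 = n2 q ^ 2 + 2 * (∫ x, eval x q * eval x g ∂(gam ι)) + n2 g ^ 2 := by
    have i1 : Integrable (fun x => (eval x q) ^ 2 + 2 * (eval x q * eval x g)) (gam ι) :=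
      (poly_integrable_sq q).add ((poly_integrable_mul q g).const_mul 2)
    rw [n2_sq, n2_sq, n2_sq, ← integral_const_mul,
      ← integral_add (poly_integrable_sq q) ((poly_integrable_mul q g).const_mul 2),
      ← integral_add i1 (poly_integrable_sq g)]
    congr 1
    funext x
    simp only [map_add]
    ring
  have h2 := (abs_le.1 (n2_cs q g)).2
  have h3 := n2_nonneg q
  have h4 := n2_nonneg g
  exact le_of_sq_le_sq (by nlinarith) (by positivity)

theorem n2_C_mul (c : ℝ) (q : MvPolynomial ι ℝ) : n2 (C c * q) = |c| * n2 q := by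
  unfold n2
  have e : (fun x : ι → ℝ => (eval x (C c * q)) ^ 2) = fun x => c ^ 2 * (eval x q) ^ 2 := by
    funext x
    simp only [map_mul, eval_C]
    ring
  rw [e, integral_const_mul, Real.sqrt_mul (sq_nonneg c), Real.sqrt_sq_eq_abs]

theorem n2_C (c : ℝ) : n2 (C c : MvPolynomial ι ℝ) = |c| := by
  unfold n2
  simp [Real.sqrt_sq_eq_abs]

theorem n2_zero : n2 (0 : MvPolynomial ι ℝ) = 0 := by
  unfold n2; simp

theorem n2_sum_le {κ : Type} (s : Finset κ) (q : κ → MvPolynomial ι ℝ) :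
    n2 (∑ l ∈ s, q l) ≤ ∑ l ∈ s, n2 (q l) := by
  classical
  induction s using Finset.induction_on with
  | empty => simp [n2_zero]
  | insert l s hl ih =>
    rw [Finset.sum_insert hl, Finset.sum_insert hl]
    exact (n2_add_le _ _).trans (add_le_add le_rfl ih)

end Pool.Agent.KWG
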