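import Pool.Agent.Lib.MP_68391b_lc.Gen.GCore
import Pool.Agent.Lib.MP_68391b_lc.KWise

/-! The final theorem for all degrees. -/

set_option linter.unusedSectionVars false

namespace Pool.Agent.KWG

open MeasureTheory ProbabilityTheory MvPolynomial Pool.Agent.KWI

section Aux

variable {ι : Type} [Fintype ι] [DecidableEq ι]

/-- Chebyshev. -/
theorem cheb {N : ℕ} (μ : Measure (ι → ℝ)) [IsProbabilityMeasure μ] (hμ : MM N μ)
    (p : MvPolynomial ι ℝ) (hp : 2 * p.totalDegree ≤ N) {m a : ℝ} (ha : 0 < a)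
    (hvar : ∫ x, (eval x p - m) ^ 2 ∂(gam ι) = 1) :
    μ.real {x | a ≤ |eval x p - m|} ≤ 1 / a ^ 2 := by
  set q : MvPolynomial ι ℝ := (p - C m) ^ 2 with hq
  have hqdeg : q.totalDegree ≤ N := by
    refine (MvPolynomial.totalDegree_pow _ _).trans (le_trans ?_ hp)
    refine Nat.mul_le_mul_left _ ?_
    refine (MvPolynomial.totalDegree_sub _ _).trans ?_
    simp
  have hqe : ∀ x : ι → ℝ, eval x q = (eval x p - m) ^ 2 := by intro x; simp [hq]
  have hint : Integrable (fun x => (eval x p - m) ^ 2) μ := by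
    have := (hμ q hqdeg).1
    simpa only [hqe] using this
  have heq : ∫ x, (eval x p - m) ^ 2 ∂μ = 1 := by
    rw [← hvar]
    have := (hμ q hqdeg).2
    simpa only [hqe] using this
  have h1 := mul_meas_ge_le_integral_of_nonneg (μ := μ) (f := fun x => (eval x p - m) ^ 2)
    (Filter.Eventually.of_forall fun x => sq_nonneg _) hint (a ^ 2)
  rw [heq] at h1
  have h2 : {x | a ≤ |eval x p - m|} ⊆ {x : ι → ℝ | a ^ 2 ≤ (eval x p - m) ^ 2} := by
    intro x hx
    have hx' : a ≤ |eval x p - m| := hx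
    show a ^ 2 ≤ (eval x p - m) ^ 2
    rw [← sq_abs (eval x p - m)]
    exact pow_le_pow_left₀ ha.le hx' 2
  have h3 : μ.real {x | a ≤ |eval x p - m|} ≤ μ.real {x : ι → ℝ | a ^ 2 ≤ (eval x p - m) ^ 2} :=
    measureReal_mono h2 (measure_ne_top _ _)
  rw [le_div_iff₀ (by positivity), mul_comm]
  refine le_trans (mul_le_mul_of_nonneg_left h3 (by positivity)) h1

theorem one_sided {d Q Λ : ℕ} (hd : 1 ≤ d) (hQ : 1 ≤ Q) (hQΛ : Q ≤ Λ) (hdΛ : d ≤ 2 ^ Λ)
    (p : MvPolynomial ι ℝ) (hp : p.totalDegree ≤ d)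
    (hvar : ∫ x, (eval x p - ∫ y, eval y p ∂(gam ι)) ^ 2 ∂(gam ι) = 1) {N : ℕ}
    (hN : 2 ^ 82 * d ^ 4 * (Nat.log 2 d + 2) ^ 2 * Λ ^ 2 * 4 ^ Q ≤ N)
    (μ : Measure (ι → ℝ)) [IsProbabilityMeasure μ] (hμ : MM N μ) (hdN : 2 * d ≤ N) :
    μ.real {x | 0 ≤ eval x p} ≤ (gam ι).real {x | 0 ≤ eval x p} + (1 / 2) ^ Q := by
  set m := ∫ y, eval y p ∂(gam ι) with hm
  by_cases hmean : |m| ≤ 2 ^ Q
  · exact core_norm hd hQ hQΛ hdΛ p hp hvar hmean hN μ hμ
  have hmean' : 2 ^ Q < |m| := not_le.1 hmean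
  have h2Q : (0 : ℝ) < 2 ^ Q := by positivity
  have hsmall : (1 : ℝ) / (2 ^ Q) ^ 2 ≤ (1 / 2) ^ Q := by
    rw [one_div_pow]
    apply one_div_le_one_div_of_le h2Q
    have h1 : (1 : ℝ) ≤ 2 ^ Q := one_le_pow₀ (by norm_num)
    nlinarith
  have hpm : 2 * p.totalDegree ≤ N := by omega
  have hSm : MeasurableSet {x : ι → ℝ | 0 ≤ eval x p} :=
    measurableSet_le measurable_const (eval_measurable p)
  rcases lt_or_ge m 0 with hneg | hpos
  · -- the mean is very negative: mu is small
    rw [abs_of_neg hneg] at hmean'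
    have h1 : {x : ι → ℝ | 0 ≤ eval x p} ⊆ {x | 2 ^ Q ≤ |eval x p - m|} := by
      intro x hx
      have hx' : 0 ≤ eval x p := hx
      show 2 ^ Q ≤ |eval x p - m|
      exact le_trans (by linarith) (le_abs_self _)
    have h2 := (measureReal_mono h1 (measure_ne_top μ _)).trans (cheb μ hμ p hpm h2Q hvar)
    have h3 : 0 ≤ (gam ι).real {x | 0 ≤ eval x p} := measureReal_nonneg
    linarith
  · rw [abs_of_nonneg hpos] at hmean'
    have h1 : {x : ι → ℝ | 0 ≤ eval x p}ᶜ ⊆ {x | 2 ^ Q ≤ |eval x p - m|} := by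
      intro x hx
      have hx' : ¬ (0 ≤ eval x p) := hx
      show 2 ^ Q ≤ |eval x p - m|
      have : eval x p < 0 := not_le.1 hx'
      rw [abs_sub_comm]
      exact le_trans (by linarith) (le_abs_self _)
    have h2 := (measureReal_mono h1 (measure_ne_top (gam ι) _)).trans
      (cheb (gam ι) (MM_gam N ι) p hpm h2Q hvar)
    rw [probReal_compl_eq_one_sub hSm] at h2
    have h3 : μ.real {x | 0 ≤ eval x p} ≤ 1 := measureReal_le_one
    linarith

theorem zero_null {d : ℕ} (hd : 1 ≤ d) (p : MvPolynomial ι ℝ) (hp : p.totalDegree ≤ d)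
    (hvar : ∫ x, (eval x p - ∫ y, eval y p ∂(gam ι)) ^ 2 ∂(gam ι) = 1) :
    (gam ι).real {x | eval x p = 0} = 0 := by
  set K : ℝ := 2 ^ 24 * ((Nat.log 2 d : ℝ) + 2) * d with hK
  have hK0 : 0 < K := by
    have : (0 : ℝ) < d := by exact_mod_cast hd
    positivity
  have key : ∀ t : ℝ, 0 < t → t ≤ 1 / 2 → (gam ι).real {x | eval x p = 0} ≤ K * t + 8 * t := by
    intro t ht ht1
    have h1 := ac_chain hd p hp ht
    have h2 := small_ball p hp hvar.ge ht (by linarith) ht ht1
    set f : (ι → ℝ) → ℝ := fun x =>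
      eval x (VP d t p) / ((eval x p) ^ 2 + eval x (VP d t p)) with hf
    have hV0 : ∀ x, 0 ≤ eval x (VP d t p) := fun x => vp_nonneg d t p x
    have hfm : Measurable f := by
      have h1 := eval_measurable p
      have h2 := eval_measurable (VP d t p)
      simp only [hf]; fun_prop
    have hf0 : ∀ x, 0 ≤ f x := fun x =>
      div_nonneg (hV0 x) (add_nonneg (sq_nonneg _) (hV0 x))
    have hf1 : ∀ x, f x ≤ 1 := fun x => by
      have h0 := hV0 x
      apply div_le_one_of_le₀
      · nlinarith [sq_nonneg (eval x p)]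
      · nlinarith [sq_nonneg (eval x p)]
    have hfi : Integrable f (gam ι) := by
      refine Integrable.of_bound (C := 1) hfm.aestronglyMeasurable
        (Filter.Eventually.of_forall fun x => ?_)
      rw [Real.norm_of_nonneg (hf0 x)]; exact hf1 x
    have h3 := mul_meas_ge_le_integral_of_nonneg (μ := gam ι) (f := f)
      (Filter.Eventually.of_forall hf0) hfi 1
    rw [one_mul] at h3
    have hw : (0 : ℝ) < t ^ (2 * d) * t ^ d / 8 := by positivity
    have h4 : {x : ι → ℝ | eval x p = 0} ⊆ {x | 1 ≤ f x} ∪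
        {x | (eval x p) ^ 2 + eval x (VP d t p) < t ^ (2 * d) * t ^ d / 8} := by
      intro x hx
      have hx' : eval x p = 0 := hx
      rcases (hV0 x).eq_or_lt with h | h
      · right
        show (eval x p) ^ 2 + eval x (VP d t p) < _
        rw [hx', ← h]; simpa using hw
      · left
        show 1 ≤ f x
        simp only [hf]
        rw [hx']
        have : eval x (VP d t p) / (0 ^ 2 + eval x (VP d t p)) = 1 := by
          rw [zero_pow (by norm_num), zero_add, div_self h.ne']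
        rw [this]
    calc (gam ι).real {x | eval x p = 0}
        ≤ (gam ι).real ({x | 1 ≤ f x} ∪
          {x | (eval x p) ^ 2 + eval x (VP d t p) < t ^ (2 * d) * t ^ d / 8}) :=
          measureReal_mono h4 (measure_ne_top _ _)
      _ ≤ (gam ι).real {x | 1 ≤ f x} +
          (gam ι).real {x | (eval x p) ^ 2 + eval x (VP d t p) < t ^ (2 * d) * t ^ d / 8} :=
          measureReal_union_le _ _
      _ ≤ K * t + 8 * t := by
          have h5 : (gam ι).real {x | 1 ≤ f x} ≤ K * t := h3.trans (by rw [hK]; exact h1)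
          linarith
  have h0 : 0 ≤ (gam ι).real {x | eval x p = 0} := measureReal_nonneg
  by_contra hne
  have hpos : 0 < (gam ι).real {x | eval x p = 0} := lt_of_le_of_ne h0 (Ne.symm hne)
  set z := (gam ι).real {x | eval x p = 0} with hz
  have hz1 : z ≤ 1 := measureReal_le_one
  have h1 := key (z / (2 * (K + 8))) (by positivity) (by
    rw [div_le_iff₀ (by positivity)]; nlinarith)
  have h2 : K * (z / (2 * (K + 8))) + 8 * (z / (2 * (K + 8))) = z / 2 := by
    field_simp
  rw [h2] at h1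
  linarith

theorem two_sided_norm {d Q Λ : ℕ} (hd : 1 ≤ d) (hQ : 1 ≤ Q) (hQΛ : Q ≤ Λ) (hdΛ : d ≤ 2 ^ Λ)
    (p : MvPolynomial ι ℝ) (hp : p.totalDegree ≤ d)
    (hvar : ∫ x, (eval x p - ∫ y, eval y p ∂(gam ι)) ^ 2 ∂(gam ι) = 1) {N : ℕ}
    (hN : 2 ^ 82 * d ^ 4 * (Nat.log 2 d + 2) ^ 2 * Λ ^ 2 * 4 ^ Q ≤ N)
    (μ : Measure (ι → ℝ)) [IsProbabilityMeasure μ] (hμ : MM N μ) (hdN : 2 * d ≤ N) :
    |μ.real {x | 0 ≤ eval x p} - (gam ι).real {x | 0 ≤ eval x p}| ≤ (1 / 2) ^ Q := by
  have h1 := one_sided hd hQ hQΛ hdΛ p hp hvar hN μ hμ hdN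
  have hmn : ∫ y, eval y (-p) ∂(gam ι) = - ∫ y, eval y p ∂(gam ι) := by
    simp only [map_neg]; exact integral_neg _
  have hvar' : ∫ x, (eval x (-p) - ∫ y, eval y (-p) ∂(gam ι)) ^ 2 ∂(gam ι) = 1 := by
    rw [hmn, ← hvar]
    congr 1
    funext x
    simp only [map_neg]
    ring
  have h2 := one_sided hd hQ hQΛ hdΛ (-p) (by rw [MvPolynomial.totalDegree_neg]; exact hp)
    hvar' hN μ hμ hdN
  have hz := zero_null hd p hp hvar
  have hm0 : MeasurableSet {x : ι → ℝ | 0 ≤ eval x p} :=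
    measurableSet_le measurable_const (eval_measurable p)
  have e1 : μ.real {x | 0 ≤ eval x p}ᶜ ≤ μ.real {x | 0 ≤ eval x (-p)} := by
    apply measureReal_mono _ (measure_ne_top _ _)
    intro x hx
    have hx' : ¬ (0 ≤ eval x p) := hx
    show 0 ≤ eval x (-p)
    rw [map_neg]
    linarith [not_le.1 hx']
  have e2 : (gam ι).real {x | 0 ≤ eval x (-p)} ≤ (gam ι).real {x | 0 ≤ eval x p}ᶜ := by
    have hsub : {x : ι → ℝ | 0 ≤ eval x (-p)} ⊆ {x | 0 ≤ eval x p}ᶜ ∪ {x | eval x p = 0} := by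
      intro x hx
      have hx' : 0 ≤ eval x (-p) := hx
      rw [map_neg] at hx'
      by_cases h0 : eval x p = 0
      · right; exact h0
      · left
        show ¬ (0 ≤ eval x p)
        intro h3
        exact h0 (le_antisymm (by linarith) h3)
    calc (gam ι).real {x | 0 ≤ eval x (-p)}
        ≤ (gam ι).real ({x | 0 ≤ eval x p}ᶜ ∪ {x | eval x p = 0}) :=
          measureReal_mono hsub (measure_ne_top _ _)
      _ ≤ (gam ι).real {x | 0 ≤ eval x p}ᶜ + (gam ι).real {x | eval x p = 0} :=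
          measureReal_union_le _ _
      _ = _ := by rw [hz, add_zero]
  rw [probReal_compl_eq_one_sub hm0] at e1 e2
  rw [abs_le]
  constructor
  · linarith
  · linarith

theorem two_sided_gen {d Q Λ : ℕ} (hd : 1 ≤ d) (hQ : 1 ≤ Q) (hQΛ : Q ≤ Λ) (hdΛ : d ≤ 2 ^ Λ)
    (p : MvPolynomial ι ℝ) (hp : p.totalDegree ≤ d) {N : ℕ}
    (hN : 2 ^ 82 * d ^ 4 * (Nat.log 2 d + 2) ^ 2 * Λ ^ 2 * 4 ^ Q ≤ N)
    (μ : Measure (ι → ℝ)) [IsProbabilityMeasure μ] (hμ : MM N μ) (hdN : 2 * d ≤ N) :
    |μ.real {x | 0 ≤ eval x p} - (gam ι).real {x | 0 ≤ eval x p}| ≤ (1 / 2) ^ Q := by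
  set m := ∫ y, eval y p ∂(gam ι) with hm
  set V := ∫ x, (eval x p - m) ^ 2 ∂(gam ι) with hV
  have hV0 : 0 ≤ V := integral_nonneg fun x => sq_nonneg _
  rcases hV0.eq_or_lt with h0 | hpos
  · -- the polynomial is almost surely constant
    set q : MvPolynomial ι ℝ := (p - C m) ^ 2 with hq
    have hqdeg : q.totalDegree ≤ N := by
      refine (MvPolynomial.totalDegree_pow _ _).trans (le_trans ?_ hdN)
      refine Nat.mul_le_mul_left _ ?_
      refine (MvPolynomial.totalDegree_sub _ _).trans ?_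
      simpa using hp
    have hqe : ∀ x : ι → ℝ, eval x q = (eval x p - m) ^ 2 := by intro x; simp [hq]
    have hconst : ∀ (ν : Measure (ι → ℝ)) [IsProbabilityMeasure ν], MM N ν →
        ∀ᵐ x ∂ν, eval x p = m := by
      intro ν _ hν
      have hint : Integrable (fun x => (eval x p - m) ^ 2) ν := by
        have := (hν q hqdeg).1
        simpa only [hqe] using this
      have heq : ∫ x, (eval x p - m) ^ 2 ∂ν = 0 := by
        rw [h0, hV]
        have := (hν q hqdeg).2
        simpa only [hqe] using this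
      have h1 := (integral_eq_zero_iff_of_nonneg (fun x => sq_nonneg _) hint).1 heq
      filter_upwards [h1] with x hx
      have hx' : (eval x p - m) ^ 2 = 0 := hx
      have := pow_eq_zero_iff (two_ne_zero) |>.1 hx'
      linarith
    have hval : ∀ (ν : Measure (ι → ℝ)) [IsProbabilityMeasure ν], MM N ν →
        ν.real {x | 0 ≤ eval x p} = if 0 ≤ m then 1 else 0 := by
      intro ν _ hν
      have h1 := hconst ν hν
      by_cases hm0 : 0 ≤ m
      · rw [if_pos hm0]
        have : ν.real {x | 0 ≤ eval x p} = ν.real Set.univ := by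
          apply measureReal_congr
          filter_upwards [h1] with x hx
          apply propext
          constructor
          · intro _; trivial
          · intro _
            show 0 ≤ eval x p
            rw [hx]; exact hm0
        rw [this, probReal_univ]
      · rw [if_neg hm0]
        have : ν.real {x | 0 ≤ eval x p} = ν.real ∅ := by
          apply measureReal_congr
          filter_upwards [h1] with x hx
          apply propext
          constructor
          · intro h2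
            have h3 : 0 ≤ eval x p := h2
            rw [hx] at h3
            exact hm0 h3
          · intro h2; exact absurd h2 (Set.notMem_empty x)
        rw [this, measureReal_empty]
    rw [hval μ hμ, hval (gam ι) (MM_gam N ι), sub_self, abs_zero]
    positivity
  · -- scale
    set c : ℝ := (√V)⁻¹ with hc
    have hsV : 0 < √V := Real.sqrt_pos.2 hpos
    have hc0 : 0 < c := by positivity
    have hmn : ∫ y, eval y (C c * p) ∂(gam ι) = c * m := by
      simp only [map_mul, eval_C]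
      rw [integral_const_mul]
    have hvar' : ∫ x, (eval x (C c * p) - ∫ y, eval y (C c * p) ∂(gam ι)) ^ 2 ∂(gam ι) = 1 := by
      rw [hmn]
      have e : (fun x : ι → ℝ => (eval x (C c * p) - c * m) ^ 2) =
          fun x => c ^ 2 * (eval x p - m) ^ 2 := by
        funext x
        simp only [map_mul, eval_C]
        ring
      rw [e, integral_const_mul, ← hV, hc, inv_pow, Real.sq_sqrt hV0]
      exact inv_mul_cancel₀ hpos.ne'
    have hdeg : (C c * p).totalDegree ≤ d := by
      refine (MvPolynomial.totalDegree_mul _ _).trans ?_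
      rw [MvPolynomial.totalDegree_C, zero_add]; exact hp
    have h1 := two_sided_norm hd hQ hQΛ hdΛ (C c * p) hdeg hvar' hN μ hμ hdN
    have e : {x : ι → ℝ | 0 ≤ eval x (C c * p)} = {x | 0 ≤ eval x p} := by
      ext x
      simp only [Set.mem_ofPred_eq, map_mul, eval_C]
      exact mul_nonneg_iff_of_pos_left hc0
    rw [e] at h1
    exact h1

end Aux

/-- The theorem, with dyadic accuracy. -/
theorem gen_pow {d Q Λ : ℕ} (hd : 1 ≤ d) (hQ : 1 ≤ Q) (hQΛ : Q ≤ Λ) (hdΛ : d ≤ 2 ^ Λ) {k : ℕ}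
    (hk : 2 ^ 82 * d ^ 4 * (Nat.log 2 d + 2) ^ 2 * Λ ^ 2 * 4 ^ Q ≤ k)
    (n : ℕ) (p : MvPolynomial (Fin n) ℝ) (hp : p.totalDegree ≤ d)
    (Ω : Type) [MeasurableSpace Ω] (P : Measure Ω) [IsProbabilityMeasure P]
    (X : Fin n → Ω → ℝ) (hX : KWiseGaussian P k n X) :
    |P.real {ω | 0 ≤ eval (fun i => X i ω) p} - (gam (Fin n)).real {z | 0 ≤ eval z p}| ≤
      (1 / 2) ^ Q := by
  have hXm : AEMeasurable (fun ω i => X i ω) P :=
    aemeasurable_pi_iff.2 fun i => (hX.law i).aemeasurable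
  set μ : Measure (Fin n → ℝ) := P.map (fun ω i => X i ω) with hμ
  have : IsProbabilityMeasure μ := Measure.isProbabilityMeasure_map hXm
  have hMM : MM k μ := mm_of_kwise P k n X hX
  have hdk : 2 * d ≤ k := by
    refine le_trans ?_ hk
    have hΛ : 1 ≤ Λ := hQ.trans hQΛ
    calc 2 * d = 2 ^ 1 * d ^ 1 * 1 ^ 2 * 1 ^ 2 * 1 := by ring
      _ ≤ 2 ^ 82 * d ^ 4 * (Nat.log 2 d + 2) ^ 2 * Λ ^ 2 * 4 ^ Q := by
          have h4 : 1 ≤ 4 ^ Q := Nat.one_le_pow _ _ (by norm_num)
          gcongr <;> first | omega | norm_num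
  have h := two_sided_gen hd hQ hQΛ hdΛ p hp hk μ hMM hdk
  have hS : MeasurableSet {x : Fin n → ℝ | 0 ≤ eval x p} :=
    measurableSet_le measurable_const (eval_measurable p)
  have e1 : μ.real {x | 0 ≤ eval x p} = P.real {ω | 0 ≤ eval (fun i => X i ω) p} := by
    rw [hμ, measureReal_def, measureReal_def, Measure.map_apply_of_aemeasurable hXm hS]
    rfl
  rw [e1] at h
  exact h

end Pool.Agent.KWG
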