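import Pool.Agent.Lib.MP_68391b_lc.Gen.GDefs

/-! Hermite polynomials: algebraic identities. -/

set_option linter.unusedSectionVars false

namespace Pool.Agent.KWG

open MeasureTheory ProbabilityTheory MvPolynomial Pool.Agent.KWI

variable {ι : Type} [Fintype ι] [DecidableEq ι]

/-- One factor of `hp`. -/
noncomputable def hermaF (i : ι) (n : ℕ) : MvPolynomial ι ℝ :=
  C ((√(n.factorial : ℝ))⁻¹) * Polynomial.aeval (X i : MvPolynomial ι ℝ) (he n)

theorem herma_deg_he (n : ℕ) : (he n).natDegree ≤ n := by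
  induction n with
  | zero => simp [he]
  | succ n ih =>
    simp only [he]
    refine (Polynomial.natDegree_sub_le _ _).trans (max_le ?_ ?_)
    · refine (Polynomial.natDegree_mul_le).trans ?_
      rw [Polynomial.natDegree_X]
      omega
    · have := Polynomial.natDegree_derivative_le (he n)
      omega

theorem herma_deriv_he (n : ℕ) :
    Polynomial.derivative (he (n + 1)) = ((n : Polynomial ℝ) + 1) * he n := by
  induction n with
  | zero => simp [he]
  | succ n ih =>
    have e : he (n + 1 + 1) = Polynomial.X * he (n + 1) - Polynomial.derivative (he (n + 1)) := rfl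
    have e1 : he (n + 1) = Polynomial.X * he n - Polynomial.derivative (he n) := rfl
    rw [e, ih]
    simp only [Polynomial.derivative_sub, Polynomial.derivative_mul, Polynomial.derivative_X,
      Polynomial.derivative_add, Polynomial.derivative_natCast, Polynomial.derivative_one]
    rw [ih, e1]
    push_cast
    ring

theorem herma_deg_aeval (i : ι) (P : Polynomial ℝ) :
    (Polynomial.aeval (X i : MvPolynomial ι ℝ) P).totalDegree ≤ P.natDegree := by
  rw [Polynomial.aeval_eq_sum_range]
  refine totalDegree_finsetSum_le fun k hk => ?_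
  refine (totalDegree_smul_le _ _).trans ?_
  refine (totalDegree_pow _ _).trans ?_
  rw [totalDegree_X]
  have := Finset.mem_range.1 hk
  omega

theorem herma_deg_F (i : ι) (n : ℕ) : (hermaF i n : MvPolynomial ι ℝ).totalDegree ≤ n := by
  unfold hermaF
  refine (totalDegree_mul _ _).trans ?_
  rw [totalDegree_C, zero_add]
  exact (herma_deg_aeval i _).trans (herma_deg_he n)

theorem herma_split (α : ι → ℕ) (j : ι) :
    hp α = hermaF j (α j) * ∏ i ∈ Finset.univ.erase j, hermaF i (α i) := by
  rw [Finset.mul_prod_erase Finset.univ (fun i => hermaF i (α i)) (Finset.mem_univ j)]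
  rfl

theorem herma_split_update (α : ι → ℕ) (j : ι) (m : ℕ) :
    hp (Function.update α j m) = hermaF j m * ∏ i ∈ Finset.univ.erase j, hermaF i (α i) := by
  rw [herma_split _ j, Function.update_self]
  congr 1
  refine Finset.prod_congr rfl fun i hi => ?_
  rw [Function.update_of_ne (Finset.ne_of_mem_erase hi)]

theorem herma_pderiv_aeval (i j : ι) (P : Polynomial ℝ) :
    pderiv j (Polynomial.aeval (X i : MvPolynomial ι ℝ) P) =
      Polynomial.aeval (X i : MvPolynomial ι ℝ) (Polynomial.derivative P) *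
        pderiv j (X i : MvPolynomial ι ℝ) := by
  rw [Derivation.map_aeval]
  rfl

theorem herma_pderiv_F_ne {i j : ι} (h : i ≠ j) (n : ℕ) :
    pderiv j (hermaF i n : MvPolynomial ι ℝ) = 0 := by
  unfold hermaF
  rw [pderiv_C_mul, herma_pderiv_aeval, pderiv_X_of_ne h]
  simp

theorem herma_pderiv_prod_aux (α : ι → ℕ) (j : ι) (s : Finset ι) (hs : j ∉ s) :
    pderiv j (∏ i ∈ s, hermaF i (α i) : MvPolynomial ι ℝ) = 0 := by
  induction s using Finset.induction_on with
  | empty => simp
  | insert i s hi ih =>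
    have hij : i ≠ j := fun h => hs (Finset.mem_insert.2 (Or.inl h.symm))
    rw [Finset.prod_insert hi, Derivation.leibniz, ih (fun h => hs (Finset.mem_insert_of_mem h)),
      herma_pderiv_F_ne hij]
    simp

theorem herma_pderiv_prod (α : ι → ℕ) (j : ι) :
    pderiv j (∏ i ∈ Finset.univ.erase j, hermaF i (α i) : MvPolynomial ι ℝ) = 0 :=
  herma_pderiv_prod_aux α j _ (Finset.notMem_erase _ _)

theorem herma_pderiv_split (α : ι → ℕ) (j : ι) :
    pderiv j (hp α) =
      pderiv j (hermaF j (α j)) * ∏ i ∈ Finset.univ.erase j, hermaF i (α i) := by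
  rw [herma_split α j, Derivation.leibniz, herma_pderiv_prod]
  simp only [smul_eq_mul]
  ring

theorem herma_sqrt_fact (n : ℕ) :
    (√(((n + 1).factorial : ℕ) : ℝ))⁻¹ * √((n : ℝ) + 1) = (√((n.factorial : ℕ) : ℝ))⁻¹ := by
  rw [Nat.factorial_succ]
  push_cast
  have h : (0 : ℝ) < (n : ℝ) + 1 := by positivity
  rw [Real.sqrt_mul h.le, mul_inv]
  have h2 : √((n : ℝ) + 1) ≠ 0 := (Real.sqrt_pos.2 h).ne'
  field_simp

theorem herma_pderiv_F_zero (j : ι) : pderiv j (hermaF j 0 : MvPolynomial ι ℝ) = 0 := by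
  unfold hermaF
  rw [pderiv_C_mul, herma_pderiv_aeval]
  simp [he]

theorem herma_pderiv_F_succ (j : ι) (n : ℕ) :
    pderiv j (hermaF j (n + 1) : MvPolynomial ι ℝ) = C (√((n : ℝ) + 1)) * hermaF j n := by
  unfold hermaF
  rw [pderiv_C_mul, herma_pderiv_aeval, herma_deriv_he, pderiv_X_self, mul_one, map_mul]
  have e : Polynomial.aeval (X j : MvPolynomial ι ℝ) ((n : Polynomial ℝ) + 1) =
      C ((n : ℝ) + 1) := by
    simp
  have h : (0 : ℝ) ≤ (n : ℝ) + 1 := by positivity
  rw [e, ← mul_assoc, ← C_mul, ← mul_assoc, ← C_mul, ← herma_sqrt_fact n]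
  congr 2
  have := Real.mul_self_sqrt h
  calc (√(((n + 1).factorial : ℕ) : ℝ))⁻¹ * ((n : ℝ) + 1)
      = (√(((n + 1).factorial : ℕ) : ℝ))⁻¹ * (√((n : ℝ) + 1) * √((n : ℝ) + 1)) := by rw [this]
    _ = _ := by ring

theorem herma_raise_F (j : ι) (n : ℕ) :
    X j * (hermaF j n : MvPolynomial ι ℝ) - pderiv j (hermaF j n) =
      C (√((n : ℝ) + 1)) * hermaF j (n + 1) := by
  have e1 : he (n + 1) = Polynomial.X * he n - Polynomial.derivative (he n) := rfl
  unfold hermaF
  rw [pderiv_C_mul, herma_pderiv_aeval, pderiv_X_self, mul_one, e1, map_sub, map_mul,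
    Polynomial.aeval_X, ← mul_assoc (C _) (C _), ← C_mul, mul_comm (√((n : ℝ) + 1)),
    herma_sqrt_fact n]
  ring

theorem hp_degree (α : ι → ℕ) : (hp α).totalDegree ≤ ∑ i, α i := by
  unfold hp
  refine (totalDegree_finsetProd _ _).trans (Finset.sum_le_sum fun i _ => ?_)
  exact herma_deg_F i (α i)

theorem pderiv_hp (α : ι → ℕ) (j : ι) :
    pderiv j (hp α) = C (√(α j : ℝ)) * hp (Function.update α j (α j - 1)) := by
  rw [herma_pderiv_split, herma_split_update]
  rcases Nat.eq_zero_or_pos (α j) with h | h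
  · rw [h, herma_pderiv_F_zero]
    simp
  · obtain ⟨n, hn⟩ : ∃ n, α j = n + 1 := ⟨α j - 1, by omega⟩
    rw [hn, herma_pderiv_F_succ]
    simp only [Nat.add_sub_cancel]
    push_cast
    ring

theorem raise_hp (α : ι → ℕ) (j : ι) :
    X j * hp α - pderiv j (hp α) =
      C (√((α j : ℝ) + 1)) * hp (Function.update α j (α j + 1)) := by
  rw [herma_pderiv_split, herma_split_update, herma_split α j, ← mul_assoc, ← mul_assoc,
    ← herma_raise_F]
  ring

end Pool.Agent.KWG
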