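import Pool.Agent.Lib.MP_68391b_lc.Gen.GDefs

/-! Hermite polynomials: orthonormality. -/

set_option linter.unusedSectionVars false

namespace Pool.Agent.KWG

open MeasureTheory ProbabilityTheory MvPolynomial Pool.Agent.KWI

variable {ι : Type} [Fintype ι] [DecidableEq ι]

theorem hermb_int (p : Polynomial ℝ) :
    Integrable (fun x : ℝ => p.eval x) (gaussianReal 0 1) := by
  have e : (fun x : ℝ => p.eval x) =
      fun x => ∑ i ∈ Finset.range (p.natDegree + 1), p.coeff i * x ^ i := by
    funext x
    rw [Polynomial.eval_eq_sum_range]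
  rw [e]
  refine integrable_finsetSum _ fun d _ => ?_
  refine Integrable.const_mul ?_ _
  have h1 : MemLp (id : ℝ → ℝ) (d : ℕ) (gaussianReal 0 1) :=
    memLp_id_gaussianReal' _ (ENNReal.natCast_ne_top _)
  have h2 := h1.integrable_norm_pow'
  refine (integrable_norm_iff ?_).1 ?_
  · exact (measurable_id.pow_const _).aestronglyMeasurable
  · simpa using h2

theorem hermb_int' (p : Polynomial ℝ) :
    Integrable (fun x : ℝ => gaussianPDFReal 0 1 x * p.eval x) volume := by
  have h := hermb_int p
  rw [gaussianReal_of_var_ne_zero 0 one_ne_zero,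
    integrable_withDensity_iff_integrable_smul' (measurable_gaussianPDF 0 1)
      (Filter.Eventually.of_forall fun x => gaussianPDF_lt_top)] at h
  simpa only [toReal_gaussianPDF, smul_eq_mul] using h

theorem hermb_pdf_deriv (x : ℝ) :
    HasDerivAt (gaussianPDFReal 0 1) (-x * gaussianPDFReal 0 1 x) x := by
  rw [gaussianPDFReal_def]
  have h1 : HasDerivAt (fun y : ℝ => -(y - 0) ^ 2 / (2 * ((1 : NNReal) : ℝ))) (-x) x := by
    have h2 : HasDerivAt (fun y : ℝ => y ^ 2) (2 * x) x := by
      simpa using hasDerivAt_pow 2 x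
    have h3 : (fun y : ℝ => -(y - 0) ^ 2 / (2 * ((1 : NNReal) : ℝ))) =
        fun y => (-(1 / 2 : ℝ)) * y ^ 2 := by
      funext y
      simp only [sub_zero, NNReal.coe_one, mul_one]
      ring
    rw [h3]
    refine (h2.const_mul (-(1 / 2 : ℝ))).congr_deriv ?_
    ring
  refine (h1.exp.const_mul _).congr_deriv ?_
  ring

theorem hermb_ibp (f : Polynomial ℝ) :
    ∫ x, (Polynomial.X * f).eval x ∂(gaussianReal 0 1) =
      ∫ x, (Polynomial.derivative f).eval x ∂(gaussianReal 0 1) := by
  rw [integral_gaussianReal_eq_integral_smul one_ne_zero,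
    integral_gaussianReal_eq_integral_smul one_ne_zero]
  have h := integral_mul_deriv_eq_deriv_mul_of_integrable
    (u := fun x : ℝ => f.eval x) (v := gaussianPDFReal 0 1)
    (u' := fun x : ℝ => (Polynomial.derivative f).eval x)
    (v' := fun x : ℝ => -x * gaussianPDFReal 0 1 x)
    (fun x _ => f.hasDerivAt x) (fun x _ => hermb_pdf_deriv x) ?_ ?_ ?_
  · have e1 : ∫ x, f.eval x * (-x * gaussianPDFReal 0 1 x) =
        -∫ x, gaussianPDFReal 0 1 x • (Polynomial.X * f).eval x := by
      rw [← integral_neg]
      congr 1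
      funext x
      simp only [Polynomial.eval_mul, Polynomial.eval_X, smul_eq_mul]
      ring
    rw [e1] at h
    rw [neg_inj.1 h]
    congr 1
    funext x
    rw [smul_eq_mul, mul_comm]
  · have := (hermb_int' (Polynomial.X * f)).neg
    refine this.congr (Filter.Eventually.of_forall fun x => ?_)
    simp only [Pi.neg_apply, Pi.mul_apply, Polynomial.eval_mul, Polynomial.eval_X]
    ring
  · refine (hermb_int' (Polynomial.derivative f)).congr
      (Filter.Eventually.of_forall fun x => ?_)
    simp only [Pi.mul_apply]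
    ring
  · refine (hermb_int' f).congr (Filter.Eventually.of_forall fun x => ?_)
    simp only [Pi.mul_apply]
    ring

theorem hermb_he_deriv (n : ℕ) :
    Polynomial.derivative (he (n + 1)) = Polynomial.C ((n : ℝ) + 1) * he n := by
  induction n with
  | zero => simp [he]
  | succ n ih =>
    have h1 : he (n + 1 + 1) = Polynomial.X * he (n + 1) - Polynomial.derivative (he (n + 1)) :=
      rfl
    have h2 : he (n + 1) = Polynomial.X * he n - Polynomial.derivative (he n) := rfl
    rw [h1, map_sub, Polynomial.derivative_mul, Polynomial.derivative_X, one_mul, ih,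
      Polynomial.derivative_C_mul]
    have h3 : Polynomial.X * (Polynomial.C ((n : ℝ) + 1) * he n) -
        Polynomial.C ((n : ℝ) + 1) * Polynomial.derivative (he n) =
        Polynomial.C ((n : ℝ) + 1) * he (n + 1) := by
      rw [h2]; ring
    rw [add_sub_assoc, h3]
    push_cast
    rw [map_add Polynomial.C ((n : ℝ) + 1) 1, map_one]
    ring

/-- The one variable integrals. -/
noncomputable def hermb_I (m n : ℕ) : ℝ :=
  ∫ x, (he m * he n).eval x ∂(gaussianReal 0 1)

theorem hermb_I_step (m : ℕ) (g : Polynomial ℝ) :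
    ∫ x, (he (m + 1) * g).eval x ∂(gaussianReal 0 1) =
      ∫ x, (he m * Polynomial.derivative g).eval x ∂(gaussianReal 0 1) := by
  have h2 : he (m + 1) = Polynomial.X * he m - Polynomial.derivative (he m) := rfl
  have e1 : (fun x : ℝ => (he (m + 1) * g).eval x) =
      fun x => (Polynomial.X * (he m * g)).eval x -
        (Polynomial.derivative (he m) * g).eval x := by
    funext x
    rw [h2, ← Polynomial.eval_sub]
    congr 1
    ring
  rw [e1, integral_sub (hermb_int _) (hermb_int _), hermb_ibp,
    ← integral_sub (hermb_int _) (hermb_int _)]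
  congr 1
  funext x
  rw [← Polynomial.eval_sub, Polynomial.derivative_mul]
  congr 1
  ring

theorem hermb_I_succ (m n : ℕ) : hermb_I (m + 1) (n + 1) = ((n : ℝ) + 1) * hermb_I m n := by
  unfold hermb_I
  rw [hermb_I_step, hermb_he_deriv, ← integral_const_mul]
  congr 1
  funext x
  simp only [Polynomial.eval_mul, Polynomial.eval_C]
  ring

theorem hermb_I_zero (m : ℕ) : hermb_I (m + 1) 0 = 0 := by
  unfold hermb_I
  rw [hermb_I_step]
  simp [he]

theorem hermb_I_comm (m n : ℕ) : hermb_I m n = hermb_I n m := by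
  unfold hermb_I
  rw [mul_comm]

theorem hermb_I_eq (m n : ℕ) : hermb_I m n = if m = n then (n.factorial : ℝ) else 0 := by
  induction m generalizing n with
  | zero =>
    cases n with
    | zero => simp [hermb_I, he]
    | succ n => rw [hermb_I_comm, hermb_I_zero]; simp
  | succ m ih =>
    cases n with
    | zero => rw [hermb_I_zero]; simp
    | succ n =>
      rw [hermb_I_succ, ih]
      by_cases h : m = n
      · subst h
        simp [Nat.factorial_succ]
      · simp [h]

theorem hermb_eval (α : ι → ℕ) (x : ι → ℝ) :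
    eval x (hp α) = ∏ i, ((√((α i).factorial : ℝ))⁻¹ * (he (α i)).eval (x i)) := by
  unfold hp
  rw [map_prod]
  refine Finset.prod_congr rfl fun i _ => ?_
  rw [map_mul, eval_C]
  congr 1
  rw [Polynomial.aeval_def, Polynomial.hom_eval₂, eval_X]
  have h : (eval x).comp (algebraMap ℝ (MvPolynomial ι ℝ)) = RingHom.id ℝ := by
    ext1 a
    simp
  rw [h, Polynomial.eval₂_id]

theorem hp_orth (α β : ι → ℕ) :
    ∫ x, eval x (hp α) * eval x (hp β) ∂(gam ι) = if α = β then 1 else 0 := by
  have e1 : (fun x : ι → ℝ => eval x (hp α) * eval x (hp β)) =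
      fun x => ∏ i, (fun (i : ι) (v : ℝ) =>
        ((√((α i).factorial : ℝ))⁻¹ * (√((β i).factorial : ℝ))⁻¹) *
          (he (α i) * he (β i)).eval v) i (x i) := by
    funext x
    rw [hermb_eval, hermb_eval, ← Finset.prod_mul_distrib]
    refine Finset.prod_congr rfl fun i _ => ?_
    simp only [Polynomial.eval_mul]
    ring
  rw [e1]
  unfold gam
  rw [integral_fintype_prod_eq_prod (f := fun (i : ι) (v : ℝ) =>
        ((√((α i).factorial : ℝ))⁻¹ * (√((β i).factorial : ℝ))⁻¹) *
          (he (α i) * he (β i)).eval v)]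
  have e2 : ∀ i : ι, ∫ v, ((√((α i).factorial : ℝ))⁻¹ * (√((β i).factorial : ℝ))⁻¹) *
      (he (α i) * he (β i)).eval v ∂(gaussianReal 0 1) = if α i = β i then 1 else 0 := by
    intro i
    rw [integral_const_mul]
    have h := hermb_I_eq (α i) (β i)
    unfold hermb_I at h
    rw [h]
    split_ifs with h2
    · rw [h2]
      have h3 : (0 : ℝ) < ((β i).factorial : ℝ) := by exact_mod_cast Nat.factorial_pos _
      rw [← mul_inv, Real.mul_self_sqrt h3.le, inv_mul_cancel₀ h3.ne']
    · ring
  rw [Finset.prod_congr rfl fun i _ => e2 i]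
  split_ifs with h
  · subst h
    simp
  · obtain ⟨i, hi⟩ := Function.ne_iff.1 h
    exact Finset.prod_eq_zero (Finset.mem_univ i) (if_neg hi)

end Pool.Agent.KWG
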