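import Pool.Agent.Lib.MP_68391b_lc.Gen.GDefs

/-! Hermite polynomials: they span. -/

set_option linter.unusedSectionVars false

namespace Pool.Agent.KWG

open MeasureTheory ProbabilityTheory MvPolynomial Pool.Agent.KWI

variable {ι : Type} [Fintype ι] [DecidableEq ι]

theorem hermc_deriv (n : ℕ) :
    Polynomial.derivative (he (n + 1)) = Polynomial.C ((n : ℝ) + 1) * he n := by
  induction n with
  | zero => simp [he]
  | succ n ih =>
    have h1 : he (n + 1 + 1) = Polynomial.X * he (n + 1) - Polynomial.derivative (he (n + 1)) :=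
      rfl
    have h2 : he (n + 1) = Polynomial.X * he n - Polynomial.derivative (he n) := rfl
    rw [h1, map_sub, Polynomial.derivative_mul, Polynomial.derivative_X, ih,
      Polynomial.derivative_C_mul]
    have h3 : Polynomial.C (((n + 1 : ℕ) : ℝ) + 1) = Polynomial.C ((n : ℝ) + 1) + 1 := by
      push_cast
      rw [map_add, Polynomial.C_1]
    rw [h3]
    have h4 : Polynomial.C ((n : ℝ) + 1) * he (n + 1) =
        Polynomial.C ((n : ℝ) + 1) * (Polynomial.X * he n - Polynomial.derivative (he n)) := by
      rw [← h2]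
    rw [add_mul, h4]
    ring

/-- The factors of the Hermite polynomials. -/
noncomputable def hermc_F (j : ι) (m : ℕ) : MvPolynomial ι ℝ :=
  C ((√(m.factorial : ℝ))⁻¹) * Polynomial.aeval (X j : MvPolynomial ι ℝ) (he m)

theorem hermc_up (j : ι) (m : ℕ) : ∃ c : ℝ,
    C ((√(m.factorial : ℝ))⁻¹) * Polynomial.aeval (X j : MvPolynomial ι ℝ) (he (m + 1)) =
      C c * hermc_F j (m + 1) := by
  refine ⟨(√(m.factorial : ℝ))⁻¹ * √((m + 1).factorial : ℝ), ?_⟩
  unfold hermc_F
  rw [← mul_assoc, ← C_mul]
  congr 2
  have : √((m + 1).factorial : ℝ) ≠ 0 := by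
    have := Nat.factorial_pos (m + 1)
    positivity
  field_simp

theorem hermc_down (j : ι) (m : ℕ) : ∃ c : ℝ,
    C ((√(m.factorial : ℝ))⁻¹) *
      Polynomial.aeval (X j : MvPolynomial ι ℝ) (Polynomial.derivative (he m)) =
      C c * hermc_F j (m - 1) := by
  cases m with
  | zero => exact ⟨0, by simp [he]⟩
  | succ m =>
    refine ⟨(√((m + 1).factorial : ℝ))⁻¹ * ((m : ℝ) + 1) * √(m.factorial : ℝ), ?_⟩
    rw [hermc_deriv, map_mul, Polynomial.aeval_C]
    unfold hermc_F
    have h1 : √(m.factorial : ℝ) ≠ 0 := by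
      have := Nat.factorial_pos m
      positivity
    have h2 : (√((m + 1).factorial : ℝ))⁻¹ * ((m : ℝ) + 1) * √(m.factorial : ℝ) *
        (√(m.factorial : ℝ))⁻¹ = (√((m + 1).factorial : ℝ))⁻¹ * ((m : ℝ) + 1) := by
      field_simp
    rw [Nat.add_sub_cancel, ← mul_assoc (C _) (C _), ← C_mul, h2, C_mul, mul_assoc]
    rfl

theorem hermc_hp (α : ι → ℕ) : hp α = ∏ j, hermc_F j (α j) := rfl

theorem hermc_update (α : ι → ℕ) (i : ι) (m : ℕ) :
    hp (Function.update α i m) = hermc_F i m * ∏ j ∈ Finset.univ.erase i, hermc_F j (α j) := by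
  rw [hermc_hp, ← Finset.mul_prod_erase Finset.univ _ (Finset.mem_univ i)]
  rw [Function.update_self]
  congr 1
  refine Finset.prod_congr rfl fun j hj => ?_
  rw [Function.update_of_ne (Finset.ne_of_mem_erase hj)]

/-- The span of the Hermite polynomials of level at most `N`. -/
noncomputable def hermc_S (ι : Type) [Fintype ι] [DecidableEq ι] (N : ℕ) :
    Submodule ℝ (MvPolynomial ι ℝ) :=
  Submodule.span ℝ {q | ∃ α : ι → ℕ, ∑ i, α i ≤ N ∧ hp α = q}

theorem hermc_mul_X (N : ℕ) (i : ι) (q : MvPolynomial ι ℝ) (hq : q ∈ hermc_S ι N) :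
    X i * q ∈ hermc_S ι (N + 1) := by
  unfold hermc_S at hq
  induction hq using Submodule.span_induction with
  | mem q hq =>
    obtain ⟨α, hα, rfl⟩ := hq
    obtain ⟨c1, h1⟩ := hermc_up i (α i)
    obtain ⟨c2, h2⟩ := hermc_down i (α i)
    have hself : hp α = hermc_F i (α i) * ∏ j ∈ Finset.univ.erase i, hermc_F j (α j) := by
      rw [← hermc_update, Function.update_eq_self]
    have hX : X i * hermc_F i (α i) = C c1 * hermc_F i (α i + 1) +
        C c2 * hermc_F i (α i - 1) := by
      rw [← h1, ← h2, ← mul_add, ← map_add]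
      have : he (α i + 1) + Polynomial.derivative (he (α i)) = Polynomial.X * he (α i) := by
        have : he (α i + 1) = Polynomial.X * he (α i) - Polynomial.derivative (he (α i)) := rfl
        rw [this, sub_add_cancel]
      rw [this, map_mul, Polynomial.aeval_X]
      unfold hermc_F
      ring
    have key : X i * hp α = c1 • hp (Function.update α i (α i + 1)) +
        c2 • hp (Function.update α i (α i - 1)) := by
      rw [hermc_update, hermc_update, hself, ← mul_assoc, hX, smul_eq_C_mul, smul_eq_C_mul]
      ring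
    have hsum : ∀ m, ∑ j, Function.update α i m j = m + ∑ j ∈ Finset.univ.erase i, α j := by
      intro m
      rw [← Finset.add_sum_erase Finset.univ _ (Finset.mem_univ i), Function.update_self]
      congr 1
      refine Finset.sum_congr rfl fun j hj => ?_
      rw [Function.update_of_ne (Finset.ne_of_mem_erase hj)]
    have hsum0 : ∑ j, α j = α i + ∑ j ∈ Finset.univ.erase i, α j :=
      (Finset.add_sum_erase Finset.univ _ (Finset.mem_univ i)).symm
    rw [key]
    refine Submodule.add_mem _ (Submodule.smul_mem _ _ (Submodule.subset_span ⟨_, ?_, rfl⟩))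
      (Submodule.smul_mem _ _ (Submodule.subset_span ⟨_, ?_, rfl⟩))
    · rw [hsum]; omega
    · rw [hsum]; omega
  | zero =>
    rw [mul_zero]
    exact Submodule.zero_mem _
  | add q r _ _ hq hr =>
    rw [mul_add]
    exact Submodule.add_mem _ hq hr
  | smul c q _ hq =>
    rw [mul_smul_comm]
    exact Submodule.smul_mem _ _ hq

theorem hermc_mono {N M : ℕ} (h : N ≤ M) : hermc_S ι N ≤ hermc_S ι M := by
  apply Submodule.span_mono
  rintro q ⟨α, hα, rfl⟩
  exact ⟨α, hα.trans h, rfl⟩

theorem hermc_monomial (n : ℕ) (s : ι →₀ ℕ) (hs : s.sum (fun _ e => e) = n) :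
    monomial s (1 : ℝ) ∈ hermc_S ι n := by
  induction n generalizing s with
  | zero =>
    have h0 : s = 0 := by
      ext i
      have hle : s i ≤ s.sum fun _ e => e := by
        by_cases hi : i ∈ s.support
        · exact Finset.single_le_sum (f := fun j => s j) (fun _ _ => Nat.zero_le _) hi
        · rw [Finsupp.notMem_support_iff.1 hi]
          exact Nat.zero_le _
      rw [hs] at hle
      simpa using hle
    rw [h0]
    apply Submodule.subset_span
    refine ⟨0, by simp, ?_⟩
    unfold hp
    simp [he]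
  | succ n ih =>
    obtain ⟨i, hi⟩ : ∃ i, s i ≠ 0 := by
      by_contra hcon
      push Not at hcon
      have : s = 0 := by
        ext i
        exact hcon i
      rw [this] at hs
      simp at hs
    have hsplit : s = Finsupp.single i 1 + (s - Finsupp.single i 1) := by
      ext j
      by_cases hj : i = j
      · subst hj
        simp
        omega
      · simp [hj]
    have hsum : (s - Finsupp.single i 1).sum (fun _ e => e) = n := by
      rw [hsplit, Finsupp.sum_add_index' (fun _ => rfl) (fun _ _ _ => rfl),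
        Finsupp.sum_single_index rfl] at hs
      omega
    have h1 := hermc_mul_X n i _ (ih _ hsum)
    have h2 : monomial s (1 : ℝ) = X i * monomial (s - Finsupp.single i 1) 1 := by
      rw [X, monomial_mul, one_mul, ← hsplit]
    rw [h2]
    exact h1

theorem hermc_mem (N : ℕ) (q : MvPolynomial ι ℝ) (hq : q.totalDegree ≤ N) :
    q ∈ hermc_S ι N := by
  rw [q.as_sum]
  refine Submodule.sum_mem _ fun s hs => ?_
  have h1 : monomial s (q.coeff s) = (q.coeff s) • monomial s (1 : ℝ) := by
    rw [smul_monomial, smul_eq_mul, mul_one]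
  rw [h1]
  apply Submodule.smul_mem
  exact hermc_mono ((MvPolynomial.le_totalDegree hs).trans hq) (hermc_monomial _ s rfl)

theorem hp_span (N : ℕ) (q : MvPolynomial ι ℝ) (hq : q.totalDegree ≤ N) :
    ∃ c : (ι → ℕ) → ℝ, q = ∑ k ∈ Finset.range (N + 1), ∑ α ∈ lev ι k, C (c α) * hp α := by
  have h := hermc_mem N q hq
  clear hq
  unfold hermc_S at h
  induction h using Submodule.span_induction with
  | mem q hq =>
    obtain ⟨β, hβ, rfl⟩ := hq
    refine ⟨fun α => if α = β then 1 else 0, ?_⟩
    symm
    rw [Finset.sum_eq_single (∑ i, β i)]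
    · rw [Finset.sum_eq_single β]
      · simp
      · intro α _ hne
        simp [hne]
      · intro hn
        exact absurd (mem_lev.2 rfl) hn
    · intro k _ hk
      refine Finset.sum_eq_zero fun α hα => ?_
      rw [mem_lev] at hα
      have : α ≠ β := by
        rintro rfl
        exact hk hα.symm
      simp [this]
    · intro hn
      exact absurd (Finset.mem_range.2 (by omega)) hn
  | zero => exact ⟨fun _ => 0, by simp⟩
  | add q r _ _ hq hr =>
    obtain ⟨c, hc⟩ := hq
    obtain ⟨c', hc'⟩ := hr
    refine ⟨fun α => c α + c' α, ?_⟩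
    simp only [map_add, add_mul, Finset.sum_add_distrib]
    rw [← hc, ← hc']
  | smul r q _ hq =>
    obtain ⟨c, hc⟩ := hq
    refine ⟨fun α => r * c α, ?_⟩
    simp only [map_mul, mul_assoc, ← Finset.mul_sum]
    rw [← hc, smul_eq_C_mul]

end Pool.Agent.KWG
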