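import Pool.Agent.Lib.MP_68391b_lc.Gen.GHermA
import Pool.Agent.Lib.MP_68391b_lc.Gen.GHermB
import Pool.Agent.Lib.MP_68391b_lc.Gen.GHermC

/-! Hermite expansions of polynomials and of square integrable functions. -/

set_option linter.unusedSectionVars false

namespace Pool.Agent.KWG

open MeasureTheory ProbabilityTheory MvPolynomial Pool.Agent.KWI

variable {ι : Type} [Fintype ι] [DecidableEq ι]

theorem hermd_sum (M : ℕ) {R : Type} [AddCommMonoid R] (f : (ι → ℕ) → R) :
    ∑ k ∈ Finset.range M, ∑ α ∈ lev ι k, f α = ∑ α ∈ (Finset.range M).biUnion (lev ι), f α := by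
  rw [Finset.sum_biUnion]
  intro a _ b _ hab
  rw [Function.onFun, Finset.disjoint_left]
  intro x hx hx'
  rw [mem_lev] at hx hx'
  exact hab (hx.symm.trans hx')

theorem hermd_coef (S : Finset (ι → ℕ)) (c : (ι → ℕ) → ℝ) (α : ι → ℕ) (hα : α ∈ S) :
    ∫ x, eval x (∑ β ∈ S, C (c β) * hp β) * eval x (hp α) ∂(gam ι) = c α := by
  have e : (fun x : ι → ℝ => eval x (∑ β ∈ S, C (c β) * hp β) * eval x (hp α)) =
      fun x => ∑ β ∈ S, c β * (eval x (hp β) * eval x (hp α)) := by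
    funext x
    rw [map_sum, Finset.sum_mul]
    refine Finset.sum_congr rfl fun β _ => ?_
    rw [map_mul, eval_C]
    ring
  rw [e, integral_finsetSum _ fun β _ => (poly_integrable_mul _ _).const_mul _]
  simp_rw [integral_const_mul, hp_orth]
  simp [hα]

theorem hermd_sq (S : Finset (ι → ℕ)) (c : (ι → ℕ) → ℝ) :
    ∫ x, (eval x (∑ β ∈ S, C (c β) * hp β)) ^ 2 ∂(gam ι) = ∑ α ∈ S, c α ^ 2 := by
  have e : (fun x : ι → ℝ => (eval x (∑ β ∈ S, C (c β) * hp β)) ^ 2) =
      fun x => ∑ α ∈ S, c α * (eval x (∑ β ∈ S, C (c β) * hp β) * eval x (hp α)) := by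
    funext x
    have : eval x (∑ β ∈ S, C (c β) * hp β) = ∑ α ∈ S, c α * eval x (hp α) := by
      rw [map_sum]
      exact Finset.sum_congr rfl fun β _ => by rw [map_mul, eval_C]
    rw [sq]
    nth_rewrite 2 [this]
    rw [Finset.mul_sum]
    exact Finset.sum_congr rfl fun β _ => by ring
  rw [e, integral_finsetSum _ fun β _ => (poly_integrable_mul _ _).const_mul _]
  refine Finset.sum_congr rfl fun α hα => ?_
  rw [integral_const_mul, hermd_coef S c α hα, sq]

theorem hermd_expand (N : ℕ) (q : MvPolynomial ι ℝ) (hq : q.totalDegree ≤ N) :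
    q = ∑ α ∈ (Finset.range (N + 1)).biUnion (lev ι),
      C (∫ x, eval x q * eval x (hp α) ∂(gam ι)) * hp α := by
  obtain ⟨c, hc⟩ := hp_span N q hq
  rw [hermd_sum] at hc
  have h : ∀ α ∈ (Finset.range (N + 1)).biUnion (lev ι),
      ∫ x, eval x q * eval x (hp α) ∂(gam ι) = c α := by
    intro α hα
    rw [hc]
    exact hermd_coef _ c α hα
  conv_lhs => rw [hc]
  exact Finset.sum_congr rfl fun α hα => by rw [h α hα]

theorem hp_expand (N : ℕ) (q : MvPolynomial ι ℝ) (hq : q.totalDegree ≤ N) :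
    q = ∑ k ∈ Finset.range (N + 1), ∑ α ∈ lev ι k,
      C (∫ x, eval x q * eval x (hp α) ∂(gam ι)) * hp α := by
  rw [hermd_sum (N + 1) fun α => C (∫ x, eval x q * eval x (hp α) ∂(gam ι)) * hp α]
  exact hermd_expand N q hq

theorem parseval (N : ℕ) (q : MvPolynomial ι ℝ) (hq : q.totalDegree ≤ N) :
    n2 q ^ 2 = ∑ k ∈ Finset.range (N + 1), ∑ α ∈ lev ι k,
      (∫ x, eval x q * eval x (hp α) ∂(gam ι)) ^ 2 := by
  rw [hermd_sum (N + 1) fun α => (∫ x, eval x q * eval x (hp α) ∂(gam ι)) ^ 2, n2_sq,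
    ← hermd_sq, ← hermd_expand N q hq]

theorem hermd_int_mul (f g : (ι → ℝ) → ℝ) (hm : AEStronglyMeasurable f (gam ι))
    (hg : AEStronglyMeasurable g (gam ι))
    (hf2 : Integrable (fun x => f x ^ 2) (gam ι)) (hg2 : Integrable (fun x => g x ^ 2) (gam ι)) :
    Integrable (fun x => f x * g x) (gam ι) := by
  refine (hf2.add hg2).mono (hm.mul hg) (Filter.Eventually.of_forall fun x => ?_)
  rw [Real.norm_eq_abs, Real.norm_eq_abs, Pi.add_apply,
    abs_of_nonneg (a := f x ^ 2 + g x ^ 2) (by positivity), abs_le]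
  constructor <;> nlinarith [sq_nonneg (f x + g x), sq_nonneg (f x - g x)]

theorem bessel (k : ℕ) (f : (ι → ℝ) → ℝ) (hm : AEStronglyMeasurable f (gam ι))
    (hf : Integrable (fun x => f x ^ 2) (gam ι)) :
    ∑ α ∈ lev ι k, (∫ x, f x * eval x (hp α) ∂(gam ι)) ^ 2 ≤ ∫ x, f x ^ 2 ∂(gam ι) := by
  set c : (ι → ℕ) → ℝ := fun α => ∫ x, f x * eval x (hp α) ∂(gam ι) with hc
  set P : MvPolynomial ι ℝ := ∑ β ∈ lev ι k, C (c β) * hp β with hP
  have hPm : AEStronglyMeasurable (fun x : ι → ℝ => eval x P) (gam ι) :=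
    (eval_continuous P).aestronglyMeasurable
  have i1 : Integrable (fun x => f x * eval x P) (gam ι) :=
    hermd_int_mul f _ hm hPm hf (poly_integrable_sq P)
  have i2 : ∀ α, Integrable (fun x => f x * eval x (hp α)) (gam ι) := fun α =>
    hermd_int_mul f _ hm (eval_continuous _).aestronglyMeasurable hf (poly_integrable_sq _)
  have e1 : ∫ x, f x * eval x P ∂(gam ι) = ∑ α ∈ lev ι k, c α ^ 2 := by
    have e : (fun x : ι → ℝ => f x * eval x P) =
        fun x => ∑ α ∈ lev ι k, c α * (f x * eval x (hp α)) := by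
      funext x
      rw [hP, map_sum, Finset.mul_sum]
      refine Finset.sum_congr rfl fun β _ => ?_
      rw [map_mul, eval_C]
      ring
    rw [e, integral_finsetSum _ fun β _ => (i2 β).const_mul _]
    refine Finset.sum_congr rfl fun α _ => ?_
    rw [integral_const_mul, sq]
  have e2 : ∫ x, (eval x P) ^ 2 ∂(gam ι) = ∑ α ∈ lev ι k, c α ^ 2 := hermd_sq _ c
  have e3 : ∫ x, (f x - eval x P) ^ 2 ∂(gam ι) =
      ∫ x, f x ^ 2 ∂(gam ι) - 2 * ∫ x, f x * eval x P ∂(gam ι) +
        ∫ x, (eval x P) ^ 2 ∂(gam ι) := by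
    have i3 : Integrable (fun x => f x ^ 2 - 2 * (f x * eval x P)) (gam ι) :=
      hf.sub (i1.const_mul 2)
    rw [← integral_const_mul, ← integral_sub hf (i1.const_mul 2),
      ← integral_add i3 (poly_integrable_sq P)]
    congr 1
    funext x
    ring
  have h0 : 0 ≤ ∫ x, (f x - eval x P) ^ 2 ∂(gam ι) := integral_nonneg fun x => sq_nonneg _
  rw [e3, e1, e2] at h0
  linarith

end Pool.Agent.KWG
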