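import Pool.Agent.Lib.MP_68391b_lc.Gen.GHermD

/-! Energy, Poincare inequality, divergence decomposition. -/

set_option linter.unusedSectionVars false

namespace Pool.Agent.KWG

open MeasureTheory ProbabilityTheory MvPolynomial Pool.Agent.KWI

variable {ι : Type} [Fintype ι] [DecidableEq ι]

/-- All multi-indices of order at most `m`. -/
noncomputable def herme_T (ι : Type) [Fintype ι] [DecidableEq ι] (m : ℕ) : Finset (ι → ℕ) :=
  (Finset.range (m + 1)).biUnion fun k => lev ι k

theorem herme_mem {m : ℕ} {α : ι → ℕ} : α ∈ herme_T ι m ↔ ∑ i, α i ≤ m := by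
  simp only [herme_T, Finset.mem_biUnion, Finset.mem_range, mem_lev]
  constructor
  · rintro ⟨k, hk, h⟩
    omega
  · intro h
    exact ⟨_, by omega, rfl⟩

theorem herme_sum {M : Type} [AddCommMonoid M] (m : ℕ) (f : (ι → ℕ) → M) :
    ∑ k ∈ Finset.range (m + 1), ∑ α ∈ lev ι k, f α = ∑ α ∈ herme_T ι m, f α := by
  unfold herme_T
  rw [Finset.sum_biUnion]
  intro a _ b _ hab
  rw [Function.onFun, Finset.disjoint_left]
  intro α h1 h2
  exact hab ((mem_lev.1 h1).symm.trans (mem_lev.1 h2))

theorem herme_hp_zero : hp (0 : ι → ℕ) = 1 := by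
  simp [hp, he]

theorem herme_n2_sum {κ : Type} (S : Finset κ) (b : κ → ℝ) (φ : κ → ι → ℕ)
    (hφ : Set.InjOn φ S) :
    n2 (∑ a ∈ S, C (b a) * hp (φ a)) ^ 2 = ∑ a ∈ S, b a ^ 2 := by
  classical
  rw [n2_sq]
  have e1 : (fun x : ι → ℝ => (eval x (∑ a ∈ S, C (b a) * hp (φ a))) ^ 2) =
      fun x => ∑ a ∈ S, ∑ a' ∈ S, (b a * b a') * (eval x (hp (φ a)) * eval x (hp (φ a'))) := by
    funext x
    simp only [map_sum, map_mul, eval_C]
    rw [sq, Finset.sum_mul_sum]
    refine Finset.sum_congr rfl fun a _ => Finset.sum_congr rfl fun a' _ => ?_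
    ring
  rw [e1, integral_finsetSum]
  · refine Finset.sum_congr rfl fun a ha => ?_
    rw [integral_finsetSum]
    · have e2 : ∀ a' ∈ S, ∫ x, (b a * b a') * (eval x (hp (φ a)) * eval x (hp (φ a')))
          ∂(gam ι) = if a = a' then b a ^ 2 else 0 := by
        intro a' ha'
        rw [integral_const_mul, hp_orth]
        by_cases h : a = a'
        · subst h
          simp [sq]
        · have : φ a ≠ φ a' := fun h2 => h (hφ ha ha' h2)
          simp [h, this]
      rw [Finset.sum_congr rfl e2]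
      simp [ha]
    · intro a' _
      exact (poly_integrable_mul _ _).const_mul _
  · intro a _
    exact integrable_finsetSum _ fun a' _ => (poly_integrable_mul _ _).const_mul _

/-- Hermite coefficient. -/
noncomputable def herme_c (q : MvPolynomial ι ℝ) (α : ι → ℕ) : ℝ :=
  ∫ x, eval x q * eval x (hp α) ∂(gam ι)

theorem herme_expand (m : ℕ) (q : MvPolynomial ι ℝ) (hq : q.totalDegree ≤ m) :
    q = ∑ α ∈ herme_T ι m, C (herme_c q α) * hp α := by
  have h := hp_expand m q hq
  rw [herme_sum m (fun α => C (∫ x, eval x q * eval x (hp α) ∂(gam ι)) * hp α)] at h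
  exact h

theorem herme_parseval (m : ℕ) (q : MvPolynomial ι ℝ) (hq : q.totalDegree ≤ m) :
    n2 q ^ 2 = ∑ α ∈ herme_T ι m, herme_c q α ^ 2 := by
  have h := parseval m q hq
  rw [herme_sum m (fun α => (∫ x, eval x q * eval x (hp α) ∂(gam ι)) ^ 2)] at h
  exact h

theorem herme_inj (m : ℕ) (j : ι) :
    Set.InjOn (fun α : ι → ℕ => Function.update α j (α j - 1))
      ((herme_T ι m).filter fun α => 1 ≤ α j : Finset (ι → ℕ)) := by
  intro α hα β hβ h
  have h1 : 1 ≤ α j := (Finset.mem_filter.1 hα).2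
  have h2 : 1 ≤ β j := (Finset.mem_filter.1 hβ).2
  funext i
  have h3 := congrFun h i
  by_cases hi : i = j
  · subst hi
    simp only [Function.update_self] at h3
    omega
  · simpa only [Function.update_of_ne hi] using h3

theorem herme_pderiv (m : ℕ) (q : MvPolynomial ι ℝ) (hq : q.totalDegree ≤ m) (j : ι) :
    n2 (pderiv j q) ^ 2 = ∑ α ∈ herme_T ι m, herme_c q α ^ 2 * (α j : ℝ) := by
  have e : pderiv j q = ∑ α ∈ (herme_T ι m).filter (fun α => 1 ≤ α j),
      C (herme_c q α * √(α j : ℝ)) * hp (Function.update α j (α j - 1)) := by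
    conv_lhs => rw [herme_expand m q hq]
    rw [map_sum, Finset.sum_filter]
    refine Finset.sum_congr rfl fun α _ => ?_
    rw [pderiv_C_mul, pderiv_hp]
    split_ifs with h
    · rw [C_mul, mul_assoc]
    · have h0 : α j = 0 := by omega
      simp [h0]
  rw [e, herme_n2_sum _ _ _ (herme_inj m j), Finset.sum_filter]
  refine Finset.sum_congr rfl fun α _ => ?_
  split_ifs with h
  · rw [mul_pow, Real.sq_sqrt (Nat.cast_nonneg _)]
  · have h0 : α j = 0 := by omega
    simp [h0]

theorem herme_energy_eq (m : ℕ) (q : MvPolynomial ι ℝ) (hq : q.totalDegree ≤ m) :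
    ∑ j, n2 (pderiv j q) ^ 2 =
      ∑ α ∈ herme_T ι m, herme_c q α ^ 2 * ((∑ j, α j : ℕ) : ℝ) := by
  rw [Finset.sum_congr rfl fun j _ => herme_pderiv m q hq j, Finset.sum_comm]
  refine Finset.sum_congr rfl fun α _ => ?_
  rw [← Finset.mul_sum]
  push_cast
  rfl

theorem herm_energy (m : ℕ) (q : MvPolynomial ι ℝ) (hq : q.totalDegree ≤ m) :
    ∑ j, n2 (pderiv j q) ^ 2 ≤ m * n2 q ^ 2 := by
  rw [herme_energy_eq m q hq, herme_parseval m q hq, Finset.mul_sum]
  refine Finset.sum_le_sum fun α hα => ?_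
  rw [mul_comm]
  refine mul_le_mul_of_nonneg_right ?_ (sq_nonneg _)
  exact_mod_cast herme_mem.1 hα

theorem herme_c_zero (q : MvPolynomial ι ℝ) : herme_c q 0 = ∫ x, eval x q ∂(gam ι) := by
  unfold herme_c
  simp [herme_hp_zero]

theorem herm_poincare (q : MvPolynomial ι ℝ) :
    ∫ x, (eval x q - ∫ y, eval y q ∂(gam ι)) ^ 2 ∂(gam ι) ≤ ∑ j, n2 (pderiv j q) ^ 2 := by
  set m := q.totalDegree with hm
  set e : ℝ := ∫ y, eval y q ∂(gam ι) with he
  have h1 : ∫ x, (eval x q - e) ^ 2 ∂(gam ι) = n2 q ^ 2 - e ^ 2 := by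
    rw [n2_sq]
    have e1 : (fun x : ι → ℝ => (eval x q - e) ^ 2) =
        fun x => ((eval x q) ^ 2 - (2 * e) * eval x q) + e ^ 2 := by
      funext x; ring
    have i1 := poly_integrable_sq q
    have i2 : Integrable (fun x : ι → ℝ => (2 * e) * eval x q) (gam ι) :=
      (poly_integrable q).const_mul _
    have i3 : Integrable (fun x : ι → ℝ => (eval x q) ^ 2 - (2 * e) * eval x q) (gam ι) :=
      i1.sub i2
    rw [e1, integral_add i3 (integrable_const _), integral_sub i1 i2,
      integral_const_mul, ← he]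
    simp
    ring
  rw [h1, herme_energy_eq m q le_rfl, herme_parseval m q le_rfl]
  have h0 : (0 : ι → ℕ) ∈ herme_T ι m := by
    rw [herme_mem]; simp
  rw [← Finset.add_sum_erase _ _ h0, ← Finset.add_sum_erase _ (fun α => herme_c q α ^ 2 *
    ((∑ j, α j : ℕ) : ℝ)) h0, herme_c_zero]
  simp only [Pi.zero_apply, Finset.sum_const_zero, Nat.cast_zero, mul_zero, zero_add]
  rw [add_sub_cancel_left]
  refine Finset.sum_le_sum fun α hα => ?_
  have hα0 : α ≠ 0 := (Finset.mem_erase.1 hα).1
  have h2 : 1 ≤ ∑ j, α j := by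
    by_contra hc
    apply hα0
    funext i
    have : ∑ j, α j = 0 := by omega
    exact (Finset.sum_eq_zero_iff.1 this) i (Finset.mem_univ i)
  refine le_mul_of_one_le_right (sq_nonneg _) ?_
  exact_mod_cast h2

/-- The fields of the decomposition. -/
noncomputable def herme_g (D : ℕ) (G : MvPolynomial ι ℝ) (j : ι) : MvPolynomial ι ℝ :=
  ∑ α ∈ (herme_T ι (D + 1)).filter (fun α => 1 ≤ α j),
    C (herme_c G α * √(α j : ℝ) / ((∑ i, α i : ℕ) : ℝ)) *
      hp (Function.update α j (α j - 1))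

theorem herme_sum_update (α : ι → ℕ) (j : ι) (h : 1 ≤ α j) :
    ∑ i, Function.update α j (α j - 1) i + 1 = ∑ i, α i := by
  rw [← Finset.add_sum_erase _ _ (Finset.mem_univ j),
    ← Finset.add_sum_erase Finset.univ α (Finset.mem_univ j)]
  have e : ∑ i ∈ Finset.univ.erase j, Function.update α j (α j - 1) i =
      ∑ i ∈ Finset.univ.erase j, α i := by
    refine Finset.sum_congr rfl fun i hi => ?_
    rw [Function.update_of_ne (Finset.ne_of_mem_erase hi)]
  rw [e, Function.update_self]
  omega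

theorem herme_g_deg (D : ℕ) (G : MvPolynomial ι ℝ) (j : ι) : (herme_g D G j).totalDegree ≤ D := by
  unfold herme_g
  refine MvPolynomial.totalDegree_finsetSum_le fun α hα => ?_
  obtain ⟨h1, h2⟩ := Finset.mem_filter.1 hα
  refine (MvPolynomial.totalDegree_mul _ _).trans ?_
  rw [totalDegree_C, zero_add]
  refine (hp_degree _).trans ?_
  have h3 := herme_sum_update α j h2
  have h4 := herme_mem.1 h1
  omega

theorem herme_g_n2 (D : ℕ) (G : MvPolynomial ι ℝ) (j : ι) :
    n2 (herme_g D G j) ^ 2 = ∑ α ∈ herme_T ι (D + 1),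
      herme_c G α ^ 2 * (α j : ℝ) / ((∑ i, α i : ℕ) : ℝ) ^ 2 := by
  unfold herme_g
  rw [herme_n2_sum _ _ _ (herme_inj (D + 1) j), Finset.sum_filter]
  refine Finset.sum_congr rfl fun α _ => ?_
  split_ifs with h
  · rw [div_pow, mul_pow, Real.sq_sqrt (Nat.cast_nonneg _)]
  · have h0 : α j = 0 := by omega
    simp [h0]

theorem herme_g_div (D : ℕ) (G : MvPolynomial ι ℝ) (j : ι) :
    X j * herme_g D G j - pderiv j (herme_g D G j) =
      ∑ α ∈ herme_T ι (D + 1), C (herme_c G α * (α j : ℝ) / ((∑ i, α i : ℕ) : ℝ)) * hp α := by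
  unfold herme_g
  rw [Finset.mul_sum, map_sum, ← Finset.sum_sub_distrib, Finset.sum_filter]
  refine Finset.sum_congr rfl fun α _ => ?_
  split_ifs with h
  · set β := Function.update α j (α j - 1) with hβ
    have h1 := raise_hp β j
    have h2 : Function.update β j (β j + 1) = α := by
      funext i
      by_cases hi : i = j
      · subst hi
        simp only [Function.update_self, hβ]
        omega
      · simp only [hβ, Function.update_of_ne hi]
    have h3 : ((β j : ℝ) + 1) = (α j : ℝ) := by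
      have : β j + 1 = α j := by
        rw [hβ, Function.update_self]; omega
      exact_mod_cast this
    rw [h2, h3] at h1
    rw [pderiv_C_mul, mul_left_comm, ← mul_sub, h1, ← mul_assoc, ← C_mul]
    congr 2
    rw [div_mul_eq_mul_div, mul_assoc, Real.mul_self_sqrt (Nat.cast_nonneg _)]
  · have h0 : α j = 0 := by omega
    simp [h0]

theorem herm_decomp (D : ℕ) (G : MvPolynomial ι ℝ) (hG : G.totalDegree ≤ D + 1) :
    ∃ g : ι → MvPolynomial ι ℝ, (∀ j, (g j).totalDegree ≤ D) ∧
      G = C (∫ x, eval x G ∂(gam ι)) + ∑ j, (X j * g j - pderiv j (g j)) ∧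
      ∑ j, n2 (g j) ^ 2 ≤ n2 G ^ 2 := by
  have h0 : (0 : ι → ℕ) ∈ herme_T ι (D + 1) := by
    rw [herme_mem]; simp
  have hpos : ∀ α : ι → ℕ, α ≠ 0 → 1 ≤ ∑ j, α j := by
    intro α hα0
    by_contra hc
    apply hα0
    funext i
    have : ∑ j, α j = 0 := by omega
    exact (Finset.sum_eq_zero_iff.1 this) i (Finset.mem_univ i)
  refine ⟨herme_g D G, herme_g_deg D G, ?_, ?_⟩
  · rw [Finset.sum_congr rfl fun j _ => herme_g_div D G j, Finset.sum_comm]
    have e : ∀ α ∈ herme_T ι (D + 1), ∑ j, C (herme_c G α * (α j : ℝ) /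
        ((∑ i, α i : ℕ) : ℝ)) * hp α = if α = 0 then 0 else C (herme_c G α) * hp α := by
      intro α _
      rw [← Finset.sum_mul, ← map_sum, ← Finset.sum_div, ← Finset.mul_sum]
      split_ifs with h
      · subst h; simp
      · have h1 : (1 : ℝ) ≤ ((∑ i, α i : ℕ) : ℝ) := by exact_mod_cast hpos α h
        congr 2
        rw [← Nat.cast_sum]
        field_simp
    rw [Finset.sum_congr rfl e, ← Finset.add_sum_erase _ _ h0]
    conv_lhs => rw [herme_expand (D + 1) G hG]
    rw [← Finset.add_sum_erase _ _ h0, herme_c_zero, herme_hp_zero, mul_one, if_pos rfl,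
      zero_add]
    congr 1
    refine Finset.sum_congr rfl fun α hα => ?_
    rw [if_neg (Finset.mem_erase.1 hα).1]
  · rw [Finset.sum_congr rfl fun j _ => herme_g_n2 D G j, Finset.sum_comm,
      herme_parseval (D + 1) G hG]
    refine Finset.sum_le_sum fun α _ => ?_
    rw [← Finset.sum_div, ← Finset.mul_sum, ← Nat.cast_sum]
    by_cases h : α = 0
    · subst h
      simp
      positivity
    · have h1 : (1 : ℝ) ≤ ((∑ i, α i : ℕ) : ℝ) := by exact_mod_cast hpos α h
      rw [div_le_iff₀ (by positivity)]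
      refine mul_le_mul_of_nonneg_left ?_ (sq_nonneg _)
      nlinarith

end Pool.Agent.KWG
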