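import Pool.Agent.Lib.MP_68391b_lc.Gen.GDefs

/-! Jets of the polynomial A. -/

set_option linter.unusedSectionVars false

namespace Pool.Agent.KWG

open MeasureTheory ProbabilityTheory MvPolynomial Pool.Agent.KWI

variable {ι : Type} [Fintype ι] [DecidableEq ι]

/-- The Hilbert-Schmidt norm of the derivative of order `k` at `x`. -/
noncomputable def jetN (x : ι → ℝ) (k : ℕ) (q : MvPolynomial ι ℝ) : ℝ := √(eval x (HS k q))

theorem jetN_nonneg (x : ι → ℝ) (k : ℕ) (q : MvPolynomial ι ℝ) : 0 ≤ jetN x k q :=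
  Real.sqrt_nonneg _

theorem jetN_sq (x : ι → ℝ) (k : ℕ) (q : MvPolynomial ι ℝ) :
    jetN x k q ^ 2 = eval x (HS k q) := Real.sq_sqrt (hs_nonneg k q x)

theorem jetN_zero_left (x : ι → ℝ) (q : MvPolynomial ι ℝ) : jetN x 0 q = |eval x q| := by
  unfold jetN
  simp only [HS, map_pow]
  exact Real.sqrt_sq_eq_abs _

theorem jetN_succ (x : ι → ℝ) (k : ℕ) (q : MvPolynomial ι ℝ) :
    jetN x (k + 1) q = √(∑ j, jetN x k (pderiv j q) ^ 2) := by
  simp only [jetN_sq]
  unfold jetN
  simp only [HS, map_sum]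

theorem jetN_add (x : ι → ℝ) (k : ℕ) (f g : MvPolynomial ι ℝ) :
    jetN x k (f + g) ≤ jetN x k f + jetN x k g := by
  induction k generalizing f g with
  | zero =>
    simp only [jetN_zero_left, map_add]
    exact abs_add_le _ _
  | succ k ih =>
    simp only [jetN_succ, map_add]
    refine le_trans (Real.sqrt_le_sqrt ?_) (mink2 Finset.univ _ _)
    refine Finset.sum_le_sum fun j _ => ?_
    exact pow_le_pow_left₀ (jetN_nonneg _ _ _) (ih _ _) 2

theorem jetN_zero (x : ι → ℝ) (k : ℕ) : jetN x k (0 : MvPolynomial ι ℝ) = 0 := by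
  induction k with
  | zero => simp [jetN_zero_left]
  | succ k ih => simp [jetN_succ, ih]

theorem jetN_sum (x : ι → ℝ) (k : ℕ) {κ : Type} (s : Finset κ) (f : κ → MvPolynomial ι ℝ) :
    jetN x k (∑ l ∈ s, f l) ≤ ∑ l ∈ s, jetN x k (f l) := by
  classical
  induction s using Finset.induction_on with
  | empty => simp [jetN_zero]
  | insert l s hl ih =>
    rw [Finset.sum_insert hl, Finset.sum_insert hl]
    exact (jetN_add _ _ _ _).trans (add_le_add le_rfl ih)

theorem jetN_C_mul (x : ι → ℝ) (k : ℕ) (c : ℝ) (f : MvPolynomial ι ℝ) :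
    jetN x k (C c * f) = |c| * jetN x k f := by
  induction k generalizing f with
  | zero => simp only [jetN_zero_left, map_mul, eval_C, abs_mul]
  | succ k ih =>
    have e : ∀ j, jetN x k (pderiv j (C c * f)) ^ 2 = c ^ 2 * jetN x k (pderiv j f) ^ 2 := by
      intro j
      rw [pderiv_C_mul, ih, mul_pow, sq_abs]
    simp only [jetN_succ, e]
    rw [← Finset.mul_sum, Real.sqrt_mul (sq_nonneg c), Real.sqrt_sq_eq_abs]

theorem jetN_C (x : ι → ℝ) (k : ℕ) (hk : 1 ≤ k) (c : ℝ) :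
    jetN x k (C c : MvPolynomial ι ℝ) = 0 := by
  obtain ⟨k, rfl⟩ : ∃ m, k = m + 1 := ⟨k - 1, by omega⟩
  simp [jetN_succ, jetN_zero]

theorem jetN_mul (x : ι → ℝ) (k : ℕ) (f g : MvPolynomial ι ℝ) :
    jetN x k (f * g) ≤ ∑ ab ∈ Finset.HasAntidiagonal.antidiagonal k,
      (k.choose ab.1 : ℝ) * (jetN x ab.1 f * jetN x ab.2 g) := by
  induction k generalizing f g with
  | zero =>
    simp [jetN_zero_left, abs_mul]
  | succ k ih =>
    rw [Finset.sum_antidiagonal_choose_succ_mul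
      (fun a b => jetN x a f * jetN x b g) k]
    rw [jetN_succ]
    have h1 : √(∑ j, jetN x k (pderiv j (f * g)) ^ 2) ≤
        √(∑ j, jetN x k (f * pderiv j g) ^ 2) + √(∑ j, jetN x k (pderiv j f * g) ^ 2) := by
      refine le_trans (Real.sqrt_le_sqrt ?_) (mink2 Finset.univ _ _)
      refine Finset.sum_le_sum fun j _ => ?_
      refine pow_le_pow_left₀ (jetN_nonneg _ _ _) ?_ 2
      have e : pderiv j (f * g) = f * pderiv j g + pderiv j f * g := by
        rw [Derivation.leibniz]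
        simp only [smul_eq_mul]
        ring
      rw [e]
      exact jetN_add _ _ _ _
    refine h1.trans (add_le_add ?_ ?_)
    · have h2 : √(∑ j, jetN x k (f * pderiv j g) ^ 2) ≤
          √(∑ j, (∑ ab ∈ Finset.HasAntidiagonal.antidiagonal k,
            (k.choose ab.1 : ℝ) * (jetN x ab.1 f * jetN x ab.2 (pderiv j g))) ^ 2) := by
        refine Real.sqrt_le_sqrt (Finset.sum_le_sum fun j _ => ?_)
        exact pow_le_pow_left₀ (jetN_nonneg _ _ _) (ih _ _) 2
      refine h2.trans ((minksum Finset.univ (Finset.HasAntidiagonal.antidiagonal k)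
        (fun ab j => (k.choose ab.1 : ℝ) * (jetN x ab.1 f * jetN x ab.2 (pderiv j g)))).trans ?_)
      refine le_of_eq (Finset.sum_congr rfl fun ab _ => ?_)
      have e : ∀ j, ((k.choose ab.1 : ℝ) * (jetN x ab.1 f * jetN x ab.2 (pderiv j g))) ^ 2 =
          ((k.choose ab.1 : ℝ) * jetN x ab.1 f) ^ 2 * jetN x ab.2 (pderiv j g) ^ 2 := by
        intro j; ring
      simp only [e]
      rw [← Finset.mul_sum, Real.sqrt_mul (sq_nonneg _), Real.sqrt_sq
        (mul_nonneg (Nat.cast_nonneg _) (jetN_nonneg _ _ _)), jetN_succ, mul_assoc]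
    · have h2 : √(∑ j, jetN x k (pderiv j f * g) ^ 2) ≤
          √(∑ j, (∑ ab ∈ Finset.HasAntidiagonal.antidiagonal k,
            (k.choose ab.1 : ℝ) * (jetN x ab.1 (pderiv j f) * jetN x ab.2 g)) ^ 2) := by
        refine Real.sqrt_le_sqrt (Finset.sum_le_sum fun j _ => ?_)
        exact pow_le_pow_left₀ (jetN_nonneg _ _ _) (ih _ _) 2
      refine h2.trans ((minksum Finset.univ (Finset.HasAntidiagonal.antidiagonal k)
        (fun ab j => (k.choose ab.1 : ℝ) * (jetN x ab.1 (pderiv j f) * jetN x ab.2 g))).trans ?_)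
      refine le_of_eq (Finset.sum_congr rfl fun ab hab => ?_)
      have hab' := Finset.HasAntidiagonal.mem_antidiagonal.1 hab
      have hc : (k.choose ab.1 : ℝ) = (k.choose ab.2 : ℝ) := by
        rw [← hab', Nat.choose_symm_add]
      have e : ∀ j, ((k.choose ab.1 : ℝ) * (jetN x ab.1 (pderiv j f) * jetN x ab.2 g)) ^ 2 =
          ((k.choose ab.2 : ℝ) * jetN x ab.2 g) ^ 2 * jetN x ab.1 (pderiv j f) ^ 2 := by
        intro j; rw [hc]; ring
      simp only [e]
      rw [← Finset.mul_sum, Real.sqrt_mul (sq_nonneg _), Real.sqrt_sq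
        (mul_nonneg (Nat.cast_nonneg _) (jetN_nonneg _ _ _)), jetN_succ]
      ring

theorem jetN_HS (x : ι → ℝ) (k i : ℕ) (q : MvPolynomial ι ℝ) :
    jetN x k (HS i q) ≤ ∑ ab ∈ Finset.HasAntidiagonal.antidiagonal k,
      (k.choose ab.1 : ℝ) * (jetN x (ab.1 + i) q * jetN x (ab.2 + i) q) := by
  induction i generalizing q with
  | zero =>
    have e : HS 0 q = q * q := by simp [HS, sq]
    rw [e]
    exact jetN_mul x k q q
  | succ i ih =>
    have e : HS (i + 1) q = ∑ j, HS i (pderiv j q) := rfl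
    rw [e]
    refine (jetN_sum x k _ _).trans ((Finset.sum_le_sum fun j _ => ih (pderiv j q)).trans ?_)
    rw [Finset.sum_comm]
    refine Finset.sum_le_sum fun ab _ => ?_
    rw [← Finset.mul_sum]
    refine mul_le_mul_of_nonneg_left ?_ (Nat.cast_nonneg _)
    rw [← add_assoc, ← add_assoc, jetN_succ, jetN_succ]
    exact Real.sum_mul_le_sqrt_mul_sqrt _ _ _

theorem jet_HS_zero (i : ℕ) : ∀ q : MvPolynomial ι ℝ, q.totalDegree < i → HS i q = 0 := by
  induction i with
  | zero => intro q hq; omega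
  | succ i ih =>
    intro q hq
    have e : HS (i + 1) q = ∑ j, HS i (pderiv j q) := rfl
    rw [e]
    refine Finset.sum_eq_zero fun j _ => ?_
    rcases Nat.eq_zero_or_pos i with h0 | h0
    · subst h0
      have hq0 : q = C (coeff 0 q) := totalDegree_eq_zero_iff_eq_C.1 (by omega)
      rw [hq0]
      simp [HS]
    · have := pderiv_deg j q
      exact ih _ (by omega)

theorem jetN_eq_zero (x : ι → ℝ) (i : ℕ) (q : MvPolynomial ι ℝ) (h : q.totalDegree < i) :
    jetN x i q = 0 := by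
  unfold jetN
  rw [jet_HS_zero i q h]
  simp

theorem jet_shift (d : ℕ) (a : ℕ) : ∀ u : ℕ → ℝ, (∀ i, 0 ≤ u i) → (∀ i, d < i → u i = 0) →
    ∑ i ∈ Finset.range (d + 1), u (a + i) ≤ ∑ i ∈ Finset.range (d + 1), u i := by
  induction a with
  | zero => intro u _ _; simp
  | succ a ih =>
    intro u hu h0
    have h1 := ih (fun i => u (i + 1)) (fun i => hu _) (fun i hi => h0 _ (by omega))
    have h2 : ∑ i ∈ Finset.range (d + 1), u (i + 1) ≤ ∑ i ∈ Finset.range (d + 1), u i := by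
      have h3 := Finset.sum_range_succ' u (d + 1)
      have h4 := Finset.sum_range_succ u (d + 1)
      have h5 := h0 (d + 1) (by omega)
      have h6 := hu 0
      linarith
    refine le_trans (le_of_eq ?_) (h1.trans h2)
    refine Finset.sum_congr rfl fun i _ => ?_
    congr 1
    omega

theorem jet_bound {d : ℕ} {ρ : ℝ} (hρ : 0 < ρ) (w : ℝ) (p : MvPolynomial ι ℝ)
    (hp : p.totalDegree ≤ d) (x : ι → ℝ) (k : ℕ) (hk : 1 ≤ k) :
    √(eval x (HS k (AP d ρ w p))) ≤ (2 / ρ) ^ k * eval x (AP d ρ w p) := by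
  change jetN x k (AP d ρ w p) ≤ _
  have hA : AP d ρ w p = ∑ i ∈ Finset.range (d + 1), C (ρ ^ (2 * i)) * HS i p + C (w ^ 2) := by
    rw [Finset.sum_range_succ']
    simp only [AP, VP, HS]
    simp
    ring
  have hev : ∑ i ∈ Finset.range (d + 1), (ρ ^ i * jetN x i p) ^ 2 ≤ eval x (AP d ρ w p) := by
    rw [hA]
    simp only [map_add, map_sum, map_mul, eval_C]
    have : ∀ i ∈ Finset.range (d + 1), (ρ ^ i * jetN x i p) ^ 2 =
        ρ ^ (2 * i) * eval x (HS i p) := by
      intro i _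
      rw [mul_pow, jetN_sq, ← pow_mul, mul_comm i 2]
    rw [Finset.sum_congr rfl this]
    have := sq_nonneg w
    linarith
  set n : ℕ → ℝ := fun i => ρ ^ i * jetN x i p with hn
  have hn0 : ∀ i, 0 ≤ n i := fun i => mul_nonneg (pow_nonneg hρ.le _) (jetN_nonneg _ _ _)
  have hnd : ∀ i, d < i → n i = 0 := by
    intro i hi
    simp only [hn]
    rw [jetN_eq_zero x i p (lt_of_le_of_lt hp hi), mul_zero]
  set S : ℝ := ∑ i ∈ Finset.range (d + 1), n i ^ 2 with hS
  have hShift : ∀ a, ∑ i ∈ Finset.range (d + 1), n (a + i) ^ 2 ≤ S := by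
    intro a
    exact jet_shift d a (fun i => n i ^ 2) (fun i => sq_nonneg _)
      (fun i hi => by simp only [hnd i hi]; norm_num)
  have hcross : ∀ a b, ∑ i ∈ Finset.range (d + 1), n (a + i) * n (b + i) ≤ S := by
    intro a b
    have h1 := hShift a
    have h2 := hShift b
    have h3 : ∑ i ∈ Finset.range (d + 1), n (a + i) * n (b + i) ≤
        ∑ i ∈ Finset.range (d + 1), (n (a + i) ^ 2 + n (b + i) ^ 2) / 2 := by
      refine Finset.sum_le_sum fun i _ => ?_
      nlinarith [sq_nonneg (n (a + i) - n (b + i))]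
    rw [← Finset.sum_div, Finset.sum_add_distrib] at h3
    linarith
  have h1 : jetN x k (AP d ρ w p) ≤
      ∑ i ∈ Finset.range (d + 1), ρ ^ (2 * i) * jetN x k (HS i p) := by
    rw [hA]
    refine (jetN_add _ _ _ _).trans ?_
    rw [jetN_C x k hk, add_zero]
    refine (jetN_sum _ _ _ _).trans (le_of_eq (Finset.sum_congr rfl fun i _ => ?_))
    rw [jetN_C_mul, abs_of_nonneg (pow_nonneg hρ.le _)]
  have h2 : ∑ i ∈ Finset.range (d + 1), ρ ^ (2 * i) * jetN x k (HS i p) ≤
      ∑ i ∈ Finset.range (d + 1), ∑ ab ∈ Finset.HasAntidiagonal.antidiagonal k,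
        (ρ ^ k)⁻¹ * ((k.choose ab.1 : ℝ) * (n (ab.1 + i) * n (ab.2 + i))) := by
    refine Finset.sum_le_sum fun i _ => ?_
    refine (mul_le_mul_of_nonneg_left (jetN_HS x k i p) (pow_nonneg hρ.le _)).trans ?_
    rw [Finset.mul_sum]
    refine le_of_eq (Finset.sum_congr rfl fun ab hab => ?_)
    have hab' := Finset.HasAntidiagonal.mem_antidiagonal.1 hab
    have hρk : ρ ^ k ≠ 0 := pow_ne_zero _ hρ.ne'
    rw [eq_inv_mul_iff_mul_eq₀ hρk]
    simp only [hn]
    have e : ρ ^ (ab.1 + i) * ρ ^ (ab.2 + i) = ρ ^ k * ρ ^ (2 * i) := by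
      rw [← pow_add, ← pow_add, ← hab']
      congr 1
      ring
    calc ρ ^ k * (ρ ^ (2 * i) * ((k.choose ab.1 : ℝ) *
          (jetN x (ab.1 + i) p * jetN x (ab.2 + i) p)))
        = (ρ ^ k * ρ ^ (2 * i)) * ((k.choose ab.1 : ℝ) *
          (jetN x (ab.1 + i) p * jetN x (ab.2 + i) p)) := by ring
      _ = _ := by rw [← e]; ring
  have h3 : ∑ i ∈ Finset.range (d + 1), ∑ ab ∈ Finset.HasAntidiagonal.antidiagonal k,
        (ρ ^ k)⁻¹ * ((k.choose ab.1 : ℝ) * (n (ab.1 + i) * n (ab.2 + i))) ≤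
      ∑ ab ∈ Finset.HasAntidiagonal.antidiagonal k, (ρ ^ k)⁻¹ * ((k.choose ab.1 : ℝ) * S) := by
    rw [Finset.sum_comm]
    refine Finset.sum_le_sum fun ab _ => ?_
    rw [← Finset.mul_sum, ← Finset.mul_sum]
    have := hcross ab.1 ab.2
    have hρk : 0 ≤ (ρ ^ k)⁻¹ := inv_nonneg.2 (pow_nonneg hρ.le _)
    gcongr
  have h4 : ∑ ab ∈ Finset.HasAntidiagonal.antidiagonal k, (ρ ^ k)⁻¹ * ((k.choose ab.1 : ℝ) * S) =
      (2 / ρ) ^ k * S := by
    rw [← Finset.mul_sum, ← Finset.sum_mul]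
    have h5 : ∑ ab ∈ Finset.HasAntidiagonal.antidiagonal k, (k.choose ab.1 : ℝ) = 2 ^ k := by
      rw [Finset.Nat.sum_antidiagonal_eq_sum_range_succ_mk]
      simp only
      have := Nat.sum_range_choose k
      exact_mod_cast this
    rw [h5, div_pow]
    ring
  have h6 : (2 / ρ) ^ k * S ≤ (2 / ρ) ^ k * eval x (AP d ρ w p) := by
    have : 0 ≤ (2 / ρ) ^ k := by positivity
    exact mul_le_mul_of_nonneg_left hev this
  exact (h1.trans h2).trans ((h3.trans (le_of_eq h4)).trans h6)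

end Pool.Agent.KWG
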