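import Pool.Agent.Lib.MP_68391b_lc.Gen.GHermE
import Pool.Agent.Lib.MP_68391b_lc.Gen.GIbp

/-! Multiplication of polynomials in the mean square norm. -/

set_option linter.unusedSectionVars false

namespace Pool.Agent.KWG

open MeasureTheory ProbabilityTheory MvPolynomial Pool.Agent.KWI

variable {ι : Type} [Fintype ι] [DecidableEq ι]

theorem mul_ibp (j : ι) (q : MvPolynomial ι ℝ) :
    ∫ x, eval x (pderiv j q) ∂(gam ι) = ∫ x, x j * eval x q ∂(gam ι) := by
  have h := ibp_exp (A := (0 : MvPolynomial ι ℝ)) (fun x => by simp) (le_refl (0 : ℝ)) j q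
  simpa [TD, Hx] using h

theorem mul_abs_mean (G : MvPolynomial ι ℝ) : |∫ x, eval x G ∂(gam ι)| ≤ n2 G := by
  have h := n2_cs G (C 1)
  rw [n2_C] at h
  simpa using h

theorem mul_step (j : ι) (g w H : MvPolynomial ι ℝ) :
    ∫ x, eval x ((X j * g - pderiv j g) * (w * H)) ∂(gam ι) =
      ∫ x, eval x (g * (pderiv j w * H)) ∂(gam ι) +
        ∫ x, eval x (g * (w * pderiv j H)) ∂(gam ι) := by
  have h1 := mul_ibp j (g * (w * H))
  have e1 : pderiv j (g * (w * H)) = pderiv j g * (w * H) + (g * (pderiv j w * H) +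
      g * (w * pderiv j H)) := by
    rw [Derivation.leibniz, Derivation.leibniz]
    simp only [smul_eq_mul]
    ring
  rw [e1] at h1
  have e2 : (fun x : ι → ℝ => eval x ((X j * g - pderiv j g) * (w * H))) =
      fun x => x j * eval x (g * (w * H)) - eval x (pderiv j g * (w * H)) := by
    funext x
    simp only [map_mul, map_sub, eval_X]
    ring
  have i1 : Integrable (fun x : ι → ℝ => x j * eval x (g * (w * H))) (gam ι) := by
    have := poly_integrable (X j * (g * (w * H)) : MvPolynomial ι ℝ)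
    simpa using this
  rw [e2, integral_sub i1 (poly_integrable _), ← h1]
  have e3 : (fun x : ι → ℝ => eval x (pderiv j g * (w * H) + (g * (pderiv j w * H) +
      g * (w * pderiv j H)))) = fun x => eval x (pderiv j g * (w * H)) +
        (eval x (g * (pderiv j w * H)) + eval x (g * (w * pderiv j H))) := by
    funext x
    simp only [map_add]
  have i2 : Integrable (fun x : ι → ℝ => eval x (g * (pderiv j w * H)) +
      eval x (g * (w * pderiv j H))) (gam ι) := (poly_integrable _).add (poly_integrable _)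
  rw [e3, integral_add (poly_integrable _) i2,
    integral_add (poly_integrable _) (poly_integrable _)]
  ring

theorem mul_cs_energy (m : ℕ) (q : MvPolynomial ι ℝ) (hq : q.totalDegree ≤ m)
    (g : ι → MvPolynomial ι ℝ) (M : ℝ) (hM : 0 ≤ M) (hg : ∑ j, n2 (g j) ^ 2 ≤ M ^ 2) :
    ∑ j, n2 (pderiv j q) * n2 (g j) ≤ √m * n2 q * M := by
  have h1 := Real.sum_mul_le_sqrt_mul_sqrt Finset.univ (fun j => n2 (pderiv j q))
    (fun j => n2 (g j))
  have h2 : √(∑ j, n2 (pderiv j q) ^ 2) ≤ √m * n2 q := by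
    rw [Real.sqrt_le_iff]
    refine ⟨mul_nonneg (Real.sqrt_nonneg _) (n2_nonneg _), ?_⟩
    rw [mul_pow, Real.sq_sqrt (Nat.cast_nonneg m)]
    exact herm_energy m q hq
  have h3 : √(∑ j, n2 (g j) ^ 2) ≤ M := by
    rw [Real.sqrt_le_iff]
    exact ⟨hM, hg⟩
  exact h1.trans (mul_le_mul h2 h3 (Real.sqrt_nonneg _)
    (mul_nonneg (Real.sqrt_nonneg _) (n2_nonneg _)))

theorem mul_trilinear (D : ℕ) : ∀ (m m' : ℕ) (G w H : MvPolynomial ι ℝ), G.totalDegree ≤ D →
    w.totalDegree ≤ m' → H.totalDegree ≤ m →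
    |∫ x, eval x (G * (w * H)) ∂(gam ι)| ≤
      (1 + √(m : ℝ) + √(m' : ℝ)) ^ D * (n2 w * n2 G * n2 H) := by
  induction D with
  | zero =>
    intro m m' G w H hG hw hH
    rw [pow_zero, one_mul]
    have hG0 : G = C (coeff 0 G) := totalDegree_eq_zero_iff_eq_C.1 (Nat.le_zero.1 hG)
    set c := coeff 0 G with hc
    rw [hG0, n2_C]
    have e1 : (fun x : ι → ℝ => eval x (C c * (w * H))) =
        fun x => c * (eval x w * eval x H) := by
      funext x
      simp only [map_mul, eval_C]
    rw [e1, integral_const_mul, abs_mul]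
    have h1 := n2_cs w H
    calc |c| * |∫ x, eval x w * eval x H ∂(gam ι)| ≤ |c| * (n2 w * n2 H) :=
          mul_le_mul_of_nonneg_left h1 (abs_nonneg _)
      _ = n2 w * |c| * n2 H := by ring
  | succ D ih =>
    intro m m' G w H hG hw hH
    obtain ⟨g, hg1, hg2, hg3⟩ := herm_decomp D G hG
    set c := ∫ x, eval x G ∂(gam ι) with hc
    set K : ℝ := 1 + √(m : ℝ) + √(m' : ℝ) with hK
    have hm := Real.sqrt_nonneg (m : ℝ)
    have hm' := Real.sqrt_nonneg (m' : ℝ)
    have hK1 : 1 ≤ K := by rw [hK]; linarith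
    have hKD : 1 ≤ K ^ D := one_le_pow₀ hK1
    have hnw := n2_nonneg w
    have hnG := n2_nonneg G
    have hnH := n2_nonneg H
    have e1 : ∫ x, eval x (G * (w * H)) ∂(gam ι) =
        c * (∫ x, eval x w * eval x H ∂(gam ι)) +
          ∑ j, (∫ x, eval x (g j * (pderiv j w * H)) ∂(gam ι) +
            ∫ x, eval x (g j * (w * pderiv j H)) ∂(gam ι)) := by
      have e2 : (fun x : ι → ℝ => eval x (G * (w * H))) = fun x =>
          c * (eval x w * eval x H) +
            ∑ j, eval x ((X j * g j - pderiv j (g j)) * (w * H)) := by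
        funext x
        conv_lhs => rw [hg2]
        rw [add_mul, Finset.sum_mul, map_add, map_sum]
        simp only [map_mul, eval_C]
      have i1 : Integrable (fun x : ι → ℝ => c * (eval x w * eval x H)) (gam ι) :=
        (poly_integrable_mul w H).const_mul c
      have i2 : ∀ j ∈ (Finset.univ : Finset ι), Integrable (fun x : ι → ℝ =>
          eval x ((X j * g j - pderiv j (g j)) * (w * H))) (gam ι) :=
        fun j _ => poly_integrable _
      rw [e2, integral_add i1 (integrable_finsetSum _ i2), integral_const_mul,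
        integral_finsetSum _ i2]
      congr 1
      exact Finset.sum_congr rfl fun j _ => mul_step j (g j) w H
    have b1 : |c * (∫ x, eval x w * eval x H ∂(gam ι))| ≤ n2 w * n2 G * n2 H := by
      rw [abs_mul]
      calc |c| * |∫ x, eval x w * eval x H ∂(gam ι)| ≤ n2 G * (n2 w * n2 H) :=
            mul_le_mul (mul_abs_mean G) (n2_cs w H) (abs_nonneg _) hnG
        _ = n2 w * n2 G * n2 H := by ring
    have b2 : ∀ j, |∫ x, eval x (g j * (pderiv j w * H)) ∂(gam ι)| ≤
        K ^ D * (n2 H * (n2 (pderiv j w) * n2 (g j))) := by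
      intro j
      refine (ih m m' (g j) (pderiv j w) H (hg1 j) ((pderiv_deg' j w).trans hw) hH).trans ?_
      exact le_of_eq (by ring)
    have b3 : ∀ j, |∫ x, eval x (g j * (w * pderiv j H)) ∂(gam ι)| ≤
        K ^ D * (n2 w * (n2 (pderiv j H) * n2 (g j))) := by
      intro j
      refine (ih m m' (g j) w (pderiv j H) (hg1 j) hw ((pderiv_deg' j H).trans hH)).trans ?_
      exact le_of_eq (by ring)
    have b4 : |∑ j, (∫ x, eval x (g j * (pderiv j w * H)) ∂(gam ι) +
            ∫ x, eval x (g j * (w * pderiv j H)) ∂(gam ι))| ≤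
        K ^ D * (n2 H * (√m' * n2 w * n2 G)) + K ^ D * (n2 w * (√m * n2 H * n2 G)) := by
      refine (Finset.abs_sum_le_sum_abs _ _).trans ?_
      have : ∀ j ∈ (Finset.univ : Finset ι), |(∫ x, eval x (g j * (pderiv j w * H)) ∂(gam ι) +
            ∫ x, eval x (g j * (w * pderiv j H)) ∂(gam ι))| ≤
            K ^ D * (n2 H * (n2 (pderiv j w) * n2 (g j))) +
              K ^ D * (n2 w * (n2 (pderiv j H) * n2 (g j))) := fun j _ =>
        (abs_add_le _ _).trans (add_le_add (b2 j) (b3 j))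
      refine (Finset.sum_le_sum this).trans ?_
      rw [Finset.sum_add_distrib, ← Finset.mul_sum, ← Finset.mul_sum, ← Finset.mul_sum,
        ← Finset.mul_sum]
      have c1 := mul_cs_energy m' w hw g (n2 G) hnG hg3
      have c2 := mul_cs_energy m H hH g (n2 G) hnG hg3
      gcongr
    rw [e1]
    refine (abs_add_le _ _).trans ((add_le_add b1 b4).trans ?_)
    have hP : 0 ≤ n2 w * n2 G * n2 H := by positivity
    calc n2 w * n2 G * n2 H + (K ^ D * (n2 H * (√m' * n2 w * n2 G)) +
          K ^ D * (n2 w * (√m * n2 H * n2 G)))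
        = 1 * (n2 w * n2 G * n2 H) + K ^ D * (√m + √m') * (n2 w * n2 G * n2 H) := by ring
      _ ≤ K ^ D * (n2 w * n2 G * n2 H) + K ^ D * (√m + √m') * (n2 w * n2 G * n2 H) := by
          gcongr
      _ = K ^ (D + 1) * (n2 w * n2 G * n2 H) := by rw [hK]; ring

theorem mul_bound (D m : ℕ) (G H : MvPolynomial ι ℝ) (hG : G.totalDegree ≤ D)
    (hH : H.totalDegree ≤ m) :
    n2 (G * H) ≤ (1 + 2 * √((D : ℝ) + m)) ^ D * n2 G * n2 H := by
  have hnG := n2_nonneg G
  have hnH := n2_nonneg H
  have hn := n2_nonneg (G * H)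
  have hdeg : (G * H).totalDegree ≤ D + m :=
    (totalDegree_mul G H).trans (add_le_add hG hH)
  have h1 := mul_trilinear D m (D + m) G (G * H) H hG hdeg hH
  have e1 : ∫ x, eval x (G * (G * H * H)) ∂(gam ι) = n2 (G * H) ^ 2 := by
    rw [n2_sq]
    congr 1
    funext x
    simp only [map_mul]
    ring
  rw [e1, abs_of_nonneg (sq_nonneg _)] at h1
  push_cast at h1
  have hm : √(m : ℝ) ≤ √((D : ℝ) + m) := by
    apply Real.sqrt_le_sqrt
    have : (0 : ℝ) ≤ D := Nat.cast_nonneg D
    linarith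
  have hK : 1 + √(m : ℝ) + √((D : ℝ) + m) ≤ 1 + 2 * √((D : ℝ) + m) := by linarith
  have hpow : (1 + √(m : ℝ) + √((D : ℝ) + m)) ^ D ≤ (1 + 2 * √((D : ℝ) + m)) ^ D := by
    gcongr
  have h2 : n2 (G * H) ^ 2 ≤ (1 + 2 * √((D : ℝ) + m)) ^ D * (n2 (G * H) * n2 G * n2 H) :=
    h1.trans (mul_le_mul_of_nonneg_right hpow (by positivity))
  rcases hn.eq_or_lt with h0 | h0
  · rw [← h0]
    positivity
  · have h3 : n2 (G * H) * n2 (G * H) ≤
        n2 (G * H) * ((1 + 2 * √((D : ℝ) + m)) ^ D * n2 G * n2 H) := by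
      calc n2 (G * H) * n2 (G * H) = n2 (G * H) ^ 2 := by ring
        _ ≤ _ := h2
        _ = _ := by ring
    exact le_of_mul_le_mul_left h3 h0

end Pool.Agent.KWG
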