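import Pool.Agent.Lib.MP_68391b_lc.Gen.GHermD

/-! The pointwise bound. -/

set_option linter.unusedSectionVars false

namespace Pool.Agent.KWG

open MeasureTheory ProbabilityTheory MvPolynomial Pool.Agent.KWI

variable {ι : Type} [Fintype ι] [DecidableEq ι]

theorem point_bd_integrable (q : MvPolynomial ι ℝ) (α : ι → ℕ) :
    Integrable (fun x : ι → ℝ => |eval x q * eval x (hp α)|) (gam ι) :=
  (poly_integrable_mul q (hp α)).abs

theorem point_cf_aesm (s : ℝ) (A q : MvPolynomial ι ℝ) (α : ι → ℕ) :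
    AEStronglyMeasurable (fun x : ι → ℝ => eval x q * Hx s A x * eval x (hp α)) (gam ι) :=
  (((eval_continuous q).mul (Hx_continuous s A)).mul (eval_continuous _)).aestronglyMeasurable

theorem point_cf_norm {A : MvPolynomial ι ℝ} (hA : ∀ x, 0 ≤ eval x A) (q : MvPolynomial ι ℝ)
    (α : ι → ℕ) {s : ℝ} (hs : 0 ≤ s) (x : ι → ℝ) :
    ‖eval x q * Hx s A x * eval x (hp α)‖ ≤ |eval x q * eval x (hp α)| := by
  rw [mul_right_comm, norm_mul, Real.norm_eq_abs, Real.norm_of_nonneg (Hx_pos s A x).le]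
  exact mul_le_of_le_one_right (abs_nonneg _) (Hx_le_one hs (hA x))

theorem point_cf_int {A : MvPolynomial ι ℝ} (hA : ∀ x, 0 ≤ eval x A) (q : MvPolynomial ι ℝ)
    (α : ι → ℕ) {s : ℝ} (hs : 0 ≤ s) :
    Integrable (fun x : ι → ℝ => eval x q * Hx s A x * eval x (hp α)) (gam ι) :=
  (point_bd_integrable q α).mono' (point_cf_aesm s A q α)
    (Filter.Eventually.of_forall fun x => point_cf_norm hA q α hs x)

theorem point_cf_cont {A : MvPolynomial ι ℝ} (hA : ∀ x, 0 ≤ eval x A) (q : MvPolynomial ι ℝ)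
    (α : ι → ℕ) : ContinuousOn (fun s : ℝ => cf s A q α) (Set.Ici 0) := by
  unfold cf
  refine continuousOn_of_dominated (bound := fun x => |eval x q * eval x (hp α)|)
    (fun s _ => point_cf_aesm s A q α)
    (fun s hs => Filter.Eventually.of_forall fun x => point_cf_norm hA q α hs x)
    (point_bd_integrable q α) (Filter.Eventually.of_forall fun x => ?_)
  unfold Hx
  fun_prop

theorem point_cf_deriv {A : MvPolynomial ι ℝ} (hA : ∀ x, 0 ≤ eval x A) (q : MvPolynomial ι ℝ)
    (α : ι → ℕ) {s : ℝ} (hs : 0 < s) :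
    HasDerivAt (fun u : ℝ => cf u A q α) (-cf s A (A * q) α) s := by
  have h := hasDerivAt_integral_of_dominated_loc_of_deriv_le (μ := gam ι)
    (F := fun u x => eval x q * Hx u A x * eval x (hp α))
    (F' := fun u x => -(eval x (A * q) * Hx u A x * eval x (hp α)))
    (x₀ := s) (s := Set.Ioi 0) (bound := fun x => |eval x (A * q) * eval x (hp α)|)
    (Ioi_mem_nhds hs)
    (Filter.Eventually.of_forall fun u => point_cf_aesm u A q α)
    (point_cf_int hA q α hs.le)
    (point_cf_aesm s A (A * q) α).neg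
    (Filter.Eventually.of_forall fun x u hu => ?_)
    (point_bd_integrable (A * q) α)
    (Filter.Eventually.of_forall fun x u hu => ?_)
  · have h2 := h.2
    rw [integral_neg] at h2
    exact h2
  · rw [norm_neg]
    exact point_cf_norm hA (A * q) α (le_of_lt hu) x
  · have h1 : HasDerivAt (fun u : ℝ => Hx u A x) (-(eval x A) * Hx u A x) u := by
      unfold Hx
      have h2 : HasDerivAt (fun u : ℝ => -(u * eval x A)) (-(1 * eval x A)) u :=
        ((hasDerivAt_id u).mul_const (eval x A)).neg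
      have h3 := h2.exp
      refine h3.congr_deriv ?_
      ring
    have h4 := (h1.const_mul (eval x q)).mul_const (eval x (hp α))
    refine h4.congr_deriv ?_
    rw [map_mul]
    ring

theorem point_eval_PT (N₀ : ℕ) (s : ℝ) (A q : MvPolynomial ι ℝ) (x : ι → ℝ) :
    eval x (PT N₀ s A q) =
      ∑ k ∈ Finset.range (N₀ + 1), ∑ α ∈ lev ι k, cf s A q α * eval x (hp α) := by
  simp only [PT, map_sum, map_mul, eval_C]

theorem point_PT_cont {A : MvPolynomial ι ℝ} (hA : ∀ x, 0 ≤ eval x A) (N₀ : ℕ)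
    (q : MvPolynomial ι ℝ) :
    ContinuousOn (fun z : ℝ × (ι → ℝ) => eval z.2 (PT N₀ z.1 A q)) (Set.Ici 0 ×ˢ Set.univ) := by
  simp only [point_eval_PT]
  refine continuousOn_finsetSum _ fun k _ => continuousOn_finsetSum _ fun α _ => ?_
  refine ContinuousOn.mul ?_ ?_
  · refine (point_cf_cont hA q α).comp continuous_fst.continuousOn ?_
    intro z hz
    exact hz.1
  · exact ((eval_continuous (hp α)).comp continuous_snd).continuousOn

theorem point_cont {A : MvPolynomial ι ℝ} (hA : ∀ x, 0 ≤ eval x A) (N₀ : ℕ) :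
    ContinuousOn (fun z : ℝ × (ι → ℝ) => eval z.2 (EE N₀ z.1 A)) (Set.Ici 0 ×ˢ Set.univ) := by
  simp only [EE, map_sub, map_mul]
  refine (point_PT_cont hA N₀ A).sub (ContinuousOn.mul ?_ (point_PT_cont hA N₀ 1))
  exact ((eval_continuous A).comp continuous_snd).continuousOn

theorem point_PT_cont1 {A : MvPolynomial ι ℝ} (hA : ∀ x, 0 ≤ eval x A) (N₀ : ℕ)
    (q : MvPolynomial ι ℝ) (x : ι → ℝ) :
    ContinuousOn (fun u : ℝ => eval x (PT N₀ u A q)) (Set.Ici 0) := by
  have h := (point_PT_cont hA N₀ q).comp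
    (f := fun u : ℝ => (u, x)) (s := Set.Ici 0) (by fun_prop)
    (fun u hu => ⟨hu, Set.mem_univ _⟩)
  exact h

theorem point_EE_cont1 {A : MvPolynomial ι ℝ} (hA : ∀ x, 0 ≤ eval x A) (N₀ : ℕ) (x : ι → ℝ) :
    ContinuousOn (fun u : ℝ => eval x (EE N₀ u A)) (Set.Ici 0) := by
  have h := (point_cont hA N₀).comp
    (f := fun u : ℝ => (u, x)) (s := Set.Ici 0) (by fun_prop)
    (fun u hu => ⟨hu, Set.mem_univ _⟩)
  exact h

theorem point_PT_deriv {A : MvPolynomial ι ℝ} (hA : ∀ x, 0 ≤ eval x A) (N₀ : ℕ) (x : ι → ℝ)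
    {s : ℝ} (hs : 0 < s) :
    HasDerivAt (fun u : ℝ => eval x (PT N₀ u A 1)) (-eval x (PT N₀ s A A)) s := by
  simp only [point_eval_PT]
  rw [← Finset.sum_neg_distrib]
  refine HasDerivAt.fun_sum fun k _ => ?_
  rw [← Finset.sum_neg_distrib]
  refine HasDerivAt.fun_sum fun α _ => ?_
  have h := (point_cf_deriv hA 1 α hs).mul_const (eval x (hp α))
  rw [mul_one, neg_mul] at h
  exact h

theorem point_PT_zero (A : MvPolynomial ι ℝ) (N₀ : ℕ) (x : ι → ℝ) :
    eval x (PT N₀ 0 A 1) = 1 := by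
  have h := hp_expand (ι := ι) N₀ 1 (by simp)
  have h2 : PT N₀ 0 A 1 = 1 := by
    refine Eq.trans ?_ h.symm
    unfold PT
    refine Finset.sum_congr rfl fun k _ => Finset.sum_congr rfl fun α _ => ?_
    congr 2
    unfold cf Hx
    simp
  rw [h2, map_one]

theorem point_bound {A : MvPolynomial ι ℝ} (hA : ∀ x, 0 ≤ eval x A) (N₀ : ℕ) {s : ℝ}
    (hs : 0 ≤ s) (x : ι → ℝ) :
    |Hx s A x - eval x (PT N₀ s A 1)| ≤ ∫ u in (0 : ℝ)..s, |eval x (EE N₀ u A)| := by
  set a : ℝ := eval x A with ha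
  have ha0 : 0 ≤ a := hA x
  have hsub : Set.Icc 0 s ⊆ Set.Ici (0 : ℝ) := fun u hu => hu.1
  have hEc : ContinuousOn (fun u : ℝ => eval x (EE N₀ u A)) (Set.Icc 0 s) :=
    (point_EE_cont1 hA N₀ x).mono hsub
  have hexp : Continuous fun u : ℝ => Real.exp (u * a) := by fun_prop
  have hint : IntervalIntegrable (fun u => eval x (EE N₀ u A) * Real.exp (u * a)) volume 0 s := by
    refine ContinuousOn.intervalIntegrable ?_
    rw [Set.uIcc_of_le hs]
    exact hEc.mul hexp.continuousOn
  have hcont : ContinuousOn (fun u => 1 - eval x (PT N₀ u A 1) * Real.exp (u * a))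
      (Set.Icc 0 s) :=
    continuousOn_const.sub
      (((point_PT_cont1 hA N₀ 1 x).mono hsub).mul hexp.continuousOn)
  have hder : ∀ u ∈ Set.Ioo 0 s, HasDerivAt
      (fun u => 1 - eval x (PT N₀ u A 1) * Real.exp (u * a))
      (eval x (EE N₀ u A) * Real.exp (u * a)) u := by
    intro u hu
    have h1 := point_PT_deriv hA N₀ x hu.1
    have h2 : HasDerivAt (fun u : ℝ => Real.exp (u * a)) (Real.exp (u * a) * (1 * a)) u :=
      ((hasDerivAt_id u).mul_const a).exp
    have h3 := (h1.mul h2).const_sub 1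
    refine h3.congr_deriv ?_
    have e1 : eval x (EE N₀ u A) = eval x (PT N₀ u A A) - a * eval x (PT N₀ u A 1) := by
      rw [EE, map_sub, map_mul]
    rw [e1]
    ring
  have hftc := intervalIntegral.integral_eq_sub_of_hasDerivAt_of_le hs hcont hder hint
  have h0 : (1 : ℝ) - eval x (PT N₀ 0 A 1) * Real.exp (0 * a) = 0 := by
    rw [point_PT_zero]; simp
  rw [h0, sub_zero] at hftc
  have hD : Hx s A x - eval x (PT N₀ s A 1) =
      Real.exp (-(s * a)) * ∫ u in (0 : ℝ)..s, eval x (EE N₀ u A) * Real.exp (u * a) := by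
    rw [hftc]
    unfold Hx
    rw [← ha, mul_sub, mul_one, mul_comm (eval x (PT N₀ s A 1)), ← mul_assoc, ← Real.exp_add]
    simp
  rw [hD, ← intervalIntegral.integral_const_mul]
  refine (intervalIntegral.abs_integral_le_integral_abs hs).trans ?_
  refine intervalIntegral.integral_mono_on hs ?_ ?_ ?_
  · exact (hint.const_mul _).abs
  · refine ContinuousOn.intervalIntegrable ?_
    rw [Set.uIcc_of_le hs]
    exact hEc.abs
  · intro u hu
    have e1 : Real.exp (-(s * a)) * (eval x (EE N₀ u A) * Real.exp (u * a)) =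
        eval x (EE N₀ u A) * Real.exp ((u - s) * a) := by
      rw [mul_left_comm, ← Real.exp_add]
      congr 2
      ring
    rw [e1, abs_mul, abs_of_pos (Real.exp_pos _)]
    refine mul_le_of_le_one_right (abs_nonneg _) ?_
    rw [Real.exp_le_one_iff]
    have : u - s ≤ 0 := by linarith [hu.2]
    exact mul_nonpos_of_nonpos_of_nonneg this ha0

end Pool.Agent.KWG
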