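import Pool.Agent.Lib.MP_68391b_lc.Gen.GDefs

/-! A weak type bound for the logarithmic derivative of a polynomial. -/

set_option linter.unusedSectionVars false

namespace Pool.Agent.KWG

open MeasureTheory ProbabilityTheory MvPolynomial Pool.Agent.KWI

variable {ι : Type} [Fintype ι] [DecidableEq ι]

/-- The logarithmic derivative of a polynomial with the roots `s`. -/
noncomputable def rootF (s : Multiset ℂ) (z : ℂ) : ℂ := (s.map (fun w => (z - w)⁻¹)).sum

theorem root_F_zero (z : ℂ) : rootF 0 z = 0 := by simp [rootF]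

theorem root_F_cons (a : ℂ) (s : Multiset ℂ) (z : ℂ) :
    rootF (a ::ₘ s) z = (z - a)⁻¹ + rootF s z := by simp [rootF]

theorem root_F_im (s : Multiset ℂ) (hs : ∀ w ∈ s, w.im < 0) {z : ℂ} (hz : 0 ≤ z.im) :
    (rootF s z).im ≤ 0 := by
  induction s using Multiset.induction_on with
  | empty => simp [root_F_zero]
  | cons a s ih =>
      rw [root_F_cons, Complex.add_im, Complex.inv_im]
      have h1 := ih (fun w hw => hs w (Multiset.mem_cons_of_mem hw))
      have ha := hs a (Multiset.mem_cons_self a s)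
      have h2 : -(z - a).im / Complex.normSq (z - a) ≤ 0 := by
        apply div_nonpos_of_nonpos_of_nonneg
        · rw [Complex.sub_im]
          linarith
        · exact Complex.normSq_nonneg _
      linarith

theorem root_ne {a z : ℂ} (ha : a.im < 0) (hz : 0 ≤ z.im) : z - a ≠ 0 := by
  intro h
  have := congrArg Complex.im h
  simp at this
  linarith

theorem root_F_diff (s : Multiset ℂ) (hs : ∀ w ∈ s, w.im < 0) {z : ℂ} (hz : 0 ≤ z.im) :
    DifferentiableAt ℂ (rootF s) z := by
  induction s using Multiset.induction_on with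
  | empty =>
      have : rootF 0 = fun _ => 0 := funext root_F_zero
      rw [this]
      exact differentiableAt_const _
  | cons a s ih =>
      have h1 := ih (fun w hw => hs w (Multiset.mem_cons_of_mem hw))
      have ha := hs a (Multiset.mem_cons_self a s)
      have : rootF (a ::ₘ s) = fun z => (z - a)⁻¹ + rootF s z := funext (root_F_cons a s)
      rw [this]
      have h2 : DifferentiableAt ℂ (fun z : ℂ => z - a) z :=
        differentiableAt_id.sub (differentiableAt_const a)
      exact (h2.inv (root_ne ha hz)).add h1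

open Filter Topology Bornology in
theorem root_F_lim (s : Multiset ℂ) : Tendsto (rootF s) (cobounded ℂ) (𝓝 0) := by
  induction s using Multiset.induction_on with
  | empty =>
      have : rootF 0 = fun _ => 0 := funext root_F_zero
      rw [this]
      exact tendsto_const_nhds
  | cons a s ih =>
      have : rootF (a ::ₘ s) = fun z => (z - a)⁻¹ + rootF s z := funext (root_F_cons a s)
      rw [this]
      have h1 : Tendsto (fun z : ℂ => (z - a)⁻¹) (cobounded ℂ) (𝓝 0) :=
        tendsto_inv₀_cobounded.comp (tendsto_sub_const_cobounded a)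
      simpa using h1.add ih

open Filter Topology Bornology in
theorem root_inv_lim (a : ℂ) : Tendsto (fun z : ℂ => z * (z - a)⁻¹) (cobounded ℂ) (𝓝 1) := by
  have h1 : Tendsto (fun z : ℂ => (z - a)⁻¹) (cobounded ℂ) (𝓝 0) :=
    tendsto_inv₀_cobounded.comp (tendsto_sub_const_cobounded a)
  have h2 : Tendsto (fun z : ℂ => 1 + a * (z - a)⁻¹) (cobounded ℂ) (𝓝 (1 + a * 0)) :=
    tendsto_const_nhds.add (tendsto_const_nhds.mul h1)
  rw [mul_zero, add_zero] at h2
  refine h2.congr' ?_
  have h3 : ∀ᶠ z : ℂ in cobounded ℂ, z - a ≠ 0 := by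
    have := (tendsto_sub_const_cobounded a).eventually (eventually_ne_cobounded (0 : ℂ))
    exact this
  filter_upwards [h3] with z hz
  field_simp
  ring

open Filter Topology Bornology in
theorem root_zF_lim (s : Multiset ℂ) :
    Tendsto (fun z => z * rootF s z) (cobounded ℂ) (𝓝 (Multiset.card s : ℂ)) := by
  induction s using Multiset.induction_on with
  | empty =>
      have : (fun z => z * rootF 0 z) = fun _ => 0 := by
        funext z
        rw [root_F_zero, mul_zero]
      rw [this]
      simp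
  | cons a s ih =>
      have : (fun z => z * rootF (a ::ₘ s) z) = fun z => z * (z - a)⁻¹ + z * rootF s z := by
        funext z
        rw [root_F_cons, mul_add]
      rw [this]
      have := (root_inv_lim a).add ih
      simpa [add_comm] using this

theorem root_frac {u : ℂ} (hu : 0 ≤ u.re) : 1 + u ≠ 0 ∧ 0 ≤ (u / (1 + u)).re ∧
    (1 ≤ ‖u‖ → 1 / 2 ≤ (u / (1 + u)).re) := by
  have h0 : 1 + u ≠ 0 := by
    intro h
    have := congrArg Complex.re h
    simp at this
    linarith
  have hpos : 0 < (1 + u.re) ^ 2 + u.im ^ 2 := by positivity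
  have e : (u / (1 + u)).re = (u.re * (1 + u.re) + u.im ^ 2) / ((1 + u.re) ^ 2 + u.im ^ 2) := by
    rw [Complex.div_re, Complex.normSq_apply]
    simp only [Complex.add_re, Complex.one_re, Complex.add_im, Complex.one_im, zero_add]
    rw [← add_div]
    congr 1
    · ring
    · ring
  refine ⟨h0, ?_, ?_⟩
  · rw [e]
    apply div_nonneg _ hpos.le
    positivity
  · intro hn
    have h1 : 1 ≤ u.re ^ 2 + u.im ^ 2 := by
      have h2 : 1 ≤ ‖u‖ ^ 2 := by nlinarith
      rw [← Complex.normSq_eq_norm_sq, Complex.normSq_apply] at h2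
      nlinarith
    rw [e, div_le_div_iff₀ (by norm_num) hpos]
    nlinarith

/-- The function to be integrated. -/
noncomputable def rootf (s : Multiset ℂ) (lam : ℝ) (z : ℂ) : ℂ :=
  (Complex.I * rootF s z / lam) / (1 + Complex.I * rootF s z / lam)

theorem root_u_re (s : Multiset ℂ) (hs : ∀ w ∈ s, w.im < 0) {lam : ℝ} (hl : 0 < lam) {z : ℂ}
    (hz : 0 ≤ z.im) : 0 ≤ (Complex.I * rootF s z / lam).re := by
  have h1 := root_F_im s hs hz
  rw [Complex.div_ofReal_re, Complex.mul_re, Complex.I_re, Complex.I_im, zero_mul, one_mul, zero_sub]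
  apply div_nonneg _ hl.le
  linarith

theorem root_f_diff (s : Multiset ℂ) (hs : ∀ w ∈ s, w.im < 0) {lam : ℝ} (hl : 0 < lam) {z : ℂ}
    (hz : 0 ≤ z.im) : DifferentiableAt ℂ (rootf s lam) z := by
  have h1 : DifferentiableAt ℂ (fun z => Complex.I * rootF s z / lam) z :=
    ((root_F_diff s hs hz).const_mul _).div_const _
  have h2 := (root_frac (root_u_re s hs hl hz)).1
  exact h1.div (h1.const_add 1) h2

open Filter Topology Bornology in
theorem root_zf_lim (s : Multiset ℂ) (lam : ℝ) :
    Tendsto (fun z => z * rootf s lam z) (cobounded ℂ)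
      (𝓝 (Complex.I * (Multiset.card s : ℂ) / lam)) := by
  have h1 : Tendsto (fun z => Complex.I * (z * rootF s z) / lam) (cobounded ℂ)
      (𝓝 (Complex.I * (Multiset.card s : ℂ) / lam)) :=
    ((root_zF_lim s).const_mul _).div_const _
  have h2 : Tendsto (fun z => 1 + Complex.I * rootF s z / lam) (cobounded ℂ)
      (𝓝 (1 + Complex.I * 0 / lam)) :=
    (((root_F_lim s).const_mul _).div_const _).const_add 1
  have h3 := h1.div h2 (by simp)
  simp only [mul_zero, zero_div, add_zero, div_one] at h3
  refine h3.congr ?_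
  intro z
  simp only [rootf, Pi.div_apply]
  ring

/-- The remainder. -/
noncomputable def rootg (s : Multiset ℂ) (lam : ℝ) (z : ℂ) : ℂ :=
  rootf s lam z - Complex.I * (Multiset.card s : ℂ) / lam * (z - (-Complex.I))⁻¹

theorem root_g_diff (s : Multiset ℂ) (hs : ∀ w ∈ s, w.im < 0) {lam : ℝ} (hl : 0 < lam) {z : ℂ}
    (hz : 0 ≤ z.im) : DifferentiableAt ℂ (rootg s lam) z := by
  have h1 := root_f_diff s hs hl hz
  have h2 : DifferentiableAt ℂ (fun z : ℂ => z - (-Complex.I)) z :=
    differentiableAt_id.sub (differentiableAt_const _)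
  have h3 := h2.inv (root_ne (a := -Complex.I) (by simp) hz)
  exact h1.sub (h3.const_mul _)

open Filter Topology Bornology in
theorem root_zg_lim (s : Multiset ℂ) (lam : ℝ) :
    Tendsto (fun z => z * rootg s lam z) (cobounded ℂ) (𝓝 0) := by
  have h1 := root_zf_lim s lam
  have h2 := (root_inv_lim (-Complex.I)).const_mul (Complex.I * (Multiset.card s : ℂ) / lam)
  have h3 := h1.sub h2
  rw [mul_one, sub_self] at h3
  refine h3.congr ?_
  intro z
  simp only [rootg]
  ring

theorem root_contour (s : Multiset ℂ) (hs : ∀ w ∈ s, w.im < 0) {lam : ℝ} (hl : 0 < lam)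
    {T M : ℝ} (hT : 0 < T) (hg : ∀ z : ℂ, T ≤ ‖z‖ → ‖rootg s lam z‖ ≤ M) :
    ‖∫ x : ℝ in (-T)..T, rootg s lam x‖ ≤ 4 * T * M := by
  have H : DifferentiableOn ℂ (rootg s lam)
      (Set.uIcc (-T : ℂ).re ((T : ℂ) + T * Complex.I).re ×ℂ
        Set.uIcc (-T : ℂ).im ((T : ℂ) + T * Complex.I).im) := by
    intro z hz
    rw [Complex.mem_reProdIm] at hz
    have h2 := hz.2
    simp only [Complex.neg_im, Complex.ofReal_im, neg_zero, Complex.add_im, Complex.mul_im,
      Complex.ofReal_re, Complex.I_im, mul_one, Complex.I_re, mul_zero, add_zero, zero_add] at h2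
    rw [Set.uIcc_of_le hT.le] at h2
    exact (root_g_diff s hs hl h2.1).differentiableWithinAt
  have h := Complex.integral_boundary_rect_eq_zero_of_differentiableOn (rootg s lam)
    (-T : ℂ) ((T : ℂ) + T * Complex.I) H
  simp only [Complex.neg_im, Complex.ofReal_im, neg_zero, Complex.add_im, Complex.mul_im,
      Complex.ofReal_re, Complex.I_im, mul_one, Complex.I_re, mul_zero, add_zero, zero_add,
      Complex.neg_re, Complex.add_re, Complex.mul_re, sub_zero, Complex.ofReal_zero, zero_mul,
      smul_eq_mul, sub_self, zero_sub] at h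
  have b1 : ‖∫ x : ℝ in (-T)..T, rootg s lam (x + T * Complex.I)‖ ≤ M * |T - -T| := by
    apply intervalIntegral.norm_integral_le_of_norm_le_const
    intro x _
    apply hg
    refine le_trans ?_ (Complex.abs_im_le_norm _)
    simp only [Complex.add_im, Complex.ofReal_im, Complex.mul_im, Complex.ofReal_re, Complex.I_im,
      mul_one, Complex.I_re, mul_zero, add_zero, zero_add]
    exact le_abs_self _
  have b2 : ‖∫ y : ℝ in (0:ℝ)..T, rootg s lam (T + y * Complex.I)‖ ≤ M * |T - 0| := by
    apply intervalIntegral.norm_integral_le_of_norm_le_const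
    intro x _
    apply hg
    refine le_trans ?_ (Complex.abs_re_le_norm _)
    simp only [Complex.add_re, Complex.ofReal_re, Complex.mul_re, Complex.I_re, mul_zero,
      Complex.ofReal_im, Complex.I_im, mul_one, sub_self, add_zero]
    exact le_abs_self _
  have b3 : ‖∫ y : ℝ in (0:ℝ)..T, rootg s lam (-T + y * Complex.I)‖ ≤ M * |T - 0| := by
    apply intervalIntegral.norm_integral_le_of_norm_le_const
    intro x _
    apply hg
    refine le_trans ?_ (Complex.abs_re_le_norm _)
    simp only [Complex.add_re, Complex.ofReal_re, Complex.mul_re, Complex.I_re, mul_zero,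
      Complex.ofReal_im, Complex.I_im, mul_one, sub_self, add_zero, Complex.neg_re, abs_neg]
    exact le_abs_self _
  have e1 : |T - -T| = 2 * T := by
    rw [sub_neg_eq_add, abs_of_pos (by linarith)]
    ring
  have e2 : |T - 0| = T := by rw [sub_zero, abs_of_pos hT]
  rw [e1] at b1
  rw [e2] at b2 b3
  push_cast at h
  have e3 : (∫ x : ℝ in (-T)..T, rootg s lam x) =
      (∫ x : ℝ in (-T)..T, rootg s lam (x + T * Complex.I)) -
      Complex.I * (∫ y : ℝ in (0:ℝ)..T, rootg s lam (T + y * Complex.I)) +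
      Complex.I * (∫ y : ℝ in (0:ℝ)..T, rootg s lam (-T + y * Complex.I)) := by
    linear_combination h
  rw [e3]
  refine (norm_add_le _ _).trans ?_
  refine (add_le_add (norm_sub_le _ _) le_rfl).trans ?_
  rw [norm_mul, norm_mul, Complex.norm_I, one_mul, one_mul]
  linarith

theorem root_cont (s : Multiset ℂ) (hs : ∀ w ∈ s, w.im < 0) {lam : ℝ} (hl : 0 < lam) :
    Continuous (fun x : ℝ => rootg s lam x) ∧ Continuous (fun x : ℝ => rootf s lam x) := by
  constructor
  · rw [continuous_iff_continuousAt]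
    intro x
    have h := (root_g_diff s hs hl (z := (x : ℂ)) (by simp)).continuousAt
    exact ContinuousAt.comp (f := fun x : ℝ => (x : ℂ)) (g := rootg s lam) h
      Complex.continuous_ofReal.continuousAt
  · rw [continuous_iff_continuousAt]
    intro x
    have h := (root_f_diff s hs hl (z := (x : ℂ)) (by simp)).continuousAt
    exact ContinuousAt.comp (f := fun x : ℝ => (x : ℂ)) (g := rootf s lam) h
      Complex.continuous_ofReal.continuousAt

theorem root_f_re (s : Multiset ℂ) (lam : ℝ) (x : ℝ) :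
    (rootf s lam x).re = (Multiset.card s : ℝ) / lam * (1 + x ^ 2)⁻¹ + (rootg s lam x).re := by
  have e : rootf s lam x = Complex.I * (Multiset.card s : ℂ) / lam * (x - (-Complex.I))⁻¹ +
      rootg s lam x := by
    simp only [rootg]
    ring
  rw [e, Complex.add_re]
  congr 1
  have h1 : Complex.I * (Multiset.card s : ℂ) / lam = Complex.I * (((Multiset.card s : ℝ) / lam : ℝ) : ℂ) := by
    push_cast
    ring
  rw [h1, Complex.mul_re, Complex.inv_re, Complex.inv_im]
  simp only [Complex.mul_re, Complex.mul_im, Complex.I_re, Complex.I_im, Complex.ofReal_re,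
    Complex.ofReal_im, Complex.normSq_apply, Complex.sub_re, Complex.sub_im, Complex.neg_re,
    Complex.neg_im]
  ring

theorem root_integral (s : Multiset ℂ) (hs : ∀ w ∈ s, w.im < 0) {lam : ℝ} (hl : 0 < lam)
    {T M : ℝ} (hT : 0 < T) (hg : ∀ z : ℂ, T ≤ ‖z‖ → ‖rootg s lam z‖ ≤ M) :
    ∫ x : ℝ in (-T)..T, (rootf s lam x).re ≤
      Real.pi * (Multiset.card s : ℝ) / lam + 4 * T * M := by
  obtain ⟨cg, -⟩ := root_cont s hs hl
  have h1 : ∫ x : ℝ in (-T)..T, (rootf s lam x).re =
      (∫ x : ℝ in (-T)..T, (Multiset.card s : ℝ) / lam * (1 + x ^ 2)⁻¹) +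
        ∫ x : ℝ in (-T)..T, (rootg s lam x).re := by
    rw [← intervalIntegral.integral_add]
    · exact intervalIntegral.integral_congr (fun x _ => root_f_re s lam x)
    · apply Continuous.intervalIntegrable
      have : ∀ x : ℝ, 1 + x ^ 2 ≠ 0 := fun x => by positivity
      fun_prop (disch := exact this)
    · apply Continuous.intervalIntegrable
      exact Complex.continuous_re.comp cg
  have h2 : ∫ x : ℝ in (-T)..T, (rootg s lam x).re = (∫ x : ℝ in (-T)..T, rootg s lam x).re := by
    have := Complex.reCLM.intervalIntegral_comp_comm (μ := volume)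
      (cg.intervalIntegrable (-T) T)
    simpa using this
  rw [h1, h2, intervalIntegral.integral_const_mul, integral_inv_one_add_sq]
  have h3 := root_contour s hs hl hT hg
  have h4 := (Complex.abs_re_le_norm (∫ x : ℝ in (-T)..T, rootg s lam x)).trans h3
  have h5 := (le_abs_self _).trans h4
  have h6 := Real.arctan_lt_pi_div_two T
  have h7 := Real.neg_pi_div_two_lt_arctan (-T)
  have h8 : (Multiset.card s : ℝ) / lam * (Real.arctan T - Real.arctan (-T)) ≤
      (Multiset.card s : ℝ) / lam * Real.pi := by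
    apply mul_le_mul_of_nonneg_left _ (by positivity)
    linarith
  have h9 : (Multiset.card s : ℝ) / lam * Real.pi = Real.pi * (Multiset.card s : ℝ) / lam := by ring
  linarith

theorem root_vol_T (s : Multiset ℂ) (hs : ∀ w ∈ s, w.im < 0) {lam : ℝ} (hl : 0 < lam)
    {T M : ℝ} (hT : 0 < T) (hg : ∀ z : ℂ, T ≤ ‖z‖ → ‖rootg s lam z‖ ≤ M) :
    volume ({t : ℝ | lam < ‖rootF s t‖} ∩ Set.Ioc (-T) T) ≤
      ENNReal.ofReal (2 * (Real.pi * (Multiset.card s : ℝ) / lam + 4 * T * M)) := by
  obtain ⟨-, cf⟩ := root_cont s hs hl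
  have cre : Continuous (fun x : ℝ => (rootf s lam x).re) := Complex.continuous_re.comp cf
  have hnn : ∀ x : ℝ, 0 ≤ (rootf s lam x).re := fun x =>
    (root_frac (root_u_re s hs hl (z := (x : ℂ)) (by simp))).2.1
  have h1 := mul_meas_ge_le_integral_of_nonneg (μ := volume.restrict (Set.Ioc (-T) T))
    (f := fun x : ℝ => (rootf s lam x).re) (Filter.Eventually.of_forall hnn)
    (cre.integrableOn_Ioc) (1 / 2)
  rw [← intervalIntegral.integral_of_le (by linarith)] at h1
  have h2 := root_integral s hs hl hT hg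
  have hmeas : MeasurableSet {x : ℝ | 1 / 2 ≤ (rootf s lam x).re} :=
    measurableSet_le measurable_const cre.measurable
  have h3 : volume ({t : ℝ | lam < ‖rootF s t‖} ∩ Set.Ioc (-T) T) ≤
      (volume.restrict (Set.Ioc (-T) T)) {x : ℝ | 1 / 2 ≤ (rootf s lam x).re} := by
    rw [Measure.restrict_apply hmeas]
    apply measure_mono
    rintro x ⟨hx, hx'⟩
    refine ⟨?_, hx'⟩
    refine (root_frac (root_u_re s hs hl (z := (x : ℂ)) (by simp))).2.2 ?_
    have hx2 : lam < ‖rootF s x‖ := hx
    rw [norm_div, norm_mul, Complex.norm_I, one_mul, Complex.norm_real, Real.norm_eq_abs,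
      abs_of_pos hl, le_div_iff₀ hl]
    linarith
  refine h3.trans ?_
  rw [ENNReal.le_ofReal_iff_toReal_le]
  · have h4 : (volume.restrict (Set.Ioc (-T) T)).real {x : ℝ | 1 / 2 ≤ (rootf s lam x).re} =
      ((volume.restrict (Set.Ioc (-T) T)) {x : ℝ | 1 / 2 ≤ (rootf s lam x).re}).toReal := rfl
    rw [← h4]
    linarith
  · rw [Measure.restrict_apply hmeas]
    refine ne_top_of_le_ne_top ?_ (measure_mono Set.inter_subset_right)
    simp
  · have := intervalIntegral.integral_nonneg (μ := volume) (a := -T) (b := T) (by linarith)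
      (fun x _ => hnn x)
    linarith

open Filter Topology Bornology in
theorem root_vol_eps (s : Multiset ℂ) (hs : ∀ w ∈ s, w.im < 0) {lam : ℝ} (hl : 0 < lam)
    {ε : ℝ} (hε : 0 < ε) :
    volume {t : ℝ | lam < ‖rootF s t‖} ≤
      ENNReal.ofReal (2 * (Real.pi * (Multiset.card s : ℝ) / lam + 4 * ε)) := by
  have h1 : ∀ᶠ z in cobounded ℂ, ‖z * rootg s lam z‖ < ε := by
    have := (root_zg_lim s lam).norm
    rw [norm_zero] at this
    exact this.eventually (gt_mem_nhds hε)
  rw [← comap_norm_atTop, eventually_comap, eventually_atTop] at h1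
  obtain ⟨T0, hT0⟩ := h1
  have key : ∀ T : ℝ, 0 < T → T0 ≤ T →
      volume ({t : ℝ | lam < ‖rootF s t‖} ∩ Set.Ioc (-T) T) ≤
      ENNReal.ofReal (2 * (Real.pi * (Multiset.card s : ℝ) / lam + 4 * ε)) := by
    intro T hT hT'
    have h2 := root_vol_T s hs hl (M := ε / T) hT (by
      intro z hz
      have h3 := hT0 ‖z‖ (hT'.trans hz) z rfl
      rw [norm_mul] at h3
      rw [le_div_iff₀ hT]
      calc ‖rootg s lam z‖ * T ≤ ‖rootg s lam z‖ * ‖z‖ :=
            mul_le_mul_of_nonneg_left hz (norm_nonneg _)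
        _ = ‖z‖ * ‖rootg s lam z‖ := mul_comm _ _
        _ ≤ ε := h3.le)
    have e : 4 * T * (ε / T) = 4 * ε := by field_simp
    rwa [e] at h2
  have hU : {t : ℝ | lam < ‖rootF s t‖} =
      ⋃ k : ℕ, ({t : ℝ | lam < ‖rootF s t‖} ∩ Set.Ioc (-(k : ℝ)) k) := by
    rw [← Set.inter_iUnion]
    symm
    rw [Set.inter_eq_left]
    intro t _
    rw [Set.mem_iUnion]
    obtain ⟨k, hk⟩ := exists_nat_gt |t|
    rw [abs_lt] at hk
    exact ⟨k, hk.1, hk.2.le⟩
  have hmono : Monotone (fun k : ℕ => {t : ℝ | lam < ‖rootF s t‖} ∩ Set.Ioc (-(k : ℝ)) k) := by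
    intro i j hij
    apply Set.inter_subset_inter_right
    have : (i : ℝ) ≤ j := by exact_mod_cast hij
    exact Set.Ioc_subset_Ioc (by linarith) this
  rw [hU, hmono.measure_iUnion]
  apply iSup_le
  intro k
  refine le_trans (measure_mono ?_) (key (max (max (k : ℝ) 1) T0) ?_ (le_max_right _ _))
  · apply Set.inter_subset_inter_right
    have h5 : (k : ℝ) ≤ max (max (k : ℝ) 1) T0 := (le_max_left _ _).trans (le_max_left _ _)
    exact Set.Ioc_subset_Ioc (by linarith) h5
  · exact lt_of_lt_of_le one_pos ((le_max_right _ _).trans (le_max_left _ _))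

theorem root_vol_strict (s : Multiset ℂ) (hs : ∀ w ∈ s, w.im < 0) {lam : ℝ} (hl : 0 < lam) :
    volume {t : ℝ | lam < ‖rootF s t‖} ≤
      ENNReal.ofReal (2 * (Real.pi * (Multiset.card s : ℝ) / lam)) := by
  have h1 : ∀ ε : ℝ, 0 < ε → volume {t : ℝ | lam < ‖rootF s t‖} ≤
      ENNReal.ofReal (2 * (Real.pi * (Multiset.card s : ℝ) / lam) + ε) := by
    intro ε hε
    have := root_vol_eps s hs hl (ε := ε / 8) (by positivity)
    have e : 2 * (Real.pi * (Multiset.card s : ℝ) / lam + 4 * (ε / 8)) =
        2 * (Real.pi * (Multiset.card s : ℝ) / lam) + ε := by ring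
    rwa [e] at this
  have hfin : volume {t : ℝ | lam < ‖rootF s t‖} ≠ ⊤ :=
    ne_top_of_le_ne_top ENNReal.ofReal_ne_top (h1 1 one_pos)
  have hnn : 0 ≤ 2 * (Real.pi * (Multiset.card s : ℝ) / lam) := by
    have := Real.pi_pos
    positivity
  rw [ENNReal.le_ofReal_iff_toReal_le hfin hnn]
  apply le_of_forall_pos_le_add
  intro ε hε
  exact ENNReal.toReal_le_of_le_ofReal (by linarith) (h1 ε hε)

open Filter Topology in
theorem root_vol (s : Multiset ℂ) (hs : ∀ w ∈ s, w.im ≤ 0) {lam : ℝ} (hl : 0 < lam) :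
    volume {t : ℝ | lam < ‖rootF s t‖} ≤
      ENNReal.ofReal (2 * (Real.pi * (Multiset.card s : ℝ) / lam)) := by
  classical
  let sk : ℕ → Multiset ℂ := fun k => s.map (fun w => w - Complex.I * ((1 : ℝ) / (k + 1) : ℝ))
  have hsk : ∀ k, ∀ w ∈ sk k, w.im < 0 := by
    intro k w hw
    obtain ⟨w', hw', rfl⟩ := Multiset.mem_map.1 hw
    have h1 := hs w' hw'
    have h2 : (0 : ℝ) < 1 / ((k : ℝ) + 1) := by positivity
    simp only [Complex.sub_im, Complex.mul_im, Complex.I_re, Complex.I_im, Complex.ofReal_re,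
      Complex.ofReal_im, zero_mul, one_mul, zero_add]
    linarith
  have hcard : ∀ k, Multiset.card (sk k) = Multiset.card s := fun k => Multiset.card_map _ _
  have hlim : ∀ t : ℝ, (t : ℂ) ∉ s → Tendsto (fun k => rootF (sk k) t) atTop (𝓝 (rootF s t)) := by
    intro t ht
    have gen : ∀ s' : Multiset ℂ, (t : ℂ) ∉ s' → Tendsto (fun k : ℕ => rootF (s'.map
        (fun w => w - Complex.I * ((1 : ℝ) / ((k : ℝ) + 1) : ℝ))) t) atTop (𝓝 (rootF s' t)) := by
      intro s'
      induction s' using Multiset.induction_on with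
      | empty =>
          intro _
          simp only [Multiset.map_zero, root_F_zero]
          exact tendsto_const_nhds
      | cons a s' ih =>
          intro hta
          have h1 := ih (fun h => hta (Multiset.mem_cons_of_mem h))
          have h2 : (t : ℂ) - a ≠ 0 := by
            intro h
            apply hta
            rw [sub_eq_zero] at h
            rw [h]
            exact Multiset.mem_cons_self a s'
          simp only [Multiset.map_cons, root_F_cons]
          have h3 : Tendsto (fun k : ℕ => ((((1 : ℝ) / ((k : ℝ) + 1) : ℝ)) : ℂ)) atTop (𝓝 ((0 : ℝ) : ℂ)) :=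
            (Complex.continuous_ofReal.tendsto 0).comp tendsto_one_div_add_atTop_nhds_zero_nat
          have h4 : Tendsto (fun k : ℕ => (t : ℂ) - (a - Complex.I * ((1 : ℝ) / ((k : ℝ) + 1) : ℝ)))
              atTop (𝓝 ((t : ℂ) - (a - Complex.I * ((0 : ℝ) : ℂ)))) :=
            tendsto_const_nhds.sub (tendsto_const_nhds.sub (tendsto_const_nhds.mul h3))
          rw [Complex.ofReal_zero, mul_zero, sub_zero] at h4
          exact (h4.inv₀ h2).add h1
    exact gen s ht
  have hsub : {t : ℝ | lam < ‖rootF s t‖} ⊆ {t : ℝ | (t : ℂ) ∈ s} ∪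
      ⋃ N : ℕ, ⋂ k : ℕ, {t : ℝ | lam < ‖rootF (sk (N + k)) t‖} := by
    intro t ht
    by_cases hts : (t : ℂ) ∈ s
    · exact Or.inl hts
    · right
      have h1 := (hlim t hts).norm.eventually (lt_mem_nhds ht)
      obtain ⟨N, hN⟩ := eventually_atTop.1 h1
      rw [Set.mem_iUnion]
      refine ⟨N, ?_⟩
      rw [Set.mem_iInter]
      intro k
      exact hN (N + k) (Nat.le_add_right _ _)
  have hfin : volume {t : ℝ | (t : ℂ) ∈ s} = 0 := by
    apply Set.Finite.measure_zero
    have h1 : {t : ℝ | (t : ℂ) ∈ s} = (fun t : ℝ => (t : ℂ)) ⁻¹' (s.toFinset : Set ℂ) := by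
      ext t
      simp
    rw [h1]
    exact Set.Finite.preimage (Complex.ofReal_injective.injOn) (Finset.finite_toSet _)
  have hmono : Monotone (fun N : ℕ => ⋂ k : ℕ, {t : ℝ | lam < ‖rootF (sk (N + k)) t‖}) := by
    intro i j hij t ht
    rw [Set.mem_iInter] at ht ⊢
    intro k
    have := ht (j - i + k)
    have e : i + (j - i + k) = j + k := by omega
    rwa [e] at this
  refine (measure_mono hsub).trans ?_
  refine (measure_union_le _ _).trans ?_
  rw [hfin, zero_add, hmono.measure_iUnion]
  apply iSup_le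
  intro N
  refine le_trans (measure_mono (Set.iInter_subset _ 0)) ?_
  have := root_vol_strict (sk (N + 0)) (hsk _) hl
  rwa [hcard] at this

theorem root_conj (s : Multiset ℂ) (t : ℝ) :
    ‖rootF (s.map (starRingEnd ℂ)) t‖ = ‖rootF s t‖ := by
  have e : rootF (s.map (starRingEnd ℂ)) t = starRingEnd ℂ (rootF s t) := by
    induction s using Multiset.induction_on with
    | empty => simp [root_F_zero]
    | cons a s ih =>
        rw [Multiset.map_cons, root_F_cons, root_F_cons, map_add, ih, map_inv₀, map_sub,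
          Complex.conj_ofReal]
  rw [e, Complex.norm_conj]

theorem root1d (m : ℕ) (R : Polynomial ℝ) (hR : R.natDegree ≤ m) {η : ℝ} (hη : 0 < η) :
    volume {t : ℝ | |R.eval t| < η * |R.derivative.eval t|} ≤
      ENNReal.ofReal (20 * m * η) := by
  classical
  by_cases hR0 : R = 0
  · subst hR0
    simp
  let P : Polynomial ℂ := R.map (algebraMap ℝ ℂ)
  have hP : P.Splits := IsAlgClosed.splits P
  have hev : ∀ t : ℝ, P.eval (t : ℂ) = ((R.eval t : ℝ) : ℂ) := by
    intro t
    show (R.map (algebraMap ℝ ℂ)).eval ((algebraMap ℝ ℂ) t) = _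
    rw [Polynomial.eval_map, Polynomial.eval₂_at_apply]
    rfl
  have hev' : ∀ t : ℝ, P.derivative.eval (t : ℂ) = ((R.derivative.eval t : ℝ) : ℂ) := by
    intro t
    show (R.map (algebraMap ℝ ℂ)).derivative.eval ((algebraMap ℝ ℂ) t) = _
    rw [Polynomial.derivative_map, Polynomial.eval_map, Polynomial.eval₂_at_apply]
    rfl
  let s1 := P.roots.filter (fun w => w.im ≤ 0)
  let s2 := P.roots.filter (fun w => ¬ w.im ≤ 0)
  have hs12 : s1 + s2 = P.roots := Multiset.filter_add_not _ _
  have hcard : Multiset.card s1 + Multiset.card s2 ≤ m := by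
    rw [← Multiset.card_add, hs12]
    refine (Polynomial.card_roots' P).trans ?_
    exact (Polynomial.natDegree_map_le).trans hR
  have hsub : {t : ℝ | |R.eval t| < η * |R.derivative.eval t|} ⊆
      {t : ℝ | R.IsRoot t} ∪ ({t : ℝ | 1 / (2 * η) < ‖rootF s1 t‖} ∪
        {t : ℝ | 1 / (2 * η) < ‖rootF (s2.map (starRingEnd ℂ)) t‖}) := by
    intro t ht
    by_cases h0 : R.eval t = 0
    · exact Or.inl h0
    · right
      have ht' : |R.eval t| < η * |R.derivative.eval t| := ht
      have hPt : P.eval (t : ℂ) ≠ 0 := by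
        rw [hev]
        exact_mod_cast h0
      have h1 := hP.eval_derivative_div_eval_of_ne_zero hPt
      have h2 : rootF P.roots t = rootF s1 t + rootF s2 t := by
        rw [← hs12]
        simp [rootF]
      have h3 : rootF P.roots t = ((R.derivative.eval t : ℝ) : ℂ) / ((R.eval t : ℝ) : ℂ) := by
        rw [← hev, ← hev', h1]
        simp [rootF]
      have h4 : 1 / η < ‖rootF P.roots t‖ := by
        rw [h3, norm_div, Complex.norm_real, Complex.norm_real, Real.norm_eq_abs, Real.norm_eq_abs,
          div_lt_div_iff₀ hη (abs_pos.2 h0)]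
        linarith
      rw [h2] at h4
      have h5 := h4.trans_le (norm_add_le _ _)
      have h6 : 1 / η = 1 / (2 * η) + 1 / (2 * η) := by
        field_simp
        norm_num
      by_contra hcon
      rw [Set.mem_union, not_or] at hcon
      obtain ⟨c1, c2⟩ := hcon
      have c1' : ‖rootF s1 t‖ ≤ 1 / (2 * η) := not_lt.1 c1
      have c2' : ‖rootF (s2.map (starRingEnd ℂ)) t‖ ≤ 1 / (2 * η) := not_lt.1 c2
      rw [root_conj] at c2'
      linarith
  have hz : volume {t : ℝ | R.IsRoot t} = 0 :=
    Set.Finite.measure_zero (Polynomial.finite_setOf_isRoot hR0) _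
  have hl : 0 < 1 / (2 * η) := by positivity
  have v1 := root_vol s1 (fun w hw => (Multiset.mem_filter.1 hw).2) hl
  have v2 := root_vol (s2.map (starRingEnd ℂ)) (by
    intro w hw
    obtain ⟨w', hw', rfl⟩ := Multiset.mem_map.1 hw
    have := (Multiset.mem_filter.1 hw').2
    rw [Complex.conj_im]
    linarith) hl
  rw [Multiset.card_map] at v2
  refine (measure_mono hsub).trans ?_
  refine (measure_union_le _ _).trans ?_
  rw [hz, zero_add]
  refine (measure_union_le _ _).trans ?_
  refine (add_le_add v1 v2).trans ?_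
  have hpi := Real.pi_pos
  rw [← ENNReal.ofReal_add (by positivity) (by positivity)]
  apply ENNReal.ofReal_le_ofReal
  have e : 2 * (Real.pi * (Multiset.card s1 : ℝ) / (1 / (2 * η))) +
      2 * (Real.pi * (Multiset.card s2 : ℝ) / (1 / (2 * η))) =
      4 * Real.pi * η * ((Multiset.card s1 : ℝ) + Multiset.card s2) := by
    field_simp
    ring
  rw [e]
  have hc : (Multiset.card s1 : ℝ) + Multiset.card s2 ≤ m := by exact_mod_cast hcard
  have hpi4 := Real.pi_le_four
  have hm : (0 : ℝ) ≤ m := Nat.cast_nonneg m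
  calc 4 * Real.pi * η * ((Multiset.card s1 : ℝ) + Multiset.card s2)
      ≤ 4 * Real.pi * η * m := mul_le_mul_of_nonneg_left hc (by positivity)
    _ ≤ 4 * 4 * η * m := by
        apply mul_le_mul_of_nonneg_right _ hm
        apply mul_le_mul_of_nonneg_right _ hη.le
        linarith
    _ ≤ 20 * m * η := by nlinarith [mul_nonneg hm hη.le]

end Pool.Agent.KWG
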